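import Pool.Agent.LibLV7.Defs
import Pool.Agent.LibKS44.D1

/-!
# [LV7 C0] matrix congruences (pattern: LibKS44/D1.lean, the same three lemmas for the monoid `D1 ℓ`)

PLAN. Everything with integral matrices; `d1_pow` of LibKS44.D1 (import it) gives
`(1 + A)^n = 1 + n A + q B` if `A * A = q • N2`.
(a) `powq`: by induction `h ^ (ℓ ^ k) = 1 + (N ℓ ^ (k + 1)) • C` for all `k` (`k = 0`: the hypothesis; step: `A = (N ℓ^(k+1)) • C`,
`A * A = (N ℓ^(k+2)) • (..)` because `k + 1 + k + 1 ≥ k + 2`, `(1 + A) ^ ℓ = 1 + ℓ A + (N ℓ^(k+2)) B`); then `N ℓ ^ r ∣ N ℓ ^ (r + 1)`.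
(b) `normq`: `det g` is prime to `N ℓ`, hence to `N ℓ ^ (r + 1)`; `d' * det g + b * (N ℓ ^ (r + 1)) = 1`; `h' = d' • (adj g * h * g)`:
`g h' = (d' det g) • (h g)`, so `h g ≡ g h'` modulo `N ℓ ^ r` (`N ℓ ^ r ∣ N ℓ ^ (r+1)`). `h' ≡ d' • (adj g * g) = (d' det g) • 1 ≡ 1` modulo `N ℓ`
(write `h = 1 + (N ℓ) • A`). `det h' = d'² (det g)² det h` is prime to `N ℓ` (`d'` is).
(c) `quotq`: `d'` for `det h`, `k = d' • (adj h * g)`, `h k = (d' det h) • g ≡ g`; `g = h + (N ℓ) • A`: `k ≡ (d' det h) • 1 ≡ 1` modulo `N ℓ`;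
`det k = d'² det h det g`.
-/

set_option autoImplicit false

open Matrix
open scoped MatrixGroups

namespace LV7

open KS44

private theorem C0_mat {m : ℤ} {g h : Mat} (h1 : ∀ i j, m ∣ g i j - h i j) :
    ∃ A : Mat, g = h + m • A := by
  choose A hA using h1
  refine ⟨Matrix.of A, ?_⟩
  ext i j
  rw [Matrix.add_apply, Matrix.smul_apply, Matrix.of_apply, smul_eq_mul, ← hA]
  ring

private theorem C0_pow {N ℓ : ℕ} {h A : Mat} (hA : h = 1 + ((N * ℓ : ℕ) : ℤ) • A) (k : ℕ) :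
    ∃ C : Mat, h ^ (ℓ ^ k) = 1 + ((N * ℓ ^ (k + 1) : ℕ) : ℤ) • C := by
  induction k with
  | zero => exact ⟨A, by rw [pow_zero, pow_one, zero_add, pow_one, hA]⟩
  | succ k ih =>
    obtain ⟨C, hC⟩ := ih
    have hN : (((N * ℓ ^ (k + 1) : ℕ) : ℤ) • C) * (((N * ℓ ^ (k + 1) : ℕ) : ℤ) • C) =
        ((N * ℓ ^ (k + 1 + 1) : ℕ) : ℤ) • (((N * ℓ ^ k : ℕ) : ℤ) • (C * C)) := by
      rw [smul_mul_assoc, mul_smul_comm, smul_smul, smul_smul]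
      congr 1
      push_cast
      ring
    obtain ⟨B, hB⟩ := d1_pow _ _ _ hN ℓ
    refine ⟨C + B, ?_⟩
    have e : (ℓ : ℤ) * ((N * ℓ ^ (k + 1) : ℕ) : ℤ) = ((N * ℓ ^ (k + 1 + 1) : ℕ) : ℤ) := by
      push_cast
      ring
    rw [pow_succ ℓ k, pow_mul, hC, hB, smul_smul, e, smul_add, ← add_assoc]

theorem powq {N ℓ : ℕ} (hl : ℓ.Prime) (r : ℕ) {h : Mat} (h1 : ∀ i j, ((N * ℓ : ℕ) : ℤ) ∣ h i j - (1 : Mat) i j)
    (i j : Fin 2) : ((N * ℓ ^ r : ℕ) : ℤ) ∣ (h ^ (ℓ ^ r)) i j - (1 : Mat) i j := by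
  obtain ⟨A, hA⟩ := C0_mat h1
  obtain ⟨C, hC⟩ := C0_pow hA r
  rw [hC, Matrix.add_apply, Matrix.smul_apply, smul_eq_mul]
  refine ⟨ℓ * C i j, ?_⟩
  push_cast
  ring

theorem normq {N ℓ : ℕ} (hl : ℓ.Prime) (r : ℕ) {g h : Mat} (hg : g ∈ Dq (N * ℓ)) (hh : h ∈ Dq (N * ℓ))
    (h1 : ∀ i j, ((N * ℓ : ℕ) : ℤ) ∣ h i j - (1 : Mat) i j) :
    ∃ h' ∈ Dq (N * ℓ), (∀ i j, ((N * ℓ : ℕ) : ℤ) ∣ h' i j - (1 : Mat) i j) ∧
      ∀ i j, ((N * ℓ ^ r : ℕ) : ℤ) ∣ (h * g) i j - (g * h') i j := by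
  obtain ⟨A, hA⟩ := C0_mat h1
  have hgc : IsCoprime g.det ((N * ℓ : ℕ) : ℤ) := hg
  have hhc : IsCoprime h.det ((N * ℓ : ℕ) : ℤ) := hh
  obtain ⟨a, b, hab⟩ := (IsCoprime.pow_right (n := r + 1) hgc)
  have hac : IsCoprime a ((N * ℓ : ℕ) : ℤ) :=
    ⟨g.det, b * ((N * ℓ : ℕ) : ℤ) ^ r, by rw [← hab]; ring⟩
  have e3 : a * g.det = 1 - b * ((N * ℓ : ℕ) : ℤ) ^ (r + 1) := by linear_combination hab
  refine ⟨a • (g.adjugate * h * g), ?_, ?_, ?_⟩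
  · change IsCoprime (a • (g.adjugate * h * g)).det ((N * ℓ : ℕ) : ℤ)
    rw [Matrix.det_smul, Matrix.det_mul, Matrix.det_mul, d1_det_adj]
    exact (hac.pow_left).mul_left ((hgc.mul_left hhc).mul_left hgc)
  · intro i j
    have e1 : a • (g.adjugate * h * g) = (a * g.det) • (1 : Mat) +
        ((N * ℓ : ℕ) : ℤ) • (a • (g.adjugate * A * g)) := by
      rw [hA, mul_add, mul_one, add_mul, Matrix.adjugate_mul, smul_add, smul_smul, mul_smul_comm,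
        smul_mul_assoc, smul_comm a]
    rw [e1, Matrix.add_apply, Matrix.smul_apply, Matrix.smul_apply, smul_eq_mul, smul_eq_mul, e3]
    refine ⟨(a • (g.adjugate * A * g)) i j - b * ((N * ℓ : ℕ) : ℤ) ^ r * (1 : Mat) i j, ?_⟩
    ring
  · intro i j
    have e2 : g * (a • (g.adjugate * h * g)) = (a * g.det) • (h * g) := by
      rw [mul_smul_comm, mul_assoc g.adjugate h g, ← mul_assoc g g.adjugate,
        Matrix.mul_adjugate, smul_mul_assoc, one_mul, smul_smul]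
    rw [e2, Matrix.smul_apply, smul_eq_mul, e3]
    refine ⟨b * N ^ r * ℓ * (h * g) i j, ?_⟩
    push_cast
    ring

theorem quotq {N ℓ : ℕ} (hl : ℓ.Prime) (r : ℕ) {g h : Mat} (hg : g ∈ Dq (N * ℓ)) (hh : h ∈ Dq (N * ℓ))
    (h1 : ∀ i j, ((N * ℓ : ℕ) : ℤ) ∣ g i j - h i j) :
    ∃ k ∈ Dq (N * ℓ), (∀ i j, ((N * ℓ : ℕ) : ℤ) ∣ k i j - (1 : Mat) i j) ∧
      ∀ i j, ((N * ℓ ^ r : ℕ) : ℤ) ∣ (h * k) i j - g i j := by
  obtain ⟨A, hA⟩ := C0_mat h1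
  have hgc : IsCoprime g.det ((N * ℓ : ℕ) : ℤ) := hg
  have hhc : IsCoprime h.det ((N * ℓ : ℕ) : ℤ) := hh
  obtain ⟨a, b, hab⟩ := (IsCoprime.pow_right (n := r + 1) hhc)
  have hac : IsCoprime a ((N * ℓ : ℕ) : ℤ) :=
    ⟨h.det, b * ((N * ℓ : ℕ) : ℤ) ^ r, by rw [← hab]; ring⟩
  have e3 : a * h.det = 1 - b * ((N * ℓ : ℕ) : ℤ) ^ (r + 1) := by linear_combination hab
  refine ⟨a • (h.adjugate * g), ?_, ?_, ?_⟩
  · change IsCoprime (a • (h.adjugate * g)).det ((N * ℓ : ℕ) : ℤ)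
    rw [Matrix.det_smul, Matrix.det_mul, d1_det_adj]
    exact (hac.pow_left).mul_left (hhc.mul_left hgc)
  · intro i j
    have e1 : a • (h.adjugate * g) = (a * h.det) • (1 : Mat) +
        ((N * ℓ : ℕ) : ℤ) • (a • (h.adjugate * A)) := by
      rw [hA, mul_add, Matrix.adjugate_mul, smul_add, smul_smul, mul_smul_comm, smul_comm a]
    rw [e1, Matrix.add_apply, Matrix.smul_apply, Matrix.smul_apply, smul_eq_mul, smul_eq_mul, e3]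
    refine ⟨(a • (h.adjugate * A)) i j - b * ((N * ℓ : ℕ) : ℤ) ^ r * (1 : Mat) i j, ?_⟩
    ring
  · intro i j
    have e2 : h * (a • (h.adjugate * g)) = (a * h.det) • g := by
      rw [mul_smul_comm, ← mul_assoc h h.adjugate, Matrix.mul_adjugate, smul_mul_assoc,
        one_mul, smul_smul]
    rw [e2, Matrix.smul_apply, smul_eq_mul, e3]
    refine ⟨-(b * N ^ r * ℓ * g i j), ?_⟩
    push_cast
    ring

end LV7
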