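import Pool.Agent.LibLV7.C0

/-!
# [LV7 C1] a nonzero submodule of level `N ℓ`  (pattern: LibKS44/D2.lean, `fix`; almost a copy)

PLAN. `V = {v : ∀ h ∈ Dq (N ℓ), h ≡ 1 modulo N ℓ → elq h • v = v}`.
(1) `V ≠ 0`: the permutations `m ↦ elq h • m` of `M`, `h ≡ 1` modulo `N ℓ`, form a subgroup `U` of `Equiv.Perm M`, all of whose elements
satisfy `x ^ (ℓ ^ r) = 1` (`powq`, `Lev`): `IsPGroup ℓ U`; `ℓ ∣ Nat.card M`;
`IsPGroup.exists_fixed_point_of_prime_dvd_card_of_fixed_point`.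
(2) `V` is a submodule: `elq h • elq g • v = elq (h g) • v = elq (g h') • v = elq g • v` (`normq`, `Lev`).
(3) `Lev .. (N ℓ) V`: `quotq`. See `fix` in LibKS44/D2.lean: the same proof with the congruences replaced. `r = 0` is allowed.
-/

set_option autoImplicit false

open Matrix
open scoped MatrixGroups

namespace LV7

open KS44

private theorem C1_mul {q : ℕ} {g h : Dq q} (hg : ∀ i j, (q : ℤ) ∣ g.1 i j - (1 : Mat) i j)
    (hh : ∀ i j, (q : ℤ) ∣ h.1 i j - (1 : Mat) i j) (i j : Fin 2) :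
    (q : ℤ) ∣ (g * h).1 i j - (1 : Mat) i j := by
  have e : (g * h).1 i j - (1 : Mat) i j =
      ∑ t, (g.1 i t - (1 : Mat) i t) * h.1 t j + (h.1 i j - (1 : Mat) i j) := by
    have e1 : ∑ t, (1 : Mat) i t * h.1 t j = h.1 i j := by
      rw [← Matrix.mul_apply, one_mul]
    change (g.1 * h.1) i j - (1 : Mat) i j = _
    rw [Matrix.mul_apply]
    simp only [sub_mul, Finset.sum_sub_distrib]
    rw [e1]
    ring
  rw [e]
  exact dvd_add (Finset.dvd_sum fun t _ => Dvd.dvd.mul_right (hg i t) _) (hh i j)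

private theorem C1_pow {q : ℕ} {h : Dq q} (hh : ∀ i j, (q : ℤ) ∣ h.1 i j - (1 : Mat) i j)
    (n : ℕ) : ∀ i j, (q : ℤ) ∣ (h ^ n).1 i j - (1 : Mat) i j := by
  induction n with
  | zero => intro i j; simp
  | succ n ih =>
    rw [pow_succ]
    exact C1_mul ih hh

theorem fixq {N ℓ : ℕ} (hl : ℓ.Prime) (r : ℕ) (M : Type) [AddCommGroup M] [Module (Rq (N * ℓ) ℓ) M] [Finite M]
    [Nontrivial M] (hC : Lev (N * ℓ) ℓ (N * ℓ ^ r) M) :
    ∃ V : Submodule (Rq (N * ℓ) ℓ) M, V ≠ ⊥ ∧ Lev (N * ℓ) ℓ (N * ℓ) V := by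
  classical
  have := Fact.mk hl
  have : NeZero ℓ := ⟨hl.ne_zero⟩
  have hpos : 0 < ℓ ^ r := pow_pos hl.pos r
  -- `ℓ` kills `M`
  have hkill : ∀ m : M, ℓ • m = 0 := by
    intro m
    rw [← Nat.cast_smul_eq_nsmul (Rq (N * ℓ) ℓ) ℓ m]
    have h0 : ((ℓ : ℕ) : Rq (N * ℓ) ℓ) = 0 := by
      rw [← map_natCast (algebraMap (ZMod ℓ) (Rq (N * ℓ) ℓ)) ℓ, ZMod.natCast_self, map_zero]
    rw [h0, zero_smul]
  have hone : ∀ m : M, elq (N * ℓ) ℓ 1 • m = m := fun m => by rw [map_one, one_smul]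
  have hpow : ∀ h : Dq (N * ℓ), (∀ i j, ((N * ℓ : ℕ) : ℤ) ∣ h.1 i j - (1 : Mat) i j) →
      ∀ m : M, elq (N * ℓ) ℓ (h ^ ℓ ^ r) • m = m := by
    intro h hh m
    rw [hC (h ^ ℓ ^ r) 1 (fun i j => ?_) m, hone]
    exact powq hl r hh i j
  -- the group
  let U : Subgroup (Equiv.Perm M) :=
    { carrier := {x | ∃ h : Dq (N * ℓ), (∀ i j, ((N * ℓ : ℕ) : ℤ) ∣ h.1 i j - (1 : Mat) i j) ∧
        ∀ m, x m = elq (N * ℓ) ℓ h • m}
      one_mem' := ⟨1, fun i j => by simp, fun m => by rw [hone]; rfl⟩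
      mul_mem' := by
        rintro x y ⟨g, hg, hx⟩ ⟨h, hh, hy⟩
        refine ⟨g * h, C1_mul hg hh, fun m => ?_⟩
        rw [Equiv.Perm.mul_apply, hx, hy, map_mul, mul_smul]
      inv_mem' := by
        rintro x ⟨h, hh, hx⟩
        refine ⟨h ^ (ℓ ^ r - 1), C1_pow hh _, fun m => ?_⟩
        rw [Equiv.Perm.inv_eq_iff_eq, hx, ← mul_smul, ← map_mul, ← pow_succ',
          Nat.sub_add_cancel hpos, hpow h hh] }
  have hUpow : ∀ (x : Equiv.Perm M) (h : Dq (N * ℓ)), (∀ m, x m = elq (N * ℓ) ℓ h • m) →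
      ∀ (n : ℕ) (m : M), (x ^ n) m = elq (N * ℓ) ℓ (h ^ n) • m := by
    intro x h hx n
    induction n with
    | zero => intro m; rw [pow_zero, pow_zero, hone]; rfl
    | succ n ih =>
      intro m
      rw [pow_succ', pow_succ', Equiv.Perm.mul_apply, hx, ih, map_mul, mul_smul]
  have hP : IsPGroup ℓ U := by
    rintro ⟨x, h, hh, hx⟩
    refine ⟨r, Subtype.ext (Equiv.ext fun m => ?_)⟩
    change (x ^ ℓ ^ r) m = m
    rw [hUpow x h hx, hpow h hh]
  have hcard : ℓ ∣ Nat.card M := by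
    obtain ⟨m, hm⟩ := exists_ne (0 : M)
    have h1 : addOrderOf m = ℓ := addOrderOf_eq_prime (hkill m) hm
    rw [← h1]
    exact addOrderOf_dvd_natCard m
  have h0 : (0 : M) ∈ MulAction.fixedPoints U M := by
    rintro ⟨x, h, hh, hx⟩
    change x 0 = 0
    rw [hx, smul_zero]
  obtain ⟨b, hb, hb0⟩ := hP.exists_fixed_point_of_prime_dvd_card_of_fixed_point M hcard h0
  have hfix : ∀ h : Dq (N * ℓ), (∀ i j, ((N * ℓ : ℕ) : ℤ) ∣ h.1 i j - (1 : Mat) i j) →
      elq (N * ℓ) ℓ h • b = b := by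
    intro h hh
    let x : Equiv.Perm M :=
      { toFun := fun m => elq (N * ℓ) ℓ h • m
        invFun := fun m => elq (N * ℓ) ℓ (h ^ (ℓ ^ r - 1)) • m
        left_inv := fun m => by
          change elq (N * ℓ) ℓ (h ^ (ℓ ^ r - 1)) • elq (N * ℓ) ℓ h • m = m
          rw [← mul_smul, ← map_mul, ← pow_succ, Nat.sub_add_cancel hpos, hpow h hh]
        right_inv := fun m => by
          change elq (N * ℓ) ℓ h • elq (N * ℓ) ℓ (h ^ (ℓ ^ r - 1)) • m = m
          rw [← mul_smul, ← map_mul, ← pow_succ', Nat.sub_add_cancel hpos, hpow h hh] }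
    exact hb ⟨x, h, hh, fun m => rfl⟩
  -- the submodule
  let V₀ : AddSubgroup M :=
    { carrier := {v | ∀ h : Dq (N * ℓ), (∀ i j, ((N * ℓ : ℕ) : ℤ) ∣ h.1 i j - (1 : Mat) i j) →
        elq (N * ℓ) ℓ h • v = v}
      zero_mem' := fun h _ => smul_zero _
      add_mem' := fun {x y} hx hy h hh => by rw [smul_add, hx h hh, hy h hh]
      neg_mem' := fun {x} hx h hh => by rw [smul_neg, hx h hh] }
  have hVel : ∀ (g : Dq (N * ℓ)), ∀ v ∈ V₀, elq (N * ℓ) ℓ g • v ∈ V₀ := by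
    intro g v hv h hh
    obtain ⟨h', hh', h1', hcong⟩ := normq hl r g.2 h.2 hh
    rw [← mul_smul, ← map_mul, hC (h * g) (g * ⟨h', hh'⟩) hcong v, map_mul, mul_smul,
      hv ⟨h', hh'⟩ h1']
  let V : Submodule (Rq (N * ℓ) ℓ) M :=
    { carrier := V₀
      zero_mem' := V₀.zero_mem
      add_mem' := fun {x y} hx hy => V₀.add_mem hx hy
      smul_mem' := by
        intro c v hv
        induction c using MonoidAlgebra.induction_on with
        | of g => exact hVel g v hv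
        | add x y hx hy =>
          rw [add_smul]
          exact V₀.add_mem hx hy
        | smul a x hx =>
          have e : a • x = a.val • x := by
            conv_lhs => rw [← ZMod.natCast_zmod_val a]
            rw [Nat.cast_smul_eq_nsmul]
          rw [e, smul_assoc]
          exact V₀.nsmul_mem hx _ }
  refine ⟨V, ?_, ?_⟩
  · intro hbot
    have : b ∈ V := fun h hh => hfix h hh
    rw [hbot, Submodule.mem_bot] at this
    exact hb0 this.symm
  · rintro g h hgh ⟨v, hv⟩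
    apply Subtype.ext
    change elq (N * ℓ) ℓ g • v = elq (N * ℓ) ℓ h • v
    obtain ⟨k, hk, hk1, hcong⟩ := quotq hl r g.2 h.2 hgh
    rw [← hC (h * ⟨k, hk⟩) g hcong v, map_mul, mul_smul]
    congr 1
    exact hv ⟨k, hk⟩ hk1

end LV7
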