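import Pool.Agent.LibLV7.G2

/-!
# [KS G3] from `ℤ` to a field of characteristic zero

PROOF. `u` a cocycle with values in `K ^ ι`, `D u = ∂ m`. Let `C` be the additive subgroup of `K` generated by the finitely many
coordinates of `u S`, `u T` and `m`. By `coc_range` all `u g` have coordinates in `C`. `C` is a finitely generated torsion free
`ℤ`-module (`K` has characteristic `0`), so it has a finite basis `b : Basis (Fin r) ℤ C` (`Module.finBasis`/`Module.Free.chooseBasis`). Let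
`φ_k = b.coord k : C →+ ℤ` and `u' : SL(2, ℤ) → ι → C`, `m' : ι → C` the lifts. `u'` is a cocycle (`coc_of_map` for the inclusion `C →+ K`), `D u' = ∂ m'`
(`dsc_coeff`, injectivity of the inclusion), `u_k = φ_k ∘ u'` is a cocycle in `ℤ ^ ι` and `D u_k = ∂ (φ_k ∘ m')` (`coc_map`, `dsc_coeff`, `act_map`). By `int_level` (`N = 1`)
there are `N_k ≠ 0`, `n_k ∈ ℤ ^ ι` with `N_k u_k = ∂ n_k`. Then `u g i = ∑ k, (u_k g i : K) * b_k` and so
`u = ∂ (∑ k, (b_k / N_k) n_k)` in `K ^ ι` (`act` is `K`-linear: `act_map` for multiplication by an element of `K`). QED.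
-/

set_option autoImplicit false

open Matrix
open scoped MatrixGroups

namespace LV7

open KS44

variable {ι : Type} [Fintype ι] [DecidableEq ι] {ℓ q p : ℕ} {ρ : Mat → Matrix ι ι ℤ}

theorem field_level (hl : ℓ.Prime) (hρ : MRep q ρ) (cop : IsCoprime (p : ℤ) (q : ℤ)) {I : Type} [Fintype I]
    {α : I → Mat} (hα : IsReps p α) (n : ℤ)
    (hmod : Inj (ι → ZMod ℓ) (TG hρ cop hα (ZMod ℓ)) (SG hρ cop (ZMod ℓ)) n)
    (K : Type) [Field K] [CharZero K] : Inj (ι → K) (TG hρ cop hα K) (SG hρ cop K) n := by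
  intro u hu hd
  obtain ⟨m, hm⟩ := hd
  let s : Set K := Set.range (u ModularGroup.S) ∪ Set.range (u ModularGroup.T) ∪ Set.range m
  have hs : s.Finite :=
    ((Set.finite_range _).union (Set.finite_range _)).union (Set.finite_range _)
  let C : Submodule ℤ K := Submodule.span ℤ s
  have : Module.Finite ℤ C := Module.Finite.span_of_finite ℤ hs
  let b := Module.finBasis ℤ C
  have hS : ∀ i, u ModularGroup.S i ∈ C.toAddSubgroup := fun i =>
    Submodule.subset_span (Or.inl (Or.inl ⟨i, rfl⟩))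
  have hT : ∀ i, u ModularGroup.T i ∈ C.toAddSubgroup := fun i =>
    Submodule.subset_span (Or.inl (Or.inr ⟨i, rfl⟩))
  have hmC : ∀ i, m i ∈ C := fun i => Submodule.subset_span (Or.inr ⟨i, rfl⟩)
  have huC : ∀ g i, u g i ∈ C := coc_range hρ C.toAddSubgroup hu hS hT
  let u' : SL(2, ℤ) → ι → C := fun g i => ⟨u g i, huC g i⟩
  let m' : ι → C := fun i => ⟨m i, hmC i⟩
  let inc : C →+ K := C.subtype.toAddMonoidHom
  have hinc : Function.Injective inc := Subtype.val_injective
  have hu' : Coc (jG hρ C) (ι → C) u' := coc_of_map hρ inc hinc hu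
  have h1 := dsc_coeff hρ cop hα n inc u'
  have hD' : ∀ g i, dsc (TG hρ cop hα C) (SG hρ cop C) n u' g i
      = act ρ C (g : Mat) m' i - m' i := by
    intro g i
    apply hinc
    have h2 : inc (dsc (TG hρ cop hα C) (SG hρ cop C) n u' g i)
        = dsc (TG hρ cop hα K) (SG hρ cop K) n u g i :=
      (congrFun (congrFun h1 g) i).symm
    have h3 : dsc (TG hρ cop hα K) (SG hρ cop K) n u g i = act ρ K (g : Mat) m i - m i :=
      congrFun (hm g) i
    have h4 : act ρ K (g : Mat) m i = inc (act ρ C (g : Mat) m' i) :=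
      congrFun (act_map (ρ := ρ) inc (g : Mat) m') i
    rw [h2, h3, h4, map_sub]
    rfl
  have key : ∀ k, ∃ N : ℤ, N ≠ 0 ∧ ∃ nk : ι → ℤ, ∀ g i,
      N * (b.coord k (u' g i)) = act ρ ℤ (g : Mat) nk i - nk i := by
    intro k
    let φ : C →+ ℤ := (b.coord k).toAddMonoidHom
    have hk : Coc (jG hρ ℤ) (ι → ℤ) (fun g i => φ (u' g i)) := coc_map hρ φ hu'
    have h2 := dsc_coeff hρ cop hα n φ u'
    have h3 : ∃ N : ℤ, N ≠ 0 ∧ Cob (jG hρ ℤ) (ι → ℤ)
        (fun g => N • dsc (TG hρ cop hα ℤ) (SG hρ cop ℤ) n (fun g i => φ (u' g i)) g) := by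
      refine ⟨1, one_ne_zero, fun i => φ (m' i), ?_⟩
      intro g
      funext i
      have h4 : dsc (TG hρ cop hα ℤ) (SG hρ cop ℤ) n (fun g i => φ (u' g i)) g i
          = φ (dsc (TG hρ cop hα C) (SG hρ cop C) n u' g i) := congrFun (congrFun h2 g) i
      have h5 : act ρ ℤ (g : Mat) (fun i => φ (m' i)) i = φ (act ρ C (g : Mat) m' i) :=
        congrFun (act_map (ρ := ρ) φ (g : Mat) m') i
      change (1 : ℤ) • dsc (TG hρ cop hα ℤ) (SG hρ cop ℤ) n (fun g i => φ (u' g i)) g i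
        = act ρ ℤ (g : Mat) (fun i => φ (m' i)) i - φ (m' i)
      rw [one_smul, h4, h5, hD' g i, map_sub]
    obtain ⟨N, hN, nk, hnk⟩ := int_level hl hρ cop hα n hmod _ hk h3
    refine ⟨N, hN, nk, fun g i => ?_⟩
    have h6 := congrFun (hnk g) i
    exact h6
  choose N hN nk hnk using key
  refine ⟨fun i => ∑ k, ((b k : C) : K) / (N k : K) * ((nk k i : ℤ) : K), ?_⟩
  intro g
  funext i
  change u g i = (∑ j, ρ (g : Mat) i j • ∑ k, ((b k : C) : K) / (N k : K) * ((nk k j : ℤ) : K))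
    - ∑ k, ((b k : C) : K) / (N k : K) * ((nk k i : ℤ) : K)
  have h7 : u g i = ∑ k, ((b.coord k (u' g i) : ℤ) : K) * ((b k : C) : K) := by
    have h8 : (∑ k, b.repr (u' g i) k • b k) = u' g i := b.sum_repr (u' g i)
    have h9 : ((∑ k, b.repr (u' g i) k • b k : C) : K) = u g i := by rw [h8]
    rw [← h9]
    push_cast
    refine Finset.sum_congr rfl fun k _ => ?_
    rw [zsmul_eq_mul]
    rfl
  have h10 : (∑ j, ρ (g : Mat) i j • ∑ k, ((b k : C) : K) / (N k : K) * ((nk k j : ℤ) : K))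
      = ∑ k, ((b k : C) : K) / (N k : K) * ((act ρ ℤ (g : Mat) (nk k) i : ℤ) : K) := by
    simp only [Finset.smul_sum]
    rw [Finset.sum_comm]
    refine Finset.sum_congr rfl fun k _ => ?_
    change _ = ((b k : C) : K) / (N k : K) * ((∑ j, ρ (g : Mat) i j • nk k j : ℤ) : K)
    rw [Int.cast_sum, Finset.mul_sum]
    refine Finset.sum_congr rfl fun j _ => ?_
    rw [zsmul_eq_mul, smul_eq_mul, Int.cast_mul]
    ring
  rw [h10, h7, ← Finset.sum_sub_distrib]
  refine Finset.sum_congr rfl fun k _ => ?_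
  have hNk : (N k : K) ≠ 0 := Int.cast_ne_zero.mpr (hN k)
  have h11 : ((act ρ ℤ (g : Mat) (nk k) i : ℤ) : K) - ((nk k i : ℤ) : K)
      = (N k : K) * ((b.coord k (u' g i) : ℤ) : K) := by
    rw [← Int.cast_sub, ← hnk k g i, Int.cast_mul]
  rw [← mul_sub, h11]
  field_simp

end LV7
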