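import Pool.Agent.LibLV7.C9
import Pool.Agent.LibLV7.G3
import Pool.Agent.LibLV7.K1

/-!
# LibLV7.C10 : general level, characteristic zero; arbitrary representatives
-/

set_option autoImplicit false

open Matrix
open scoped MatrixGroups

namespace LV7

open KS44

variable {ι : Type} [Fintype ι] [DecidableEq ι]

/-- independence of the representatives -/
theorem inj_reps {q p : ℕ} {ρ : Mat → Matrix ι ι ℤ} (hρ : MRep q ρ) (cop : IsCoprime (p : ℤ) (q : ℤ)) {I I' : Type}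
    [Fintype I] [Fintype I'] {α : I → Mat} (hα : IsReps p α) {α' : I' → Mat} (hα' : IsReps p α') (A : Type)
    [AddCommGroup A] (n : ℤ) (h1 : Inj (ι → A) (TG hρ cop hα' A) (SG hρ cop A) n) :
    Inj (ι → A) (TG hρ cop hα A) (SG hρ cop A) n := by
  intro u hu hd
  refine h1 u hu ?_
  obtain ⟨w, hw⟩ := hd
  obtain ⟨w', hw'⟩ := op_op_reps hρ cop hα' hα A u hu
  refine ⟨w + w', fun g => ?_⟩
  have e1 := hw g
  have e2 := hw' g
  change (TG hρ cop hα' A).op ((TG hρ cop hα' A).op u) g - n • (SG hρ cop A).op u g = _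
  change (TG hρ cop hα A).op ((TG hρ cop hα A).op u) g - n • (SG hρ cop A).op u g = _ at e1
  rw [smul_add]
  have e3 : (TG hρ cop hα' A).op ((TG hρ cop hα' A).op u) g =
      (TG hρ cop hα A).op ((TG hρ cop hα A).op u) g + (jG hρ A g • w' - w') :=
    (add_sub_cancel _ _).symm.trans (congrArg _ e2)
  have e4 : (TG hρ cop hα A).op ((TG hρ cop hα A).op u) g =
      n • (SG hρ cop A).op u g + (jG hρ A g • w - w) := by
    rw [← e1]
    abel
  rw [e3, e4]
  abel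

theorem level_field {N ℓ p : ℕ} [NeZero (N * ℓ)] (hl : ℓ.Prime) (hp : p.Prime)
    (cop : IsCoprime (p : ℤ) ((N * ℓ : ℕ) : ℤ)) (h1 : ¬ (ℓ : ℤ) ∣ (p : ℤ) - 1) {I : Type} [Fintype I] {α : I → Mat}
    (hα : IsReps p α)
    (hH : Inj (GL (Fin 2) (ZMod (N * ℓ)) → ZMod ℓ) (TG (pm_rep (N * ℓ)) cop hα (ZMod ℓ))
      (SG (pm_rep (N * ℓ)) cop (ZMod ℓ)) (4 * p))
    {ρ : Mat → Matrix ι ι ℤ} (hρ : RepN N ℓ ρ) (K : Type) [Field K] [CharZero K] :
    Inj (ι → K) (TG hρ.mrep cop hα K) (SG hρ.mrep cop K) (4 * p) := by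
  refine field_level hl hρ.mrep cop hα _ ?_ K
  refine inj_reps hρ.mrep cop hα (alpha_reps 1 p hp) (ZMod ℓ) _ ?_
  exact level_mod hl hp cop h1 1 (inj_reps (pm_rep (N * ℓ)) cop (alpha_reps 1 p hp) hα (ZMod ℓ) _ hH) hρ

end LV7
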