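import Pool.Agent.LibKS44.B0

/-!
# [LV7 C2] `SL₂(ℤ) → SL₂(ℤ/n)` is onto (only Mathlib)

PLAN. `g = (a, b; c, d)`, `a d - b c ≡ 1` modulo `n`, `n ≥ 1`. (1) We may assume `c ≠ 0` (replace `c` by `n` if `c = 0`). There is `t` with
`gcd (c, d + t n) = 1`: gcd (c, d, n) = 1 (divides `a d - b c - n k = 1`); take for `t` the product of the primes `p ∣ c` which do not divide `d`
(a prime `p ∣ c`: if `p ∣ d` then `p ∤ n` and `p ∤ t`, so `p ∤ d + t n`; if `p ∤ d` then `p ∣ t`, so `p ∤ d + t n`); or use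
`Nat.exists_add_mul_coprime`-like lemmas if you find one (Dirichlet is NOT needed). (2) With `d' = d + t n`, `x c + y d' = 1` (`IsCoprime`), and
`a d' - b c = 1 + n k`: put `a' = a - n k y`, `b' = b + n k x`: `a' d' - b' c = 1 + n k - n k (y d' + x c) = 1`. QED.
-/

set_option autoImplicit false

open Matrix
open scoped MatrixGroups

namespace LV7

open KS44

private theorem C2_cop (c d n : ℤ) (hc : c ≠ 0)
    (h : ∀ p : ℕ, p.Prime → (p : ℤ) ∣ c → (p : ℤ) ∣ d → ¬ (p : ℤ) ∣ n) :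
    ∃ t : ℤ, IsCoprime c (d + t * n) := by
  obtain ⟨S, hS⟩ : ∃ S : Finset ℕ, S = c.natAbs.primeFactors.filter (fun p : ℕ => ¬ (p : ℤ) ∣ d) := ⟨_, rfl⟩
  refine ⟨((∏ p ∈ S, p : ℕ) : ℤ), ?_⟩
  rw [Int.isCoprime_iff_gcd_eq_one]
  by_contra hne
  have hne' : ¬ Nat.Coprime c.natAbs (d + ((∏ p ∈ S, p : ℕ) : ℤ) * n).natAbs := hne
  obtain ⟨p, hp, hp1, hp2⟩ := Nat.Prime.not_coprime_iff_dvd.1 hne'
  have h1 : (p : ℤ) ∣ c := Int.natCast_dvd.2 hp1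
  have h2 : (p : ℤ) ∣ d + ((∏ p ∈ S, p : ℕ) : ℤ) * n := Int.natCast_dvd.2 hp2
  by_cases hd : (p : ℤ) ∣ d
  · have h3 : (p : ℤ) ∣ ((∏ p ∈ S, p : ℕ) : ℤ) * n := (dvd_add_right hd).1 h2
    rcases (Nat.prime_iff_prime_int.1 hp).dvd_or_dvd h3 with h4 | h4
    · have h5 : p ∣ ∏ p ∈ S, p := by exact_mod_cast h4
      obtain ⟨r, hr, hr2⟩ := (hp.prime.dvd_finset_prod_iff _).1 h5
      rw [hS, Finset.mem_filter, Nat.mem_primeFactors] at hr
      have h6 : p = r := (Nat.prime_dvd_prime_iff_eq hp hr.1.1).1 hr2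
      exact hr.2 (h6 ▸ hd)
    · exact h p hp h1 hd h4
  · have h3 : p ∈ S := by
      rw [hS, Finset.mem_filter, Nat.mem_primeFactors]
      exact ⟨⟨hp, hp1, by simpa using hc⟩, hd⟩
    have h4 : (p : ℤ) ∣ ((∏ p ∈ S, p : ℕ) : ℤ) := by
      exact_mod_cast Finset.dvd_prod_of_mem (fun p => p) h3
    exact hd ((dvd_add_left (h4.mul_right n)).1 h2)

private theorem C2_main (n : ℕ) (a b c d k : ℤ) (hc : c ≠ 0) (h : a * d - b * c = 1 + n * k) :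
    ∃ a' b' d' : ℤ, a' * d' - b' * c = 1 ∧ (n : ℤ) ∣ a - a' ∧ (n : ℤ) ∣ b - b' ∧ (n : ℤ) ∣ d - d' := by
  obtain ⟨t, x, y, hxy⟩ := C2_cop c d n hc (by
    intro p hp h1 h2 h3
    have h4 : (p : ℤ) ∣ 1 := by
      have : (1 : ℤ) = a * d - b * c - n * k := by linear_combination -h
      rw [this]
      exact dvd_sub (dvd_sub (h2.mul_left a) (h1.mul_left b)) (h3.mul_right k)
    have h5 : p ∣ 1 := by exact_mod_cast h4
    exact hp.one_lt.ne' (Nat.dvd_one.1 h5))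
  -- x c + y (d + t n) = 1, a (d + t n) - b c = 1 + n (k + a t)
  refine ⟨a - n * (k + a * t) * y, b + n * (k + a * t) * x, d + t * n, ?_, ?_, ?_, ?_⟩
  · linear_combination h - n * (k + a * t) * hxy
  · exact ⟨(k + a * t) * y, by ring⟩
  · exact ⟨-((k + a * t) * x), by ring⟩
  · exact ⟨-t, by ring⟩

theorem sl_lift {n : ℕ} (hn : n ≠ 0) {g : Mat} (hg : (n : ℤ) ∣ g.det - 1) :
    ∃ γ : SL(2, ℤ), ∀ i j, (n : ℤ) ∣ g i j - (γ : Mat) i j := by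
  obtain ⟨k, hk⟩ := hg
  rw [Matrix.det_fin_two] at hk
  obtain ⟨c', hc', hcc, k', hk'⟩ : ∃ c' : ℤ, c' ≠ 0 ∧ (n : ℤ) ∣ g 1 0 - c' ∧
      ∃ k' : ℤ, g 0 0 * g 1 1 - g 0 1 * c' = 1 + n * k' := by
    by_cases hc : g 1 0 = 0
    · refine ⟨n, by exact_mod_cast hn, ?_, k - g 0 1, ?_⟩
      · rw [hc]
        exact ⟨-1, by ring⟩
      · rw [hc] at hk
        linear_combination hk
    · refine ⟨g 1 0, hc, ⟨0, by ring⟩, k, by linear_combination hk⟩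
  obtain ⟨a', b', d', h1, h2, h3, h4⟩ := C2_main n _ _ _ _ k' hc' hk'
  refine ⟨⟨!![a', b'; c', d'], by rw [Matrix.det_fin_two_of]; exact h1⟩, ?_⟩
  intro i j
  fin_cases i <;> fin_cases j
  · exact h2
  · exact h3
  · exact hcc
  · exact h4

end LV7
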