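import Pool.Agent.LibLV7.Defs
import Pool.Agent.LibLV7.C2
import Pool.Agent.LibKS44.B3

/-!
# [LV7 C3] Hecke operators on the invariants of a module of level `q`

PLAN. `inv_act`: let `d' * det h + b q = 1`, `M0 = d' • (adj h * g)`: modulo `q` the determinant is `d'² det h det g ≡ 1`. By `sl_lift` there is
`γ ∈ SL(2, ℤ)` with `γ ≡ M0` modulo `q`; `h * γ ≡ h * M0 = (d' det h) • g ≡ g`, so `elq g • x = elq (h * γ) • x = elq h • (jq γ • x) = elq h • x`
(`Lev`, `jq γ = elq (inclq γ)`).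
`inv_dsc0`: `(Tq).act0 ((Tq).act0 x) = ∑ k, ∑ i, elq (adj α_k) • elq (adj α_i) • x` (act0 is `∑ i, a i •`; `Finset.smul_sum`), each term is
`elq (adj α_k * adj α_i) • x`, of determinant `p²` = the determinant of `p • 1`: by `inv_act` it is `elq (p • 1) • x`. There are `(p + 1)²` terms
(`Fintype.card (Option (Fin p)) = p + 1`), and `(Sq).act0 x = elq (p • 1) • x`. `(p + 1)² - 4 p = (p - 1)²`.
-/

set_option autoImplicit false

open Matrix
open scoped MatrixGroups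

namespace LV7

open KS44

variable {q ℓ p : ℕ} {X : Type} [AddCommGroup X] [Module (Rq q ℓ) X]

theorem inv_act (hq : q ≠ 0) (hX : Lev q ℓ q X) {x : X} (hx : ∀ γ, jq q ℓ γ • x = x) (g h : Dq q)
    (hgh : (q : ℤ) ∣ g.1.det - h.1.det) : elq q ℓ g • x = elq q ℓ h • x := by
  obtain ⟨k, hk⟩ := hgh
  obtain ⟨d, b, hd⟩ : ∃ d b : ℤ, d * h.1.det + b * q = 1 := h.2
  have hdet : (q : ℤ) ∣ (d • (h.1.adjugate * g.1)).det - 1 := by
    have h1 : (d • (h.1.adjugate * g.1)).det = d ^ 2 * (h.1.det * g.1.det) := by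
      rw [Matrix.det_smul, Matrix.det_mul, Matrix.det_adjugate, Fintype.card_fin]
      ring
    have h2 : g.1.det = h.1.det + q * k := by linear_combination hk
    rw [h1, h2]
    refine ⟨d ^ 2 * h.1.det * k - b * (1 + d * h.1.det), ?_⟩
    linear_combination (d * h.1.det + 1) * hd
  obtain ⟨γ, hγ⟩ := sl_lift hq hdet
  have hcong : ∀ i j, (q : ℤ) ∣ g.1 i j - (h * inclq q γ).1 i j := by
    intro i j
    have e1 : (h * inclq q γ).1 i j = h.1 i 0 * (γ : Mat) 0 j + h.1 i 1 * (γ : Mat) 1 j := by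
      change (h.1 * (γ : Mat)) i j = _
      rw [Matrix.mul_apply, Fin.sum_univ_two]
    have e2 : h.1 * (d • (h.1.adjugate * g.1)) = (d * h.1.det) • g.1 := by
      rw [Matrix.mul_smul, ← Matrix.mul_assoc, Matrix.mul_adjugate, Matrix.smul_mul, Matrix.one_mul, smul_smul]
    have e3 : h.1 i 0 * (d • (h.1.adjugate * g.1)) 0 j + h.1 i 1 * (d • (h.1.adjugate * g.1)) 1 j =
        (d * h.1.det) * g.1 i j := by
      have := congrFun (congrFun e2 i) j
      rw [Matrix.mul_apply, Fin.sum_univ_two, Matrix.smul_apply, smul_eq_mul] at this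
      exact this
    obtain ⟨u, hu⟩ := hγ 0 j
    obtain ⟨v, hv⟩ := hγ 1 j
    rw [e1]
    refine ⟨b * g.1 i j + h.1 i 0 * u + h.1 i 1 * v, ?_⟩
    linear_combination h.1 i 0 * hu + h.1 i 1 * hv - e3 - g.1 i j * hd
  rw [hX g (h * inclq q γ) hcong x, map_mul, mul_smul]
  have h3 : elq q ℓ (inclq q γ) • x = x := hx γ
  rw [h3]

theorem inv_dsc0 (hq : q ≠ 0) (hp : p.Prime) (cop : IsCoprime (p : ℤ) (q : ℤ)) (τ : SL(2, ℤ)) (hX : Lev q ℓ q X) {x : X}
    (hx : ∀ γ, jq q ℓ γ • x = x) :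
    dsc0 (Tq ℓ cop (alpha_reps τ p hp)) (Sq ℓ cop) (4 * p) x =
      (((p : ℤ) - 1) ^ 2) • (elq q ℓ ⟨(p : ℤ) • 1, p_memq cop⟩ • x) := by
  have hα := alpha_reps τ p hp
  have h1 : (Tq ℓ cop (alpha_reps τ p hp)).act0 ((Tq ℓ cop (alpha_reps τ p hp)).act0 x) =
      ∑ i : Option (Fin p), elq q ℓ ⟨(alpha τ p i).adjugate, adj_memq cop hα i⟩ •
        ∑ k : Option (Fin p), elq q ℓ ⟨(alpha τ p k).adjugate, adj_memq cop hα k⟩ • x := rfl
  have h2 : (Sq ℓ cop).act0 x = elq q ℓ ⟨(p : ℤ) • 1, p_memq cop⟩ • x := by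
    change ∑ i : Unit, elq q ℓ ⟨(p : ℤ) • 1, p_memq cop⟩ • x = _
    simp
  have h3 : ∀ i k : Option (Fin p), elq q ℓ ⟨(alpha τ p i).adjugate, adj_memq cop hα i⟩ •
      elq q ℓ ⟨(alpha τ p k).adjugate, adj_memq cop hα k⟩ • x = elq q ℓ ⟨(p : ℤ) • 1, p_memq cop⟩ • x := by
    intro i k
    rw [← mul_smul, ← map_mul]
    refine inv_act hq hX hx _ _ ?_
    have e1 : ((⟨(alpha τ p i).adjugate, adj_memq cop hα i⟩ : Dq q) *
        ⟨(alpha τ p k).adjugate, adj_memq cop hα k⟩ : Dq q).1 =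
        (alpha τ p i).adjugate * (alpha τ p k).adjugate := rfl
    rw [e1, Matrix.det_mul, Matrix.det_adjugate, Matrix.det_adjugate, hα.1 i, hα.1 k, Fintype.card_fin,
      Matrix.det_smul, Matrix.det_one, Fintype.card_fin]
    exact ⟨0, by ring⟩
  unfold dsc0
  rw [h1, h2]
  simp only [Finset.smul_sum, h3]
  rw [Finset.sum_const, Finset.sum_const, Finset.card_univ, Fintype.card_option, Fintype.card_fin]
  rw [← natCast_zsmul, ← natCast_zsmul, smul_smul, ← sub_smul]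
  congr 1
  push_cast
  ring

end LV7
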