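import Pool.Agent.LibLV7.C3

/-!
# [LV7 C4] injectivity passes to submodules (`p` not `1` modulo `ℓ`)

PLAN. `u : SL(2, ℤ) → V` a cocycle, `D u = ∂ m`, `m ∈ V`. In `Y`: the cocycle `g ↦ (u g : Y)` has `D = ∂ m` (`dsc_map` for `V.subtype`), so
`u = ∂ y`, `y ∈ Y`: all `jq γ • y - y ∈ V`. `∂ (D0 y) = D ∂ y = ∂ m` (`dsc_cob`, `D0 = dsc0 ..`): `z := D0 y - m` is `SL(2, ℤ)`-invariant.
In `Y ⧸ V` (it has `Lev q ℓ q`) the class `ȳ` of `y` is invariant, so by `inv_dsc0` and `dsc0_map` (for `V.mkQ`)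
`z̄ = D0 ȳ = (p - 1)² • [p] ȳ`, `[p] = elq (p • 1)`. Let `p'` with `p p' + b q = 1`, `[p'] = elq (p' • 1)`: `[p'] • [p] • ȳ = ȳ` (`Lev`:
`(p' p) • 1 ≡ 1` modulo `q`); let `c` with `c (p - 1)² ≡ 1` modulo `ℓ` (`ℓ` kills every `Rq`-module; `ℓ ∤ p - 1`). So
`ȳ = c • [p'] • z̄`, that is `y - z' ∈ V` for `z' = c • [p'] • z ∈ Y`, which is invariant (`p' • 1` is central:
`elq (γ * p' • 1) = elq (p' • 1 * γ)`). `u = ∂ y = ∂ (y - z')`, `y - z' ∈ V`. QED. (`Y` is not assumed finite.)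
-/

set_option autoImplicit false

open Matrix
open scoped MatrixGroups

namespace LV7

open KS44

theorem killq {q ℓ : ℕ} {X : Type} [AddCommGroup X] [Module (Rq q ℓ) X] (x : X) : ℓ • x = 0 := by
  have h1 : ((ℓ : ℕ) : Rq q ℓ) = 0 := by
    rw [← map_natCast (algebraMap (ZMod ℓ) (Rq q ℓ)) ℓ, CharP.cast_eq_zero, map_zero]
  rw [← Nat.cast_smul_eq_nsmul (Rq q ℓ), h1, zero_smul]

private theorem C4_zsmul {q ℓ : ℕ} {X : Type} [AddCommGroup X] [Module (Rq q ℓ) X] (a : Rq q ℓ) (n : ℤ)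
    (x : X) : a • (n • x) = n • (a • x) :=
  map_zsmul (DistribSMul.toAddMonoidHom X a) n x

private theorem C4_mem {a : ℤ} {q : ℕ} (h : IsCoprime a (q : ℤ)) : (a • (1 : Mat)) ∈ Dq q := by
  change IsCoprime (a • (1 : Mat)).det (q : ℤ)
  rw [Matrix.det_smul, Matrix.det_one, mul_one]
  exact h.pow_left

theorem inj_sub {q ℓ p : ℕ} (hl : ℓ.Prime) (hq : q ≠ 0) (hp : p.Prime) (cop : IsCoprime (p : ℤ) (q : ℤ))
    (h1 : ¬ (ℓ : ℤ) ∣ (p : ℤ) - 1) (τ : SL(2, ℤ)) {Y : Type} [AddCommGroup Y] [Module (Rq q ℓ) Y]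
    (hY : Lev q ℓ q Y) (V : Submodule (Rq q ℓ) Y)
    (hI : Inj Y (Tq ℓ cop (alpha_reps τ p hp)) (Sq ℓ cop) (4 * p)) :
    Inj V (Tq ℓ cop (alpha_reps τ p hp)) (Sq ℓ cop) (4 * p) := by
  set T := Tq ℓ cop (alpha_reps τ p hp) with hT
  set S := Sq ℓ cop with hS
  rintro u hu ⟨m, hm⟩
  have hc : Coc (jq q ℓ) Y (fun g => V.subtype (u g)) := by
    intro g h
    change V.subtype (u (g * h)) = V.subtype (u g) + jq q ℓ g • V.subtype (u h)
    rw [hu g h, map_add, map_smul]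
  have hcob : Cob (jq q ℓ) Y (dsc T S (4 * p) (fun g => V.subtype (u g))) := by
    refine ⟨(m : Y), fun g => ?_⟩
    rw [dsc_map]
    change V.subtype (dsc T S (4 * p) u g) = jq q ℓ g • (m : Y) - m
    rw [hm g, map_sub, map_smul]
    rfl
  obtain ⟨y, hy⟩ := hI _ hc hcob
  have hy' : (fun g => V.subtype (u g)) = fun g => jq q ℓ g • y - y := funext hy
  set z : Y := dsc0 T S (4 * p) y - (m : Y) with hz
  have hzinv : ∀ γ, jq q ℓ γ • z = z := by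
    intro γ
    have h2 := congrFun (dsc_cob T S (4 * p) y) γ
    rw [← hy', dsc_map] at h2
    have h3 : V.subtype (dsc T S (4 * p) u γ) = jq q ℓ γ • (m : Y) - m := by
      rw [hm γ, map_sub, map_smul]
      rfl
    have h4 : jq q ℓ γ • (m : Y) - m = jq q ℓ γ • dsc0 T S (4 * p) y - dsc0 T S (4 * p) y :=
      h3.symm.trans h2
    rw [hz, smul_sub, sub_eq_sub_iff_sub_eq_sub]
    exact h4.symm
  have hyinv : ∀ γ, jq q ℓ γ • V.mkQ y = V.mkQ y := by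
    intro γ
    rw [← map_smul, ← sub_eq_zero, ← map_sub, ← hy γ]
    exact (Submodule.Quotient.mk_eq_zero V).2 (u γ).2
  have hQ : Lev q ℓ q (Y ⧸ V) := by
    intro g h hgh x
    obtain ⟨x, rfl⟩ := V.mkQ_surjective x
    rw [← map_smul, ← map_smul, hY g h hgh]
  have hD := inv_dsc0 hq hp cop τ hQ hyinv
  rw [← hT, ← hS, dsc0_map] at hD
  have hzD : V.mkQ z = (((p : ℤ) - 1) ^ 2) • (elq q ℓ ⟨(p : ℤ) • 1, p_memq cop⟩ • V.mkQ y) := by
    rw [hz, map_sub, hD]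
    have h2 : V.mkQ (m : Y) = 0 := (Submodule.Quotient.mk_eq_zero V).2 m.2
    rw [h2, sub_zero]
  obtain ⟨a, b, hab⟩ := cop
  have hca : IsCoprime a (q : ℤ) := ⟨(p : ℤ), b, by rw [← hab]; ring⟩
  set P' := elq q ℓ ⟨a • 1, C4_mem hca⟩ with hP'
  have hPP : ∀ w : Y ⧸ V, P' • elq q ℓ ⟨(p : ℤ) • 1, p_memq ⟨a, b, hab⟩⟩ • w = w := by
    intro w
    rw [smul_smul, hP', ← map_mul]
    have h2 := hQ (⟨a • 1, C4_mem hca⟩ * ⟨(p : ℤ) • 1, p_memq ⟨a, b, hab⟩⟩) 1 (by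
      intro i j
      refine ⟨-(b * (1 : Mat) i j), ?_⟩
      change ((a • (1 : Mat)) * ((p : ℤ) • (1 : Mat))) i j - (1 : Mat) i j = _
      rw [Matrix.smul_mul, Matrix.mul_smul, one_mul]
      simp only [Matrix.smul_apply, smul_eq_mul]
      linear_combination ((1 : Mat) i j) * hab) w
    rw [h2, map_one, one_smul]
  have hcℓ : IsCoprime (((p : ℤ) - 1) ^ 2) (ℓ : ℤ) := by
    have h2 : Irreducible (ℓ : ℤ) := (Nat.prime_iff_prime_int.1 hl).irreducible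
    exact ((h2.coprime_iff_not_dvd.2 h1).symm).pow_left
  obtain ⟨c, c', hcc⟩ := hcℓ
  set z' : Y := c • (P' • z) with hz'
  have hmk : V.mkQ z' = V.mkQ y := by
    rw [hz', map_zsmul, map_smul, hzD, C4_zsmul, smul_smul, hPP]
    have h2 : c * ((p : ℤ) - 1) ^ 2 = 1 - c' * ℓ := by linarith
    have h3 : ((ℓ : ℤ)) • V.mkQ y = 0 := by
      rw [natCast_zsmul]
      exact killq (q := q) _
    rw [h2, sub_smul, one_smul, mul_smul, h3, smul_zero, sub_zero]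
  have hmem : y - z' ∈ V := by
    rw [← Submodule.Quotient.mk_eq_zero V]
    change V.mkQ (y - z') = 0
    rw [map_sub, hmk, sub_self]
  have hz'inv : ∀ γ, jq q ℓ γ • z' = z' := by
    intro γ
    have h2 : jq q ℓ γ * P' = P' * jq q ℓ γ := by
      change elq q ℓ (inclq q γ) * elq q ℓ _ = elq q ℓ _ * elq q ℓ (inclq q γ)
      rw [← map_mul, ← map_mul]
      congr 1
      apply Subtype.ext
      change (γ : Mat) * (a • (1 : Mat)) = (a • (1 : Mat)) * (γ : Mat)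
      rw [Matrix.smul_mul, Matrix.mul_smul, one_mul, mul_one]
    rw [hz', C4_zsmul, smul_smul, h2, ← smul_smul, hzinv]
  refine ⟨⟨y - z', hmem⟩, fun g => ?_⟩
  apply Subtype.ext
  change V.subtype (u g) = jq q ℓ g • (y - z') - (y - z')
  rw [smul_sub, hz'inv]
  have h2 : V.subtype (u g) = jq q ℓ g • y - y := hy g
  rw [h2]
  abel

end LV7
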