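import Pool.Agent.LibLV7.C7

/-!
# [LV7 C8] the permutation representation on `GL₂(ℤ/q)`

PLAN. `pm_rep`: `pm q 1 = 1` (`1.map = 1`, `Units.ext_iff`); for `g, h` with determinant prime to `q` (only `h`... in fact for `h ∈ Dq q`) the product
`(pm g * pm h) x y = ∑ z, [x = ḡ z] [z = h̄ y]`: the only `z` is `glq h * y` (a unit), so it is `[x = ḡ h̄ y]`.
`glq_eq`: entries of `g.map (Int.castRingHom (ZMod q))`, `ZMod.intCast_eq_intCast_iff_dvd_sub`, `Units.ext_iff`.
`gl_surj`: lift the entries of `x` (`ZMod.intCast_surjective`) to an integral matrix `g`; `det g` maps to `det x`, a unit of `ZMod q`, so `det g` is prime to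
`q` (`ZMod.isUnit_iff_coprime`-type lemmas, or: `det g * a ≡ 1` modulo `q`).
`pm_el`: `act (pm q) (ZMod ℓ) g φ x = ∑ y, [x = ḡ y] • φ y = φ (ḡ⁻¹ x)` (`el_rep` of C7).
`pm_lev`: from `pm_el` and `glq_eq`.
-/

set_option autoImplicit false

open Matrix
open scoped MatrixGroups

namespace LV7

open KS44

private theorem C8_coe {q : ℕ} (g : Dq q) : ((glq q g : GL (Fin 2) (ZMod q)) :
    Matrix (Fin 2) (Fin 2) (ZMod q)) = g.1.map (Int.castRingHom (ZMod q)) := rfl

theorem pm_rep (q : ℕ) [NeZero q] : MRep q (pm q) := by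
  constructor
  · ext x y
    unfold pm
    rw [Matrix.map_one _ (map_zero _) (map_one _), Matrix.one_mul, Matrix.one_apply]
    by_cases h : x = y
    · rw [if_pos (by rw [h]), if_pos h]
    · rw [if_neg (fun h' => h (Units.ext h')), if_neg h]
  · intro g h _ hh
    ext x y
    have hz : ∀ z : GL (Fin 2) (ZMod q), (z : Matrix (Fin 2) (Fin 2) (ZMod q)) =
        h.map (Int.castRingHom (ZMod q)) * y ↔ z = glq q ⟨h, hh⟩ * y := by
      intro z
      rw [Units.ext_iff, Units.val_mul, C8_coe]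
    rw [Matrix.mul_apply, Finset.sum_eq_single (glq q ⟨h, hh⟩ * y)]
    · unfold pm
      rw [if_pos ((hz _).2 rfl), mul_one, (hz _).2 rfl, Matrix.map_mul, Matrix.mul_assoc]
    · intro z _ hne
      unfold pm
      rw [if_neg (fun h' => hne ((hz z).1 h')), mul_zero]
    · intro h'
      exact absurd (Finset.mem_univ _) h'

theorem glq_eq {q : ℕ} (g h : Dq q) : glq q g = glq q h ↔ ∀ i j, (q : ℤ) ∣ g.1 i j - h.1 i j := by
  rw [Units.ext_iff, C8_coe, C8_coe]
  constructor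
  · intro e i j
    have h1 : ((h.1 i j : ℤ) : ZMod q) = ((g.1 i j : ℤ) : ZMod q) :=
      (congrFun (congrFun e i) j).symm
    exact (ZMod.intCast_eq_intCast_iff_dvd_sub _ _ _).1 h1
  · intro e
    ext i j
    exact ((ZMod.intCast_eq_intCast_iff_dvd_sub _ _ _).2 (e i j)).symm

theorem gl_surj {q : ℕ} (x : GL (Fin 2) (ZMod q)) : ∃ g : Dq q, glq q g = x := by
  choose g hg using fun i j => ZMod.intCast_surjective ((x : Matrix (Fin 2) (Fin 2) (ZMod q)) i j)
  have hmap : (Matrix.of g : Mat).map (Int.castRingHom (ZMod q)) = x := by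
    ext i j
    exact hg i j
  have hdet : (((Matrix.of g : Mat).det : ℤ) : ZMod q) =
      (x : Matrix (Fin 2) (Fin 2) (ZMod q)).det := by
    rw [← hmap, ← RingHom.mapMatrix_apply, ← RingHom.map_det]
    rfl
  have hu : IsUnit (x : Matrix (Fin 2) (Fin 2) (ZMod q)).det :=
    (Matrix.isUnit_iff_isUnit_det _).1 x.isUnit
  obtain ⟨v, hv⟩ := hu.exists_right_inv
  obtain ⟨w, rfl⟩ := ZMod.intCast_surjective v
  have h1 : (((Matrix.of g : Mat).det * w : ℤ) : ZMod q) = ((1 : ℤ) : ZMod q) := by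
    rw [Int.cast_mul, hdet, hv, Int.cast_one]
  obtain ⟨k, hk⟩ := (ZMod.intCast_eq_intCast_iff_dvd_sub _ _ _).1 h1
  have hc : IsCoprime (Matrix.of g : Mat).det (q : ℤ) := ⟨w, k, by linear_combination -hk⟩
  refine ⟨⟨Matrix.of g, hc⟩, ?_⟩
  rw [Units.ext_iff, C8_coe]
  exact hmap

theorem pm_el {q ℓ : ℕ} [NeZero q] (g : Dq q) (φ : GL (Fin 2) (ZMod q) → ZMod ℓ) :
    elq q ℓ g • (repq ℓ (pm_rep q)).asModuleEquiv.symm φ =
      (repq ℓ (pm_rep q)).asModuleEquiv.symm (fun x => φ ((glq q g)⁻¹ * x)) := by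
  rw [el_rep]
  congr 1
  funext x
  change ∑ y, pm q g.1 x y • φ y = _
  have hz : ∀ y : GL (Fin 2) (ZMod q), (x : Matrix (Fin 2) (Fin 2) (ZMod q)) =
      g.1.map (Int.castRingHom (ZMod q)) * y ↔ y = (glq q g)⁻¹ * x := by
    intro y
    rw [← C8_coe, ← Units.val_mul, ← Units.ext_iff, eq_inv_mul_iff_mul_eq, eq_comm]
  rw [Finset.sum_eq_single ((glq q g)⁻¹ * x)]
  · unfold pm
    rw [if_pos ((hz _).2 rfl), one_smul]
  · intro y _ hne
    unfold pm
    rw [if_neg (fun h' => hne ((hz y).1 h')), zero_smul]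
  · intro h'
    exact absurd (Finset.mem_univ _) h'

theorem pm_lev (q ℓ : ℕ) [NeZero q] : Lev q ℓ q (repq ℓ (pm_rep q)).asModule := by
  intro g h hgh x
  obtain ⟨φ, rfl⟩ := (repq ℓ (pm_rep q)).asModuleEquiv.symm.surjective x
  rw [pm_el, pm_el, (glq_eq g h).2 hgh]

end LV7
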