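import Pool.Agent.LibLV7.C4
import Pool.Agent.LibLV7.C8

/-!
# [LV7 C5] every finite module of level `q` embeds in a power of the functions on `GL₂(ℤ/q)`

PLAN. `Y0 = (repq ℓ (pm_rep q)).asModule` (functions `GL₂(ℤ/q) → 𝔽_ℓ`, `elq g • φ = φ (ḡ⁻¹ ·)`, see C8).
(1) `Inj (κ → Y0)` for a finite type `κ`: compose a cocycle with the coordinates (`dsc_map` for `LinearMap.proj`), `hH` gives `m_k`, take
`m = fun k => m_k`. `Lev q ℓ q (κ → Y0)` from `pm_lev`.
(2) `V` is a finite `𝔽_ℓ`-vector space (`Module.compHom V (algebraMap (ZMod ℓ) (Rq q ℓ))`, or avoid the basis: take for `κ` the finite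
set of ALL additive maps `λ : V →+ ZMod ℓ`, `κ = (V →+ ZMod ℓ)` or `V →ₗ[ZMod ℓ] ZMod ℓ` with `Fintype.ofFinite`; they separate the points of `V`
because `ℓ • v = 0`, `killq`: V is a vector space over the field `ZMod ℓ`, `AddCommGroup.zmodModule`). For `x ∈ GL₂(ℤ/q)` choose
`L x : Dq q` with `glq (L x) = x⁻¹` (`gl_surj`), and `Φ v = fun λ => (x ↦ λ (elq (L x) • v))` (through `asModuleEquiv.symm`).
`Φ (elq g • v) λ x = λ (elq (L x * g) • v)`, `(elq g • Φ v) λ x = λ (elq (L (ḡ⁻¹ x)) • v)`, and `glq (L x * g) = x⁻¹ ḡ = glq (L (ḡ⁻¹ x))`, so equal by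
`Lev` and `glq_eq`. So `Φ` is `Rq`-linear (for a general element of the monoid ring: `MonoidAlgebra.induction_on`, scalars of `ZMod ℓ` act as natural
numbers, see the end of `fix` in LibKS44/D2.lean). `Φ` is injective: `x = 1`: `glq (L 1) = 1`, `elq (L 1) • v = v`.
(3) `inj_sub` for `V' = range Φ`, and transport along the isomorphism `V ≃ range Φ` (`inj_congr`: a linear equivalence carries cocycles,
coboundaries and `dsc`, `dsc_map`). QED.
-/

set_option autoImplicit false

open Matrix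
open scoped MatrixGroups

namespace LV7

open KS44

theorem inj_congr {Γ R : Type} [Group Γ] [Ring R] {j : Γ →* R} {M M' : Type} [AddCommGroup M] [Module R M]
    [AddCommGroup M'] [Module R M'] (e : M ≃ₗ[R] M') (T S : HD j) (n : ℤ) (h : Inj M' T S n) : Inj M T S n := by
  intro u hu hd
  obtain ⟨m, hm⟩ := hd
  obtain ⟨m', hm'⟩ := h (fun g => e (u g)) (fun g k => by
      change e (u (g * k)) = e (u g) + j g • e (u k)
      rw [hu g k, map_add, map_smul]) ⟨e m, fun g => by
      have h1 := congrFun (dsc_map T S n e.toLinearMap u) g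
      have h2 : dsc T S n (fun g => e (u g)) g = e (dsc T S n u g) := h1
      rw [h2, hm g, map_sub, map_smul]⟩
  refine ⟨e.symm m', fun g => ?_⟩
  apply e.injective
  have h3 : e (u g) = j g • m' - m' := hm' g
  rw [h3, map_sub, map_smul, LinearEquiv.apply_symm_apply]

theorem inj_embed {q ℓ p : ℕ} [NeZero q] (hl : ℓ.Prime) (hp : p.Prime) (cop : IsCoprime (p : ℤ) (q : ℤ))
    (h1 : ¬ (ℓ : ℤ) ∣ (p : ℤ) - 1) (τ : SL(2, ℤ))
    (hH : Inj (repq ℓ (pm_rep q)).asModule (Tq ℓ cop (alpha_reps τ p hp)) (Sq ℓ cop) (4 * p))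
    (V : Type) [AddCommGroup V] [Module (Rq q ℓ) V] [Finite V] (hV : Lev q ℓ q V) :
    Inj V (Tq ℓ cop (alpha_reps τ p hp)) (Sq ℓ cop) (4 * p) := by
  have : Fact ℓ.Prime := ⟨hl⟩
  -- the functions with values in the permutation module
  have hY : Lev q ℓ q ((V →+ ZMod ℓ) → (repq ℓ (pm_rep q)).asModule) := by
    intro g h hgh x
    funext lam
    exact pm_lev q ℓ g h hgh (x lam)
  have hI : Inj ((V →+ ZMod ℓ) → (repq ℓ (pm_rep q)).asModule) (Tq ℓ cop (alpha_reps τ p hp))
      (Sq ℓ cop) (4 * p) := by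
    intro u hu hd
    obtain ⟨m, hm⟩ := hd
    have h2 : ∀ lam : V →+ ZMod ℓ, Cob (jq q ℓ) (repq ℓ (pm_rep q)).asModule (fun g => u g lam) := by
      intro lam
      refine hH (fun g => u g lam) (fun g k => ?_) ⟨m lam, fun g => ?_⟩
      · change u (g * k) lam = u g lam + jq q ℓ g • u k lam
        rw [hu g k]
        rfl
      · have h3 := congrFun (dsc_map (Tq ℓ cop (alpha_reps τ p hp)) (Sq ℓ cop) (4 * p)
          (LinearMap.proj (R := Rq q ℓ) (φ := fun _ : V →+ ZMod ℓ => (repq ℓ (pm_rep q)).asModule) lam)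
          u) g
        have h4 : dsc (Tq ℓ cop (alpha_reps τ p hp)) (Sq ℓ cop) (4 * p) (fun g => u g lam) g =
            dsc (Tq ℓ cop (alpha_reps τ p hp)) (Sq ℓ cop) (4 * p) u g lam := h3
        rw [h4, hm g]
        rfl
    choose m' hm' using h2
    exact ⟨m', fun g => funext fun lam => hm' lam g⟩
  -- the embedding
  choose L hL using fun x : GL (Fin 2) (ZMod q) => gl_surj (q := q) x⁻¹
  let E := (repq ℓ (pm_rep q)).asModuleEquiv
  let Ψ : V → (V →+ ZMod ℓ) → (repq ℓ (pm_rep q)).asModule :=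
    fun v lam => E.symm (fun x => lam (elq q ℓ (L x) • v))
  have hadd : ∀ v w, Ψ (v + w) = Ψ v + Ψ w := by
    intro v w
    funext lam
    change E.symm _ = E.symm _ + E.symm _
    rw [← map_add]
    congr 1
    funext x
    change lam (elq q ℓ (L x) • (v + w)) = lam _ + lam _
    rw [smul_add, map_add]
  have hof : ∀ (g : Dq q) v, Ψ (elq q ℓ g • v) = elq q ℓ g • Ψ v := by
    intro g v
    funext lam
    change E.symm _ = elq q ℓ g • E.symm _
    rw [pm_el]
    congr 1
    funext x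
    have h3 : elq q ℓ (L x) • elq q ℓ g • v = elq q ℓ (L ((glq q g)⁻¹ * x)) • v := by
      rw [← mul_smul, ← map_mul]
      refine hV _ _ ((glq_eq _ _).1 ?_) v
      rw [map_mul, hL, hL, _root_.mul_inv_rev, inv_inv]
    rw [h3]
  let Ψa : V →+ ((V →+ ZMod ℓ) → (repq ℓ (pm_rep q)).asModule) := AddMonoidHom.mk' Ψ hadd
  have hsmul : ∀ (c : Rq q ℓ) v, Ψa (c • v) = c • Ψa v := by
    intro c
    induction c using MonoidAlgebra.induction_on with
    | of g => exact hof g
    | add x y hx hy => intro v; rw [add_smul, add_smul, map_add, hx, hy]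
    | smul a x hx =>
      intro v
      have e : a • x = a.val • x := by
        conv_lhs => rw [← ZMod.natCast_zmod_val a]
        rw [Nat.cast_smul_eq_nsmul]
      rw [e, smul_assoc, smul_assoc, map_nsmul, hx]
  let Φ : V →ₗ[Rq q ℓ] ((V →+ ZMod ℓ) → (repq ℓ (pm_rep q)).asModule) :=
    { toFun := Ψa
      map_add' := map_add Ψa
      map_smul' := hsmul }
  have hinj : Function.Injective Φ := by
    rw [injective_iff_map_eq_zero]
    intro v hv
    have h3 : ∀ lam : V →+ ZMod ℓ, lam v = 0 := by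
      intro lam
      have h4 : E.symm (fun x => lam (elq q ℓ (L x) • v)) = 0 := congrFun hv lam
      rw [LinearEquiv.map_eq_zero_iff] at h4
      have h5 : lam (elq q ℓ (L 1) • v) = 0 := congrFun h4 1
      have h6 : elq q ℓ (L 1) • v = v := by
        have h7 : elq q ℓ (L 1) • v = elq q ℓ 1 • v := by
          refine hV _ _ ((glq_eq _ _).1 ?_) v
          rw [hL, inv_one, map_one]
        rw [h7, map_one, one_smul]
      rwa [h6] at h5
    let _ : Module (ZMod ℓ) V := AddCommGroup.zmodModule (n := ℓ) (fun x => killq (q := q) x)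
    exact (Module.forall_dual_apply_eq_zero_iff (ZMod ℓ) v).1 fun f => h3 f.toAddMonoidHom
  exact inj_congr (LinearEquiv.ofInjective Φ hinj) _ _ _
    (inj_sub hl (NeZero.ne q) hp cop h1 τ hY (LinearMap.range Φ) hI)

end LV7
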