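import Pool.Agent.LibLV7.C1
import Pool.Agent.LibKS44.A2

/-!
# [LV7 C6] all finite modules of level `N ℓ ^ r` (pattern: LibKS44/D4.lean; almost a copy)

PLAN. Strong induction on `Nat.card M`; `M` trivial: `0`. Otherwise `V` from `fixq`, `Inj V` by `hb` (`V` is finite), `Inj (M ⧸ V)` by induction
(`Lev` passes to the quotient, the cardinality is smaller), `devissage` (LibKS44.A2).
-/

set_option autoImplicit false

open Matrix
open scoped MatrixGroups

namespace LV7

open KS44

private theorem C6_card {q ℓ : ℕ} (M : Type) [AddCommGroup M] [Module (Rq q ℓ) M] [Finite M]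
    (V : Submodule (Rq q ℓ) M) (hV : V ≠ ⊥) : Nat.card (M ⧸ V) < Nat.card M := by
  have : Finite (M ⧸ V) := Finite.of_surjective _ (Submodule.mkQ_surjective V)
  have h1 : Nat.card M = Nat.card V * Nat.card (M ⧸ V) := Submodule.card_eq_card_quotient_mul_card V
  have h2 : Nontrivial V := (Submodule.nontrivial_iff_ne_bot).2 hV
  have h3 : 1 < Nat.card V := Finite.one_lt_card
  have h4 : 0 < Nat.card (M ⧸ V) := Nat.card_pos
  rw [h1]
  nlinarith

theorem inj_allq {N ℓ : ℕ} (hl : ℓ.Prime) (T S : HD (jq (N * ℓ) ℓ)) (n : ℤ)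
    (hb : ∀ (V : Type) [AddCommGroup V] [Module (Rq (N * ℓ) ℓ) V] [Finite V], Lev (N * ℓ) ℓ (N * ℓ) V → Inj V T S n)
    (r : ℕ) (M : Type) [AddCommGroup M] [Module (Rq (N * ℓ) ℓ) M] [Finite M] (hC : Lev (N * ℓ) ℓ (N * ℓ ^ r) M) :
    Inj M T S n := by
  have key : ∀ c : ℕ, ∀ (M : Type) [AddCommGroup M] [Module (Rq (N * ℓ) ℓ) M] [Finite M],
      Nat.card M = c → Lev (N * ℓ) ℓ (N * ℓ ^ r) M → Inj M T S n := by
    intro c
    induction c using Nat.strong_induction_on with
    | _ c ih =>
      intro M _ _ _ hn hC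
      rcases subsingleton_or_nontrivial M with hM | hM
      · intro u _ _
        exact ⟨0, fun g => Subsingleton.elim _ _⟩
      · obtain ⟨V, hV0, hVD⟩ := fixq hl r M hC
        refine devissage T S n V (hb V hVD) ?_
        have : Finite (M ⧸ V) := Finite.of_surjective _ (Submodule.mkQ_surjective V)
        refine ih _ (by rw [← hn]; exact C6_card M V hV0) (M ⧸ V) rfl ?_
        intro g k hgk x
        obtain ⟨y, rfl⟩ := Submodule.mkQ_surjective V x
        rw [← map_smul, ← map_smul, hC g k hgk y]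
  exact key _ M rfl hC

end LV7
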