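import Pool.Agent.LibLV7.Defs

/-!
# [LV7 C7] the module of a representation (pattern: LibKS44/F1.lean; almost a copy)

PLAN. `(repq ℓ hρ).asModule` is `ι → ZMod ℓ` as a module over `Rq q ℓ`; `elq q ℓ g • asModuleEquiv.symm v = asModuleEquiv.symm (act ρ (ZMod ℓ) g.1 v)`
(`f1_rep_apply`, `f1_el` in LibKS44/F1.lean: `Representation.asModuleEquiv_symm_map_rho`). So for `u : SL(2, ℤ) → ι → ZMod ℓ` and
`u' g = asModuleEquiv.symm (u g)`: `u'` is a cocycle iff `u` is, a coboundary iff `u` is, and `(Tq ..).op u' = (TG .. u)'`, `(Sq ..).op u' = (SG .. u)'`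
(literally the same formulas, `map_sum`), hence `dsc` too (`map_sub`, `map_zsmul`). `inj_iff` follows (every `u'` comes from a `u`: asModuleEquiv is a bijection).
`lev_rep`: `r` from `hρ.cong`, see `rep_cong` at the end of LibKS44/F1.lean.
-/

set_option autoImplicit false

open Matrix
open scoped MatrixGroups

namespace LV7

open KS44

variable {ι : Type} [Fintype ι] [DecidableEq ι]

private theorem C7_apply {q ℓ : ℕ} {ρ : Mat → Matrix ι ι ℤ} (hρ : MRep q ρ) (g : Dq q)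
    (v : ι → ZMod ℓ) : repq ℓ hρ g v = act ρ (ZMod ℓ) g.1 v := by
  funext i
  change ∑ j, ((ρ g.1).map (Int.castRingHom (ZMod ℓ))) i j * v j = ∑ j, ρ g.1 i j • v j
  refine Finset.sum_congr rfl fun j _ => ?_
  rw [zsmul_eq_mul]
  rfl

theorem el_rep {q ℓ : ℕ} {ρ : Mat → Matrix ι ι ℤ} (hρ : MRep q ρ) (g : Dq q) (v : ι → ZMod ℓ) :
    elq q ℓ g • (repq ℓ hρ).asModuleEquiv.symm v = (repq ℓ hρ).asModuleEquiv.symm (act ρ (ZMod ℓ) g.1 v) := by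
  rw [← C7_apply hρ g v, Representation.asModuleEquiv_symm_map_rho]
  rfl

private theorem C7_jj {q ℓ : ℕ} {ρ : Mat → Matrix ι ι ℤ} (hρ : MRep q ρ) (γ : SL(2, ℤ))
    (v : ι → ZMod ℓ) :
    jq q ℓ γ • (repq ℓ hρ).asModuleEquiv.symm v =
      (repq ℓ hρ).asModuleEquiv.symm (jG hρ (ZMod ℓ) γ • v) :=
  el_rep hρ (inclq q γ) v

/-- functions with values in the module -/
private noncomputable def C7_rs {q ℓ : ℕ} {ρ : Mat → Matrix ι ι ℤ} (hρ : MRep q ρ)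
    (u : SL(2, ℤ) → ι → ZMod ℓ) : SL(2, ℤ) → (repq ℓ hρ).asModule :=
  fun γ => (repq ℓ hρ).asModuleEquiv.symm (u γ)

private theorem C7_coc {q ℓ : ℕ} {ρ : Mat → Matrix ι ι ℤ} (hρ : MRep q ρ)
    (u : SL(2, ℤ) → ι → ZMod ℓ) :
    Coc (jq q ℓ) (repq ℓ hρ).asModule (C7_rs hρ u) ↔ Coc (jG hρ (ZMod ℓ)) (ι → ZMod ℓ) u := by
  have e : ∀ g h : SL(2, ℤ), C7_rs hρ u g + jq q ℓ g • C7_rs hρ u h =
      (repq ℓ hρ).asModuleEquiv.symm (u g + jG hρ (ZMod ℓ) g • u h) := by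
    intro g h
    rw [map_add, ← C7_jj hρ]
    rfl
  constructor
  · intro h1 g h
    have h2 := h1 g h
    rw [e] at h2
    exact (repq ℓ hρ).asModuleEquiv.symm.injective h2
  · intro h1 g h
    rw [e, ← h1 g h]
    rfl

private theorem C7_cob {q ℓ : ℕ} {ρ : Mat → Matrix ι ι ℤ} (hρ : MRep q ρ)
    (u : SL(2, ℤ) → ι → ZMod ℓ) :
    Cob (jq q ℓ) (repq ℓ hρ).asModule (C7_rs hρ u) ↔ Cob (jG hρ (ZMod ℓ)) (ι → ZMod ℓ) u := by
  have e : ∀ (m : ι → ZMod ℓ) (g : SL(2, ℤ)),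
      jq q ℓ g • (repq ℓ hρ).asModuleEquiv.symm m - (repq ℓ hρ).asModuleEquiv.symm m =
      (repq ℓ hρ).asModuleEquiv.symm (jG hρ (ZMod ℓ) g • m - m) := by
    intro m g
    rw [map_sub, ← C7_jj hρ]
  constructor
  · rintro ⟨m, hm⟩
    obtain ⟨m', rfl⟩ := (repq ℓ hρ).asModuleEquiv.symm.surjective m
    refine ⟨m', fun g => ?_⟩
    have h2 := hm g
    rw [e] at h2
    exact (repq ℓ hρ).asModuleEquiv.symm.injective h2
  · rintro ⟨m, hm⟩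
    refine ⟨(repq ℓ hρ).asModuleEquiv.symm m, fun g => ?_⟩
    rw [e, ← hm g]
    rfl

private theorem C7_T {q ℓ p : ℕ} {ρ : Mat → Matrix ι ι ℤ} (hρ : MRep q ρ)
    (cop : IsCoprime (p : ℤ) (q : ℤ)) {I : Type} [Fintype I] {α : I → Mat} (hα : IsReps p α)
    (u : SL(2, ℤ) → ι → ZMod ℓ) :
    (Tq ℓ cop hα).op (C7_rs hρ u) = C7_rs hρ ((TG hρ cop hα (ZMod ℓ)).op u) := by
  funext γ
  have h1 : (Tq ℓ cop hα).op (C7_rs hρ u) γ = ∑ i : I,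
      elq q ℓ ⟨(α i).adjugate, adj_memq cop hα i⟩ •
        (repq ℓ hρ).asModuleEquiv.symm (u (comp α i γ)) := rfl
  have h2 : C7_rs hρ ((TG hρ cop hα (ZMod ℓ)).op u) γ =
      (repq ℓ hρ).asModuleEquiv.symm (∑ i : I,
        act ρ (ZMod ℓ) (α i).adjugate (u (comp α i γ))) := rfl
  rw [h1, h2, map_sum]
  exact Finset.sum_congr rfl fun i _ => el_rep hρ _ _

private theorem C7_S {q ℓ p : ℕ} {ρ : Mat → Matrix ι ι ℤ} (hρ : MRep q ρ)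
    (cop : IsCoprime (p : ℤ) (q : ℤ)) (u : SL(2, ℤ) → ι → ZMod ℓ) :
    (Sq ℓ cop).op (C7_rs hρ u) = C7_rs hρ ((SG hρ cop (ZMod ℓ)).op u) := by
  funext γ
  have h1 : (Sq ℓ cop).op (C7_rs hρ u) γ = ∑ _i : Unit,
      elq q ℓ ⟨(p : ℤ) • 1, p_memq cop⟩ • (repq ℓ hρ).asModuleEquiv.symm (u γ) := rfl
  have h2 : C7_rs hρ ((SG hρ cop (ZMod ℓ)).op u) γ =
      (repq ℓ hρ).asModuleEquiv.symm (∑ _i : Unit, act ρ (ZMod ℓ) ((p : ℤ) • 1) (u γ)) := rfl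
  rw [h1, h2, map_sum]
  exact Finset.sum_congr rfl fun i _ => el_rep hρ _ _

private theorem C7_dsc {q ℓ p : ℕ} {ρ : Mat → Matrix ι ι ℤ} (hρ : MRep q ρ)
    (cop : IsCoprime (p : ℤ) (q : ℤ)) {I : Type} [Fintype I] {α : I → Mat} (hα : IsReps p α) (n : ℤ)
    (u : SL(2, ℤ) → ι → ZMod ℓ) :
    dsc (Tq ℓ cop hα) (Sq ℓ cop) n (C7_rs hρ u) =
      C7_rs hρ (dsc (TG hρ cop hα (ZMod ℓ)) (SG hρ cop (ZMod ℓ)) n u) := by
  funext γ
  unfold dsc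
  rw [C7_T hρ cop hα, C7_T hρ cop hα, C7_S hρ cop]
  change (repq ℓ hρ).asModuleEquiv.symm _ - n • (repq ℓ hρ).asModuleEquiv.symm _ =
    (repq ℓ hρ).asModuleEquiv.symm _
  rw [← map_zsmul, ← map_sub]

theorem inj_iff {q ℓ p : ℕ} {ρ : Mat → Matrix ι ι ℤ} (hρ : MRep q ρ) (cop : IsCoprime (p : ℤ) (q : ℤ)) {I : Type}
    [Fintype I] {α : I → Mat} (hα : IsReps p α) (n : ℤ) :
    Inj (repq ℓ hρ).asModule (Tq ℓ cop hα) (Sq ℓ cop) n ↔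
      Inj (ι → ZMod ℓ) (TG hρ cop hα (ZMod ℓ)) (SG hρ cop (ZMod ℓ)) n := by
  constructor
  · intro h u hu hd
    rw [← C7_cob hρ] at hd ⊢
    rw [← C7_dsc hρ cop hα] at hd
    exact h _ ((C7_coc hρ u).2 hu) hd
  · intro h u' hu hd
    obtain ⟨u, rfl⟩ : ∃ u : SL(2, ℤ) → ι → ZMod ℓ, C7_rs hρ u = u' :=
      ⟨fun γ => (repq ℓ hρ).asModuleEquiv (u' γ), funext fun γ =>
        (repq ℓ hρ).asModuleEquiv.symm_apply_apply (u' γ)⟩
    rw [C7_dsc hρ cop hα, C7_cob hρ] at hd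
    rw [C7_coc hρ] at hu
    rw [C7_cob hρ]
    exact h u hu hd

theorem lev_rep {N ℓ : ℕ} {ρ : Mat → Matrix ι ι ℤ} (hρ : RepN N ℓ ρ) :
    ∃ r, Lev (N * ℓ) ℓ (N * ℓ ^ r) (repq ℓ hρ.mrep).asModule := by
  obtain ⟨r, hr⟩ := hρ.cong
  refine ⟨r, fun g h hgh m => ?_⟩
  obtain ⟨v, rfl⟩ := (repq ℓ hρ.mrep).asModuleEquiv.symm.surjective m
  rw [el_rep, el_rep]
  congr 1
  funext i
  change ∑ j, ρ g.1 i j • v j = ∑ j, ρ h.1 i j • v j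
  refine Finset.sum_congr rfl fun j _ => ?_
  rw [zsmul_eq_mul, zsmul_eq_mul]
  congr 1
  have h1 := hr h.1 g.1 h.2 g.2 (fun i j => by
    have h2 := hgh i j
    rw [← neg_sub, dvd_neg]
    exact h2) i j
  exact (ZMod.intCast_eq_intCast_iff_dvd_sub _ _ _).2 h1

end LV7
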