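import Pool.Agent.LibLV7.C5
import Pool.Agent.LibLV7.C6

/-!
# LibLV7.C9 : general level, modulo `ℓ`
-/

set_option autoImplicit false

open Matrix
open scoped MatrixGroups

namespace LV7

open KS44

theorem level_mod {N ℓ p : ℕ} [NeZero (N * ℓ)] (hl : ℓ.Prime) (hp : p.Prime) (cop : IsCoprime (p : ℤ) ((N * ℓ : ℕ) : ℤ))
    (h1 : ¬ (ℓ : ℤ) ∣ (p : ℤ) - 1) (τ : SL(2, ℤ))
    (hH : Inj (GL (Fin 2) (ZMod (N * ℓ)) → ZMod ℓ) (TG (pm_rep (N * ℓ)) cop (alpha_reps τ p hp) (ZMod ℓ))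
      (SG (pm_rep (N * ℓ)) cop (ZMod ℓ)) (4 * p))
    {ι : Type} [Fintype ι] [DecidableEq ι] {ρ : Mat → Matrix ι ι ℤ} (hρ : RepN N ℓ ρ) :
    Inj (ι → ZMod ℓ) (TG hρ.mrep cop (alpha_reps τ p hp) (ZMod ℓ)) (SG hρ.mrep cop (ZMod ℓ)) (4 * p) := by
  obtain ⟨r, hr⟩ := lev_rep hρ
  have : NeZero ℓ := ⟨hl.ne_zero⟩
  have hfin : Finite (repq ℓ hρ.mrep).asModule :=
    Finite.of_equiv (ι → ZMod ℓ) (repq ℓ hρ.mrep).asModuleEquiv.symm.toEquiv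
  refine (inj_iff hρ.mrep cop (alpha_reps τ p hp) (4 * p)).mp ?_
  refine inj_allq hl _ _ _ (fun V _ _ _ hV => ?_) r _ hr
  exact inj_embed hl hp cop h1 τ ((inj_iff (pm_rep (N * ℓ)) cop (alpha_reps τ p hp) (4 * p)).mpr hH) V hV

end LV7
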