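import Pool.Agent.LibLV7.D1a

/-!
# certificates for `ℓ = 13` (generated)
-/

set_option autoImplicit false
set_option linter.style.longLine false

namespace LV7

instance fact_13 : Fact (Nat.Prime 13) := ⟨by norm_num⟩

theorem c_13_0_p : Cert 13 0 1 2 := by
  refine cert_of (σ := 1) (by decide) (by decide) 0
    [(4, 0), (0, 0), (0, 1), (0, 2), (0, 3), (0, 5), (0, 7), (0, 8), (0, 9), (2, 1), (2, 2), (2, 3), (1, 2), (1, 3)]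
    [[0, 0, 0, 0, 0, 0, 0, 0, 0, 0, 0, 0, 0, 1],
      [1, 0, 0, 0, 0, 0, 0, 0, 0, 0, 0, 0, 0, 1],
      [0, 1, 0, 0, 0, 0, 0, 0, 0, 0, 0, 0, 1, 0],
      [0, 0, 1, 0, 0, 0, 1, 0, 0, 0, 0, 0, 0, 0],
      [0, 0, 0, 1, 1, 0, 0, 0, 0, 0, 0, 0, 0, 0],
      [0, 0, 0, 0, 0, 2, 0, 0, 0, 0, 0, 0, 0, 0],
      [0, 0, 0, 0, 0, 0, 0, 1, 0, 0, 0, 1, 0, 0],
      [0, 0, 0, 0, 0, 0, 0, 0, 2, 0, 0, 0, 0, 0],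
      [0, 0, 0, 0, 0, 0, 0, 0, 0, 1, 1, 0, 0, 0],
      [0, 12, 0, 0, 0, 0, 0, 0, 0, 0, 0, 0, 1, 0],
      [0, 0, 12, 0, 0, 0, 0, 0, 0, 0, 0, 1, 0, 0],
      [0, 0, 0, 12, 0, 0, 0, 0, 0, 0, 1, 0, 0, 0],
      [0, 0, 1, 0, 1, 1, 0, 0, 0, 0, 0, 0, 0, 0],
      [0, 0, 0, 3, 0, 0, 0, 0, 0, 0, 0, 0, 0, 0]]
    [[12, 1, 0, 0, 0, 0, 0, 0, 0, 0, 0, 0, 0, 0],
      [0, 0, 7, 0, 0, 0, 0, 0, 0, 6, 0, 0, 0, 0],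
      [0, 0, 0, 0, 12, 6, 0, 0, 0, 0, 0, 0, 1, 9],
      [0, 0, 0, 0, 0, 0, 0, 0, 0, 0, 0, 0, 0, 9],
      [0, 0, 0, 0, 1, 0, 0, 0, 0, 0, 0, 0, 0, 4],
      [0, 0, 0, 0, 0, 7, 0, 0, 0, 0, 0, 0, 0, 0],
      [0, 0, 0, 1, 1, 7, 0, 0, 0, 0, 0, 0, 12, 4],
      [0, 0, 0, 0, 1, 7, 1, 0, 0, 0, 12, 0, 12, 4],
      [0, 0, 0, 0, 0, 0, 0, 7, 0, 0, 0, 0, 0, 0],
      [0, 0, 0, 0, 0, 0, 0, 0, 1, 0, 0, 12, 0, 4],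
      [0, 0, 0, 0, 0, 0, 0, 0, 0, 0, 0, 1, 0, 9],
      [0, 0, 0, 0, 12, 6, 0, 0, 0, 0, 1, 0, 1, 9],
      [0, 0, 7, 0, 0, 0, 0, 0, 0, 7, 0, 0, 0, 0],
      [1, 0, 0, 0, 0, 0, 0, 0, 0, 0, 0, 0, 0, 0]]
    [0, 0, 0, 0, 0, 0, 0, 0, 0, 0, 0, 0, 0, 0] (by decide) ?_ ?_ ?_ <;> decide +kernel

theorem c_13_0_m : Cert 13 0 (-1) 2 := by
  refine cert_of (σ := 12) (by decide) (by decide) 0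
    [(3, 0), (0, 0), (0, 1), (0, 2), (0, 3), (0, 5), (0, 7), (0, 8), (0, 9), (2, 2), (2, 3), (1, 0), (1, 1), (1, 2)]
    [[0, 0, 0, 0, 0, 0, 0, 0, 0, 0, 0, 0, 0, 2],
      [1, 0, 0, 0, 0, 0, 0, 0, 0, 0, 0, 0, 0, 1],
      [0, 1, 0, 0, 0, 0, 0, 0, 0, 0, 0, 0, 1, 0],
      [0, 0, 1, 0, 0, 0, 1, 0, 0, 0, 0, 0, 0, 0],
      [0, 0, 0, 1, 1, 0, 0, 0, 0, 0, 0, 0, 0, 0],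
      [0, 0, 0, 0, 0, 2, 0, 0, 0, 0, 0, 0, 0, 0],
      [0, 0, 0, 0, 0, 0, 0, 1, 0, 0, 0, 1, 0, 0],
      [0, 0, 0, 0, 0, 0, 0, 0, 2, 0, 0, 0, 0, 0],
      [0, 0, 0, 0, 0, 0, 0, 0, 0, 1, 1, 0, 0, 0],
      [0, 0, 1, 0, 0, 0, 0, 0, 0, 0, 0, 1, 0, 0],
      [0, 0, 0, 1, 0, 0, 0, 0, 0, 0, 1, 0, 0, 0],
      [1, 0, 0, 0, 0, 0, 0, 0, 0, 0, 0, 0, 1, 1],
      [0, 1, 0, 0, 0, 0, 1, 0, 0, 0, 0, 1, 0, 0],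
      [0, 0, 1, 0, 1, 1, 0, 0, 0, 0, 0, 0, 0, 0]]
    [[6, 1, 0, 0, 0, 0, 0, 0, 0, 0, 0, 0, 0, 0],
      [0, 1, 1, 0, 0, 0, 0, 0, 0, 0, 0, 12, 0, 0],
      [0, 7, 7, 7, 0, 0, 0, 0, 0, 7, 0, 6, 6, 0],
      [0, 7, 7, 7, 1, 7, 0, 0, 0, 7, 0, 6, 6, 12],
      [0, 6, 6, 6, 0, 6, 0, 0, 0, 6, 0, 7, 7, 1],
      [0, 0, 0, 0, 0, 7, 0, 0, 0, 0, 0, 0, 0, 0],
      [0, 6, 6, 7, 0, 0, 0, 0, 0, 6, 0, 7, 7, 0],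
      [0, 7, 7, 7, 0, 0, 1, 0, 0, 6, 0, 6, 6, 0],
      [0, 0, 0, 0, 0, 0, 0, 7, 0, 0, 0, 0, 0, 0],
      [0, 7, 7, 7, 1, 7, 0, 0, 1, 7, 12, 6, 6, 12],
      [0, 6, 6, 6, 12, 6, 0, 0, 0, 6, 1, 7, 7, 1],
      [0, 6, 6, 6, 0, 0, 0, 0, 0, 7, 0, 7, 7, 0],
      [0, 12, 0, 0, 0, 0, 0, 0, 0, 0, 0, 1, 0, 0],
      [7, 0, 0, 0, 0, 0, 0, 0, 0, 0, 0, 0, 0, 0]]
    [0, 0, 0, 0, 0, 0, 0, 0, 0, 0, 0, 0, 0, 0] (by decide) ?_ ?_ ?_ <;> decide +kernel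

theorem c_13_2_p : Cert 13 2 1 2 := by
  refine cert_of (σ := 1) (by decide) (by decide) 10
    [(4, 0), (5, 0), (0, 0), (0, 1), (0, 2), (0, 3), (0, 7), (0, 9), (2, 1), (2, 2), (2, 3), (2, 5), (1, 2)]
    [[0, 0, 0, 0, 0, 0, 0, 0, 0, 0, 0, 0, 0, 1],
      [0, 0, 1, 0, 0, 0, 0, 0, 0, 0, 0, 0, 0, 0],
      [1, 0, 0, 0, 0, 0, 0, 0, 0, 0, 0, 0, 0, 1],
      [0, 1, 0, 0, 0, 0, 0, 0, 0, 0, 0, 0, 1, 0],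
      [0, 0, 1, 0, 0, 0, 4, 0, 0, 0, 0, 0, 0, 0],
      [0, 0, 0, 1, 9, 0, 0, 0, 0, 0, 0, 0, 0, 0],
      [0, 0, 0, 0, 0, 0, 0, 1, 0, 0, 0, 10, 0, 0],
      [0, 0, 0, 0, 0, 0, 0, 0, 0, 1, 3, 0, 0, 0],
      [0, 12, 0, 0, 0, 0, 0, 0, 0, 0, 0, 0, 1, 0],
      [0, 0, 12, 0, 0, 0, 0, 0, 0, 0, 0, 1, 0, 0],
      [0, 0, 0, 12, 0, 0, 0, 0, 0, 0, 1, 0, 0, 0],
      [0, 0, 0, 0, 0, 12, 0, 0, 1, 0, 0, 0, 0, 0],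
      [0, 0, 1, 0, 9, 4, 0, 0, 0, 0, 0, 0, 0, 0]]
    [[12, 0, 1, 0, 0, 0, 0, 0, 0, 0, 0, 0, 0],
      [0, 0, 0, 7, 0, 0, 0, 0, 6, 0, 0, 0, 0],
      [0, 1, 0, 0, 0, 0, 0, 0, 0, 0, 0, 0, 0],
      [0, 0, 0, 0, 0, 0, 0, 0, 0, 0, 12, 0, 0],
      [0, 0, 0, 0, 0, 3, 0, 0, 0, 0, 3, 0, 0],
      [0, 3, 0, 0, 0, 3, 0, 0, 0, 0, 3, 0, 10],
      [0, 3, 0, 0, 10, 0, 0, 0, 0, 0, 0, 0, 0],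
      [0, 3, 0, 0, 0, 0, 1, 0, 0, 3, 0, 0, 0],
      [0, 3, 0, 0, 0, 3, 0, 0, 0, 0, 3, 1, 10],
      [0, 0, 0, 0, 0, 0, 0, 1, 0, 0, 0, 0, 0],
      [],
      [0, 1, 0, 0, 0, 0, 0, 0, 0, 1, 0, 0, 0],
      [0, 0, 0, 7, 0, 0, 0, 0, 7, 0, 0, 0, 0],
      [1, 0, 0, 0, 0, 0, 0, 0, 0, 0, 0, 0, 0]]
    [0, 0, 0, 12, 3, 3, 0, 0, 3, 3, 12, 0, 0, 0] (by decide) ?_ ?_ ?_ <;> decide +kernel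

theorem c_13_2_m : Cert 13 2 (-1) 2 := by
  refine cert_of (σ := 12) (by decide) (by decide) 10
    [(3, 0), (0, 0), (0, 1), (0, 2), (0, 3), (0, 7), (0, 9), (2, 2), (2, 3), (2, 5), (1, 0), (1, 1), (1, 2)]
    [[0, 0, 0, 0, 0, 0, 0, 0, 0, 0, 0, 0, 0, 2],
      [1, 0, 0, 0, 0, 0, 0, 0, 0, 0, 0, 0, 0, 1],
      [0, 1, 0, 0, 0, 0, 0, 0, 0, 0, 0, 0, 1, 0],
      [0, 0, 1, 0, 0, 0, 4, 0, 0, 0, 0, 0, 0, 0],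
      [0, 0, 0, 1, 9, 0, 0, 0, 0, 0, 0, 0, 0, 0],
      [0, 0, 0, 0, 0, 0, 0, 1, 0, 0, 0, 10, 0, 0],
      [0, 0, 0, 0, 0, 0, 0, 0, 0, 1, 3, 0, 0, 0],
      [0, 0, 1, 0, 0, 0, 0, 0, 0, 0, 0, 1, 0, 0],
      [0, 0, 0, 1, 0, 0, 0, 0, 0, 0, 1, 0, 0, 0],
      [0, 0, 0, 0, 0, 1, 0, 0, 1, 0, 0, 0, 0, 0],
      [1, 0, 0, 0, 0, 0, 0, 0, 0, 0, 0, 0, 1, 1],
      [0, 1, 0, 0, 0, 0, 4, 0, 0, 0, 0, 1, 0, 0],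
      [0, 0, 1, 0, 9, 4, 0, 0, 0, 0, 0, 0, 0, 0]]
    [[6, 1, 0, 0, 0, 0, 0, 0, 0, 0, 0, 0, 0],
      [0, 1, 1, 0, 0, 0, 0, 0, 0, 0, 12, 0, 0],
      [0, 7, 7, 7, 0, 0, 0, 7, 0, 0, 6, 6, 0],
      [0, 0, 0, 0, 0, 0, 0, 0, 1, 0, 0, 0, 0],
      [0, 0, 0, 0, 3, 0, 0, 0, 10, 0, 0, 0, 0],
      [0, 8, 8, 8, 3, 0, 0, 8, 10, 0, 5, 5, 10],
      [0, 8, 8, 5, 0, 0, 0, 8, 0, 0, 5, 5, 0],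
      [0, 5, 5, 5, 0, 1, 0, 8, 0, 0, 8, 8, 0],
      [0, 5, 5, 5, 10, 0, 0, 5, 3, 1, 8, 8, 3],
      [0, 0, 0, 0, 0, 0, 1, 0, 0, 0, 0, 0, 0],
      [],
      [0, 6, 6, 6, 0, 0, 0, 7, 0, 0, 7, 7, 0],
      [0, 12, 0, 0, 0, 0, 0, 0, 0, 0, 1, 0, 0],
      [7, 0, 0, 0, 0, 0, 0, 0, 0, 0, 0, 0, 0]]
    [0, 0, 0, 1, 10, 10, 0, 0, 3, 3, 12, 0, 0, 0] (by decide) ?_ ?_ ?_ <;> decide +kernel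

theorem c_13_4_p : Cert 13 4 1 2 := by
  refine cert_of (σ := 1) (by decide) (by decide) 0
    [(4, 0), (5, 0), (0, 0), (0, 1), (0, 2), (0, 3), (0, 5), (0, 7), (0, 8), (0, 9), (2, 1), (2, 2), (2, 3), (1, 2)]
    [[0, 0, 0, 0, 0, 0, 0, 0, 0, 0, 0, 0, 0, 1],
      [0, 0, 1, 0, 0, 0, 0, 0, 0, 0, 0, 0, 0, 0],
      [1, 0, 0, 0, 0, 0, 0, 0, 0, 0, 0, 0, 0, 1],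
      [0, 1, 0, 0, 0, 0, 0, 0, 0, 0, 0, 0, 1, 0],
      [0, 0, 1, 0, 0, 0, 3, 0, 0, 0, 0, 0, 0, 0],
      [0, 0, 0, 1, 3, 0, 0, 0, 0, 0, 0, 0, 0, 0],
      [0, 0, 0, 0, 0, 2, 0, 0, 0, 0, 0, 0, 0, 0],
      [0, 0, 0, 0, 0, 0, 0, 1, 0, 0, 0, 9, 0, 0],
      [0, 0, 0, 0, 0, 0, 0, 0, 2, 0, 0, 0, 0, 0],
      [0, 0, 0, 0, 0, 0, 0, 0, 0, 1, 9, 0, 0, 0],
      [0, 12, 0, 0, 0, 0, 0, 0, 0, 0, 0, 0, 1, 0],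
      [0, 0, 12, 0, 0, 0, 0, 0, 0, 0, 0, 1, 0, 0],
      [0, 0, 0, 12, 0, 0, 0, 0, 0, 0, 1, 0, 0, 0],
      [0, 0, 1, 0, 3, 3, 0, 0, 0, 0, 0, 0, 0, 0]]
    [[12, 0, 1, 0, 0, 0, 0, 0, 0, 0, 0, 0, 0, 0],
      [0, 0, 0, 7, 0, 0, 0, 0, 0, 0, 6, 0, 0, 0],
      [0, 1, 0, 0, 0, 0, 0, 0, 0, 0, 0, 0, 0, 0],
      [0, 1, 0, 0, 0, 1, 8, 0, 0, 0, 0, 0, 0, 12],
      [0, 4, 0, 0, 0, 0, 6, 0, 0, 0, 0, 0, 0, 9],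
      [0, 0, 0, 0, 0, 0, 7, 0, 0, 0, 0, 0, 0, 0],
      [0, 4, 0, 0, 9, 0, 0, 0, 0, 0, 0, 0, 0, 0],
      [0, 4, 0, 0, 0, 0, 0, 1, 0, 0, 0, 4, 0, 0],
      [0, 0, 0, 0, 0, 0, 0, 0, 7, 0, 0, 0, 0, 0],
      [0, 4, 0, 0, 0, 4, 6, 0, 0, 1, 0, 0, 4, 9],
      [0, 1, 0, 0, 0, 1, 8, 0, 0, 0, 0, 0, 1, 12],
      [0, 1, 0, 0, 0, 0, 0, 0, 0, 0, 0, 1, 0, 0],
      [0, 0, 0, 7, 0, 0, 0, 0, 0, 0, 7, 0, 0, 0],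
      [1, 0, 0, 0, 0, 0, 0, 0, 0, 0, 0, 0, 0, 0]]
    [0, 0, 0, 0, 0, 0, 0, 0, 0, 0, 0, 0, 0, 0] (by decide) ?_ ?_ ?_ <;> decide +kernel

theorem c_13_4_m : Cert 13 4 (-1) 2 := by
  refine cert_of (σ := 12) (by decide) (by decide) 0
    [(3, 0), (0, 0), (0, 1), (0, 2), (0, 3), (0, 5), (0, 7), (0, 8), (0, 9), (2, 2), (2, 3), (1, 0), (1, 1), (1, 2)]
    [[0, 0, 0, 0, 0, 0, 0, 0, 0, 0, 0, 0, 0, 2],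
      [1, 0, 0, 0, 0, 0, 0, 0, 0, 0, 0, 0, 0, 1],
      [0, 1, 0, 0, 0, 0, 0, 0, 0, 0, 0, 0, 1, 0],
      [0, 0, 1, 0, 0, 0, 3, 0, 0, 0, 0, 0, 0, 0],
      [0, 0, 0, 1, 3, 0, 0, 0, 0, 0, 0, 0, 0, 0],
      [0, 0, 0, 0, 0, 2, 0, 0, 0, 0, 0, 0, 0, 0],
      [0, 0, 0, 0, 0, 0, 0, 1, 0, 0, 0, 9, 0, 0],
      [0, 0, 0, 0, 0, 0, 0, 0, 2, 0, 0, 0, 0, 0],
      [0, 0, 0, 0, 0, 0, 0, 0, 0, 1, 9, 0, 0, 0],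
      [0, 0, 1, 0, 0, 0, 0, 0, 0, 0, 0, 1, 0, 0],
      [0, 0, 0, 1, 0, 0, 0, 0, 0, 0, 1, 0, 0, 0],
      [1, 0, 0, 0, 0, 0, 0, 0, 0, 0, 0, 0, 1, 1],
      [0, 1, 0, 0, 0, 0, 3, 0, 0, 0, 0, 1, 0, 0],
      [0, 0, 1, 0, 3, 3, 0, 0, 0, 0, 0, 0, 0, 0]]
    [[6, 1, 0, 0, 0, 0, 0, 0, 0, 0, 0, 0, 0, 0],
      [0, 1, 1, 0, 0, 0, 0, 0, 0, 0, 0, 12, 0, 0],
      [0, 7, 7, 7, 0, 0, 0, 0, 0, 7, 0, 6, 6, 0],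
      [0, 7, 7, 7, 1, 8, 0, 0, 0, 7, 0, 6, 6, 12],
      [0, 2, 2, 2, 0, 6, 0, 0, 0, 2, 0, 11, 11, 9],
      [0, 0, 0, 0, 0, 7, 0, 0, 0, 0, 0, 0, 0, 0],
      [0, 2, 2, 11, 0, 0, 0, 0, 0, 2, 0, 11, 11, 0],
      [0, 11, 11, 11, 0, 0, 1, 0, 0, 2, 0, 2, 2, 0],
      [0, 0, 0, 0, 0, 0, 0, 7, 0, 0, 0, 0, 0, 0],
      [0, 11, 11, 11, 9, 7, 0, 0, 1, 11, 4, 2, 2, 4],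
      [0, 6, 6, 6, 12, 5, 0, 0, 0, 6, 1, 7, 7, 1],
      [0, 6, 6, 6, 0, 0, 0, 0, 0, 7, 0, 7, 7, 0],
      [0, 12, 0, 0, 0, 0, 0, 0, 0, 0, 0, 1, 0, 0],
      [7, 0, 0, 0, 0, 0, 0, 0, 0, 0, 0, 0, 0, 0]]
    [0, 0, 0, 0, 0, 0, 0, 0, 0, 0, 0, 0, 0, 0] (by decide) ?_ ?_ ?_ <;> decide +kernel

theorem c_13_6_p : Cert 13 6 1 2 := by
  refine cert_of (σ := 1) (by decide) (by decide) 0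
    [(4, 0), (5, 0), (0, 0), (0, 1), (0, 2), (0, 3), (0, 7), (0, 9), (2, 1), (2, 2), (2, 3), (2, 5), (1, 2), (1, 3)]
    [[0, 0, 0, 0, 0, 0, 0, 0, 0, 0, 0, 0, 0, 1],
      [0, 0, 1, 0, 0, 0, 0, 0, 0, 0, 0, 0, 0, 0],
      [1, 0, 0, 0, 0, 0, 0, 0, 0, 0, 0, 0, 0, 1],
      [0, 1, 0, 0, 0, 0, 0, 0, 0, 0, 0, 0, 1, 0],
      [0, 0, 1, 0, 0, 0, 12, 0, 0, 0, 0, 0, 0, 0],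
      [0, 0, 0, 1, 1, 0, 0, 0, 0, 0, 0, 0, 0, 0],
      [0, 0, 0, 0, 0, 0, 0, 1, 0, 0, 0, 12, 0, 0],
      [0, 0, 0, 0, 0, 0, 0, 0, 0, 1, 1, 0, 0, 0],
      [0, 12, 0, 0, 0, 0, 0, 0, 0, 0, 0, 0, 1, 0],
      [0, 0, 12, 0, 0, 0, 0, 0, 0, 0, 0, 1, 0, 0],
      [0, 0, 0, 12, 0, 0, 0, 0, 0, 0, 1, 0, 0, 0],
      [0, 0, 0, 0, 0, 12, 0, 0, 1, 0, 0, 0, 0, 0],
      [0, 0, 1, 0, 1, 12, 0, 0, 0, 0, 0, 0, 0, 0],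
      [0, 0, 0, 3, 0, 0, 0, 0, 0, 0, 0, 0, 0, 0]]
    [[12, 0, 1, 0, 0, 0, 0, 0, 0, 0, 0, 0, 0, 0],
      [0, 0, 0, 7, 0, 0, 0, 0, 6, 0, 0, 0, 0, 0],
      [0, 1, 0, 0, 0, 0, 0, 0, 0, 0, 0, 0, 0, 0],
      [0, 0, 0, 0, 0, 0, 0, 0, 0, 0, 0, 0, 0, 9],
      [0, 0, 0, 0, 0, 1, 0, 0, 0, 0, 0, 0, 0, 4],
      [0, 1, 0, 0, 0, 1, 0, 0, 0, 0, 0, 0, 12, 4],
      [0, 1, 0, 0, 12, 0, 0, 0, 0, 0, 0, 0, 0, 0],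
      [0, 1, 0, 0, 0, 0, 1, 0, 0, 1, 0, 0, 0, 0],
      [0, 1, 0, 0, 0, 1, 0, 0, 0, 0, 0, 1, 12, 4],
      [0, 0, 0, 0, 0, 0, 0, 1, 0, 0, 12, 0, 0, 4],
      [0, 0, 0, 0, 0, 0, 0, 0, 0, 0, 1, 0, 0, 9],
      [0, 1, 0, 0, 0, 0, 0, 0, 0, 1, 0, 0, 0, 0],
      [0, 0, 0, 7, 0, 0, 0, 0, 7, 0, 0, 0, 0, 0],
      [1, 0, 0, 0, 0, 0, 0, 0, 0, 0, 0, 0, 0, 0]]
    [0, 0, 0, 0, 0, 0, 0, 0, 0, 0, 0, 0, 0, 0] (by decide) ?_ ?_ ?_ <;> decide +kernel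

theorem c_13_6_m : Cert 13 6 (-1) 2 := by
  refine cert_of (σ := 12) (by decide) (by decide) 0
    [(3, 0), (0, 0), (0, 1), (0, 2), (0, 3), (0, 7), (0, 9), (2, 2), (2, 3), (2, 5), (1, 0), (1, 1), (1, 2), (1, 3)]
    [[0, 0, 0, 0, 0, 0, 0, 0, 0, 0, 0, 0, 0, 2],
      [1, 0, 0, 0, 0, 0, 0, 0, 0, 0, 0, 0, 0, 1],
      [0, 1, 0, 0, 0, 0, 0, 0, 0, 0, 0, 0, 1, 0],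
      [0, 0, 1, 0, 0, 0, 12, 0, 0, 0, 0, 0, 0, 0],
      [0, 0, 0, 1, 1, 0, 0, 0, 0, 0, 0, 0, 0, 0],
      [0, 0, 0, 0, 0, 0, 0, 1, 0, 0, 0, 12, 0, 0],
      [0, 0, 0, 0, 0, 0, 0, 0, 0, 1, 1, 0, 0, 0],
      [0, 0, 1, 0, 0, 0, 0, 0, 0, 0, 0, 1, 0, 0],
      [0, 0, 0, 1, 0, 0, 0, 0, 0, 0, 1, 0, 0, 0],
      [0, 0, 0, 0, 0, 1, 0, 0, 1, 0, 0, 0, 0, 0],
      [1, 0, 0, 0, 0, 0, 0, 0, 0, 0, 0, 0, 1, 1],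
      [0, 1, 0, 0, 0, 0, 12, 0, 0, 0, 0, 1, 0, 0],
      [0, 0, 1, 0, 1, 12, 0, 0, 0, 0, 0, 0, 0, 0],
      [0, 0, 0, 3, 0, 0, 0, 0, 0, 0, 0, 0, 0, 0]]
    [[6, 1, 0, 0, 0, 0, 0, 0, 0, 0, 0, 0, 0, 0],
      [0, 1, 1, 0, 0, 0, 0, 0, 0, 0, 12, 0, 0, 0],
      [0, 7, 7, 7, 0, 0, 0, 7, 0, 0, 6, 6, 0, 0],
      [0, 0, 0, 0, 0, 0, 0, 0, 0, 0, 0, 0, 0, 9],
      [0, 0, 0, 0, 1, 0, 0, 0, 0, 0, 0, 0, 0, 4],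
      [0, 7, 7, 7, 1, 0, 0, 7, 0, 0, 6, 6, 12, 4],
      [0, 7, 7, 6, 0, 0, 0, 7, 0, 0, 6, 6, 0, 0],
      [0, 6, 6, 6, 0, 1, 0, 7, 0, 0, 7, 7, 0, 0],
      [0, 6, 6, 6, 12, 0, 0, 6, 0, 1, 7, 7, 1, 9],
      [0, 0, 0, 0, 0, 0, 1, 0, 12, 0, 0, 0, 0, 9],
      [0, 0, 0, 0, 0, 0, 0, 0, 1, 0, 0, 0, 0, 4],
      [0, 6, 6, 6, 0, 0, 0, 7, 0, 0, 7, 7, 0, 0],
      [0, 12, 0, 0, 0, 0, 0, 0, 0, 0, 1, 0, 0, 0],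
      [7, 0, 0, 0, 0, 0, 0, 0, 0, 0, 0, 0, 0, 0]]
    [0, 0, 0, 0, 0, 0, 0, 0, 0, 0, 0, 0, 0, 0] (by decide) ?_ ?_ ?_ <;> decide +kernel

theorem c_13_8_p : Cert 13 8 1 2 := by
  refine cert_of (σ := 1) (by decide) (by decide) 0
    [(4, 0), (5, 0), (0, 0), (0, 1), (0, 2), (0, 3), (0, 5), (0, 7), (0, 8), (0, 9), (2, 1), (2, 2), (2, 3), (1, 2)]
    [[0, 0, 0, 0, 0, 0, 0, 0, 0, 0, 0, 0, 0, 1],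
      [0, 0, 1, 0, 0, 0, 0, 0, 0, 0, 0, 0, 0, 0],
      [1, 0, 0, 0, 0, 0, 0, 0, 0, 0, 0, 0, 0, 1],
      [0, 1, 0, 0, 0, 0, 0, 0, 0, 0, 0, 0, 1, 0],
      [0, 0, 1, 0, 0, 0, 9, 0, 0, 0, 0, 0, 0, 0],
      [0, 0, 0, 1, 9, 0, 0, 0, 0, 0, 0, 0, 0, 0],
      [0, 0, 0, 0, 0, 2, 0, 0, 0, 0, 0, 0, 0, 0],
      [0, 0, 0, 0, 0, 0, 0, 1, 0, 0, 0, 3, 0, 0],
      [0, 0, 0, 0, 0, 0, 0, 0, 2, 0, 0, 0, 0, 0],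
      [0, 0, 0, 0, 0, 0, 0, 0, 0, 1, 3, 0, 0, 0],
      [0, 12, 0, 0, 0, 0, 0, 0, 0, 0, 0, 0, 1, 0],
      [0, 0, 12, 0, 0, 0, 0, 0, 0, 0, 0, 1, 0, 0],
      [0, 0, 0, 12, 0, 0, 0, 0, 0, 0, 1, 0, 0, 0],
      [0, 0, 1, 0, 9, 9, 0, 0, 0, 0, 0, 0, 0, 0]]
    [[12, 0, 1, 0, 0, 0, 0, 0, 0, 0, 0, 0, 0, 0],
      [0, 0, 0, 7, 0, 0, 0, 0, 0, 0, 6, 0, 0, 0],
      [0, 1, 0, 0, 0, 0, 0, 0, 0, 0, 0, 0, 0, 0],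
      [0, 1, 0, 0, 0, 1, 11, 0, 0, 0, 0, 0, 0, 12],
      [0, 10, 0, 0, 0, 0, 6, 0, 0, 0, 0, 0, 0, 3],
      [0, 0, 0, 0, 0, 0, 7, 0, 0, 0, 0, 0, 0, 0],
      [0, 10, 0, 0, 3, 0, 0, 0, 0, 0, 0, 0, 0, 0],
      [0, 10, 0, 0, 0, 0, 0, 1, 0, 0, 0, 10, 0, 0],
      [0, 0, 0, 0, 0, 0, 0, 0, 7, 0, 0, 0, 0, 0],
      [0, 10, 0, 0, 0, 10, 6, 0, 0, 1, 0, 0, 10, 3],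
      [0, 1, 0, 0, 0, 1, 11, 0, 0, 0, 0, 0, 1, 12],
      [0, 1, 0, 0, 0, 0, 0, 0, 0, 0, 0, 1, 0, 0],
      [0, 0, 0, 7, 0, 0, 0, 0, 0, 0, 7, 0, 0, 0],
      [1, 0, 0, 0, 0, 0, 0, 0, 0, 0, 0, 0, 0, 0]]
    [0, 0, 0, 0, 0, 0, 0, 0, 0, 0, 0, 0, 0, 0] (by decide) ?_ ?_ ?_ <;> decide +kernel

theorem c_13_8_m : Cert 13 8 (-1) 2 := by
  refine cert_of (σ := 12) (by decide) (by decide) 0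
    [(3, 0), (0, 0), (0, 1), (0, 2), (0, 3), (0, 5), (0, 7), (0, 8), (0, 9), (2, 2), (2, 3), (1, 0), (1, 1), (1, 2)]
    [[0, 0, 0, 0, 0, 0, 0, 0, 0, 0, 0, 0, 0, 2],
      [1, 0, 0, 0, 0, 0, 0, 0, 0, 0, 0, 0, 0, 1],
      [0, 1, 0, 0, 0, 0, 0, 0, 0, 0, 0, 0, 1, 0],
      [0, 0, 1, 0, 0, 0, 9, 0, 0, 0, 0, 0, 0, 0],
      [0, 0, 0, 1, 9, 0, 0, 0, 0, 0, 0, 0, 0, 0],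
      [0, 0, 0, 0, 0, 2, 0, 0, 0, 0, 0, 0, 0, 0],
      [0, 0, 0, 0, 0, 0, 0, 1, 0, 0, 0, 3, 0, 0],
      [0, 0, 0, 0, 0, 0, 0, 0, 2, 0, 0, 0, 0, 0],
      [0, 0, 0, 0, 0, 0, 0, 0, 0, 1, 3, 0, 0, 0],
      [0, 0, 1, 0, 0, 0, 0, 0, 0, 0, 0, 1, 0, 0],
      [0, 0, 0, 1, 0, 0, 0, 0, 0, 0, 1, 0, 0, 0],
      [1, 0, 0, 0, 0, 0, 0, 0, 0, 0, 0, 0, 1, 1],
      [0, 1, 0, 0, 0, 0, 9, 0, 0, 0, 0, 1, 0, 0],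
      [0, 0, 1, 0, 9, 9, 0, 0, 0, 0, 0, 0, 0, 0]]
    [[6, 1, 0, 0, 0, 0, 0, 0, 0, 0, 0, 0, 0, 0],
      [0, 1, 1, 0, 0, 0, 0, 0, 0, 0, 0, 12, 0, 0],
      [0, 7, 7, 7, 0, 0, 0, 0, 0, 7, 0, 6, 6, 0],
      [0, 7, 7, 7, 1, 11, 0, 0, 0, 7, 0, 6, 6, 12],
      [0, 5, 5, 5, 0, 6, 0, 0, 0, 5, 0, 8, 8, 3],
      [0, 0, 0, 0, 0, 7, 0, 0, 0, 0, 0, 0, 0, 0],
      [0, 5, 5, 8, 0, 0, 0, 0, 0, 5, 0, 8, 8, 0],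
      [0, 8, 8, 8, 0, 0, 1, 0, 0, 5, 0, 5, 5, 0],
      [0, 0, 0, 0, 0, 0, 0, 7, 0, 0, 0, 0, 0, 0],
      [0, 8, 8, 8, 3, 7, 0, 0, 1, 8, 10, 5, 5, 10],
      [0, 6, 6, 6, 12, 2, 0, 0, 0, 6, 1, 7, 7, 1],
      [0, 6, 6, 6, 0, 0, 0, 0, 0, 7, 0, 7, 7, 0],
      [0, 12, 0, 0, 0, 0, 0, 0, 0, 0, 0, 1, 0, 0],
      [7, 0, 0, 0, 0, 0, 0, 0, 0, 0, 0, 0, 0, 0]]
    [0, 0, 0, 0, 0, 0, 0, 0, 0, 0, 0, 0, 0, 0] (by decide) ?_ ?_ ?_ <;> decide +kernel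

theorem c_13_10_p : Cert 13 10 1 2 := by
  refine cert_of (σ := 1) (by decide) (by decide) 10
    [(4, 0), (5, 0), (0, 0), (0, 1), (0, 2), (0, 3), (0, 7), (0, 9), (2, 1), (2, 2), (2, 3), (2, 5), (1, 2)]
    [[0, 0, 0, 0, 0, 0, 0, 0, 0, 0, 0, 0, 0, 1],
      [0, 0, 1, 0, 0, 0, 0, 0, 0, 0, 0, 0, 0, 0],
      [1, 0, 0, 0, 0, 0, 0, 0, 0, 0, 0, 0, 0, 1],
      [0, 1, 0, 0, 0, 0, 0, 0, 0, 0, 0, 0, 1, 0],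
      [0, 0, 1, 0, 0, 0, 10, 0, 0, 0, 0, 0, 0, 0],
      [0, 0, 0, 1, 3, 0, 0, 0, 0, 0, 0, 0, 0, 0],
      [0, 0, 0, 0, 0, 0, 0, 1, 0, 0, 0, 4, 0, 0],
      [0, 0, 0, 0, 0, 0, 0, 0, 0, 1, 9, 0, 0, 0],
      [0, 12, 0, 0, 0, 0, 0, 0, 0, 0, 0, 0, 1, 0],
      [0, 0, 12, 0, 0, 0, 0, 0, 0, 0, 0, 1, 0, 0],
      [0, 0, 0, 12, 0, 0, 0, 0, 0, 0, 1, 0, 0, 0],
      [0, 0, 0, 0, 0, 12, 0, 0, 1, 0, 0, 0, 0, 0],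
      [0, 0, 1, 0, 3, 10, 0, 0, 0, 0, 0, 0, 0, 0]]
    [[12, 0, 1, 0, 0, 0, 0, 0, 0, 0, 0, 0, 0],
      [0, 0, 0, 7, 0, 0, 0, 0, 6, 0, 0, 0, 0],
      [0, 1, 0, 0, 0, 0, 0, 0, 0, 0, 0, 0, 0],
      [0, 0, 0, 0, 0, 0, 0, 0, 0, 0, 12, 0, 0],
      [0, 0, 0, 0, 0, 9, 0, 0, 0, 0, 9, 0, 0],
      [0, 9, 0, 0, 0, 9, 0, 0, 0, 0, 9, 0, 4],
      [0, 9, 0, 0, 4, 0, 0, 0, 0, 0, 0, 0, 0],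
      [0, 9, 0, 0, 0, 0, 1, 0, 0, 9, 0, 0, 0],
      [0, 9, 0, 0, 0, 9, 0, 0, 0, 0, 9, 1, 4],
      [0, 0, 0, 0, 0, 0, 0, 1, 0, 0, 0, 0, 0],
      [],
      [0, 1, 0, 0, 0, 0, 0, 0, 0, 1, 0, 0, 0],
      [0, 0, 0, 7, 0, 0, 0, 0, 7, 0, 0, 0, 0],
      [1, 0, 0, 0, 0, 0, 0, 0, 0, 0, 0, 0, 0]]
    [0, 0, 0, 12, 9, 9, 0, 0, 9, 9, 12, 0, 0, 0] (by decide) ?_ ?_ ?_ <;> decide +kernel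

theorem c_13_10_m : Cert 13 10 (-1) 2 := by
  refine cert_of (σ := 12) (by decide) (by decide) 10
    [(3, 0), (0, 0), (0, 1), (0, 2), (0, 3), (0, 7), (0, 9), (2, 2), (2, 3), (2, 5), (1, 0), (1, 1), (1, 2)]
    [[0, 0, 0, 0, 0, 0, 0, 0, 0, 0, 0, 0, 0, 2],
      [1, 0, 0, 0, 0, 0, 0, 0, 0, 0, 0, 0, 0, 1],
      [0, 1, 0, 0, 0, 0, 0, 0, 0, 0, 0, 0, 1, 0],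
      [0, 0, 1, 0, 0, 0, 10, 0, 0, 0, 0, 0, 0, 0],
      [0, 0, 0, 1, 3, 0, 0, 0, 0, 0, 0, 0, 0, 0],
      [0, 0, 0, 0, 0, 0, 0, 1, 0, 0, 0, 4, 0, 0],
      [0, 0, 0, 0, 0, 0, 0, 0, 0, 1, 9, 0, 0, 0],
      [0, 0, 1, 0, 0, 0, 0, 0, 0, 0, 0, 1, 0, 0],
      [0, 0, 0, 1, 0, 0, 0, 0, 0, 0, 1, 0, 0, 0],
      [0, 0, 0, 0, 0, 1, 0, 0, 1, 0, 0, 0, 0, 0],
      [1, 0, 0, 0, 0, 0, 0, 0, 0, 0, 0, 0, 1, 1],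
      [0, 1, 0, 0, 0, 0, 10, 0, 0, 0, 0, 1, 0, 0],
      [0, 0, 1, 0, 3, 10, 0, 0, 0, 0, 0, 0, 0, 0]]
    [[6, 1, 0, 0, 0, 0, 0, 0, 0, 0, 0, 0, 0],
      [0, 1, 1, 0, 0, 0, 0, 0, 0, 0, 12, 0, 0],
      [0, 7, 7, 7, 0, 0, 0, 7, 0, 0, 6, 6, 0],
      [0, 0, 0, 0, 0, 0, 0, 0, 1, 0, 0, 0, 0],
      [0, 0, 0, 0, 9, 0, 0, 0, 4, 0, 0, 0, 0],
      [0, 11, 11, 11, 9, 0, 0, 11, 4, 0, 2, 2, 4],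
      [0, 11, 11, 2, 0, 0, 0, 11, 0, 0, 2, 2, 0],
      [0, 2, 2, 2, 0, 1, 0, 11, 0, 0, 11, 11, 0],
      [0, 2, 2, 2, 4, 0, 0, 2, 9, 1, 11, 11, 9],
      [0, 0, 0, 0, 0, 0, 1, 0, 0, 0, 0, 0, 0],
      [],
      [0, 6, 6, 6, 0, 0, 0, 7, 0, 0, 7, 7, 0],
      [0, 12, 0, 0, 0, 0, 0, 0, 0, 0, 1, 0, 0],
      [7, 0, 0, 0, 0, 0, 0, 0, 0, 0, 0, 0, 0]]
    [0, 0, 0, 1, 4, 4, 0, 0, 9, 9, 12, 0, 0, 0] (by decide) ?_ ?_ ?_ <;> decide +kernel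

end LV7
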