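import Pool.Agent.LibLV7.D1a

/-!
# certificates for `ℓ = 17` (generated)
-/

set_option autoImplicit false
set_option linter.style.longLine false

namespace LV7

instance fact_17 : Fact (Nat.Prime 17) := ⟨by norm_num⟩

theorem c_17_0_p : Cert 17 0 1 3 := by
  refine cert_of (σ := 1) (by decide) (by decide) 15
    [(4, 0), (0, 0), (0, 1), (0, 2), (0, 3), (0, 4), (0, 5), (0, 6), (0, 7), (0, 9), (0, 13), (2, 1), (2, 2), (2, 3), (2, 5), (1, 2), (1, 3)]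
    [[0, 0, 0, 0, 0, 0, 0, 0, 0, 0, 0, 0, 0, 0, 0, 0, 0, 1],
      [1, 0, 0, 0, 0, 0, 0, 0, 0, 0, 0, 0, 0, 0, 0, 0, 0, 1],
      [0, 1, 0, 0, 0, 0, 0, 0, 0, 0, 0, 0, 0, 0, 0, 0, 1, 0],
      [0, 0, 1, 0, 0, 0, 0, 0, 1, 0, 0, 0, 0, 0, 0, 0, 0, 0],
      [0, 0, 0, 1, 0, 0, 0, 0, 0, 0, 0, 1, 0, 0, 0, 0, 0, 0],
      [0, 0, 0, 0, 2, 0, 0, 0, 0, 0, 0, 0, 0, 0, 0, 0, 0, 0],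
      [0, 0, 0, 0, 0, 1, 0, 0, 0, 0, 1, 0, 0, 0, 0, 0, 0, 0],
      [0, 0, 0, 0, 0, 0, 1, 0, 0, 0, 0, 0, 0, 0, 1, 0, 0, 0],
      [0, 0, 0, 0, 0, 0, 0, 1, 0, 0, 0, 0, 1, 0, 0, 0, 0, 0],
      [0, 0, 0, 0, 0, 0, 0, 0, 0, 1, 0, 0, 0, 0, 0, 1, 0, 0],
      [0, 0, 0, 0, 0, 0, 0, 0, 0, 0, 0, 0, 0, 2, 0, 0, 0, 0],
      [0, 16, 0, 0, 0, 0, 0, 0, 0, 0, 0, 0, 0, 0, 0, 0, 1, 0],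
      [0, 0, 16, 0, 0, 0, 0, 0, 0, 0, 0, 0, 0, 0, 0, 1, 0, 0],
      [0, 0, 0, 16, 0, 0, 0, 0, 0, 0, 0, 0, 0, 0, 1, 0, 0, 0],
      [0, 0, 0, 0, 0, 16, 0, 0, 0, 0, 0, 0, 1, 0, 0, 0, 0, 0],
      [0, 0, 1, 0, 0, 0, 0, 1, 0, 0, 0, 1, 0, 0, 0, 0, 0, 0],
      [0, 0, 0, 1, 1, 0, 0, 0, 0, 0, 1, 0, 0, 0, 0, 0, 0, 0]]
    [[16, 1, 0, 0, 0, 0, 0, 0, 0, 0, 0, 0, 0, 0, 0, 0, 0],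
      [0, 0, 9, 0, 0, 0, 0, 0, 0, 0, 0, 8, 0, 0, 0, 0, 0],
      [0, 0, 0, 0, 0, 0, 0, 0, 0, 0, 0, 0, 16, 0, 0, 0, 0],
      [0, 0, 0, 0, 9, 4, 8, 0, 9, 0, 0, 0, 8, 0, 8, 8, 9],
      [0, 0, 0, 0, 0, 9, 0, 0, 0, 0, 0, 0, 0, 0, 0, 0, 0],
      [0, 0, 0, 0, 9, 13, 9, 0, 9, 0, 0, 0, 8, 0, 8, 8, 8],
      [0, 0, 0, 0, 8, 13, 9, 1, 8, 0, 0, 0, 9, 16, 9, 9, 8],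
      [0, 0, 0, 0, 8, 4, 8, 0, 9, 0, 0, 0, 9, 0, 8, 9, 9],
      [0, 0, 0, 1, 0, 0, 0, 0, 0, 0, 0, 0, 1, 0, 0, 0, 0],
      [0, 0, 0, 0, 0, 0, 0, 0, 0, 1, 0, 0, 0, 0, 0, 0, 0],
      [0, 0, 0, 0, 8, 4, 9, 0, 8, 0, 0, 0, 9, 0, 9, 9, 9],
      [0, 0, 0, 0, 9, 13, 9, 0, 8, 0, 0, 0, 9, 0, 9, 9, 8],
      [0, 0, 0, 0, 9, 13, 9, 0, 9, 0, 0, 0, 8, 0, 9, 8, 8],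
      [0, 0, 0, 0, 0, 0, 0, 0, 0, 0, 9, 0, 0, 0, 0, 0, 0],
      [0, 0, 0, 0, 9, 4, 8, 0, 9, 0, 0, 0, 8, 1, 8, 8, 9],
      [],
      [0, 0, 9, 0, 0, 0, 0, 0, 0, 0, 0, 9, 0, 0, 0, 0, 0],
      [1, 0, 0, 0, 0, 0, 0, 0, 0, 0, 0, 0, 0, 0, 0, 0, 0]]
    [0, 0, 16, 8, 0, 8, 9, 9, 1, 1, 9, 9, 8, 0, 8, 16, 0, 0] (by decide) ?_ ?_ ?_ <;> decide +kernel

theorem c_17_0_m : Cert 17 0 (-1) 3 := by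
  refine cert_of (σ := 16) (by decide) (by decide) 14
    [(3, 0), (0, 0), (0, 1), (0, 2), (0, 3), (0, 4), (0, 5), (0, 6), (0, 7), (0, 9), (0, 13), (2, 2), (2, 3), (2, 5), (1, 0), (1, 1), (1, 2)]
    [[0, 0, 0, 0, 0, 0, 0, 0, 0, 0, 0, 0, 0, 0, 0, 0, 0, 2],
      [1, 0, 0, 0, 0, 0, 0, 0, 0, 0, 0, 0, 0, 0, 0, 0, 0, 1],
      [0, 1, 0, 0, 0, 0, 0, 0, 0, 0, 0, 0, 0, 0, 0, 0, 1, 0],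
      [0, 0, 1, 0, 0, 0, 0, 0, 1, 0, 0, 0, 0, 0, 0, 0, 0, 0],
      [0, 0, 0, 1, 0, 0, 0, 0, 0, 0, 0, 1, 0, 0, 0, 0, 0, 0],
      [0, 0, 0, 0, 2, 0, 0, 0, 0, 0, 0, 0, 0, 0, 0, 0, 0, 0],
      [0, 0, 0, 0, 0, 1, 0, 0, 0, 0, 1, 0, 0, 0, 0, 0, 0, 0],
      [0, 0, 0, 0, 0, 0, 1, 0, 0, 0, 0, 0, 0, 0, 1, 0, 0, 0],
      [0, 0, 0, 0, 0, 0, 0, 1, 0, 0, 0, 0, 1, 0, 0, 0, 0, 0],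
      [0, 0, 0, 0, 0, 0, 0, 0, 0, 1, 0, 0, 0, 0, 0, 1, 0, 0],
      [0, 0, 0, 0, 0, 0, 0, 0, 0, 0, 0, 0, 0, 2, 0, 0, 0, 0],
      [0, 0, 1, 0, 0, 0, 0, 0, 0, 0, 0, 0, 0, 0, 0, 1, 0, 0],
      [0, 0, 0, 1, 0, 0, 0, 0, 0, 0, 0, 0, 0, 0, 1, 0, 0, 0],
      [0, 0, 0, 0, 0, 1, 0, 0, 0, 0, 0, 0, 1, 0, 0, 0, 0, 0],
      [1, 0, 0, 0, 0, 0, 0, 0, 0, 0, 0, 0, 0, 0, 0, 0, 1, 1],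
      [0, 1, 0, 0, 0, 0, 0, 0, 1, 0, 0, 0, 0, 0, 0, 1, 0, 0],
      [0, 0, 1, 0, 0, 0, 0, 1, 0, 0, 0, 1, 0, 0, 0, 0, 0, 0]]
    [[8, 1, 0, 0, 0, 0, 0, 0, 0, 0, 0, 0, 0, 0, 0, 0, 0],
      [0, 1, 1, 0, 0, 0, 0, 0, 0, 0, 0, 0, 0, 0, 16, 0, 0],
      [0, 9, 9, 9, 0, 0, 0, 0, 0, 0, 0, 9, 0, 0, 8, 8, 0],
      [0, 0, 0, 0, 0, 0, 0, 0, 0, 0, 0, 0, 1, 0, 0, 0, 0],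
      [0, 0, 0, 0, 0, 9, 0, 0, 0, 0, 0, 0, 0, 0, 0, 0, 0],
      [0, 8, 8, 8, 16, 0, 0, 0, 16, 0, 0, 8, 1, 1, 9, 9, 1],
      [0, 0, 0, 0, 0, 0, 0, 1, 0, 0, 0, 0, 0, 0, 0, 0, 0],
      [0, 8, 8, 8, 16, 0, 0, 0, 0, 0, 0, 8, 1, 0, 9, 9, 1],
      [0, 8, 8, 9, 0, 0, 0, 0, 0, 0, 0, 8, 0, 0, 9, 9, 0],
      [0, 9, 9, 9, 0, 0, 0, 0, 0, 1, 0, 8, 0, 0, 8, 8, 0],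
      [0, 9, 9, 9, 1, 0, 1, 0, 1, 0, 0, 9, 16, 16, 8, 8, 16],
      [0, 0, 0, 0, 1, 0, 0, 0, 0, 0, 0, 0, 16, 0, 0, 0, 0],
      [0, 9, 9, 9, 1, 0, 0, 0, 1, 0, 0, 9, 16, 0, 8, 8, 16],
      [0, 0, 0, 0, 0, 0, 0, 0, 0, 0, 9, 0, 0, 0, 0, 0, 0],
      [],
      [0, 8, 8, 8, 0, 0, 0, 0, 0, 0, 0, 9, 0, 0, 9, 9, 0],
      [0, 16, 0, 0, 0, 0, 0, 0, 0, 0, 0, 0, 0, 0, 1, 0, 0],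
      [9, 0, 0, 0, 0, 0, 0, 0, 0, 0, 0, 0, 0, 0, 0, 0, 0]]
    [0, 0, 0, 1, 0, 1, 1, 1, 0, 0, 16, 16, 16, 0, 16, 0, 0, 0] (by decide) ?_ ?_ ?_ <;> decide +kernel

theorem c_17_2_p : Cert 17 2 1 3 := by
  refine cert_of (σ := 1) (by decide) (by decide) 15
    [(4, 0), (5, 0), (0, 0), (0, 1), (0, 2), (0, 3), (0, 5), (0, 6), (0, 7), (0, 9), (2, 1), (2, 2), (2, 3), (2, 4), (2, 5), (1, 2), (1, 3)]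
    [[0, 0, 0, 0, 0, 0, 0, 0, 0, 0, 0, 0, 0, 0, 0, 0, 0, 1],
      [0, 0, 0, 1, 0, 0, 0, 0, 0, 0, 0, 0, 0, 0, 0, 0, 0, 0],
      [1, 0, 0, 0, 0, 0, 0, 0, 0, 0, 0, 0, 0, 0, 0, 0, 0, 1],
      [0, 1, 0, 0, 0, 0, 0, 0, 0, 0, 0, 0, 0, 0, 0, 0, 1, 0],
      [0, 0, 1, 0, 0, 0, 0, 0, 4, 0, 0, 0, 0, 0, 0, 0, 0, 0],
      [0, 0, 0, 1, 0, 0, 0, 0, 0, 0, 0, 9, 0, 0, 0, 0, 0, 0],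
      [0, 0, 0, 0, 0, 1, 0, 0, 0, 0, 8, 0, 0, 0, 0, 0, 0, 0],
      [0, 0, 0, 0, 0, 0, 1, 0, 0, 0, 0, 0, 0, 0, 2, 0, 0, 0],
      [0, 0, 0, 0, 0, 0, 0, 1, 0, 0, 0, 0, 15, 0, 0, 0, 0, 0],
      [0, 0, 0, 0, 0, 0, 0, 0, 0, 1, 0, 0, 0, 0, 0, 13, 0, 0],
      [0, 16, 0, 0, 0, 0, 0, 0, 0, 0, 0, 0, 0, 0, 0, 0, 1, 0],
      [0, 0, 16, 0, 0, 0, 0, 0, 0, 0, 0, 0, 0, 0, 0, 1, 0, 0],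
      [0, 0, 0, 16, 0, 0, 0, 0, 0, 0, 0, 0, 0, 0, 1, 0, 0, 0],
      [0, 0, 0, 0, 16, 0, 0, 0, 0, 0, 0, 0, 0, 1, 0, 0, 0, 0],
      [0, 0, 0, 0, 0, 16, 0, 0, 0, 0, 0, 0, 1, 0, 0, 0, 0, 0],
      [0, 0, 1, 0, 0, 0, 0, 4, 0, 0, 0, 9, 0, 0, 0, 0, 0, 0],
      [0, 0, 0, 1, 16, 0, 0, 0, 0, 0, 9, 0, 0, 0, 0, 0, 0, 0]]
    [[16, 0, 1, 0, 0, 0, 0, 0, 0, 0, 0, 0, 0, 0, 0, 0, 0],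
      [0, 0, 0, 9, 0, 0, 0, 0, 0, 0, 8, 0, 0, 0, 0, 0, 0],
      [0, 0, 0, 0, 0, 0, 0, 0, 0, 0, 0, 16, 0, 0, 0, 0, 0],
      [0, 1, 0, 0, 0, 0, 0, 0, 0, 0, 0, 0, 0, 0, 0, 0, 0],
      [0, 16, 0, 0, 0, 2, 16, 0, 8, 0, 0, 15, 0, 0, 16, 15, 16],
      [0, 15, 0, 0, 0, 2, 0, 0, 8, 0, 0, 15, 0, 0, 16, 15, 0],
      [0, 15, 0, 0, 0, 0, 0, 1, 0, 0, 0, 0, 15, 0, 0, 0, 0],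
      [0, 13, 0, 0, 0, 4, 0, 0, 0, 0, 0, 13, 0, 0, 0, 13, 0],
      [0, 0, 0, 0, 13, 0, 0, 0, 0, 0, 0, 13, 0, 0, 0, 0, 0],
      [0, 0, 0, 0, 0, 0, 0, 0, 0, 1, 0, 0, 0, 0, 0, 0, 0],
      [0, 13, 0, 0, 0, 4, 15, 0, 16, 0, 0, 13, 0, 0, 15, 13, 0],
      [0, 15, 0, 0, 0, 2, 0, 0, 0, 0, 0, 0, 0, 0, 0, 0, 0],
      [0, 15, 0, 0, 0, 2, 0, 0, 8, 0, 0, 15, 0, 0, 0, 15, 0],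
      [0, 16, 0, 0, 0, 2, 16, 0, 8, 0, 0, 15, 0, 1, 16, 15, 16],
      [0, 1, 0, 0, 0, 0, 0, 0, 0, 0, 0, 0, 1, 0, 0, 0, 0],
      [],
      [0, 0, 0, 9, 0, 0, 0, 0, 0, 0, 9, 0, 0, 0, 0, 0, 0],
      [1, 0, 0, 0, 0, 0, 0, 0, 0, 0, 0, 0, 0, 0, 0, 0, 0]]
    [0, 0, 16, 0, 15, 15, 0, 13, 13, 13, 13, 0, 15, 15, 0, 16, 0, 0] (by decide) ?_ ?_ ?_ <;> decide +kernel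

theorem c_17_2_m : Cert 17 2 (-1) 3 := by
  refine cert_of (σ := 16) (by decide) (by decide) 14
    [(3, 0), (0, 0), (0, 1), (0, 2), (0, 3), (0, 5), (0, 6), (0, 7), (0, 9), (2, 2), (2, 3), (2, 4), (2, 5), (1, 0), (1, 1), (1, 2), (1, 3)]
    [[0, 0, 0, 0, 0, 0, 0, 0, 0, 0, 0, 0, 0, 0, 0, 0, 0, 2],
      [1, 0, 0, 0, 0, 0, 0, 0, 0, 0, 0, 0, 0, 0, 0, 0, 0, 1],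
      [0, 1, 0, 0, 0, 0, 0, 0, 0, 0, 0, 0, 0, 0, 0, 0, 1, 0],
      [0, 0, 1, 0, 0, 0, 0, 0, 4, 0, 0, 0, 0, 0, 0, 0, 0, 0],
      [0, 0, 0, 1, 0, 0, 0, 0, 0, 0, 0, 9, 0, 0, 0, 0, 0, 0],
      [0, 0, 0, 0, 0, 1, 0, 0, 0, 0, 8, 0, 0, 0, 0, 0, 0, 0],
      [0, 0, 0, 0, 0, 0, 1, 0, 0, 0, 0, 0, 0, 0, 2, 0, 0, 0],
      [0, 0, 0, 0, 0, 0, 0, 1, 0, 0, 0, 0, 15, 0, 0, 0, 0, 0],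
      [0, 0, 0, 0, 0, 0, 0, 0, 0, 1, 0, 0, 0, 0, 0, 13, 0, 0],
      [0, 0, 1, 0, 0, 0, 0, 0, 0, 0, 0, 0, 0, 0, 0, 1, 0, 0],
      [0, 0, 0, 1, 0, 0, 0, 0, 0, 0, 0, 0, 0, 0, 1, 0, 0, 0],
      [0, 0, 0, 0, 1, 0, 0, 0, 0, 0, 0, 0, 0, 1, 0, 0, 0, 0],
      [0, 0, 0, 0, 0, 1, 0, 0, 0, 0, 0, 0, 1, 0, 0, 0, 0, 0],
      [1, 0, 0, 0, 0, 0, 0, 0, 0, 0, 0, 0, 0, 0, 0, 0, 1, 1],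
      [0, 1, 0, 0, 0, 0, 0, 0, 4, 0, 0, 0, 0, 0, 0, 1, 0, 0],
      [0, 0, 1, 0, 0, 0, 0, 4, 0, 0, 0, 9, 0, 0, 0, 0, 0, 0],
      [0, 0, 0, 1, 16, 0, 0, 0, 0, 0, 9, 0, 0, 0, 0, 0, 0, 0]]
    [[8, 1, 0, 0, 0, 0, 0, 0, 0, 0, 0, 0, 0, 0, 0, 0, 0],
      [0, 1, 1, 0, 0, 0, 0, 0, 0, 0, 0, 0, 0, 16, 0, 0, 0],
      [0, 9, 9, 9, 0, 0, 0, 0, 0, 9, 0, 0, 0, 8, 8, 0, 0],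
      [0, 0, 0, 0, 0, 0, 0, 0, 0, 0, 1, 0, 0, 0, 0, 0, 0],
      [0, 16, 16, 16, 15, 16, 0, 9, 0, 16, 3, 0, 1, 1, 1, 2, 16],
      [0, 16, 16, 16, 15, 0, 0, 9, 0, 16, 2, 0, 1, 1, 1, 2, 0],
      [0, 0, 0, 0, 0, 0, 1, 0, 0, 0, 0, 0, 0, 0, 0, 0, 0],
      [0, 2, 2, 2, 4, 0, 0, 0, 0, 2, 13, 0, 0, 15, 15, 13, 0],
      [0, 2, 2, 15, 0, 0, 0, 0, 0, 2, 0, 0, 0, 15, 15, 0, 0],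
      [0, 15, 15, 15, 0, 0, 0, 0, 1, 2, 0, 0, 0, 2, 2, 0, 0],
      [0, 15, 15, 15, 13, 15, 0, 1, 0, 15, 4, 0, 2, 2, 2, 4, 0],
      [0, 0, 0, 0, 2, 0, 0, 0, 0, 0, 15, 0, 0, 0, 0, 0, 0],
      [0, 1, 1, 1, 2, 0, 0, 8, 0, 1, 15, 0, 0, 16, 16, 15, 0],
      [0, 1, 1, 1, 2, 1, 0, 8, 0, 1, 14, 1, 16, 16, 16, 15, 1],
      [],
      [0, 8, 8, 8, 0, 0, 0, 0, 0, 9, 0, 0, 0, 9, 9, 0, 0],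
      [0, 16, 0, 0, 0, 0, 0, 0, 0, 0, 0, 0, 0, 1, 0, 0, 0],
      [9, 0, 0, 0, 0, 0, 0, 0, 0, 0, 0, 0, 0, 0, 0, 0, 0]]
    [0, 0, 0, 1, 3, 2, 2, 13, 0, 0, 4, 15, 15, 14, 16, 0, 0, 0] (by decide) ?_ ?_ ?_ <;> decide +kernel

theorem c_17_4_p : Cert 17 4 1 3 := by
  refine cert_of (σ := 1) (by decide) (by decide) 0
    [(4, 0), (5, 0), (0, 0), (0, 1), (0, 2), (0, 3), (0, 4), (0, 5), (0, 6), (0, 7), (0, 9), (0, 13), (2, 1), (2, 2), (2, 3), (2, 5), (1, 2), (1, 3)]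
    [[0, 0, 0, 0, 0, 0, 0, 0, 0, 0, 0, 0, 0, 0, 0, 0, 0, 1],
      [0, 0, 0, 1, 0, 0, 0, 0, 0, 0, 0, 0, 0, 0, 0, 0, 0, 0],
      [1, 0, 0, 0, 0, 0, 0, 0, 0, 0, 0, 0, 0, 0, 0, 0, 0, 1],
      [0, 1, 0, 0, 0, 0, 0, 0, 0, 0, 0, 0, 0, 0, 0, 0, 1, 0],
      [0, 0, 1, 0, 0, 0, 0, 0, 16, 0, 0, 0, 0, 0, 0, 0, 0, 0],
      [0, 0, 0, 1, 0, 0, 0, 0, 0, 0, 0, 13, 0, 0, 0, 0, 0, 0],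
      [0, 0, 0, 0, 2, 0, 0, 0, 0, 0, 0, 0, 0, 0, 0, 0, 0, 0],
      [0, 0, 0, 0, 0, 1, 0, 0, 0, 0, 13, 0, 0, 0, 0, 0, 0, 0],
      [0, 0, 0, 0, 0, 0, 1, 0, 0, 0, 0, 0, 0, 0, 4, 0, 0, 0],
      [0, 0, 0, 0, 0, 0, 0, 1, 0, 0, 0, 0, 4, 0, 0, 0, 0, 0],
      [0, 0, 0, 0, 0, 0, 0, 0, 0, 1, 0, 0, 0, 0, 0, 16, 0, 0],
      [0, 0, 0, 0, 0, 0, 0, 0, 0, 0, 0, 0, 0, 2, 0, 0, 0, 0],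
      [0, 16, 0, 0, 0, 0, 0, 0, 0, 0, 0, 0, 0, 0, 0, 0, 1, 0],
      [0, 0, 16, 0, 0, 0, 0, 0, 0, 0, 0, 0, 0, 0, 0, 1, 0, 0],
      [0, 0, 0, 16, 0, 0, 0, 0, 0, 0, 0, 0, 0, 0, 1, 0, 0, 0],
      [0, 0, 0, 0, 0, 16, 0, 0, 0, 0, 0, 0, 1, 0, 0, 0, 0, 0],
      [0, 0, 1, 0, 0, 0, 0, 16, 0, 0, 0, 13, 0, 0, 0, 0, 0, 0],
      [0, 0, 0, 1, 1, 0, 0, 0, 0, 0, 13, 0, 0, 0, 0, 0, 0, 0]]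
    [[16, 0, 1, 0, 0, 0, 0, 0, 0, 0, 0, 0, 0, 0, 0, 0, 0, 0],
      [0, 0, 0, 9, 0, 0, 0, 0, 0, 0, 0, 0, 8, 0, 0, 0, 0, 0],
      [0, 14, 0, 0, 0, 16, 15, 13, 0, 1, 0, 0, 0, 0, 0, 13, 1, 4],
      [0, 1, 0, 0, 0, 0, 0, 0, 0, 0, 0, 0, 0, 0, 0, 0, 0, 0],
      [0, 0, 0, 0, 0, 0, 9, 0, 0, 0, 0, 0, 0, 0, 0, 0, 0, 0],
      [0, 1, 0, 0, 0, 0, 9, 1, 0, 0, 0, 0, 0, 0, 0, 0, 0, 16],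
      [0, 13, 0, 0, 0, 0, 0, 0, 1, 0, 0, 0, 0, 0, 13, 0, 0, 0],
      [0, 13, 0, 0, 0, 0, 15, 13, 0, 1, 0, 0, 0, 0, 0, 13, 0, 4],
      [0, 14, 0, 0, 16, 16, 15, 13, 0, 1, 0, 0, 0, 0, 0, 13, 1, 4],
      [0, 14, 0, 0, 0, 16, 15, 13, 0, 1, 1, 0, 0, 1, 0, 13, 1, 4],
      [0, 13, 0, 0, 0, 0, 15, 0, 0, 0, 0, 0, 0, 0, 0, 0, 0, 4],
      [0, 13, 0, 0, 0, 4, 0, 0, 0, 0, 0, 0, 0, 0, 0, 0, 0, 0],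
      [0, 1, 0, 0, 0, 0, 9, 1, 0, 0, 0, 0, 0, 0, 0, 1, 0, 16],
      [0, 0, 0, 0, 0, 0, 0, 0, 0, 0, 0, 9, 0, 0, 0, 0, 0, 0],
      [0, 1, 0, 0, 0, 0, 0, 0, 0, 0, 0, 0, 0, 0, 1, 0, 0, 0],
      [0, 14, 0, 0, 0, 16, 15, 13, 0, 1, 0, 0, 0, 1, 0, 13, 1, 4],
      [0, 0, 0, 9, 0, 0, 0, 0, 0, 0, 0, 0, 9, 0, 0, 0, 0, 0],
      [1, 0, 0, 0, 0, 0, 0, 0, 0, 0, 0, 0, 0, 0, 0, 0, 0, 0]]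
    [0, 0, 0, 0, 0, 0, 0, 0, 0, 0, 0, 0, 0, 0, 0, 0, 0, 0] (by decide) ?_ ?_ ?_ <;> decide +kernel

theorem c_17_4_m : Cert 17 4 (-1) 3 := by
  refine cert_of (σ := 16) (by decide) (by decide) 0
    [(3, 0), (0, 0), (0, 1), (0, 2), (0, 3), (0, 4), (0, 5), (0, 6), (0, 7), (0, 9), (0, 13), (2, 2), (2, 3), (2, 5), (1, 0), (1, 1), (1, 2), (1, 3)]
    [[0, 0, 0, 0, 0, 0, 0, 0, 0, 0, 0, 0, 0, 0, 0, 0, 0, 2],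
      [1, 0, 0, 0, 0, 0, 0, 0, 0, 0, 0, 0, 0, 0, 0, 0, 0, 1],
      [0, 1, 0, 0, 0, 0, 0, 0, 0, 0, 0, 0, 0, 0, 0, 0, 1, 0],
      [0, 0, 1, 0, 0, 0, 0, 0, 16, 0, 0, 0, 0, 0, 0, 0, 0, 0],
      [0, 0, 0, 1, 0, 0, 0, 0, 0, 0, 0, 13, 0, 0, 0, 0, 0, 0],
      [0, 0, 0, 0, 2, 0, 0, 0, 0, 0, 0, 0, 0, 0, 0, 0, 0, 0],
      [0, 0, 0, 0, 0, 1, 0, 0, 0, 0, 13, 0, 0, 0, 0, 0, 0, 0],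
      [0, 0, 0, 0, 0, 0, 1, 0, 0, 0, 0, 0, 0, 0, 4, 0, 0, 0],
      [0, 0, 0, 0, 0, 0, 0, 1, 0, 0, 0, 0, 4, 0, 0, 0, 0, 0],
      [0, 0, 0, 0, 0, 0, 0, 0, 0, 1, 0, 0, 0, 0, 0, 16, 0, 0],
      [0, 0, 0, 0, 0, 0, 0, 0, 0, 0, 0, 0, 0, 2, 0, 0, 0, 0],
      [0, 0, 1, 0, 0, 0, 0, 0, 0, 0, 0, 0, 0, 0, 0, 1, 0, 0],
      [0, 0, 0, 1, 0, 0, 0, 0, 0, 0, 0, 0, 0, 0, 1, 0, 0, 0],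
      [0, 0, 0, 0, 0, 1, 0, 0, 0, 0, 0, 0, 1, 0, 0, 0, 0, 0],
      [1, 0, 0, 0, 0, 0, 0, 0, 0, 0, 0, 0, 0, 0, 0, 0, 1, 1],
      [0, 1, 0, 0, 0, 0, 0, 0, 16, 0, 0, 0, 0, 0, 0, 1, 0, 0],
      [0, 0, 1, 0, 0, 0, 0, 16, 0, 0, 0, 13, 0, 0, 0, 0, 0, 0],
      [0, 0, 0, 1, 1, 0, 0, 0, 0, 0, 13, 0, 0, 0, 0, 0, 0, 0]]
    [[8, 1, 0, 0, 0, 0, 0, 0, 0, 0, 0, 0, 0, 0, 0, 0, 0, 0],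
      [0, 1, 1, 0, 0, 0, 0, 0, 0, 0, 0, 0, 0, 0, 16, 0, 0, 0],
      [0, 9, 9, 9, 0, 0, 0, 0, 0, 0, 0, 9, 0, 0, 8, 8, 0, 0],
      [0, 12, 12, 12, 7, 3, 6, 0, 10, 0, 0, 12, 0, 11, 5, 5, 10, 11],
      [0, 0, 0, 0, 0, 9, 0, 0, 0, 0, 0, 0, 0, 0, 0, 0, 0, 0],
      [0, 12, 12, 12, 7, 12, 7, 0, 10, 0, 0, 12, 0, 11, 5, 5, 10, 10],
      [0, 14, 14, 14, 11, 12, 7, 1, 6, 0, 0, 14, 13, 10, 3, 3, 6, 10],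
      [0, 14, 14, 14, 11, 14, 11, 0, 7, 0, 0, 14, 0, 6, 3, 3, 6, 6],
      [0, 9, 9, 8, 0, 0, 0, 0, 0, 0, 0, 9, 0, 0, 8, 8, 0, 0],
      [0, 8, 8, 8, 0, 0, 0, 0, 0, 1, 0, 9, 0, 0, 9, 9, 0, 0],
      [0, 3, 3, 3, 6, 3, 10, 0, 11, 0, 0, 3, 0, 7, 14, 14, 11, 11],
      [0, 3, 3, 3, 10, 5, 10, 0, 11, 0, 0, 3, 0, 7, 14, 14, 11, 7],
      [0, 5, 5, 5, 10, 5, 10, 0, 7, 0, 0, 5, 0, 7, 12, 12, 7, 7],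
      [0, 0, 0, 0, 0, 0, 0, 0, 0, 0, 9, 0, 0, 0, 0, 0, 0, 0],
      [0, 5, 5, 5, 10, 14, 11, 0, 7, 0, 0, 5, 1, 6, 12, 12, 7, 6],
      [0, 8, 8, 8, 0, 0, 0, 0, 0, 0, 0, 9, 0, 0, 9, 9, 0, 0],
      [0, 16, 0, 0, 0, 0, 0, 0, 0, 0, 0, 0, 0, 0, 1, 0, 0, 0],
      [9, 0, 0, 0, 0, 0, 0, 0, 0, 0, 0, 0, 0, 0, 0, 0, 0, 0]]
    [0, 0, 0, 0, 0, 0, 0, 0, 0, 0, 0, 0, 0, 0, 0, 0, 0, 0] (by decide) ?_ ?_ ?_ <;> decide +kernel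

theorem c_17_6_p : Cert 17 6 1 3 := by
  refine cert_of (σ := 1) (by decide) (by decide) 15
    [(4, 0), (5, 0), (0, 0), (0, 1), (0, 2), (0, 3), (0, 5), (0, 6), (0, 7), (0, 9), (2, 1), (2, 2), (2, 3), (2, 4), (2, 5), (1, 2), (1, 3)]
    [[0, 0, 0, 0, 0, 0, 0, 0, 0, 0, 0, 0, 0, 0, 0, 0, 0, 1],
      [0, 0, 0, 1, 0, 0, 0, 0, 0, 0, 0, 0, 0, 0, 0, 0, 0, 0],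
      [1, 0, 0, 0, 0, 0, 0, 0, 0, 0, 0, 0, 0, 0, 0, 0, 0, 1],
      [0, 1, 0, 0, 0, 0, 0, 0, 0, 0, 0, 0, 0, 0, 0, 0, 1, 0],
      [0, 0, 1, 0, 0, 0, 0, 0, 13, 0, 0, 0, 0, 0, 0, 0, 0, 0],
      [0, 0, 0, 1, 0, 0, 0, 0, 0, 0, 0, 15, 0, 0, 0, 0, 0, 0],
      [0, 0, 0, 0, 0, 1, 0, 0, 0, 0, 2, 0, 0, 0, 0, 0, 0, 0],
      [0, 0, 0, 0, 0, 0, 1, 0, 0, 0, 0, 0, 0, 0, 8, 0, 0, 0],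
      [0, 0, 0, 0, 0, 0, 0, 1, 0, 0, 0, 0, 9, 0, 0, 0, 0, 0],
      [0, 0, 0, 0, 0, 0, 0, 0, 0, 1, 0, 0, 0, 0, 0, 4, 0, 0],
      [0, 16, 0, 0, 0, 0, 0, 0, 0, 0, 0, 0, 0, 0, 0, 0, 1, 0],
      [0, 0, 16, 0, 0, 0, 0, 0, 0, 0, 0, 0, 0, 0, 0, 1, 0, 0],
      [0, 0, 0, 16, 0, 0, 0, 0, 0, 0, 0, 0, 0, 0, 1, 0, 0, 0],
      [0, 0, 0, 0, 16, 0, 0, 0, 0, 0, 0, 0, 0, 1, 0, 0, 0, 0],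
      [0, 0, 0, 0, 0, 16, 0, 0, 0, 0, 0, 0, 1, 0, 0, 0, 0, 0],
      [0, 0, 1, 0, 0, 0, 0, 13, 0, 0, 0, 15, 0, 0, 0, 0, 0, 0],
      [0, 0, 0, 1, 16, 0, 0, 0, 0, 0, 15, 0, 0, 0, 0, 0, 0, 0]]
    [[16, 0, 1, 0, 0, 0, 0, 0, 0, 0, 0, 0, 0, 0, 0, 0, 0],
      [0, 0, 0, 9, 0, 0, 0, 0, 0, 0, 8, 0, 0, 0, 0, 0, 0],
      [0, 0, 0, 0, 0, 0, 0, 0, 0, 0, 0, 16, 0, 0, 0, 0, 0],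
      [0, 1, 0, 0, 0, 0, 0, 0, 0, 0, 0, 0, 0, 0, 0, 0, 0],
      [0, 10, 0, 0, 0, 8, 16, 0, 2, 0, 0, 9, 0, 0, 16, 9, 16],
      [0, 9, 0, 0, 0, 8, 0, 0, 2, 0, 0, 9, 0, 0, 16, 9, 0],
      [0, 9, 0, 0, 0, 0, 0, 1, 0, 0, 0, 0, 9, 0, 0, 0, 0],
      [0, 4, 0, 0, 0, 13, 0, 0, 0, 0, 0, 4, 0, 0, 0, 4, 0],
      [0, 0, 0, 0, 4, 0, 0, 0, 0, 0, 0, 4, 0, 0, 0, 0, 0],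
      [0, 0, 0, 0, 0, 0, 0, 0, 0, 1, 0, 0, 0, 0, 0, 0, 0],
      [0, 4, 0, 0, 0, 13, 9, 0, 16, 0, 0, 4, 0, 0, 9, 4, 0],
      [0, 9, 0, 0, 0, 8, 0, 0, 0, 0, 0, 0, 0, 0, 0, 0, 0],
      [0, 9, 0, 0, 0, 8, 0, 0, 2, 0, 0, 9, 0, 0, 0, 9, 0],
      [0, 10, 0, 0, 0, 8, 16, 0, 2, 0, 0, 9, 0, 1, 16, 9, 16],
      [0, 1, 0, 0, 0, 0, 0, 0, 0, 0, 0, 0, 1, 0, 0, 0, 0],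
      [],
      [0, 0, 0, 9, 0, 0, 0, 0, 0, 0, 9, 0, 0, 0, 0, 0, 0],
      [1, 0, 0, 0, 0, 0, 0, 0, 0, 0, 0, 0, 0, 0, 0, 0, 0]]
    [0, 0, 16, 0, 9, 9, 0, 4, 4, 4, 4, 0, 9, 9, 0, 16, 0, 0] (by decide) ?_ ?_ ?_ <;> decide +kernel

theorem c_17_6_m : Cert 17 6 (-1) 3 := by
  refine cert_of (σ := 16) (by decide) (by decide) 14
    [(3, 0), (0, 0), (0, 1), (0, 2), (0, 3), (0, 5), (0, 6), (0, 7), (0, 9), (2, 2), (2, 3), (2, 4), (2, 5), (1, 0), (1, 1), (1, 2), (1, 3)]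
    [[0, 0, 0, 0, 0, 0, 0, 0, 0, 0, 0, 0, 0, 0, 0, 0, 0, 2],
      [1, 0, 0, 0, 0, 0, 0, 0, 0, 0, 0, 0, 0, 0, 0, 0, 0, 1],
      [0, 1, 0, 0, 0, 0, 0, 0, 0, 0, 0, 0, 0, 0, 0, 0, 1, 0],
      [0, 0, 1, 0, 0, 0, 0, 0, 13, 0, 0, 0, 0, 0, 0, 0, 0, 0],
      [0, 0, 0, 1, 0, 0, 0, 0, 0, 0, 0, 15, 0, 0, 0, 0, 0, 0],
      [0, 0, 0, 0, 0, 1, 0, 0, 0, 0, 2, 0, 0, 0, 0, 0, 0, 0],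
      [0, 0, 0, 0, 0, 0, 1, 0, 0, 0, 0, 0, 0, 0, 8, 0, 0, 0],
      [0, 0, 0, 0, 0, 0, 0, 1, 0, 0, 0, 0, 9, 0, 0, 0, 0, 0],
      [0, 0, 0, 0, 0, 0, 0, 0, 0, 1, 0, 0, 0, 0, 0, 4, 0, 0],
      [0, 0, 1, 0, 0, 0, 0, 0, 0, 0, 0, 0, 0, 0, 0, 1, 0, 0],
      [0, 0, 0, 1, 0, 0, 0, 0, 0, 0, 0, 0, 0, 0, 1, 0, 0, 0],
      [0, 0, 0, 0, 1, 0, 0, 0, 0, 0, 0, 0, 0, 1, 0, 0, 0, 0],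
      [0, 0, 0, 0, 0, 1, 0, 0, 0, 0, 0, 0, 1, 0, 0, 0, 0, 0],
      [1, 0, 0, 0, 0, 0, 0, 0, 0, 0, 0, 0, 0, 0, 0, 0, 1, 1],
      [0, 1, 0, 0, 0, 0, 0, 0, 13, 0, 0, 0, 0, 0, 0, 1, 0, 0],
      [0, 0, 1, 0, 0, 0, 0, 13, 0, 0, 0, 15, 0, 0, 0, 0, 0, 0],
      [0, 0, 0, 1, 16, 0, 0, 0, 0, 0, 15, 0, 0, 0, 0, 0, 0, 0]]
    [[8, 1, 0, 0, 0, 0, 0, 0, 0, 0, 0, 0, 0, 0, 0, 0, 0],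
      [0, 1, 1, 0, 0, 0, 0, 0, 0, 0, 0, 0, 0, 16, 0, 0, 0],
      [0, 9, 9, 9, 0, 0, 0, 0, 0, 9, 0, 0, 0, 8, 8, 0, 0],
      [0, 0, 0, 0, 0, 0, 0, 0, 0, 0, 1, 0, 0, 0, 0, 0, 0],
      [0, 13, 13, 13, 9, 16, 0, 15, 0, 13, 9, 0, 1, 4, 4, 8, 16],
      [0, 13, 13, 13, 9, 0, 0, 15, 0, 13, 8, 0, 1, 4, 4, 8, 0],
      [0, 0, 0, 0, 0, 0, 1, 0, 0, 0, 0, 0, 0, 0, 0, 0, 0],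
      [0, 15, 15, 15, 13, 0, 0, 0, 0, 15, 4, 0, 0, 2, 2, 4, 0],
      [0, 15, 15, 2, 0, 0, 0, 0, 0, 15, 0, 0, 0, 2, 2, 0, 0],
      [0, 2, 2, 2, 0, 0, 0, 0, 1, 15, 0, 0, 0, 15, 15, 0, 0],
      [0, 2, 2, 2, 4, 9, 0, 1, 0, 2, 13, 0, 8, 15, 15, 13, 0],
      [0, 0, 0, 0, 8, 0, 0, 0, 0, 0, 9, 0, 0, 0, 0, 0, 0],
      [0, 4, 4, 4, 8, 0, 0, 2, 0, 4, 9, 0, 0, 13, 13, 9, 0],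
      [0, 4, 4, 4, 8, 1, 0, 2, 0, 4, 8, 1, 16, 13, 13, 9, 1],
      [],
      [0, 8, 8, 8, 0, 0, 0, 0, 0, 9, 0, 0, 0, 9, 9, 0, 0],
      [0, 16, 0, 0, 0, 0, 0, 0, 0, 0, 0, 0, 0, 1, 0, 0, 0],
      [9, 0, 0, 0, 0, 0, 0, 0, 0, 0, 0, 0, 0, 0, 0, 0, 0]]
    [0, 0, 0, 1, 9, 8, 8, 4, 0, 0, 13, 9, 9, 8, 16, 0, 0, 0] (by decide) ?_ ?_ ?_ <;> decide +kernel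

theorem c_17_8_p : Cert 17 8 1 3 := by
  refine cert_of (σ := 1) (by decide) (by decide) 0
    [(4, 0), (5, 0), (0, 0), (0, 1), (0, 2), (0, 3), (0, 4), (0, 5), (0, 6), (0, 7), (0, 9), (0, 13), (2, 1), (2, 2), (2, 3), (2, 5), (1, 2), (1, 3)]
    [[0, 0, 0, 0, 0, 0, 0, 0, 0, 0, 0, 0, 0, 0, 0, 0, 0, 1],
      [0, 0, 0, 1, 0, 0, 0, 0, 0, 0, 0, 0, 0, 0, 0, 0, 0, 0],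
      [1, 0, 0, 0, 0, 0, 0, 0, 0, 0, 0, 0, 0, 0, 0, 0, 0, 1],
      [0, 1, 0, 0, 0, 0, 0, 0, 0, 0, 0, 0, 0, 0, 0, 0, 1, 0],
      [0, 0, 1, 0, 0, 0, 0, 0, 1, 0, 0, 0, 0, 0, 0, 0, 0, 0],
      [0, 0, 0, 1, 0, 0, 0, 0, 0, 0, 0, 16, 0, 0, 0, 0, 0, 0],
      [0, 0, 0, 0, 2, 0, 0, 0, 0, 0, 0, 0, 0, 0, 0, 0, 0, 0],
      [0, 0, 0, 0, 0, 1, 0, 0, 0, 0, 16, 0, 0, 0, 0, 0, 0, 0],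
      [0, 0, 0, 0, 0, 0, 1, 0, 0, 0, 0, 0, 0, 0, 16, 0, 0, 0],
      [0, 0, 0, 0, 0, 0, 0, 1, 0, 0, 0, 0, 16, 0, 0, 0, 0, 0],
      [0, 0, 0, 0, 0, 0, 0, 0, 0, 1, 0, 0, 0, 0, 0, 1, 0, 0],
      [0, 0, 0, 0, 0, 0, 0, 0, 0, 0, 0, 0, 0, 2, 0, 0, 0, 0],
      [0, 16, 0, 0, 0, 0, 0, 0, 0, 0, 0, 0, 0, 0, 0, 0, 1, 0],
      [0, 0, 16, 0, 0, 0, 0, 0, 0, 0, 0, 0, 0, 0, 0, 1, 0, 0],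
      [0, 0, 0, 16, 0, 0, 0, 0, 0, 0, 0, 0, 0, 0, 1, 0, 0, 0],
      [0, 0, 0, 0, 0, 16, 0, 0, 0, 0, 0, 0, 1, 0, 0, 0, 0, 0],
      [0, 0, 1, 0, 0, 0, 0, 1, 0, 0, 0, 16, 0, 0, 0, 0, 0, 0],
      [0, 0, 0, 1, 1, 0, 0, 0, 0, 0, 16, 0, 0, 0, 0, 0, 0, 0]]
    [[16, 0, 1, 0, 0, 0, 0, 0, 0, 0, 0, 0, 0, 0, 0, 0, 0, 0],
      [0, 0, 0, 9, 0, 0, 0, 0, 0, 0, 0, 0, 8, 0, 0, 0, 0, 0],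
      [0, 0, 0, 0, 0, 16, 8, 16, 0, 16, 0, 0, 0, 0, 0, 16, 1, 1],
      [0, 1, 0, 0, 0, 0, 0, 0, 0, 0, 0, 0, 0, 0, 0, 0, 0, 0],
      [0, 0, 0, 0, 0, 0, 9, 0, 0, 0, 0, 0, 0, 0, 0, 0, 0, 0],
      [0, 1, 0, 0, 0, 0, 9, 1, 0, 0, 0, 0, 0, 0, 0, 0, 0, 16],
      [0, 1, 0, 0, 0, 0, 0, 0, 1, 0, 0, 0, 0, 0, 1, 0, 0, 0],
      [0, 1, 0, 0, 0, 0, 9, 1, 0, 1, 0, 0, 0, 0, 0, 1, 0, 16],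
      [0, 0, 0, 0, 1, 1, 9, 1, 0, 1, 0, 0, 0, 0, 0, 1, 16, 16],
      [0, 0, 0, 0, 0, 1, 9, 1, 0, 1, 1, 0, 0, 16, 0, 1, 16, 16],
      [0, 1, 0, 0, 0, 0, 9, 0, 0, 0, 0, 0, 0, 0, 0, 0, 0, 16],
      [0, 1, 0, 0, 0, 16, 0, 0, 0, 0, 0, 0, 0, 0, 0, 0, 0, 0],
      [0, 1, 0, 0, 0, 0, 9, 1, 0, 0, 0, 0, 0, 0, 0, 1, 0, 16],
      [0, 0, 0, 0, 0, 0, 0, 0, 0, 0, 0, 9, 0, 0, 0, 0, 0, 0],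
      [0, 1, 0, 0, 0, 0, 0, 0, 0, 0, 0, 0, 0, 0, 1, 0, 0, 0],
      [0, 0, 0, 0, 0, 16, 8, 16, 0, 16, 0, 0, 0, 1, 0, 16, 1, 1],
      [0, 0, 0, 9, 0, 0, 0, 0, 0, 0, 0, 0, 9, 0, 0, 0, 0, 0],
      [1, 0, 0, 0, 0, 0, 0, 0, 0, 0, 0, 0, 0, 0, 0, 0, 0, 0]]
    [0, 0, 0, 0, 0, 0, 0, 0, 0, 0, 0, 0, 0, 0, 0, 0, 0, 0] (by decide) ?_ ?_ ?_ <;> decide +kernel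

theorem c_17_8_m : Cert 17 8 (-1) 3 := by
  refine cert_of (σ := 16) (by decide) (by decide) 0
    [(3, 0), (0, 0), (0, 1), (0, 2), (0, 3), (0, 4), (0, 5), (0, 6), (0, 7), (0, 9), (0, 13), (2, 2), (2, 3), (2, 5), (1, 0), (1, 1), (1, 2), (1, 3)]
    [[0, 0, 0, 0, 0, 0, 0, 0, 0, 0, 0, 0, 0, 0, 0, 0, 0, 2],
      [1, 0, 0, 0, 0, 0, 0, 0, 0, 0, 0, 0, 0, 0, 0, 0, 0, 1],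
      [0, 1, 0, 0, 0, 0, 0, 0, 0, 0, 0, 0, 0, 0, 0, 0, 1, 0],
      [0, 0, 1, 0, 0, 0, 0, 0, 1, 0, 0, 0, 0, 0, 0, 0, 0, 0],
      [0, 0, 0, 1, 0, 0, 0, 0, 0, 0, 0, 16, 0, 0, 0, 0, 0, 0],
      [0, 0, 0, 0, 2, 0, 0, 0, 0, 0, 0, 0, 0, 0, 0, 0, 0, 0],
      [0, 0, 0, 0, 0, 1, 0, 0, 0, 0, 16, 0, 0, 0, 0, 0, 0, 0],
      [0, 0, 0, 0, 0, 0, 1, 0, 0, 0, 0, 0, 0, 0, 16, 0, 0, 0],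
      [0, 0, 0, 0, 0, 0, 0, 1, 0, 0, 0, 0, 16, 0, 0, 0, 0, 0],
      [0, 0, 0, 0, 0, 0, 0, 0, 0, 1, 0, 0, 0, 0, 0, 1, 0, 0],
      [0, 0, 0, 0, 0, 0, 0, 0, 0, 0, 0, 0, 0, 2, 0, 0, 0, 0],
      [0, 0, 1, 0, 0, 0, 0, 0, 0, 0, 0, 0, 0, 0, 0, 1, 0, 0],
      [0, 0, 0, 1, 0, 0, 0, 0, 0, 0, 0, 0, 0, 0, 1, 0, 0, 0],
      [0, 0, 0, 0, 0, 1, 0, 0, 0, 0, 0, 0, 1, 0, 0, 0, 0, 0],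
      [1, 0, 0, 0, 0, 0, 0, 0, 0, 0, 0, 0, 0, 0, 0, 0, 1, 1],
      [0, 1, 0, 0, 0, 0, 0, 0, 1, 0, 0, 0, 0, 0, 0, 1, 0, 0],
      [0, 0, 1, 0, 0, 0, 0, 1, 0, 0, 0, 16, 0, 0, 0, 0, 0, 0],
      [0, 0, 0, 1, 1, 0, 0, 0, 0, 0, 16, 0, 0, 0, 0, 0, 0, 0]]
    [[8, 1, 0, 0, 0, 0, 0, 0, 0, 0, 0, 0, 0, 0, 0, 0, 0, 0],
      [0, 1, 1, 0, 0, 0, 0, 0, 0, 0, 0, 0, 0, 0, 16, 0, 0, 0],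
      [0, 9, 9, 9, 0, 0, 0, 0, 0, 0, 0, 9, 0, 0, 8, 8, 0, 0],
      [0, 13, 13, 13, 9, 4, 8, 0, 9, 0, 0, 13, 0, 9, 4, 4, 8, 9],
      [0, 0, 0, 0, 0, 9, 0, 0, 0, 0, 0, 0, 0, 0, 0, 0, 0, 0],
      [0, 13, 13, 13, 9, 13, 9, 0, 9, 0, 0, 13, 0, 9, 4, 4, 8, 8],
      [0, 4, 4, 4, 8, 13, 9, 1, 8, 0, 0, 4, 1, 8, 13, 13, 9, 8],
      [0, 4, 4, 4, 8, 4, 8, 0, 9, 0, 0, 4, 0, 9, 13, 13, 9, 9],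
      [0, 8, 8, 9, 0, 0, 0, 0, 0, 0, 0, 8, 0, 0, 9, 9, 0, 0],
      [0, 9, 9, 9, 0, 0, 0, 0, 0, 1, 0, 8, 0, 0, 8, 8, 0, 0],
      [0, 13, 13, 13, 9, 13, 8, 0, 9, 0, 0, 13, 0, 9, 4, 4, 8, 8],
      [0, 13, 13, 13, 8, 4, 8, 0, 9, 0, 0, 13, 0, 9, 4, 4, 8, 9],
      [0, 4, 4, 4, 8, 4, 8, 0, 8, 0, 0, 4, 0, 9, 13, 13, 9, 9],
      [0, 0, 0, 0, 0, 0, 0, 0, 0, 0, 9, 0, 0, 0, 0, 0, 0, 0],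
      [0, 4, 4, 4, 8, 13, 9, 0, 8, 0, 0, 4, 1, 8, 13, 13, 9, 8],
      [0, 8, 8, 8, 0, 0, 0, 0, 0, 0, 0, 9, 0, 0, 9, 9, 0, 0],
      [0, 16, 0, 0, 0, 0, 0, 0, 0, 0, 0, 0, 0, 0, 1, 0, 0, 0],
      [9, 0, 0, 0, 0, 0, 0, 0, 0, 0, 0, 0, 0, 0, 0, 0, 0, 0]]
    [0, 0, 0, 0, 0, 0, 0, 0, 0, 0, 0, 0, 0, 0, 0, 0, 0, 0] (by decide) ?_ ?_ ?_ <;> decide +kernel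

theorem c_17_10_p : Cert 17 10 1 3 := by
  refine cert_of (σ := 1) (by decide) (by decide) 15
    [(4, 0), (5, 0), (0, 0), (0, 1), (0, 2), (0, 3), (0, 5), (0, 6), (0, 7), (0, 9), (2, 1), (2, 2), (2, 3), (2, 4), (2, 5), (1, 2), (1, 3)]
    [[0, 0, 0, 0, 0, 0, 0, 0, 0, 0, 0, 0, 0, 0, 0, 0, 0, 1],
      [0, 0, 0, 1, 0, 0, 0, 0, 0, 0, 0, 0, 0, 0, 0, 0, 0, 0],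
      [1, 0, 0, 0, 0, 0, 0, 0, 0, 0, 0, 0, 0, 0, 0, 0, 0, 1],
      [0, 1, 0, 0, 0, 0, 0, 0, 0, 0, 0, 0, 0, 0, 0, 0, 1, 0],
      [0, 0, 1, 0, 0, 0, 0, 0, 4, 0, 0, 0, 0, 0, 0, 0, 0, 0],
      [0, 0, 0, 1, 0, 0, 0, 0, 0, 0, 0, 8, 0, 0, 0, 0, 0, 0],
      [0, 0, 0, 0, 0, 1, 0, 0, 0, 0, 9, 0, 0, 0, 0, 0, 0, 0],
      [0, 0, 0, 0, 0, 0, 1, 0, 0, 0, 0, 0, 0, 0, 15, 0, 0, 0],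
      [0, 0, 0, 0, 0, 0, 0, 1, 0, 0, 0, 0, 2, 0, 0, 0, 0, 0],
      [0, 0, 0, 0, 0, 0, 0, 0, 0, 1, 0, 0, 0, 0, 0, 13, 0, 0],
      [0, 16, 0, 0, 0, 0, 0, 0, 0, 0, 0, 0, 0, 0, 0, 0, 1, 0],
      [0, 0, 16, 0, 0, 0, 0, 0, 0, 0, 0, 0, 0, 0, 0, 1, 0, 0],
      [0, 0, 0, 16, 0, 0, 0, 0, 0, 0, 0, 0, 0, 0, 1, 0, 0, 0],
      [0, 0, 0, 0, 16, 0, 0, 0, 0, 0, 0, 0, 0, 1, 0, 0, 0, 0],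
      [0, 0, 0, 0, 0, 16, 0, 0, 0, 0, 0, 0, 1, 0, 0, 0, 0, 0],
      [0, 0, 1, 0, 0, 0, 0, 4, 0, 0, 0, 8, 0, 0, 0, 0, 0, 0],
      [0, 0, 0, 1, 16, 0, 0, 0, 0, 0, 8, 0, 0, 0, 0, 0, 0, 0]]
    [[16, 0, 1, 0, 0, 0, 0, 0, 0, 0, 0, 0, 0, 0, 0, 0, 0],
      [0, 0, 0, 9, 0, 0, 0, 0, 0, 0, 8, 0, 0, 0, 0, 0, 0],
      [0, 0, 0, 0, 0, 0, 0, 0, 0, 0, 0, 16, 0, 0, 0, 0, 0],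
      [0, 1, 0, 0, 0, 0, 0, 0, 0, 0, 0, 0, 0, 0, 0, 0, 0],
      [0, 3, 0, 0, 0, 15, 16, 0, 9, 0, 0, 2, 0, 0, 16, 2, 16],
      [0, 2, 0, 0, 0, 15, 0, 0, 9, 0, 0, 2, 0, 0, 16, 2, 0],
      [0, 2, 0, 0, 0, 0, 0, 1, 0, 0, 0, 0, 2, 0, 0, 0, 0],
      [0, 13, 0, 0, 0, 4, 0, 0, 0, 0, 0, 13, 0, 0, 0, 13, 0],
      [0, 0, 0, 0, 13, 0, 0, 0, 0, 0, 0, 13, 0, 0, 0, 0, 0],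
      [0, 0, 0, 0, 0, 0, 0, 0, 0, 1, 0, 0, 0, 0, 0, 0, 0],
      [0, 13, 0, 0, 0, 4, 2, 0, 16, 0, 0, 13, 0, 0, 2, 13, 0],
      [0, 2, 0, 0, 0, 15, 0, 0, 0, 0, 0, 0, 0, 0, 0, 0, 0],
      [0, 2, 0, 0, 0, 15, 0, 0, 9, 0, 0, 2, 0, 0, 0, 2, 0],
      [0, 3, 0, 0, 0, 15, 16, 0, 9, 0, 0, 2, 0, 1, 16, 2, 16],
      [0, 1, 0, 0, 0, 0, 0, 0, 0, 0, 0, 0, 1, 0, 0, 0, 0],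
      [],
      [0, 0, 0, 9, 0, 0, 0, 0, 0, 0, 9, 0, 0, 0, 0, 0, 0],
      [1, 0, 0, 0, 0, 0, 0, 0, 0, 0, 0, 0, 0, 0, 0, 0, 0]]
    [0, 0, 16, 0, 2, 2, 0, 13, 13, 13, 13, 0, 2, 2, 0, 16, 0, 0] (by decide) ?_ ?_ ?_ <;> decide +kernel

theorem c_17_10_m : Cert 17 10 (-1) 3 := by
  refine cert_of (σ := 16) (by decide) (by decide) 14
    [(3, 0), (0, 0), (0, 1), (0, 2), (0, 3), (0, 5), (0, 6), (0, 7), (0, 9), (2, 2), (2, 3), (2, 4), (2, 5), (1, 0), (1, 1), (1, 2), (1, 3)]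
    [[0, 0, 0, 0, 0, 0, 0, 0, 0, 0, 0, 0, 0, 0, 0, 0, 0, 2],
      [1, 0, 0, 0, 0, 0, 0, 0, 0, 0, 0, 0, 0, 0, 0, 0, 0, 1],
      [0, 1, 0, 0, 0, 0, 0, 0, 0, 0, 0, 0, 0, 0, 0, 0, 1, 0],
      [0, 0, 1, 0, 0, 0, 0, 0, 4, 0, 0, 0, 0, 0, 0, 0, 0, 0],
      [0, 0, 0, 1, 0, 0, 0, 0, 0, 0, 0, 8, 0, 0, 0, 0, 0, 0],
      [0, 0, 0, 0, 0, 1, 0, 0, 0, 0, 9, 0, 0, 0, 0, 0, 0, 0],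
      [0, 0, 0, 0, 0, 0, 1, 0, 0, 0, 0, 0, 0, 0, 15, 0, 0, 0],
      [0, 0, 0, 0, 0, 0, 0, 1, 0, 0, 0, 0, 2, 0, 0, 0, 0, 0],
      [0, 0, 0, 0, 0, 0, 0, 0, 0, 1, 0, 0, 0, 0, 0, 13, 0, 0],
      [0, 0, 1, 0, 0, 0, 0, 0, 0, 0, 0, 0, 0, 0, 0, 1, 0, 0],
      [0, 0, 0, 1, 0, 0, 0, 0, 0, 0, 0, 0, 0, 0, 1, 0, 0, 0],
      [0, 0, 0, 0, 1, 0, 0, 0, 0, 0, 0, 0, 0, 1, 0, 0, 0, 0],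
      [0, 0, 0, 0, 0, 1, 0, 0, 0, 0, 0, 0, 1, 0, 0, 0, 0, 0],
      [1, 0, 0, 0, 0, 0, 0, 0, 0, 0, 0, 0, 0, 0, 0, 0, 1, 1],
      [0, 1, 0, 0, 0, 0, 0, 0, 4, 0, 0, 0, 0, 0, 0, 1, 0, 0],
      [0, 0, 1, 0, 0, 0, 0, 4, 0, 0, 0, 8, 0, 0, 0, 0, 0, 0],
      [0, 0, 0, 1, 16, 0, 0, 0, 0, 0, 8, 0, 0, 0, 0, 0, 0, 0]]
    [[8, 1, 0, 0, 0, 0, 0, 0, 0, 0, 0, 0, 0, 0, 0, 0, 0],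
      [0, 1, 1, 0, 0, 0, 0, 0, 0, 0, 0, 0, 0, 16, 0, 0, 0],
      [0, 9, 9, 9, 0, 0, 0, 0, 0, 9, 0, 0, 0, 8, 8, 0, 0],
      [0, 0, 0, 0, 0, 0, 0, 0, 0, 0, 1, 0, 0, 0, 0, 0, 0],
      [0, 1, 1, 1, 2, 16, 0, 8, 0, 1, 16, 0, 1, 16, 16, 15, 16],
      [0, 1, 1, 1, 2, 0, 0, 8, 0, 1, 15, 0, 1, 16, 16, 15, 0],
      [0, 0, 0, 0, 0, 0, 1, 0, 0, 0, 0, 0, 0, 0, 0, 0, 0],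
      [0, 2, 2, 2, 4, 0, 0, 0, 0, 2, 13, 0, 0, 15, 15, 13, 0],
      [0, 2, 2, 15, 0, 0, 0, 0, 0, 2, 0, 0, 0, 15, 15, 0, 0],
      [0, 15, 15, 15, 0, 0, 0, 0, 1, 2, 0, 0, 0, 2, 2, 0, 0],
      [0, 15, 15, 15, 13, 2, 0, 1, 0, 15, 4, 0, 15, 2, 2, 4, 0],
      [0, 0, 0, 0, 15, 0, 0, 0, 0, 0, 2, 0, 0, 0, 0, 0, 0],
      [0, 16, 16, 16, 15, 0, 0, 9, 0, 16, 2, 0, 0, 1, 1, 2, 0],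
      [0, 16, 16, 16, 15, 1, 0, 9, 0, 16, 1, 1, 16, 1, 1, 2, 1],
      [],
      [0, 8, 8, 8, 0, 0, 0, 0, 0, 9, 0, 0, 0, 9, 9, 0, 0],
      [0, 16, 0, 0, 0, 0, 0, 0, 0, 0, 0, 0, 0, 1, 0, 0, 0],
      [9, 0, 0, 0, 0, 0, 0, 0, 0, 0, 0, 0, 0, 0, 0, 0, 0]]
    [0, 0, 0, 1, 16, 15, 15, 13, 0, 0, 4, 2, 2, 1, 16, 0, 0, 0] (by decide) ?_ ?_ ?_ <;> decide +kernel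

theorem c_17_12_p : Cert 17 12 1 3 := by
  refine cert_of (σ := 1) (by decide) (by decide) 0
    [(4, 0), (5, 0), (0, 0), (0, 1), (0, 2), (0, 3), (0, 4), (0, 5), (0, 6), (0, 7), (0, 9), (0, 13), (2, 1), (2, 2), (2, 3), (2, 5), (1, 2), (1, 3)]
    [[0, 0, 0, 0, 0, 0, 0, 0, 0, 0, 0, 0, 0, 0, 0, 0, 0, 1],
      [0, 0, 0, 1, 0, 0, 0, 0, 0, 0, 0, 0, 0, 0, 0, 0, 0, 0],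
      [1, 0, 0, 0, 0, 0, 0, 0, 0, 0, 0, 0, 0, 0, 0, 0, 0, 1],
      [0, 1, 0, 0, 0, 0, 0, 0, 0, 0, 0, 0, 0, 0, 0, 0, 1, 0],
      [0, 0, 1, 0, 0, 0, 0, 0, 16, 0, 0, 0, 0, 0, 0, 0, 0, 0],
      [0, 0, 0, 1, 0, 0, 0, 0, 0, 0, 0, 4, 0, 0, 0, 0, 0, 0],
      [0, 0, 0, 0, 2, 0, 0, 0, 0, 0, 0, 0, 0, 0, 0, 0, 0, 0],
      [0, 0, 0, 0, 0, 1, 0, 0, 0, 0, 4, 0, 0, 0, 0, 0, 0, 0],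
      [0, 0, 0, 0, 0, 0, 1, 0, 0, 0, 0, 0, 0, 0, 13, 0, 0, 0],
      [0, 0, 0, 0, 0, 0, 0, 1, 0, 0, 0, 0, 13, 0, 0, 0, 0, 0],
      [0, 0, 0, 0, 0, 0, 0, 0, 0, 1, 0, 0, 0, 0, 0, 16, 0, 0],
      [0, 0, 0, 0, 0, 0, 0, 0, 0, 0, 0, 0, 0, 2, 0, 0, 0, 0],
      [0, 16, 0, 0, 0, 0, 0, 0, 0, 0, 0, 0, 0, 0, 0, 0, 1, 0],
      [0, 0, 16, 0, 0, 0, 0, 0, 0, 0, 0, 0, 0, 0, 0, 1, 0, 0],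
      [0, 0, 0, 16, 0, 0, 0, 0, 0, 0, 0, 0, 0, 0, 1, 0, 0, 0],
      [0, 0, 0, 0, 0, 16, 0, 0, 0, 0, 0, 0, 1, 0, 0, 0, 0, 0],
      [0, 0, 1, 0, 0, 0, 0, 16, 0, 0, 0, 4, 0, 0, 0, 0, 0, 0],
      [0, 0, 0, 1, 1, 0, 0, 0, 0, 0, 4, 0, 0, 0, 0, 0, 0, 0]]
    [[16, 0, 1, 0, 0, 0, 0, 0, 0, 0, 0, 0, 0, 0, 0, 0, 0, 0],
      [0, 0, 0, 9, 0, 0, 0, 0, 0, 0, 0, 0, 8, 0, 0, 0, 0, 0],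
      [0, 5, 0, 0, 0, 16, 2, 4, 0, 1, 0, 0, 0, 0, 0, 4, 1, 13],
      [0, 1, 0, 0, 0, 0, 0, 0, 0, 0, 0, 0, 0, 0, 0, 0, 0, 0],
      [0, 0, 0, 0, 0, 0, 9, 0, 0, 0, 0, 0, 0, 0, 0, 0, 0, 0],
      [0, 1, 0, 0, 0, 0, 9, 1, 0, 0, 0, 0, 0, 0, 0, 0, 0, 16],
      [0, 4, 0, 0, 0, 0, 0, 0, 1, 0, 0, 0, 0, 0, 4, 0, 0, 0],
      [0, 4, 0, 0, 0, 0, 2, 4, 0, 1, 0, 0, 0, 0, 0, 4, 0, 13],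
      [0, 5, 0, 0, 16, 16, 2, 4, 0, 1, 0, 0, 0, 0, 0, 4, 1, 13],
      [0, 5, 0, 0, 0, 16, 2, 4, 0, 1, 1, 0, 0, 1, 0, 4, 1, 13],
      [0, 4, 0, 0, 0, 0, 2, 0, 0, 0, 0, 0, 0, 0, 0, 0, 0, 13],
      [0, 4, 0, 0, 0, 13, 0, 0, 0, 0, 0, 0, 0, 0, 0, 0, 0, 0],
      [0, 1, 0, 0, 0, 0, 9, 1, 0, 0, 0, 0, 0, 0, 0, 1, 0, 16],
      [0, 0, 0, 0, 0, 0, 0, 0, 0, 0, 0, 9, 0, 0, 0, 0, 0, 0],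
      [0, 1, 0, 0, 0, 0, 0, 0, 0, 0, 0, 0, 0, 0, 1, 0, 0, 0],
      [0, 5, 0, 0, 0, 16, 2, 4, 0, 1, 0, 0, 0, 1, 0, 4, 1, 13],
      [0, 0, 0, 9, 0, 0, 0, 0, 0, 0, 0, 0, 9, 0, 0, 0, 0, 0],
      [1, 0, 0, 0, 0, 0, 0, 0, 0, 0, 0, 0, 0, 0, 0, 0, 0, 0]]
    [0, 0, 0, 0, 0, 0, 0, 0, 0, 0, 0, 0, 0, 0, 0, 0, 0, 0] (by decide) ?_ ?_ ?_ <;> decide +kernel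

theorem c_17_12_m : Cert 17 12 (-1) 3 := by
  refine cert_of (σ := 16) (by decide) (by decide) 0
    [(3, 0), (0, 0), (0, 1), (0, 2), (0, 3), (0, 4), (0, 5), (0, 6), (0, 7), (0, 9), (0, 13), (2, 2), (2, 3), (2, 5), (1, 0), (1, 1), (1, 2), (1, 3)]
    [[0, 0, 0, 0, 0, 0, 0, 0, 0, 0, 0, 0, 0, 0, 0, 0, 0, 2],
      [1, 0, 0, 0, 0, 0, 0, 0, 0, 0, 0, 0, 0, 0, 0, 0, 0, 1],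
      [0, 1, 0, 0, 0, 0, 0, 0, 0, 0, 0, 0, 0, 0, 0, 0, 1, 0],
      [0, 0, 1, 0, 0, 0, 0, 0, 16, 0, 0, 0, 0, 0, 0, 0, 0, 0],
      [0, 0, 0, 1, 0, 0, 0, 0, 0, 0, 0, 4, 0, 0, 0, 0, 0, 0],
      [0, 0, 0, 0, 2, 0, 0, 0, 0, 0, 0, 0, 0, 0, 0, 0, 0, 0],
      [0, 0, 0, 0, 0, 1, 0, 0, 0, 0, 4, 0, 0, 0, 0, 0, 0, 0],
      [0, 0, 0, 0, 0, 0, 1, 0, 0, 0, 0, 0, 0, 0, 13, 0, 0, 0],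
      [0, 0, 0, 0, 0, 0, 0, 1, 0, 0, 0, 0, 13, 0, 0, 0, 0, 0],
      [0, 0, 0, 0, 0, 0, 0, 0, 0, 1, 0, 0, 0, 0, 0, 16, 0, 0],
      [0, 0, 0, 0, 0, 0, 0, 0, 0, 0, 0, 0, 0, 2, 0, 0, 0, 0],
      [0, 0, 1, 0, 0, 0, 0, 0, 0, 0, 0, 0, 0, 0, 0, 1, 0, 0],
      [0, 0, 0, 1, 0, 0, 0, 0, 0, 0, 0, 0, 0, 0, 1, 0, 0, 0],
      [0, 0, 0, 0, 0, 1, 0, 0, 0, 0, 0, 0, 1, 0, 0, 0, 0, 0],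
      [1, 0, 0, 0, 0, 0, 0, 0, 0, 0, 0, 0, 0, 0, 0, 0, 1, 1],
      [0, 1, 0, 0, 0, 0, 0, 0, 16, 0, 0, 0, 0, 0, 0, 1, 0, 0],
      [0, 0, 1, 0, 0, 0, 0, 16, 0, 0, 0, 4, 0, 0, 0, 0, 0, 0],
      [0, 0, 0, 1, 1, 0, 0, 0, 0, 0, 4, 0, 0, 0, 0, 0, 0, 0]]
    [[8, 1, 0, 0, 0, 0, 0, 0, 0, 0, 0, 0, 0, 0, 0, 0, 0, 0],
      [0, 1, 1, 0, 0, 0, 0, 0, 0, 0, 0, 0, 0, 0, 16, 0, 0, 0],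
      [0, 9, 9, 9, 0, 0, 0, 0, 0, 0, 0, 9, 0, 0, 8, 8, 0, 0],
      [0, 14, 14, 14, 11, 5, 10, 0, 6, 0, 0, 14, 0, 7, 3, 3, 6, 7],
      [0, 0, 0, 0, 0, 9, 0, 0, 0, 0, 0, 0, 0, 0, 0, 0, 0, 0],
      [0, 14, 14, 14, 11, 14, 11, 0, 6, 0, 0, 14, 0, 7, 3, 3, 6, 6],
      [0, 12, 12, 12, 7, 14, 11, 1, 10, 0, 0, 12, 4, 6, 5, 5, 10, 6],
      [0, 12, 12, 12, 7, 12, 7, 0, 11, 0, 0, 12, 0, 10, 5, 5, 10, 10],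
      [0, 9, 9, 8, 0, 0, 0, 0, 0, 0, 0, 9, 0, 0, 8, 8, 0, 0],
      [0, 8, 8, 8, 0, 0, 0, 0, 0, 1, 0, 9, 0, 0, 9, 9, 0, 0],
      [0, 5, 5, 5, 10, 5, 6, 0, 7, 0, 0, 5, 0, 11, 12, 12, 7, 7],
      [0, 5, 5, 5, 6, 3, 6, 0, 7, 0, 0, 5, 0, 11, 12, 12, 7, 11],
      [0, 3, 3, 3, 6, 3, 6, 0, 11, 0, 0, 3, 0, 11, 14, 14, 11, 11],
      [0, 0, 0, 0, 0, 0, 0, 0, 0, 0, 9, 0, 0, 0, 0, 0, 0, 0],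
      [0, 3, 3, 3, 6, 12, 7, 0, 11, 0, 0, 3, 1, 10, 14, 14, 11, 10],
      [0, 8, 8, 8, 0, 0, 0, 0, 0, 0, 0, 9, 0, 0, 9, 9, 0, 0],
      [0, 16, 0, 0, 0, 0, 0, 0, 0, 0, 0, 0, 0, 0, 1, 0, 0, 0],
      [9, 0, 0, 0, 0, 0, 0, 0, 0, 0, 0, 0, 0, 0, 0, 0, 0, 0]]
    [0, 0, 0, 0, 0, 0, 0, 0, 0, 0, 0, 0, 0, 0, 0, 0, 0, 0] (by decide) ?_ ?_ ?_ <;> decide +kernel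

theorem c_17_14_p : Cert 17 14 1 3 := by
  refine cert_of (σ := 1) (by decide) (by decide) 15
    [(4, 0), (5, 0), (0, 0), (0, 1), (0, 2), (0, 3), (0, 5), (0, 6), (0, 7), (0, 9), (2, 1), (2, 2), (2, 3), (2, 4), (2, 5), (1, 2), (1, 3)]
    [[0, 0, 0, 0, 0, 0, 0, 0, 0, 0, 0, 0, 0, 0, 0, 0, 0, 1],
      [0, 0, 0, 1, 0, 0, 0, 0, 0, 0, 0, 0, 0, 0, 0, 0, 0, 0],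
      [1, 0, 0, 0, 0, 0, 0, 0, 0, 0, 0, 0, 0, 0, 0, 0, 0, 1],
      [0, 1, 0, 0, 0, 0, 0, 0, 0, 0, 0, 0, 0, 0, 0, 0, 1, 0],
      [0, 0, 1, 0, 0, 0, 0, 0, 13, 0, 0, 0, 0, 0, 0, 0, 0, 0],
      [0, 0, 0, 1, 0, 0, 0, 0, 0, 0, 0, 2, 0, 0, 0, 0, 0, 0],
      [0, 0, 0, 0, 0, 1, 0, 0, 0, 0, 15, 0, 0, 0, 0, 0, 0, 0],
      [0, 0, 0, 0, 0, 0, 1, 0, 0, 0, 0, 0, 0, 0, 9, 0, 0, 0],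
      [0, 0, 0, 0, 0, 0, 0, 1, 0, 0, 0, 0, 8, 0, 0, 0, 0, 0],
      [0, 0, 0, 0, 0, 0, 0, 0, 0, 1, 0, 0, 0, 0, 0, 4, 0, 0],
      [0, 16, 0, 0, 0, 0, 0, 0, 0, 0, 0, 0, 0, 0, 0, 0, 1, 0],
      [0, 0, 16, 0, 0, 0, 0, 0, 0, 0, 0, 0, 0, 0, 0, 1, 0, 0],
      [0, 0, 0, 16, 0, 0, 0, 0, 0, 0, 0, 0, 0, 0, 1, 0, 0, 0],
      [0, 0, 0, 0, 16, 0, 0, 0, 0, 0, 0, 0, 0, 1, 0, 0, 0, 0],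
      [0, 0, 0, 0, 0, 16, 0, 0, 0, 0, 0, 0, 1, 0, 0, 0, 0, 0],
      [0, 0, 1, 0, 0, 0, 0, 13, 0, 0, 0, 2, 0, 0, 0, 0, 0, 0],
      [0, 0, 0, 1, 16, 0, 0, 0, 0, 0, 2, 0, 0, 0, 0, 0, 0, 0]]
    [[16, 0, 1, 0, 0, 0, 0, 0, 0, 0, 0, 0, 0, 0, 0, 0, 0],
      [0, 0, 0, 9, 0, 0, 0, 0, 0, 0, 8, 0, 0, 0, 0, 0, 0],
      [0, 0, 0, 0, 0, 0, 0, 0, 0, 0, 0, 16, 0, 0, 0, 0, 0],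
      [0, 1, 0, 0, 0, 0, 0, 0, 0, 0, 0, 0, 0, 0, 0, 0, 0],
      [0, 9, 0, 0, 0, 9, 16, 0, 15, 0, 0, 8, 0, 0, 16, 8, 16],
      [0, 8, 0, 0, 0, 9, 0, 0, 15, 0, 0, 8, 0, 0, 16, 8, 0],
      [0, 8, 0, 0, 0, 0, 0, 1, 0, 0, 0, 0, 8, 0, 0, 0, 0],
      [0, 4, 0, 0, 0, 13, 0, 0, 0, 0, 0, 4, 0, 0, 0, 4, 0],
      [0, 0, 0, 0, 4, 0, 0, 0, 0, 0, 0, 4, 0, 0, 0, 0, 0],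
      [0, 0, 0, 0, 0, 0, 0, 0, 0, 1, 0, 0, 0, 0, 0, 0, 0],
      [0, 4, 0, 0, 0, 13, 8, 0, 16, 0, 0, 4, 0, 0, 8, 4, 0],
      [0, 8, 0, 0, 0, 9, 0, 0, 0, 0, 0, 0, 0, 0, 0, 0, 0],
      [0, 8, 0, 0, 0, 9, 0, 0, 15, 0, 0, 8, 0, 0, 0, 8, 0],
      [0, 9, 0, 0, 0, 9, 16, 0, 15, 0, 0, 8, 0, 1, 16, 8, 16],
      [0, 1, 0, 0, 0, 0, 0, 0, 0, 0, 0, 0, 1, 0, 0, 0, 0],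
      [],
      [0, 0, 0, 9, 0, 0, 0, 0, 0, 0, 9, 0, 0, 0, 0, 0, 0],
      [1, 0, 0, 0, 0, 0, 0, 0, 0, 0, 0, 0, 0, 0, 0, 0, 0]]
    [0, 0, 16, 0, 8, 8, 0, 4, 4, 4, 4, 0, 8, 8, 0, 16, 0, 0] (by decide) ?_ ?_ ?_ <;> decide +kernel

theorem c_17_14_m : Cert 17 14 (-1) 3 := by
  refine cert_of (σ := 16) (by decide) (by decide) 14
    [(3, 0), (0, 0), (0, 1), (0, 2), (0, 3), (0, 5), (0, 6), (0, 7), (0, 9), (2, 2), (2, 3), (2, 4), (2, 5), (1, 0), (1, 1), (1, 2), (1, 3)]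
    [[0, 0, 0, 0, 0, 0, 0, 0, 0, 0, 0, 0, 0, 0, 0, 0, 0, 2],
      [1, 0, 0, 0, 0, 0, 0, 0, 0, 0, 0, 0, 0, 0, 0, 0, 0, 1],
      [0, 1, 0, 0, 0, 0, 0, 0, 0, 0, 0, 0, 0, 0, 0, 0, 1, 0],
      [0, 0, 1, 0, 0, 0, 0, 0, 13, 0, 0, 0, 0, 0, 0, 0, 0, 0],
      [0, 0, 0, 1, 0, 0, 0, 0, 0, 0, 0, 2, 0, 0, 0, 0, 0, 0],
      [0, 0, 0, 0, 0, 1, 0, 0, 0, 0, 15, 0, 0, 0, 0, 0, 0, 0],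
      [0, 0, 0, 0, 0, 0, 1, 0, 0, 0, 0, 0, 0, 0, 9, 0, 0, 0],
      [0, 0, 0, 0, 0, 0, 0, 1, 0, 0, 0, 0, 8, 0, 0, 0, 0, 0],
      [0, 0, 0, 0, 0, 0, 0, 0, 0, 1, 0, 0, 0, 0, 0, 4, 0, 0],
      [0, 0, 1, 0, 0, 0, 0, 0, 0, 0, 0, 0, 0, 0, 0, 1, 0, 0],
      [0, 0, 0, 1, 0, 0, 0, 0, 0, 0, 0, 0, 0, 0, 1, 0, 0, 0],
      [0, 0, 0, 0, 1, 0, 0, 0, 0, 0, 0, 0, 0, 1, 0, 0, 0, 0],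
      [0, 0, 0, 0, 0, 1, 0, 0, 0, 0, 0, 0, 1, 0, 0, 0, 0, 0],
      [1, 0, 0, 0, 0, 0, 0, 0, 0, 0, 0, 0, 0, 0, 0, 0, 1, 1],
      [0, 1, 0, 0, 0, 0, 0, 0, 13, 0, 0, 0, 0, 0, 0, 1, 0, 0],
      [0, 0, 1, 0, 0, 0, 0, 13, 0, 0, 0, 2, 0, 0, 0, 0, 0, 0],
      [0, 0, 0, 1, 16, 0, 0, 0, 0, 0, 2, 0, 0, 0, 0, 0, 0, 0]]
    [[8, 1, 0, 0, 0, 0, 0, 0, 0, 0, 0, 0, 0, 0, 0, 0, 0],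
      [0, 1, 1, 0, 0, 0, 0, 0, 0, 0, 0, 0, 0, 16, 0, 0, 0],
      [0, 9, 9, 9, 0, 0, 0, 0, 0, 9, 0, 0, 0, 8, 8, 0, 0],
      [0, 0, 0, 0, 0, 0, 0, 0, 0, 0, 1, 0, 0, 0, 0, 0, 0],
      [0, 4, 4, 4, 8, 16, 0, 2, 0, 4, 10, 0, 1, 13, 13, 9, 16],
      [0, 4, 4, 4, 8, 0, 0, 2, 0, 4, 9, 0, 1, 13, 13, 9, 0],
      [0, 0, 0, 0, 0, 0, 1, 0, 0, 0, 0, 0, 0, 0, 0, 0, 0],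
      [0, 15, 15, 15, 13, 0, 0, 0, 0, 15, 4, 0, 0, 2, 2, 4, 0],
      [0, 15, 15, 2, 0, 0, 0, 0, 0, 15, 0, 0, 0, 2, 2, 0, 0],
      [0, 2, 2, 2, 0, 0, 0, 0, 1, 15, 0, 0, 0, 15, 15, 0, 0],
      [0, 2, 2, 2, 4, 8, 0, 1, 0, 2, 13, 0, 9, 15, 15, 13, 0],
      [0, 0, 0, 0, 9, 0, 0, 0, 0, 0, 8, 0, 0, 0, 0, 0, 0],
      [0, 13, 13, 13, 9, 0, 0, 15, 0, 13, 8, 0, 0, 4, 4, 8, 0],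
      [0, 13, 13, 13, 9, 1, 0, 15, 0, 13, 7, 1, 16, 4, 4, 8, 1],
      [],
      [0, 8, 8, 8, 0, 0, 0, 0, 0, 9, 0, 0, 0, 9, 9, 0, 0],
      [0, 16, 0, 0, 0, 0, 0, 0, 0, 0, 0, 0, 0, 1, 0, 0, 0],
      [9, 0, 0, 0, 0, 0, 0, 0, 0, 0, 0, 0, 0, 0, 0, 0, 0]]
    [0, 0, 0, 1, 10, 9, 9, 4, 0, 0, 13, 8, 8, 7, 16, 0, 0, 0] (by decide) ?_ ?_ ?_ <;> decide +kernel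

end LV7
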