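import Pool.Agent.LibLV7.D1a

/-!
# certificates for `ℓ = 19` (generated)
-/

set_option autoImplicit false
set_option linter.style.longLine false

namespace LV7

instance fact_19 : Fact (Nat.Prime 19) := ⟨by norm_num⟩

theorem c_19_0_p : Cert 19 0 1 2 := by
  refine cert_of (σ := 1) (by decide) (by decide) 17
    [(4, 0), (0, 0), (0, 1), (0, 2), (0, 3), (0, 4), (0, 5), (0, 7), (0, 10), (0, 11), (0, 13), (2, 1), (2, 2), (2, 3), (2, 4), (2, 7), (1, 2), (1, 3), (1, 7)]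
    [[0, 0, 0, 0, 0, 0, 0, 0, 0, 0, 0, 0, 0, 0, 0, 0, 0, 0, 0, 1],
      [1, 0, 0, 0, 0, 0, 0, 0, 0, 0, 0, 0, 0, 0, 0, 0, 0, 0, 0, 1],
      [0, 1, 0, 0, 0, 0, 0, 0, 0, 0, 0, 0, 0, 0, 0, 0, 0, 0, 1, 0],
      [0, 0, 1, 0, 0, 0, 0, 0, 0, 1, 0, 0, 0, 0, 0, 0, 0, 0, 0, 0],
      [0, 0, 0, 1, 0, 0, 1, 0, 0, 0, 0, 0, 0, 0, 0, 0, 0, 0, 0, 0],
      [0, 0, 0, 0, 1, 0, 0, 0, 0, 0, 0, 0, 0, 0, 1, 0, 0, 0, 0, 0],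
      [0, 0, 0, 0, 0, 1, 0, 0, 0, 0, 0, 0, 0, 0, 0, 1, 0, 0, 0, 0],
      [0, 0, 0, 0, 0, 0, 0, 1, 1, 0, 0, 0, 0, 0, 0, 0, 0, 0, 0, 0],
      [0, 0, 0, 0, 0, 0, 0, 0, 0, 0, 1, 0, 0, 0, 0, 0, 0, 1, 0, 0],
      [0, 0, 0, 0, 0, 0, 0, 0, 0, 0, 0, 1, 1, 0, 0, 0, 0, 0, 0, 0],
      [0, 0, 0, 0, 0, 0, 0, 0, 0, 0, 0, 0, 0, 1, 0, 0, 1, 0, 0, 0],
      [0, 18, 0, 0, 0, 0, 0, 0, 0, 0, 0, 0, 0, 0, 0, 0, 0, 0, 1, 0],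
      [0, 0, 18, 0, 0, 0, 0, 0, 0, 0, 0, 0, 0, 0, 0, 0, 0, 1, 0, 0],
      [0, 0, 0, 18, 0, 0, 0, 0, 0, 0, 0, 0, 0, 0, 0, 0, 1, 0, 0, 0],
      [0, 0, 0, 0, 18, 0, 0, 0, 0, 0, 0, 0, 0, 0, 0, 1, 0, 0, 0, 0],
      [0, 0, 0, 0, 0, 0, 0, 18, 0, 0, 0, 0, 1, 0, 0, 0, 0, 0, 0, 0],
      [0, 0, 1, 0, 0, 0, 1, 0, 1, 0, 0, 0, 0, 0, 0, 0, 0, 0, 0, 0],
      [0, 0, 0, 1, 0, 1, 0, 0, 0, 0, 0, 0, 0, 0, 1, 0, 0, 0, 0, 0],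
      [0, 0, 0, 0, 0, 0, 0, 3, 0, 0, 0, 0, 0, 0, 0, 0, 0, 0, 0, 0]]
    [[18, 1, 0, 0, 0, 0, 0, 0, 0, 0, 0, 0, 0, 0, 0, 0, 0, 0, 0],
      [0, 0, 10, 0, 0, 0, 0, 0, 0, 0, 0, 9, 0, 0, 0, 0, 0, 0, 0],
      [0, 0, 0, 0, 0, 0, 0, 0, 0, 0, 0, 0, 18, 0, 0, 0, 0, 0, 0],
      [0, 0, 0, 0, 1, 0, 0, 1, 0, 0, 0, 0, 18, 0, 0, 0, 18, 0, 6],
      [0, 0, 0, 0, 10, 10, 10, 10, 0, 0, 0, 0, 9, 0, 9, 0, 9, 9, 3],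
      [0, 0, 0, 0, 9, 9, 10, 9, 0, 0, 0, 0, 10, 0, 9, 0, 10, 10, 16],
      [0, 0, 0, 0, 0, 0, 0, 18, 0, 0, 0, 0, 1, 0, 0, 0, 1, 0, 13],
      [0, 0, 0, 0, 0, 0, 0, 0, 0, 0, 0, 0, 0, 0, 0, 0, 0, 0, 13],
      [0, 0, 0, 0, 0, 0, 0, 1, 0, 0, 0, 0, 0, 0, 0, 0, 0, 0, 6],
      [0, 0, 0, 1, 0, 0, 0, 0, 0, 0, 0, 0, 1, 0, 0, 0, 0, 0, 0],
      [0, 0, 0, 0, 0, 0, 0, 0, 1, 0, 0, 0, 0, 0, 0, 0, 0, 0, 0],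
      [0, 0, 0, 0, 0, 0, 0, 0, 0, 1, 0, 0, 0, 0, 0, 18, 0, 0, 6],
      [0, 0, 0, 0, 0, 0, 0, 0, 0, 0, 0, 0, 0, 0, 0, 1, 0, 0, 13],
      [0, 0, 0, 0, 18, 0, 0, 18, 0, 0, 1, 0, 1, 18, 0, 0, 1, 0, 13],
      [0, 0, 0, 0, 9, 10, 9, 9, 0, 0, 0, 0, 10, 0, 10, 0, 10, 10, 16],
      [0, 0, 0, 0, 10, 10, 10, 10, 0, 0, 0, 0, 9, 0, 10, 0, 9, 9, 3],
      [0, 0, 0, 0, 1, 0, 0, 1, 0, 0, 0, 0, 18, 1, 0, 0, 18, 0, 6],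
      [],
      [0, 0, 10, 0, 0, 0, 0, 0, 0, 0, 0, 10, 0, 0, 0, 0, 0, 0, 0],
      [1, 0, 0, 0, 0, 0, 0, 0, 0, 0, 0, 0, 0, 0, 0, 0, 0, 0, 0]]
    [0, 0, 18, 18, 9, 10, 1, 0, 0, 1, 1, 0, 0, 1, 10, 9, 18, 18, 0, 0] (by decide) ?_ ?_ ?_ <;> decide +kernel

theorem c_19_0_m : Cert 19 0 (-1) 2 := by
  refine cert_of (σ := 18) (by decide) (by decide) 15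
    [(3, 0), (0, 0), (0, 1), (0, 2), (0, 3), (0, 4), (0, 5), (0, 7), (0, 10), (0, 11), (0, 13), (2, 2), (2, 3), (2, 4), (2, 7), (1, 0), (1, 1), (1, 2), (1, 3)]
    [[0, 0, 0, 0, 0, 0, 0, 0, 0, 0, 0, 0, 0, 0, 0, 0, 0, 0, 0, 2],
      [1, 0, 0, 0, 0, 0, 0, 0, 0, 0, 0, 0, 0, 0, 0, 0, 0, 0, 0, 1],
      [0, 1, 0, 0, 0, 0, 0, 0, 0, 0, 0, 0, 0, 0, 0, 0, 0, 0, 1, 0],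
      [0, 0, 1, 0, 0, 0, 0, 0, 0, 1, 0, 0, 0, 0, 0, 0, 0, 0, 0, 0],
      [0, 0, 0, 1, 0, 0, 1, 0, 0, 0, 0, 0, 0, 0, 0, 0, 0, 0, 0, 0],
      [0, 0, 0, 0, 1, 0, 0, 0, 0, 0, 0, 0, 0, 0, 1, 0, 0, 0, 0, 0],
      [0, 0, 0, 0, 0, 1, 0, 0, 0, 0, 0, 0, 0, 0, 0, 1, 0, 0, 0, 0],
      [0, 0, 0, 0, 0, 0, 0, 1, 1, 0, 0, 0, 0, 0, 0, 0, 0, 0, 0, 0],
      [0, 0, 0, 0, 0, 0, 0, 0, 0, 0, 1, 0, 0, 0, 0, 0, 0, 1, 0, 0],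
      [0, 0, 0, 0, 0, 0, 0, 0, 0, 0, 0, 1, 1, 0, 0, 0, 0, 0, 0, 0],
      [0, 0, 0, 0, 0, 0, 0, 0, 0, 0, 0, 0, 0, 1, 0, 0, 1, 0, 0, 0],
      [0, 0, 1, 0, 0, 0, 0, 0, 0, 0, 0, 0, 0, 0, 0, 0, 0, 1, 0, 0],
      [0, 0, 0, 1, 0, 0, 0, 0, 0, 0, 0, 0, 0, 0, 0, 0, 1, 0, 0, 0],
      [0, 0, 0, 0, 1, 0, 0, 0, 0, 0, 0, 0, 0, 0, 0, 1, 0, 0, 0, 0],
      [0, 0, 0, 0, 0, 0, 0, 1, 0, 0, 0, 0, 1, 0, 0, 0, 0, 0, 0, 0],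
      [1, 0, 0, 0, 0, 0, 0, 0, 0, 0, 0, 0, 0, 0, 0, 0, 0, 0, 1, 1],
      [0, 1, 0, 0, 0, 0, 0, 0, 0, 1, 0, 0, 0, 0, 0, 0, 0, 1, 0, 0],
      [0, 0, 1, 0, 0, 0, 1, 0, 1, 0, 0, 0, 0, 0, 0, 0, 0, 0, 0, 0],
      [0, 0, 0, 1, 0, 1, 0, 0, 0, 0, 0, 0, 0, 0, 1, 0, 0, 0, 0, 0]]
    [[9, 1, 0, 0, 0, 0, 0, 0, 0, 0, 0, 0, 0, 0, 0, 0, 0, 0, 0],
      [0, 1, 1, 0, 0, 0, 0, 0, 0, 0, 0, 0, 0, 0, 0, 18, 0, 0, 0],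
      [0, 10, 10, 10, 0, 0, 0, 0, 0, 0, 0, 10, 0, 0, 0, 9, 9, 0, 0],
      [0, 0, 0, 0, 0, 18, 18, 0, 0, 0, 0, 0, 0, 1, 0, 0, 0, 0, 1],
      [0, 0, 0, 0, 0, 0, 0, 0, 0, 0, 0, 0, 0, 1, 0, 0, 0, 0, 0],
      [0, 0, 0, 0, 0, 0, 1, 0, 0, 0, 0, 0, 0, 0, 0, 0, 0, 0, 0],
      [0, 0, 0, 0, 1, 1, 1, 0, 0, 0, 0, 0, 0, 18, 0, 0, 0, 0, 18],
      [0, 10, 10, 10, 1, 1, 1, 1, 0, 0, 0, 10, 0, 18, 0, 9, 9, 18, 18],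
      [0, 9, 9, 9, 18, 18, 18, 0, 0, 0, 0, 9, 0, 1, 0, 10, 10, 1, 1],
      [0, 9, 9, 10, 0, 0, 0, 0, 0, 0, 0, 9, 0, 0, 0, 10, 10, 0, 0],
      [0, 10, 10, 10, 0, 0, 0, 0, 1, 0, 0, 9, 0, 0, 0, 9, 9, 0, 0],
      [0, 10, 10, 10, 1, 1, 1, 1, 0, 1, 0, 10, 0, 18, 18, 9, 9, 18, 18],
      [0, 9, 9, 9, 18, 18, 18, 18, 0, 0, 0, 9, 0, 1, 1, 10, 10, 1, 1],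
      [0, 0, 0, 0, 0, 18, 18, 0, 0, 0, 1, 0, 18, 1, 0, 0, 0, 0, 1],
      [0, 0, 0, 0, 0, 1, 0, 0, 0, 0, 0, 0, 0, 18, 0, 0, 0, 0, 0],
      [],
      [0, 0, 0, 0, 0, 1, 1, 0, 0, 0, 0, 0, 1, 18, 0, 0, 0, 0, 18],
      [0, 9, 9, 9, 0, 0, 0, 0, 0, 0, 0, 10, 0, 0, 0, 10, 10, 0, 0],
      [0, 18, 0, 0, 0, 0, 0, 0, 0, 0, 0, 0, 0, 0, 0, 1, 0, 0, 0],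
      [10, 0, 0, 0, 0, 0, 0, 0, 0, 0, 0, 0, 0, 0, 0, 0, 0, 0, 0]]
    [0, 0, 0, 0, 1, 1, 0, 0, 0, 0, 0, 0, 0, 0, 18, 18, 0, 0, 0, 0] (by decide) ?_ ?_ ?_ <;> decide +kernel

theorem c_19_2_p : Cert 19 2 1 2 := by
  refine cert_of (σ := 1) (by decide) (by decide) 16
    [(4, 0), (5, 0), (0, 0), (0, 1), (0, 2), (0, 3), (0, 4), (0, 5), (0, 7), (0, 10), (0, 11), (0, 13), (2, 1), (2, 2), (2, 3), (2, 4), (2, 7), (1, 2), (1, 3)]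
    [[0, 0, 0, 0, 0, 0, 0, 0, 0, 0, 0, 0, 0, 0, 0, 0, 0, 0, 0, 1],
      [0, 0, 1, 0, 0, 0, 0, 0, 0, 0, 0, 0, 0, 0, 0, 0, 0, 0, 0, 0],
      [1, 0, 0, 0, 0, 0, 0, 0, 0, 0, 0, 0, 0, 0, 0, 0, 0, 0, 0, 1],
      [0, 1, 0, 0, 0, 0, 0, 0, 0, 0, 0, 0, 0, 0, 0, 0, 0, 0, 1, 0],
      [0, 0, 1, 0, 0, 0, 0, 0, 0, 4, 0, 0, 0, 0, 0, 0, 0, 0, 0, 0],
      [0, 0, 0, 1, 0, 0, 9, 0, 0, 0, 0, 0, 0, 0, 0, 0, 0, 0, 0, 0],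
      [0, 0, 0, 0, 1, 0, 0, 0, 0, 0, 0, 0, 0, 0, 16, 0, 0, 0, 0, 0],
      [0, 0, 0, 0, 0, 1, 0, 0, 0, 0, 0, 0, 0, 0, 0, 6, 0, 0, 0, 0],
      [0, 0, 0, 0, 0, 0, 0, 1, 11, 0, 0, 0, 0, 0, 0, 0, 0, 0, 0, 0],
      [0, 0, 0, 0, 0, 0, 0, 0, 0, 0, 1, 0, 0, 0, 0, 0, 0, 5, 0, 0],
      [0, 0, 0, 0, 0, 0, 0, 0, 0, 0, 0, 1, 7, 0, 0, 0, 0, 0, 0, 0],
      [0, 0, 0, 0, 0, 0, 0, 0, 0, 0, 0, 0, 0, 1, 0, 0, 17, 0, 0, 0],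
      [0, 18, 0, 0, 0, 0, 0, 0, 0, 0, 0, 0, 0, 0, 0, 0, 0, 0, 1, 0],
      [0, 0, 18, 0, 0, 0, 0, 0, 0, 0, 0, 0, 0, 0, 0, 0, 0, 1, 0, 0],
      [0, 0, 0, 18, 0, 0, 0, 0, 0, 0, 0, 0, 0, 0, 0, 0, 1, 0, 0, 0],
      [0, 0, 0, 0, 18, 0, 0, 0, 0, 0, 0, 0, 0, 0, 0, 1, 0, 0, 0, 0],
      [0, 0, 0, 0, 0, 0, 0, 18, 0, 0, 0, 0, 1, 0, 0, 0, 0, 0, 0, 0],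
      [0, 0, 1, 0, 0, 0, 9, 0, 4, 0, 0, 0, 0, 0, 0, 0, 0, 0, 0, 0],
      [0, 0, 0, 1, 0, 9, 0, 0, 0, 0, 0, 0, 0, 0, 16, 0, 0, 0, 0, 0]]
    [[18, 0, 1, 0, 0, 0, 0, 0, 0, 0, 0, 0, 0, 0, 0, 0, 0, 0, 0],
      [0, 0, 0, 10, 0, 0, 0, 0, 0, 0, 0, 0, 9, 0, 0, 0, 0, 0, 0],
      [0, 1, 0, 0, 0, 0, 0, 0, 0, 0, 0, 0, 0, 0, 0, 0, 0, 0, 0],
      [0, 0, 0, 0, 0, 0, 0, 0, 0, 0, 0, 0, 0, 0, 18, 0, 0, 0, 0],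
      [0, 0, 0, 0, 0, 0, 9, 5, 0, 0, 0, 0, 0, 0, 10, 8, 0, 0, 10],
      [0, 0, 0, 0, 0, 0, 3, 9, 0, 0, 0, 0, 0, 0, 16, 3, 0, 0, 16],
      [0, 0, 0, 0, 0, 17, 0, 0, 0, 0, 0, 0, 0, 0, 17, 0, 0, 0, 0],
      [0, 17, 0, 0, 0, 17, 0, 0, 1, 0, 0, 0, 0, 0, 17, 0, 0, 2, 0],
      [0, 14, 0, 0, 0, 14, 0, 0, 0, 0, 0, 0, 0, 0, 14, 0, 0, 5, 0],
      [0, 14, 0, 0, 5, 0, 0, 0, 0, 0, 0, 0, 0, 0, 0, 0, 0, 0, 0],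
      [0, 14, 0, 0, 0, 0, 0, 0, 0, 1, 0, 0, 0, 14, 0, 0, 0, 0, 0],
      [0, 14, 0, 0, 0, 14, 0, 0, 12, 0, 1, 0, 0, 0, 14, 0, 12, 5, 0],
      [0, 17, 0, 0, 0, 17, 0, 0, 1, 0, 0, 0, 0, 0, 17, 0, 1, 2, 0],
      [0, 0, 0, 0, 0, 0, 0, 0, 0, 0, 0, 1, 0, 0, 0, 0, 0, 0, 0],
      [0, 0, 0, 0, 0, 0, 9, 8, 0, 0, 0, 0, 0, 0, 16, 9, 0, 0, 16],
      [0, 0, 0, 0, 0, 0, 9, 5, 0, 0, 0, 0, 0, 0, 10, 9, 0, 0, 10],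
      [],
      [0, 1, 0, 0, 0, 0, 0, 0, 0, 0, 0, 0, 0, 1, 0, 0, 0, 0, 0],
      [0, 0, 0, 10, 0, 0, 0, 0, 0, 0, 0, 0, 10, 0, 0, 0, 0, 0, 0],
      [1, 0, 0, 0, 0, 0, 0, 0, 0, 0, 0, 0, 0, 0, 0, 0, 0, 0, 0]]
    [0, 0, 0, 18, 10, 16, 17, 17, 14, 0, 0, 14, 17, 17, 16, 10, 18, 0, 0, 0] (by decide) ?_ ?_ ?_ <;> decide +kernel

theorem c_19_2_m : Cert 19 2 (-1) 2 := by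
  refine cert_of (σ := 18) (by decide) (by decide) 16
    [(3, 0), (0, 0), (0, 1), (0, 2), (0, 3), (0, 4), (0, 5), (0, 7), (0, 10), (0, 11), (0, 13), (2, 2), (2, 3), (2, 4), (2, 7), (1, 0), (1, 1), (1, 2), (1, 3)]
    [[0, 0, 0, 0, 0, 0, 0, 0, 0, 0, 0, 0, 0, 0, 0, 0, 0, 0, 0, 2],
      [1, 0, 0, 0, 0, 0, 0, 0, 0, 0, 0, 0, 0, 0, 0, 0, 0, 0, 0, 1],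
      [0, 1, 0, 0, 0, 0, 0, 0, 0, 0, 0, 0, 0, 0, 0, 0, 0, 0, 1, 0],
      [0, 0, 1, 0, 0, 0, 0, 0, 0, 4, 0, 0, 0, 0, 0, 0, 0, 0, 0, 0],
      [0, 0, 0, 1, 0, 0, 9, 0, 0, 0, 0, 0, 0, 0, 0, 0, 0, 0, 0, 0],
      [0, 0, 0, 0, 1, 0, 0, 0, 0, 0, 0, 0, 0, 0, 16, 0, 0, 0, 0, 0],
      [0, 0, 0, 0, 0, 1, 0, 0, 0, 0, 0, 0, 0, 0, 0, 6, 0, 0, 0, 0],
      [0, 0, 0, 0, 0, 0, 0, 1, 11, 0, 0, 0, 0, 0, 0, 0, 0, 0, 0, 0],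
      [0, 0, 0, 0, 0, 0, 0, 0, 0, 0, 1, 0, 0, 0, 0, 0, 0, 5, 0, 0],
      [0, 0, 0, 0, 0, 0, 0, 0, 0, 0, 0, 1, 7, 0, 0, 0, 0, 0, 0, 0],
      [0, 0, 0, 0, 0, 0, 0, 0, 0, 0, 0, 0, 0, 1, 0, 0, 17, 0, 0, 0],
      [0, 0, 1, 0, 0, 0, 0, 0, 0, 0, 0, 0, 0, 0, 0, 0, 0, 1, 0, 0],
      [0, 0, 0, 1, 0, 0, 0, 0, 0, 0, 0, 0, 0, 0, 0, 0, 1, 0, 0, 0],
      [0, 0, 0, 0, 1, 0, 0, 0, 0, 0, 0, 0, 0, 0, 0, 1, 0, 0, 0, 0],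
      [0, 0, 0, 0, 0, 0, 0, 1, 0, 0, 0, 0, 1, 0, 0, 0, 0, 0, 0, 0],
      [1, 0, 0, 0, 0, 0, 0, 0, 0, 0, 0, 0, 0, 0, 0, 0, 0, 0, 1, 1],
      [0, 1, 0, 0, 0, 0, 0, 0, 0, 4, 0, 0, 0, 0, 0, 0, 0, 1, 0, 0],
      [0, 0, 1, 0, 0, 0, 9, 0, 4, 0, 0, 0, 0, 0, 0, 0, 0, 0, 0, 0],
      [0, 0, 0, 1, 0, 9, 0, 0, 0, 0, 0, 0, 0, 0, 16, 0, 0, 0, 0, 0]]
    [[9, 1, 0, 0, 0, 0, 0, 0, 0, 0, 0, 0, 0, 0, 0, 0, 0, 0, 0],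
      [0, 1, 1, 0, 0, 0, 0, 0, 0, 0, 0, 0, 0, 0, 0, 18, 0, 0, 0],
      [0, 10, 10, 10, 0, 0, 0, 0, 0, 0, 0, 10, 0, 0, 0, 9, 9, 0, 0],
      [0, 0, 0, 0, 0, 0, 0, 0, 0, 0, 0, 0, 1, 0, 0, 0, 0, 0, 0],
      [0, 0, 0, 0, 0, 5, 7, 0, 0, 0, 0, 0, 5, 15, 0, 0, 0, 0, 14],
      [0, 0, 0, 0, 0, 11, 5, 0, 0, 0, 0, 0, 11, 8, 0, 0, 0, 0, 8],
      [0, 0, 0, 0, 17, 0, 0, 0, 0, 0, 0, 0, 2, 0, 0, 0, 0, 0, 0],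
      [0, 18, 18, 18, 17, 0, 0, 1, 0, 0, 0, 18, 2, 0, 0, 1, 1, 2, 0],
      [0, 7, 7, 7, 14, 0, 0, 0, 0, 0, 0, 7, 5, 0, 0, 12, 12, 5, 0],
      [0, 7, 7, 12, 0, 0, 0, 0, 0, 0, 0, 7, 0, 0, 0, 12, 12, 0, 0],
      [0, 12, 12, 12, 0, 0, 0, 0, 1, 0, 0, 7, 0, 0, 0, 7, 7, 0, 0],
      [0, 12, 12, 12, 5, 0, 0, 7, 0, 1, 0, 12, 14, 0, 12, 7, 7, 14, 0],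
      [0, 1, 1, 1, 2, 0, 0, 18, 0, 0, 0, 1, 17, 0, 1, 18, 18, 17, 0],
      [0, 0, 0, 0, 0, 0, 0, 0, 0, 0, 1, 0, 0, 0, 0, 0, 0, 0, 0],
      [0, 0, 0, 0, 0, 14, 15, 0, 0, 0, 0, 0, 8, 5, 0, 0, 0, 0, 11],
      [0, 0, 0, 0, 0, 14, 12, 0, 0, 0, 0, 0, 14, 5, 0, 0, 0, 0, 5],
      [],
      [0, 9, 9, 9, 0, 0, 0, 0, 0, 0, 0, 10, 0, 0, 0, 10, 10, 0, 0],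
      [0, 18, 0, 0, 0, 0, 0, 0, 0, 0, 0, 0, 0, 0, 0, 1, 0, 0, 0],
      [10, 0, 0, 0, 0, 0, 0, 0, 0, 0, 0, 0, 0, 0, 0, 0, 0, 0, 0]]
    [0, 0, 0, 1, 5, 11, 2, 2, 5, 0, 0, 14, 17, 17, 8, 14, 18, 0, 0, 0] (by decide) ?_ ?_ ?_ <;> decide +kernel

theorem c_19_4_p : Cert 19 4 1 2 := by
  refine cert_of (σ := 1) (by decide) (by decide) 16
    [(4, 0), (5, 0), (0, 0), (0, 1), (0, 2), (0, 3), (0, 4), (0, 5), (0, 7), (0, 10), (0, 11), (0, 13), (2, 1), (2, 2), (2, 3), (2, 4), (2, 7), (1, 2), (1, 3)]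
    [[0, 0, 0, 0, 0, 0, 0, 0, 0, 0, 0, 0, 0, 0, 0, 0, 0, 0, 0, 1],
      [0, 0, 1, 0, 0, 0, 0, 0, 0, 0, 0, 0, 0, 0, 0, 0, 0, 0, 0, 0],
      [1, 0, 0, 0, 0, 0, 0, 0, 0, 0, 0, 0, 0, 0, 0, 0, 0, 0, 0, 1],
      [0, 1, 0, 0, 0, 0, 0, 0, 0, 0, 0, 0, 0, 0, 0, 0, 0, 0, 1, 0],
      [0, 0, 1, 0, 0, 0, 0, 0, 0, 16, 0, 0, 0, 0, 0, 0, 0, 0, 0, 0],
      [0, 0, 0, 1, 0, 0, 5, 0, 0, 0, 0, 0, 0, 0, 0, 0, 0, 0, 0, 0],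
      [0, 0, 0, 0, 1, 0, 0, 0, 0, 0, 0, 0, 0, 0, 9, 0, 0, 0, 0, 0],
      [0, 0, 0, 0, 0, 1, 0, 0, 0, 0, 0, 0, 0, 0, 0, 17, 0, 0, 0, 0],
      [0, 0, 0, 0, 0, 0, 0, 1, 7, 0, 0, 0, 0, 0, 0, 0, 0, 0, 0, 0],
      [0, 0, 0, 0, 0, 0, 0, 0, 0, 0, 1, 0, 0, 0, 0, 0, 0, 6, 0, 0],
      [0, 0, 0, 0, 0, 0, 0, 0, 0, 0, 0, 1, 11, 0, 0, 0, 0, 0, 0, 0],
      [0, 0, 0, 0, 0, 0, 0, 0, 0, 0, 0, 0, 0, 1, 0, 0, 4, 0, 0, 0],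
      [0, 18, 0, 0, 0, 0, 0, 0, 0, 0, 0, 0, 0, 0, 0, 0, 0, 0, 1, 0],
      [0, 0, 18, 0, 0, 0, 0, 0, 0, 0, 0, 0, 0, 0, 0, 0, 0, 1, 0, 0],
      [0, 0, 0, 18, 0, 0, 0, 0, 0, 0, 0, 0, 0, 0, 0, 0, 1, 0, 0, 0],
      [0, 0, 0, 0, 18, 0, 0, 0, 0, 0, 0, 0, 0, 0, 0, 1, 0, 0, 0, 0],
      [0, 0, 0, 0, 0, 0, 0, 18, 0, 0, 0, 0, 1, 0, 0, 0, 0, 0, 0, 0],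
      [0, 0, 1, 0, 0, 0, 5, 0, 16, 0, 0, 0, 0, 0, 0, 0, 0, 0, 0, 0],
      [0, 0, 0, 1, 0, 5, 0, 0, 0, 0, 0, 0, 0, 0, 9, 0, 0, 0, 0, 0]]
    [[18, 0, 1, 0, 0, 0, 0, 0, 0, 0, 0, 0, 0, 0, 0, 0, 0, 0, 0],
      [0, 0, 0, 10, 0, 0, 0, 0, 0, 0, 0, 0, 9, 0, 0, 0, 0, 0, 0],
      [0, 1, 0, 0, 0, 0, 0, 0, 0, 0, 0, 0, 0, 0, 0, 0, 0, 0, 0],
      [0, 0, 0, 0, 0, 0, 0, 0, 0, 0, 0, 0, 0, 0, 18, 0, 0, 0, 0],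
      [0, 0, 0, 0, 0, 0, 2, 10, 0, 0, 0, 0, 0, 0, 17, 1, 0, 0, 17],
      [0, 0, 0, 0, 0, 0, 4, 2, 0, 0, 0, 0, 0, 0, 15, 4, 0, 0, 15],
      [0, 0, 0, 0, 0, 4, 0, 0, 0, 0, 0, 0, 0, 0, 4, 0, 0, 0, 0],
      [0, 4, 0, 0, 0, 4, 0, 0, 1, 0, 0, 0, 0, 0, 4, 0, 0, 15, 0],
      [0, 13, 0, 0, 0, 13, 0, 0, 0, 0, 0, 0, 0, 0, 13, 0, 0, 6, 0],
      [0, 13, 0, 0, 6, 0, 0, 0, 0, 0, 0, 0, 0, 0, 0, 0, 0, 0, 0],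
      [0, 13, 0, 0, 0, 0, 0, 0, 0, 1, 0, 0, 0, 13, 0, 0, 0, 0, 0],
      [0, 13, 0, 0, 0, 13, 0, 0, 8, 0, 1, 0, 0, 0, 13, 0, 8, 6, 0],
      [0, 4, 0, 0, 0, 4, 0, 0, 1, 0, 0, 0, 0, 0, 4, 0, 1, 15, 0],
      [0, 0, 0, 0, 0, 0, 0, 0, 0, 0, 0, 1, 0, 0, 0, 0, 0, 0, 0],
      [0, 0, 0, 0, 0, 0, 2, 1, 0, 0, 0, 0, 0, 0, 15, 2, 0, 0, 15],
      [0, 0, 0, 0, 0, 0, 2, 10, 0, 0, 0, 0, 0, 0, 17, 2, 0, 0, 17],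
      [],
      [0, 1, 0, 0, 0, 0, 0, 0, 0, 0, 0, 0, 0, 1, 0, 0, 0, 0, 0],
      [0, 0, 0, 10, 0, 0, 0, 0, 0, 0, 0, 0, 10, 0, 0, 0, 0, 0, 0],
      [1, 0, 0, 0, 0, 0, 0, 0, 0, 0, 0, 0, 0, 0, 0, 0, 0, 0, 0]]
    [0, 0, 0, 18, 17, 15, 4, 4, 13, 0, 0, 13, 4, 4, 15, 17, 18, 0, 0, 0] (by decide) ?_ ?_ ?_ <;> decide +kernel

theorem c_19_4_m : Cert 19 4 (-1) 2 := by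
  refine cert_of (σ := 18) (by decide) (by decide) 16
    [(3, 0), (0, 0), (0, 1), (0, 2), (0, 3), (0, 4), (0, 5), (0, 7), (0, 10), (0, 11), (0, 13), (2, 2), (2, 3), (2, 4), (2, 7), (1, 0), (1, 1), (1, 2), (1, 3)]
    [[0, 0, 0, 0, 0, 0, 0, 0, 0, 0, 0, 0, 0, 0, 0, 0, 0, 0, 0, 2],
      [1, 0, 0, 0, 0, 0, 0, 0, 0, 0, 0, 0, 0, 0, 0, 0, 0, 0, 0, 1],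
      [0, 1, 0, 0, 0, 0, 0, 0, 0, 0, 0, 0, 0, 0, 0, 0, 0, 0, 1, 0],
      [0, 0, 1, 0, 0, 0, 0, 0, 0, 16, 0, 0, 0, 0, 0, 0, 0, 0, 0, 0],
      [0, 0, 0, 1, 0, 0, 5, 0, 0, 0, 0, 0, 0, 0, 0, 0, 0, 0, 0, 0],
      [0, 0, 0, 0, 1, 0, 0, 0, 0, 0, 0, 0, 0, 0, 9, 0, 0, 0, 0, 0],
      [0, 0, 0, 0, 0, 1, 0, 0, 0, 0, 0, 0, 0, 0, 0, 17, 0, 0, 0, 0],
      [0, 0, 0, 0, 0, 0, 0, 1, 7, 0, 0, 0, 0, 0, 0, 0, 0, 0, 0, 0],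
      [0, 0, 0, 0, 0, 0, 0, 0, 0, 0, 1, 0, 0, 0, 0, 0, 0, 6, 0, 0],
      [0, 0, 0, 0, 0, 0, 0, 0, 0, 0, 0, 1, 11, 0, 0, 0, 0, 0, 0, 0],
      [0, 0, 0, 0, 0, 0, 0, 0, 0, 0, 0, 0, 0, 1, 0, 0, 4, 0, 0, 0],
      [0, 0, 1, 0, 0, 0, 0, 0, 0, 0, 0, 0, 0, 0, 0, 0, 0, 1, 0, 0],
      [0, 0, 0, 1, 0, 0, 0, 0, 0, 0, 0, 0, 0, 0, 0, 0, 1, 0, 0, 0],
      [0, 0, 0, 0, 1, 0, 0, 0, 0, 0, 0, 0, 0, 0, 0, 1, 0, 0, 0, 0],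
      [0, 0, 0, 0, 0, 0, 0, 1, 0, 0, 0, 0, 1, 0, 0, 0, 0, 0, 0, 0],
      [1, 0, 0, 0, 0, 0, 0, 0, 0, 0, 0, 0, 0, 0, 0, 0, 0, 0, 1, 1],
      [0, 1, 0, 0, 0, 0, 0, 0, 0, 16, 0, 0, 0, 0, 0, 0, 0, 1, 0, 0],
      [0, 0, 1, 0, 0, 0, 5, 0, 16, 0, 0, 0, 0, 0, 0, 0, 0, 0, 0, 0],
      [0, 0, 0, 1, 0, 5, 0, 0, 0, 0, 0, 0, 0, 0, 9, 0, 0, 0, 0, 0]]
    [[9, 1, 0, 0, 0, 0, 0, 0, 0, 0, 0, 0, 0, 0, 0, 0, 0, 0, 0],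
      [0, 1, 1, 0, 0, 0, 0, 0, 0, 0, 0, 0, 0, 0, 0, 18, 0, 0, 0],
      [0, 10, 10, 10, 0, 0, 0, 0, 0, 0, 0, 10, 0, 0, 0, 9, 9, 0, 0],
      [0, 0, 0, 0, 0, 0, 0, 0, 0, 0, 0, 0, 1, 0, 0, 0, 0, 0, 0],
      [0, 0, 0, 0, 0, 7, 16, 0, 0, 0, 0, 0, 7, 13, 0, 0, 0, 0, 12],
      [0, 0, 0, 0, 0, 5, 7, 0, 0, 0, 0, 0, 5, 14, 0, 0, 0, 0, 14],
      [0, 0, 0, 0, 4, 0, 0, 0, 0, 0, 0, 0, 15, 0, 0, 0, 0, 0, 0],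
      [0, 2, 2, 2, 4, 0, 0, 1, 0, 0, 0, 2, 15, 0, 0, 17, 17, 15, 0],
      [0, 16, 16, 16, 13, 0, 0, 0, 0, 0, 0, 16, 6, 0, 0, 3, 3, 6, 0],
      [0, 16, 16, 3, 0, 0, 0, 0, 0, 0, 0, 16, 0, 0, 0, 3, 3, 0, 0],
      [0, 3, 3, 3, 0, 0, 0, 0, 1, 0, 0, 16, 0, 0, 0, 16, 16, 0, 0],
      [0, 3, 3, 3, 6, 0, 0, 11, 0, 1, 0, 3, 13, 0, 8, 16, 16, 13, 0],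
      [0, 17, 17, 17, 15, 0, 0, 18, 0, 0, 0, 17, 4, 0, 1, 2, 2, 4, 0],
      [0, 0, 0, 0, 0, 0, 0, 0, 0, 0, 1, 0, 0, 0, 0, 0, 0, 0, 0],
      [0, 0, 0, 0, 0, 12, 13, 0, 0, 0, 0, 0, 14, 7, 0, 0, 0, 0, 5],
      [0, 0, 0, 0, 0, 12, 3, 0, 0, 0, 0, 0, 12, 7, 0, 0, 0, 0, 7],
      [],
      [0, 9, 9, 9, 0, 0, 0, 0, 0, 0, 0, 10, 0, 0, 0, 10, 10, 0, 0],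
      [0, 18, 0, 0, 0, 0, 0, 0, 0, 0, 0, 0, 0, 0, 0, 1, 0, 0, 0],
      [10, 0, 0, 0, 0, 0, 0, 0, 0, 0, 0, 0, 0, 0, 0, 0, 0, 0, 0]]
    [0, 0, 0, 1, 7, 5, 15, 15, 6, 0, 0, 13, 4, 4, 14, 12, 18, 0, 0, 0] (by decide) ?_ ?_ ?_ <;> decide +kernel

theorem c_19_6_p : Cert 19 6 1 2 := by
  refine cert_of (σ := 1) (by decide) (by decide) 0
    [(4, 0), (5, 0), (0, 0), (0, 1), (0, 2), (0, 3), (0, 4), (0, 5), (0, 7), (0, 10), (0, 11), (0, 13), (2, 1), (2, 2), (2, 3), (2, 4), (2, 7), (1, 2), (1, 3), (1, 7)]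
    [[0, 0, 0, 0, 0, 0, 0, 0, 0, 0, 0, 0, 0, 0, 0, 0, 0, 0, 0, 1],
      [0, 0, 1, 0, 0, 0, 0, 0, 0, 0, 0, 0, 0, 0, 0, 0, 0, 0, 0, 0],
      [1, 0, 0, 0, 0, 0, 0, 0, 0, 0, 0, 0, 0, 0, 0, 0, 0, 0, 0, 1],
      [0, 1, 0, 0, 0, 0, 0, 0, 0, 0, 0, 0, 0, 0, 0, 0, 0, 0, 1, 0],
      [0, 0, 1, 0, 0, 0, 0, 0, 0, 7, 0, 0, 0, 0, 0, 0, 0, 0, 0, 0],
      [0, 0, 0, 1, 0, 0, 7, 0, 0, 0, 0, 0, 0, 0, 0, 0, 0, 0, 0, 0],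
      [0, 0, 0, 0, 1, 0, 0, 0, 0, 0, 0, 0, 0, 0, 11, 0, 0, 0, 0, 0],
      [0, 0, 0, 0, 0, 1, 0, 0, 0, 0, 0, 0, 0, 0, 0, 7, 0, 0, 0, 0],
      [0, 0, 0, 0, 0, 0, 0, 1, 1, 0, 0, 0, 0, 0, 0, 0, 0, 0, 0, 0],
      [0, 0, 0, 0, 0, 0, 0, 0, 0, 0, 1, 0, 0, 0, 0, 0, 0, 11, 0, 0],
      [0, 0, 0, 0, 0, 0, 0, 0, 0, 0, 0, 1, 1, 0, 0, 0, 0, 0, 0, 0],
      [0, 0, 0, 0, 0, 0, 0, 0, 0, 0, 0, 0, 0, 1, 0, 0, 11, 0, 0, 0],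
      [0, 18, 0, 0, 0, 0, 0, 0, 0, 0, 0, 0, 0, 0, 0, 0, 0, 0, 1, 0],
      [0, 0, 18, 0, 0, 0, 0, 0, 0, 0, 0, 0, 0, 0, 0, 0, 0, 1, 0, 0],
      [0, 0, 0, 18, 0, 0, 0, 0, 0, 0, 0, 0, 0, 0, 0, 0, 1, 0, 0, 0],
      [0, 0, 0, 0, 18, 0, 0, 0, 0, 0, 0, 0, 0, 0, 0, 1, 0, 0, 0, 0],
      [0, 0, 0, 0, 0, 0, 0, 18, 0, 0, 0, 0, 1, 0, 0, 0, 0, 0, 0, 0],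
      [0, 0, 1, 0, 0, 0, 7, 0, 7, 0, 0, 0, 0, 0, 0, 0, 0, 0, 0, 0],
      [0, 0, 0, 1, 0, 7, 0, 0, 0, 0, 0, 0, 0, 0, 11, 0, 0, 0, 0, 0],
      [0, 0, 0, 0, 0, 0, 0, 3, 0, 0, 0, 0, 0, 0, 0, 0, 0, 0, 0, 0]]
    [[18, 0, 1, 0, 0, 0, 0, 0, 0, 0, 0, 0, 0, 0, 0, 0, 0, 0, 0, 0],
      [0, 0, 0, 10, 0, 0, 0, 0, 0, 0, 0, 0, 9, 0, 0, 0, 0, 0, 0, 0],
      [0, 1, 0, 0, 0, 0, 0, 0, 0, 0, 0, 0, 0, 0, 0, 0, 0, 0, 0, 0],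
      [0, 1, 0, 0, 0, 1, 0, 0, 7, 0, 0, 0, 0, 0, 0, 0, 0, 18, 0, 4],
      [0, 8, 0, 0, 0, 8, 8, 18, 18, 0, 0, 0, 0, 0, 0, 7, 0, 11, 11, 13],
      [0, 1, 0, 0, 0, 1, 1, 8, 7, 0, 0, 0, 0, 0, 0, 1, 0, 18, 18, 4],
      [0, 8, 0, 0, 0, 0, 0, 0, 18, 0, 0, 0, 0, 0, 0, 0, 0, 11, 0, 13],
      [0, 0, 0, 0, 0, 0, 0, 0, 0, 0, 0, 0, 0, 0, 0, 0, 0, 0, 0, 13],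
      [0, 0, 0, 0, 0, 0, 0, 0, 1, 0, 0, 0, 0, 0, 0, 0, 0, 0, 0, 6],
      [0, 8, 0, 0, 11, 0, 0, 0, 0, 0, 0, 0, 0, 0, 0, 0, 0, 0, 0, 0],
      [0, 8, 0, 0, 0, 0, 0, 0, 0, 1, 0, 0, 0, 8, 0, 0, 0, 0, 0, 0],
      [0, 0, 0, 0, 0, 0, 0, 0, 0, 0, 1, 0, 0, 0, 0, 0, 18, 0, 0, 6],
      [0, 0, 0, 0, 0, 0, 0, 0, 0, 0, 0, 0, 0, 0, 0, 0, 1, 0, 0, 13],
      [0, 8, 0, 0, 0, 8, 0, 0, 18, 0, 0, 1, 0, 0, 8, 0, 0, 11, 0, 13],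
      [0, 1, 0, 0, 0, 1, 8, 7, 7, 0, 0, 0, 0, 0, 0, 8, 0, 18, 18, 4],
      [0, 8, 0, 0, 0, 8, 8, 18, 18, 0, 0, 0, 0, 0, 0, 8, 0, 11, 11, 13],
      [0, 1, 0, 0, 0, 1, 0, 0, 7, 0, 0, 0, 0, 0, 1, 0, 0, 18, 0, 4],
      [0, 1, 0, 0, 0, 0, 0, 0, 0, 0, 0, 0, 0, 1, 0, 0, 0, 0, 0, 0],
      [0, 0, 0, 10, 0, 0, 0, 0, 0, 0, 0, 0, 10, 0, 0, 0, 0, 0, 0, 0],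
      [1, 0, 0, 0, 0, 0, 0, 0, 0, 0, 0, 0, 0, 0, 0, 0, 0, 0, 0, 0]]
    [0, 0, 0, 0, 0, 0, 0, 0, 0, 0, 0, 0, 0, 0, 0, 0, 0, 0, 0, 0] (by decide) ?_ ?_ ?_ <;> decide +kernel

theorem c_19_6_m : Cert 19 6 (-1) 2 := by
  refine cert_of (σ := 18) (by decide) (by decide) 0
    [(3, 0), (0, 0), (0, 1), (0, 2), (0, 3), (0, 4), (0, 5), (0, 7), (0, 10), (0, 11), (0, 13), (2, 2), (2, 3), (2, 4), (2, 7), (1, 0), (1, 1), (1, 2), (1, 3), (1, 7)]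
    [[0, 0, 0, 0, 0, 0, 0, 0, 0, 0, 0, 0, 0, 0, 0, 0, 0, 0, 0, 2],
      [1, 0, 0, 0, 0, 0, 0, 0, 0, 0, 0, 0, 0, 0, 0, 0, 0, 0, 0, 1],
      [0, 1, 0, 0, 0, 0, 0, 0, 0, 0, 0, 0, 0, 0, 0, 0, 0, 0, 1, 0],
      [0, 0, 1, 0, 0, 0, 0, 0, 0, 7, 0, 0, 0, 0, 0, 0, 0, 0, 0, 0],
      [0, 0, 0, 1, 0, 0, 7, 0, 0, 0, 0, 0, 0, 0, 0, 0, 0, 0, 0, 0],
      [0, 0, 0, 0, 1, 0, 0, 0, 0, 0, 0, 0, 0, 0, 11, 0, 0, 0, 0, 0],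
      [0, 0, 0, 0, 0, 1, 0, 0, 0, 0, 0, 0, 0, 0, 0, 7, 0, 0, 0, 0],
      [0, 0, 0, 0, 0, 0, 0, 1, 1, 0, 0, 0, 0, 0, 0, 0, 0, 0, 0, 0],
      [0, 0, 0, 0, 0, 0, 0, 0, 0, 0, 1, 0, 0, 0, 0, 0, 0, 11, 0, 0],
      [0, 0, 0, 0, 0, 0, 0, 0, 0, 0, 0, 1, 1, 0, 0, 0, 0, 0, 0, 0],
      [0, 0, 0, 0, 0, 0, 0, 0, 0, 0, 0, 0, 0, 1, 0, 0, 11, 0, 0, 0],
      [0, 0, 1, 0, 0, 0, 0, 0, 0, 0, 0, 0, 0, 0, 0, 0, 0, 1, 0, 0],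
      [0, 0, 0, 1, 0, 0, 0, 0, 0, 0, 0, 0, 0, 0, 0, 0, 1, 0, 0, 0],
      [0, 0, 0, 0, 1, 0, 0, 0, 0, 0, 0, 0, 0, 0, 0, 1, 0, 0, 0, 0],
      [0, 0, 0, 0, 0, 0, 0, 1, 0, 0, 0, 0, 1, 0, 0, 0, 0, 0, 0, 0],
      [1, 0, 0, 0, 0, 0, 0, 0, 0, 0, 0, 0, 0, 0, 0, 0, 0, 0, 1, 1],
      [0, 1, 0, 0, 0, 0, 0, 0, 0, 7, 0, 0, 0, 0, 0, 0, 0, 1, 0, 0],
      [0, 0, 1, 0, 0, 0, 7, 0, 7, 0, 0, 0, 0, 0, 0, 0, 0, 0, 0, 0],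
      [0, 0, 0, 1, 0, 7, 0, 0, 0, 0, 0, 0, 0, 0, 11, 0, 0, 0, 0, 0],
      [0, 0, 0, 0, 0, 0, 0, 3, 0, 0, 0, 0, 0, 0, 0, 0, 0, 0, 0, 0]]
    [[9, 1, 0, 0, 0, 0, 0, 0, 0, 0, 0, 0, 0, 0, 0, 0, 0, 0, 0, 0],
      [0, 1, 1, 0, 0, 0, 0, 0, 0, 0, 0, 0, 0, 0, 0, 18, 0, 0, 0, 0],
      [0, 10, 10, 10, 0, 0, 0, 0, 0, 0, 0, 10, 0, 0, 0, 9, 9, 0, 0, 0],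
      [0, 10, 10, 10, 1, 0, 0, 7, 0, 0, 0, 10, 0, 0, 0, 9, 9, 18, 0, 4],
      [0, 18, 18, 18, 17, 17, 5, 5, 0, 0, 0, 18, 0, 3, 0, 1, 1, 2, 2, 11],
      [0, 12, 12, 12, 5, 5, 17, 16, 0, 0, 0, 12, 0, 14, 0, 7, 7, 14, 14, 1],
      [0, 4, 4, 4, 0, 0, 0, 18, 0, 0, 0, 4, 0, 0, 0, 15, 15, 11, 0, 13],
      [0, 0, 0, 0, 0, 0, 0, 0, 0, 0, 0, 0, 0, 0, 0, 0, 0, 0, 0, 13],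
      [0, 0, 0, 0, 0, 0, 0, 1, 0, 0, 0, 0, 0, 0, 0, 0, 0, 0, 0, 6],
      [0, 4, 4, 15, 0, 0, 0, 0, 0, 0, 0, 4, 0, 0, 0, 15, 15, 0, 0, 0],
      [0, 15, 15, 15, 0, 0, 0, 0, 1, 0, 0, 4, 0, 0, 0, 4, 4, 0, 0, 0],
      [0, 0, 0, 0, 0, 0, 0, 0, 0, 1, 0, 0, 0, 0, 18, 0, 0, 0, 0, 13],
      [0, 0, 0, 0, 0, 0, 0, 0, 0, 0, 0, 0, 0, 0, 1, 0, 0, 0, 0, 6],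
      [0, 15, 15, 15, 11, 0, 0, 1, 0, 0, 1, 15, 8, 0, 0, 4, 4, 8, 0, 6],
      [0, 7, 7, 7, 14, 2, 3, 3, 0, 0, 0, 7, 0, 17, 0, 12, 12, 5, 5, 18],
      [0, 1, 1, 1, 2, 2, 14, 14, 0, 0, 0, 1, 0, 17, 0, 18, 18, 17, 17, 8],
      [0, 9, 9, 9, 18, 0, 0, 12, 0, 0, 0, 9, 1, 0, 0, 10, 10, 1, 0, 15],
      [0, 9, 9, 9, 0, 0, 0, 0, 0, 0, 0, 10, 0, 0, 0, 10, 10, 0, 0, 0],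
      [0, 18, 0, 0, 0, 0, 0, 0, 0, 0, 0, 0, 0, 0, 0, 1, 0, 0, 0, 0],
      [10, 0, 0, 0, 0, 0, 0, 0, 0, 0, 0, 0, 0, 0, 0, 0, 0, 0, 0, 0]]
    [0, 0, 0, 0, 0, 0, 0, 0, 0, 0, 0, 0, 0, 0, 0, 0, 0, 0, 0, 0] (by decide) ?_ ?_ ?_ <;> decide +kernel

theorem c_19_8_p : Cert 19 8 1 2 := by
  refine cert_of (σ := 1) (by decide) (by decide) 16
    [(4, 0), (5, 0), (0, 0), (0, 1), (0, 2), (0, 3), (0, 4), (0, 5), (0, 7), (0, 10), (0, 11), (0, 13), (2, 1), (2, 2), (2, 3), (2, 4), (2, 7), (1, 2), (1, 3)]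
    [[0, 0, 0, 0, 0, 0, 0, 0, 0, 0, 0, 0, 0, 0, 0, 0, 0, 0, 0, 1],
      [0, 0, 1, 0, 0, 0, 0, 0, 0, 0, 0, 0, 0, 0, 0, 0, 0, 0, 0, 0],
      [1, 0, 0, 0, 0, 0, 0, 0, 0, 0, 0, 0, 0, 0, 0, 0, 0, 0, 0, 1],
      [0, 1, 0, 0, 0, 0, 0, 0, 0, 0, 0, 0, 0, 0, 0, 0, 0, 0, 1, 0],
      [0, 0, 1, 0, 0, 0, 0, 0, 0, 9, 0, 0, 0, 0, 0, 0, 0, 0, 0, 0],
      [0, 0, 0, 1, 0, 0, 6, 0, 0, 0, 0, 0, 0, 0, 0, 0, 0, 0, 0, 0],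
      [0, 0, 0, 0, 1, 0, 0, 0, 0, 0, 0, 0, 0, 0, 5, 0, 0, 0, 0, 0],
      [0, 0, 0, 0, 0, 1, 0, 0, 0, 0, 0, 0, 0, 0, 0, 4, 0, 0, 0, 0],
      [0, 0, 0, 0, 0, 0, 0, 1, 11, 0, 0, 0, 0, 0, 0, 0, 0, 0, 0, 0],
      [0, 0, 0, 0, 0, 0, 0, 0, 0, 0, 1, 0, 0, 0, 0, 0, 0, 17, 0, 0],
      [0, 0, 0, 0, 0, 0, 0, 0, 0, 0, 0, 1, 7, 0, 0, 0, 0, 0, 0, 0],
      [0, 0, 0, 0, 0, 0, 0, 0, 0, 0, 0, 0, 0, 1, 0, 0, 16, 0, 0, 0],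
      [0, 18, 0, 0, 0, 0, 0, 0, 0, 0, 0, 0, 0, 0, 0, 0, 0, 0, 1, 0],
      [0, 0, 18, 0, 0, 0, 0, 0, 0, 0, 0, 0, 0, 0, 0, 0, 0, 1, 0, 0],
      [0, 0, 0, 18, 0, 0, 0, 0, 0, 0, 0, 0, 0, 0, 0, 0, 1, 0, 0, 0],
      [0, 0, 0, 0, 18, 0, 0, 0, 0, 0, 0, 0, 0, 0, 0, 1, 0, 0, 0, 0],
      [0, 0, 0, 0, 0, 0, 0, 18, 0, 0, 0, 0, 1, 0, 0, 0, 0, 0, 0, 0],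
      [0, 0, 1, 0, 0, 0, 6, 0, 9, 0, 0, 0, 0, 0, 0, 0, 0, 0, 0, 0],
      [0, 0, 0, 1, 0, 6, 0, 0, 0, 0, 0, 0, 0, 0, 5, 0, 0, 0, 0, 0]]
    [[18, 0, 1, 0, 0, 0, 0, 0, 0, 0, 0, 0, 0, 0, 0, 0, 0, 0, 0],
      [0, 0, 0, 10, 0, 0, 0, 0, 0, 0, 0, 0, 9, 0, 0, 0, 0, 0, 0],
      [0, 1, 0, 0, 0, 0, 0, 0, 0, 0, 0, 0, 0, 0, 0, 0, 0, 0, 0],
      [0, 0, 0, 0, 0, 0, 0, 0, 0, 0, 0, 0, 0, 0, 18, 0, 0, 0, 0],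
      [0, 0, 0, 0, 0, 0, 16, 1, 0, 0, 0, 0, 0, 0, 3, 15, 0, 0, 3],
      [0, 0, 0, 0, 0, 0, 12, 16, 0, 0, 0, 0, 0, 0, 7, 12, 0, 0, 7],
      [0, 0, 0, 0, 0, 16, 0, 0, 0, 0, 0, 0, 0, 0, 16, 0, 0, 0, 0],
      [0, 16, 0, 0, 0, 16, 0, 0, 1, 0, 0, 0, 0, 0, 16, 0, 0, 3, 0],
      [0, 2, 0, 0, 0, 2, 0, 0, 0, 0, 0, 0, 0, 0, 2, 0, 0, 17, 0],
      [0, 2, 0, 0, 17, 0, 0, 0, 0, 0, 0, 0, 0, 0, 0, 0, 0, 0, 0],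
      [0, 2, 0, 0, 0, 0, 0, 0, 0, 1, 0, 0, 0, 2, 0, 0, 0, 0, 0],
      [0, 2, 0, 0, 0, 2, 0, 0, 12, 0, 1, 0, 0, 0, 2, 0, 12, 17, 0],
      [0, 16, 0, 0, 0, 16, 0, 0, 1, 0, 0, 0, 0, 0, 16, 0, 1, 3, 0],
      [0, 0, 0, 0, 0, 0, 0, 0, 0, 0, 0, 1, 0, 0, 0, 0, 0, 0, 0],
      [0, 0, 0, 0, 0, 0, 16, 15, 0, 0, 0, 0, 0, 0, 7, 16, 0, 0, 7],
      [0, 0, 0, 0, 0, 0, 16, 1, 0, 0, 0, 0, 0, 0, 3, 16, 0, 0, 3],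
      [],
      [0, 1, 0, 0, 0, 0, 0, 0, 0, 0, 0, 0, 0, 1, 0, 0, 0, 0, 0],
      [0, 0, 0, 10, 0, 0, 0, 0, 0, 0, 0, 0, 10, 0, 0, 0, 0, 0, 0],
      [1, 0, 0, 0, 0, 0, 0, 0, 0, 0, 0, 0, 0, 0, 0, 0, 0, 0, 0]]
    [0, 0, 0, 18, 3, 7, 16, 16, 2, 0, 0, 2, 16, 16, 7, 3, 18, 0, 0, 0] (by decide) ?_ ?_ ?_ <;> decide +kernel

theorem c_19_8_m : Cert 19 8 (-1) 2 := by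
  refine cert_of (σ := 18) (by decide) (by decide) 16
    [(3, 0), (0, 0), (0, 1), (0, 2), (0, 3), (0, 4), (0, 5), (0, 7), (0, 10), (0, 11), (0, 13), (2, 2), (2, 3), (2, 4), (2, 7), (1, 0), (1, 1), (1, 2), (1, 3)]
    [[0, 0, 0, 0, 0, 0, 0, 0, 0, 0, 0, 0, 0, 0, 0, 0, 0, 0, 0, 2],
      [1, 0, 0, 0, 0, 0, 0, 0, 0, 0, 0, 0, 0, 0, 0, 0, 0, 0, 0, 1],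
      [0, 1, 0, 0, 0, 0, 0, 0, 0, 0, 0, 0, 0, 0, 0, 0, 0, 0, 1, 0],
      [0, 0, 1, 0, 0, 0, 0, 0, 0, 9, 0, 0, 0, 0, 0, 0, 0, 0, 0, 0],
      [0, 0, 0, 1, 0, 0, 6, 0, 0, 0, 0, 0, 0, 0, 0, 0, 0, 0, 0, 0],
      [0, 0, 0, 0, 1, 0, 0, 0, 0, 0, 0, 0, 0, 0, 5, 0, 0, 0, 0, 0],
      [0, 0, 0, 0, 0, 1, 0, 0, 0, 0, 0, 0, 0, 0, 0, 4, 0, 0, 0, 0],
      [0, 0, 0, 0, 0, 0, 0, 1, 11, 0, 0, 0, 0, 0, 0, 0, 0, 0, 0, 0],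
      [0, 0, 0, 0, 0, 0, 0, 0, 0, 0, 1, 0, 0, 0, 0, 0, 0, 17, 0, 0],
      [0, 0, 0, 0, 0, 0, 0, 0, 0, 0, 0, 1, 7, 0, 0, 0, 0, 0, 0, 0],
      [0, 0, 0, 0, 0, 0, 0, 0, 0, 0, 0, 0, 0, 1, 0, 0, 16, 0, 0, 0],
      [0, 0, 1, 0, 0, 0, 0, 0, 0, 0, 0, 0, 0, 0, 0, 0, 0, 1, 0, 0],
      [0, 0, 0, 1, 0, 0, 0, 0, 0, 0, 0, 0, 0, 0, 0, 0, 1, 0, 0, 0],
      [0, 0, 0, 0, 1, 0, 0, 0, 0, 0, 0, 0, 0, 0, 0, 1, 0, 0, 0, 0],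
      [0, 0, 0, 0, 0, 0, 0, 1, 0, 0, 0, 0, 1, 0, 0, 0, 0, 0, 0, 0],
      [1, 0, 0, 0, 0, 0, 0, 0, 0, 0, 0, 0, 0, 0, 0, 0, 0, 0, 1, 1],
      [0, 1, 0, 0, 0, 0, 0, 0, 0, 9, 0, 0, 0, 0, 0, 0, 0, 1, 0, 0],
      [0, 0, 1, 0, 0, 0, 6, 0, 9, 0, 0, 0, 0, 0, 0, 0, 0, 0, 0, 0],
      [0, 0, 0, 1, 0, 6, 0, 0, 0, 0, 0, 0, 0, 0, 5, 0, 0, 0, 0, 0]]
    [[9, 1, 0, 0, 0, 0, 0, 0, 0, 0, 0, 0, 0, 0, 0, 0, 0, 0, 0],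
      [0, 1, 1, 0, 0, 0, 0, 0, 0, 0, 0, 0, 0, 0, 0, 18, 0, 0, 0],
      [0, 10, 10, 10, 0, 0, 0, 0, 0, 0, 0, 10, 0, 0, 0, 9, 9, 0, 0],
      [0, 0, 0, 0, 0, 0, 0, 0, 0, 0, 0, 0, 1, 0, 0, 0, 0, 0, 0],
      [0, 0, 0, 0, 0, 14, 8, 0, 0, 0, 0, 0, 14, 6, 0, 0, 0, 0, 5],
      [0, 0, 0, 0, 0, 18, 14, 0, 0, 0, 0, 0, 18, 1, 0, 0, 0, 0, 1],
      [0, 0, 0, 0, 16, 0, 0, 0, 0, 0, 0, 0, 3, 0, 0, 0, 0, 0, 0],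
      [0, 8, 8, 8, 16, 0, 0, 1, 0, 0, 0, 8, 3, 0, 0, 11, 11, 3, 0],
      [0, 1, 1, 1, 2, 0, 0, 0, 0, 0, 0, 1, 17, 0, 0, 18, 18, 17, 0],
      [0, 1, 1, 18, 0, 0, 0, 0, 0, 0, 0, 1, 0, 0, 0, 18, 18, 0, 0],
      [0, 18, 18, 18, 0, 0, 0, 0, 1, 0, 0, 1, 0, 0, 0, 1, 1, 0, 0],
      [0, 18, 18, 18, 17, 0, 0, 7, 0, 1, 0, 18, 2, 0, 12, 1, 1, 2, 0],
      [0, 11, 11, 11, 3, 0, 0, 18, 0, 0, 0, 11, 16, 0, 1, 8, 8, 16, 0],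
      [0, 0, 0, 0, 0, 0, 0, 0, 0, 0, 1, 0, 0, 0, 0, 0, 0, 0, 0],
      [0, 0, 0, 0, 0, 5, 6, 0, 0, 0, 0, 0, 1, 14, 0, 0, 0, 0, 18],
      [0, 0, 0, 0, 0, 5, 11, 0, 0, 0, 0, 0, 5, 14, 0, 0, 0, 0, 14],
      [],
      [0, 9, 9, 9, 0, 0, 0, 0, 0, 0, 0, 10, 0, 0, 0, 10, 10, 0, 0],
      [0, 18, 0, 0, 0, 0, 0, 0, 0, 0, 0, 0, 0, 0, 0, 1, 0, 0, 0],
      [10, 0, 0, 0, 0, 0, 0, 0, 0, 0, 0, 0, 0, 0, 0, 0, 0, 0, 0]]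
    [0, 0, 0, 1, 14, 18, 3, 3, 17, 0, 0, 2, 16, 16, 1, 5, 18, 0, 0, 0] (by decide) ?_ ?_ ?_ <;> decide +kernel

theorem c_19_10_p : Cert 19 10 1 2 := by
  refine cert_of (σ := 1) (by decide) (by decide) 16
    [(4, 0), (5, 0), (0, 0), (0, 1), (0, 2), (0, 3), (0, 4), (0, 5), (0, 7), (0, 10), (0, 11), (0, 13), (2, 1), (2, 2), (2, 3), (2, 4), (2, 7), (1, 2), (1, 3)]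
    [[0, 0, 0, 0, 0, 0, 0, 0, 0, 0, 0, 0, 0, 0, 0, 0, 0, 0, 0, 1],
      [0, 0, 1, 0, 0, 0, 0, 0, 0, 0, 0, 0, 0, 0, 0, 0, 0, 0, 0, 0],
      [1, 0, 0, 0, 0, 0, 0, 0, 0, 0, 0, 0, 0, 0, 0, 0, 0, 0, 0, 1],
      [0, 1, 0, 0, 0, 0, 0, 0, 0, 0, 0, 0, 0, 0, 0, 0, 0, 0, 1, 0],
      [0, 0, 1, 0, 0, 0, 0, 0, 0, 17, 0, 0, 0, 0, 0, 0, 0, 0, 0, 0],
      [0, 0, 0, 1, 0, 0, 16, 0, 0, 0, 0, 0, 0, 0, 0, 0, 0, 0, 0, 0],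
      [0, 0, 0, 0, 1, 0, 0, 0, 0, 0, 0, 0, 0, 0, 4, 0, 0, 0, 0, 0],
      [0, 0, 0, 0, 0, 1, 0, 0, 0, 0, 0, 0, 0, 0, 0, 5, 0, 0, 0, 0],
      [0, 0, 0, 0, 0, 0, 0, 1, 7, 0, 0, 0, 0, 0, 0, 0, 0, 0, 0, 0],
      [0, 0, 0, 0, 0, 0, 0, 0, 0, 0, 1, 0, 0, 0, 0, 0, 0, 9, 0, 0],
      [0, 0, 0, 0, 0, 0, 0, 0, 0, 0, 0, 1, 11, 0, 0, 0, 0, 0, 0, 0],
      [0, 0, 0, 0, 0, 0, 0, 0, 0, 0, 0, 0, 0, 1, 0, 0, 6, 0, 0, 0],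
      [0, 18, 0, 0, 0, 0, 0, 0, 0, 0, 0, 0, 0, 0, 0, 0, 0, 0, 1, 0],
      [0, 0, 18, 0, 0, 0, 0, 0, 0, 0, 0, 0, 0, 0, 0, 0, 0, 1, 0, 0],
      [0, 0, 0, 18, 0, 0, 0, 0, 0, 0, 0, 0, 0, 0, 0, 0, 1, 0, 0, 0],
      [0, 0, 0, 0, 18, 0, 0, 0, 0, 0, 0, 0, 0, 0, 0, 1, 0, 0, 0, 0],
      [0, 0, 0, 0, 0, 0, 0, 18, 0, 0, 0, 0, 1, 0, 0, 0, 0, 0, 0, 0],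
      [0, 0, 1, 0, 0, 0, 16, 0, 17, 0, 0, 0, 0, 0, 0, 0, 0, 0, 0, 0],
      [0, 0, 0, 1, 0, 16, 0, 0, 0, 0, 0, 0, 0, 0, 4, 0, 0, 0, 0, 0]]
    [[18, 0, 1, 0, 0, 0, 0, 0, 0, 0, 0, 0, 0, 0, 0, 0, 0, 0, 0],
      [0, 0, 0, 10, 0, 0, 0, 0, 0, 0, 0, 0, 9, 0, 0, 0, 0, 0, 0],
      [0, 1, 0, 0, 0, 0, 0, 0, 0, 0, 0, 0, 0, 0, 0, 0, 0, 0, 0],
      [0, 0, 0, 0, 0, 0, 0, 0, 0, 0, 0, 0, 0, 0, 18, 0, 0, 0, 0],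
      [0, 0, 0, 0, 0, 0, 4, 7, 0, 0, 0, 0, 0, 0, 15, 3, 0, 0, 15],
      [0, 0, 0, 0, 0, 0, 18, 4, 0, 0, 0, 0, 0, 0, 1, 18, 0, 0, 1],
      [0, 0, 0, 0, 0, 6, 0, 0, 0, 0, 0, 0, 0, 0, 6, 0, 0, 0, 0],
      [0, 6, 0, 0, 0, 6, 0, 0, 1, 0, 0, 0, 0, 0, 6, 0, 0, 13, 0],
      [0, 10, 0, 0, 0, 10, 0, 0, 0, 0, 0, 0, 0, 0, 10, 0, 0, 9, 0],
      [0, 10, 0, 0, 9, 0, 0, 0, 0, 0, 0, 0, 0, 0, 0, 0, 0, 0, 0],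
      [0, 10, 0, 0, 0, 0, 0, 0, 0, 1, 0, 0, 0, 10, 0, 0, 0, 0, 0],
      [0, 10, 0, 0, 0, 10, 0, 0, 8, 0, 1, 0, 0, 0, 10, 0, 8, 9, 0],
      [0, 6, 0, 0, 0, 6, 0, 0, 1, 0, 0, 0, 0, 0, 6, 0, 1, 13, 0],
      [0, 0, 0, 0, 0, 0, 0, 0, 0, 0, 0, 1, 0, 0, 0, 0, 0, 0, 0],
      [0, 0, 0, 0, 0, 0, 4, 3, 0, 0, 0, 0, 0, 0, 1, 4, 0, 0, 1],
      [0, 0, 0, 0, 0, 0, 4, 7, 0, 0, 0, 0, 0, 0, 15, 4, 0, 0, 15],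
      [],
      [0, 1, 0, 0, 0, 0, 0, 0, 0, 0, 0, 0, 0, 1, 0, 0, 0, 0, 0],
      [0, 0, 0, 10, 0, 0, 0, 0, 0, 0, 0, 0, 10, 0, 0, 0, 0, 0, 0],
      [1, 0, 0, 0, 0, 0, 0, 0, 0, 0, 0, 0, 0, 0, 0, 0, 0, 0, 0]]
    [0, 0, 0, 18, 15, 1, 6, 6, 10, 0, 0, 10, 6, 6, 1, 15, 18, 0, 0, 0] (by decide) ?_ ?_ ?_ <;> decide +kernel

theorem c_19_10_m : Cert 19 10 (-1) 2 := by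
  refine cert_of (σ := 18) (by decide) (by decide) 16
    [(3, 0), (0, 0), (0, 1), (0, 2), (0, 3), (0, 4), (0, 5), (0, 7), (0, 10), (0, 11), (0, 13), (2, 2), (2, 3), (2, 4), (2, 7), (1, 0), (1, 1), (1, 2), (1, 3)]
    [[0, 0, 0, 0, 0, 0, 0, 0, 0, 0, 0, 0, 0, 0, 0, 0, 0, 0, 0, 2],
      [1, 0, 0, 0, 0, 0, 0, 0, 0, 0, 0, 0, 0, 0, 0, 0, 0, 0, 0, 1],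
      [0, 1, 0, 0, 0, 0, 0, 0, 0, 0, 0, 0, 0, 0, 0, 0, 0, 0, 1, 0],
      [0, 0, 1, 0, 0, 0, 0, 0, 0, 17, 0, 0, 0, 0, 0, 0, 0, 0, 0, 0],
      [0, 0, 0, 1, 0, 0, 16, 0, 0, 0, 0, 0, 0, 0, 0, 0, 0, 0, 0, 0],
      [0, 0, 0, 0, 1, 0, 0, 0, 0, 0, 0, 0, 0, 0, 4, 0, 0, 0, 0, 0],
      [0, 0, 0, 0, 0, 1, 0, 0, 0, 0, 0, 0, 0, 0, 0, 5, 0, 0, 0, 0],
      [0, 0, 0, 0, 0, 0, 0, 1, 7, 0, 0, 0, 0, 0, 0, 0, 0, 0, 0, 0],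
      [0, 0, 0, 0, 0, 0, 0, 0, 0, 0, 1, 0, 0, 0, 0, 0, 0, 9, 0, 0],
      [0, 0, 0, 0, 0, 0, 0, 0, 0, 0, 0, 1, 11, 0, 0, 0, 0, 0, 0, 0],
      [0, 0, 0, 0, 0, 0, 0, 0, 0, 0, 0, 0, 0, 1, 0, 0, 6, 0, 0, 0],
      [0, 0, 1, 0, 0, 0, 0, 0, 0, 0, 0, 0, 0, 0, 0, 0, 0, 1, 0, 0],
      [0, 0, 0, 1, 0, 0, 0, 0, 0, 0, 0, 0, 0, 0, 0, 0, 1, 0, 0, 0],
      [0, 0, 0, 0, 1, 0, 0, 0, 0, 0, 0, 0, 0, 0, 0, 1, 0, 0, 0, 0],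
      [0, 0, 0, 0, 0, 0, 0, 1, 0, 0, 0, 0, 1, 0, 0, 0, 0, 0, 0, 0],
      [1, 0, 0, 0, 0, 0, 0, 0, 0, 0, 0, 0, 0, 0, 0, 0, 0, 0, 1, 1],
      [0, 1, 0, 0, 0, 0, 0, 0, 0, 17, 0, 0, 0, 0, 0, 0, 0, 1, 0, 0],
      [0, 0, 1, 0, 0, 0, 16, 0, 17, 0, 0, 0, 0, 0, 0, 0, 0, 0, 0, 0],
      [0, 0, 0, 1, 0, 16, 0, 0, 0, 0, 0, 0, 0, 0, 4, 0, 0, 0, 0, 0]]
    [[9, 1, 0, 0, 0, 0, 0, 0, 0, 0, 0, 0, 0, 0, 0, 0, 0, 0, 0],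
      [0, 1, 1, 0, 0, 0, 0, 0, 0, 0, 0, 0, 0, 0, 0, 18, 0, 0, 0],
      [0, 10, 10, 10, 0, 0, 0, 0, 0, 0, 0, 10, 0, 0, 0, 9, 9, 0, 0],
      [0, 0, 0, 0, 0, 0, 0, 0, 0, 0, 0, 0, 1, 0, 0, 0, 0, 0, 0],
      [0, 0, 0, 0, 0, 6, 1, 0, 0, 0, 0, 0, 6, 14, 0, 0, 0, 0, 13],
      [0, 0, 0, 0, 0, 11, 6, 0, 0, 0, 0, 0, 11, 8, 0, 0, 0, 0, 8],
      [0, 0, 0, 0, 6, 0, 0, 0, 0, 0, 0, 0, 13, 0, 0, 0, 0, 0, 0],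
      [0, 3, 3, 3, 6, 0, 0, 1, 0, 0, 0, 3, 13, 0, 0, 16, 16, 13, 0],
      [0, 5, 5, 5, 10, 0, 0, 0, 0, 0, 0, 5, 9, 0, 0, 14, 14, 9, 0],
      [0, 5, 5, 14, 0, 0, 0, 0, 0, 0, 0, 5, 0, 0, 0, 14, 14, 0, 0],
      [0, 14, 14, 14, 0, 0, 0, 0, 1, 0, 0, 5, 0, 0, 0, 5, 5, 0, 0],
      [0, 14, 14, 14, 9, 0, 0, 11, 0, 1, 0, 14, 10, 0, 8, 5, 5, 10, 0],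
      [0, 16, 16, 16, 13, 0, 0, 18, 0, 0, 0, 16, 6, 0, 1, 3, 3, 6, 0],
      [0, 0, 0, 0, 0, 0, 0, 0, 0, 0, 1, 0, 0, 0, 0, 0, 0, 0, 0],
      [0, 0, 0, 0, 0, 13, 14, 0, 0, 0, 0, 0, 8, 6, 0, 0, 0, 0, 11],
      [0, 0, 0, 0, 0, 13, 18, 0, 0, 0, 0, 0, 13, 6, 0, 0, 0, 0, 6],
      [],
      [0, 9, 9, 9, 0, 0, 0, 0, 0, 0, 0, 10, 0, 0, 0, 10, 10, 0, 0],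
      [0, 18, 0, 0, 0, 0, 0, 0, 0, 0, 0, 0, 0, 0, 0, 1, 0, 0, 0],
      [10, 0, 0, 0, 0, 0, 0, 0, 0, 0, 0, 0, 0, 0, 0, 0, 0, 0, 0]]
    [0, 0, 0, 1, 6, 11, 13, 13, 9, 0, 0, 10, 6, 6, 8, 13, 18, 0, 0, 0] (by decide) ?_ ?_ ?_ <;> decide +kernel

theorem c_19_12_p : Cert 19 12 1 2 := by
  refine cert_of (σ := 1) (by decide) (by decide) 0
    [(4, 0), (5, 0), (0, 0), (0, 1), (0, 2), (0, 3), (0, 4), (0, 5), (0, 7), (0, 10), (0, 11), (0, 13), (2, 1), (2, 2), (2, 3), (2, 4), (2, 7), (1, 2), (1, 3), (1, 7)]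
    [[0, 0, 0, 0, 0, 0, 0, 0, 0, 0, 0, 0, 0, 0, 0, 0, 0, 0, 0, 1],
      [0, 0, 1, 0, 0, 0, 0, 0, 0, 0, 0, 0, 0, 0, 0, 0, 0, 0, 0, 0],
      [1, 0, 0, 0, 0, 0, 0, 0, 0, 0, 0, 0, 0, 0, 0, 0, 0, 0, 0, 1],
      [0, 1, 0, 0, 0, 0, 0, 0, 0, 0, 0, 0, 0, 0, 0, 0, 0, 0, 1, 0],
      [0, 0, 1, 0, 0, 0, 0, 0, 0, 11, 0, 0, 0, 0, 0, 0, 0, 0, 0, 0],
      [0, 0, 0, 1, 0, 0, 11, 0, 0, 0, 0, 0, 0, 0, 0, 0, 0, 0, 0, 0],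
      [0, 0, 0, 0, 1, 0, 0, 0, 0, 0, 0, 0, 0, 0, 7, 0, 0, 0, 0, 0],
      [0, 0, 0, 0, 0, 1, 0, 0, 0, 0, 0, 0, 0, 0, 0, 11, 0, 0, 0, 0],
      [0, 0, 0, 0, 0, 0, 0, 1, 1, 0, 0, 0, 0, 0, 0, 0, 0, 0, 0, 0],
      [0, 0, 0, 0, 0, 0, 0, 0, 0, 0, 1, 0, 0, 0, 0, 0, 0, 7, 0, 0],
      [0, 0, 0, 0, 0, 0, 0, 0, 0, 0, 0, 1, 1, 0, 0, 0, 0, 0, 0, 0],
      [0, 0, 0, 0, 0, 0, 0, 0, 0, 0, 0, 0, 0, 1, 0, 0, 7, 0, 0, 0],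
      [0, 18, 0, 0, 0, 0, 0, 0, 0, 0, 0, 0, 0, 0, 0, 0, 0, 0, 1, 0],
      [0, 0, 18, 0, 0, 0, 0, 0, 0, 0, 0, 0, 0, 0, 0, 0, 0, 1, 0, 0],
      [0, 0, 0, 18, 0, 0, 0, 0, 0, 0, 0, 0, 0, 0, 0, 0, 1, 0, 0, 0],
      [0, 0, 0, 0, 18, 0, 0, 0, 0, 0, 0, 0, 0, 0, 0, 1, 0, 0, 0, 0],
      [0, 0, 0, 0, 0, 0, 0, 18, 0, 0, 0, 0, 1, 0, 0, 0, 0, 0, 0, 0],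
      [0, 0, 1, 0, 0, 0, 11, 0, 11, 0, 0, 0, 0, 0, 0, 0, 0, 0, 0, 0],
      [0, 0, 0, 1, 0, 11, 0, 0, 0, 0, 0, 0, 0, 0, 7, 0, 0, 0, 0, 0],
      [0, 0, 0, 0, 0, 0, 0, 3, 0, 0, 0, 0, 0, 0, 0, 0, 0, 0, 0, 0]]
    [[18, 0, 1, 0, 0, 0, 0, 0, 0, 0, 0, 0, 0, 0, 0, 0, 0, 0, 0, 0],
      [0, 0, 0, 10, 0, 0, 0, 0, 0, 0, 0, 0, 9, 0, 0, 0, 0, 0, 0, 0],
      [0, 1, 0, 0, 0, 0, 0, 0, 0, 0, 0, 0, 0, 0, 0, 0, 0, 0, 0, 0],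
      [0, 1, 0, 0, 0, 1, 0, 0, 11, 0, 0, 0, 0, 0, 0, 0, 0, 18, 0, 9],
      [0, 12, 0, 0, 0, 12, 12, 18, 18, 0, 0, 0, 0, 0, 0, 11, 0, 7, 7, 13],
      [0, 1, 0, 0, 0, 1, 1, 12, 11, 0, 0, 0, 0, 0, 0, 1, 0, 18, 18, 9],
      [0, 12, 0, 0, 0, 0, 0, 0, 18, 0, 0, 0, 0, 0, 0, 0, 0, 7, 0, 13],
      [0, 0, 0, 0, 0, 0, 0, 0, 0, 0, 0, 0, 0, 0, 0, 0, 0, 0, 0, 13],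
      [0, 0, 0, 0, 0, 0, 0, 0, 1, 0, 0, 0, 0, 0, 0, 0, 0, 0, 0, 6],
      [0, 12, 0, 0, 7, 0, 0, 0, 0, 0, 0, 0, 0, 0, 0, 0, 0, 0, 0, 0],
      [0, 12, 0, 0, 0, 0, 0, 0, 0, 1, 0, 0, 0, 12, 0, 0, 0, 0, 0, 0],
      [0, 0, 0, 0, 0, 0, 0, 0, 0, 0, 1, 0, 0, 0, 0, 0, 18, 0, 0, 6],
      [0, 0, 0, 0, 0, 0, 0, 0, 0, 0, 0, 0, 0, 0, 0, 0, 1, 0, 0, 13],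
      [0, 12, 0, 0, 0, 12, 0, 0, 18, 0, 0, 1, 0, 0, 12, 0, 0, 7, 0, 13],
      [0, 1, 0, 0, 0, 1, 12, 11, 11, 0, 0, 0, 0, 0, 0, 12, 0, 18, 18, 9],
      [0, 12, 0, 0, 0, 12, 12, 18, 18, 0, 0, 0, 0, 0, 0, 12, 0, 7, 7, 13],
      [0, 1, 0, 0, 0, 1, 0, 0, 11, 0, 0, 0, 0, 0, 1, 0, 0, 18, 0, 9],
      [0, 1, 0, 0, 0, 0, 0, 0, 0, 0, 0, 0, 0, 1, 0, 0, 0, 0, 0, 0],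
      [0, 0, 0, 10, 0, 0, 0, 0, 0, 0, 0, 0, 10, 0, 0, 0, 0, 0, 0, 0],
      [1, 0, 0, 0, 0, 0, 0, 0, 0, 0, 0, 0, 0, 0, 0, 0, 0, 0, 0, 0]]
    [0, 0, 0, 0, 0, 0, 0, 0, 0, 0, 0, 0, 0, 0, 0, 0, 0, 0, 0, 0] (by decide) ?_ ?_ ?_ <;> decide +kernel

theorem c_19_12_m : Cert 19 12 (-1) 2 := by
  refine cert_of (σ := 18) (by decide) (by decide) 0
    [(3, 0), (0, 0), (0, 1), (0, 2), (0, 3), (0, 4), (0, 5), (0, 7), (0, 10), (0, 11), (0, 13), (2, 2), (2, 3), (2, 4), (2, 7), (1, 0), (1, 1), (1, 2), (1, 3), (1, 7)]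
    [[0, 0, 0, 0, 0, 0, 0, 0, 0, 0, 0, 0, 0, 0, 0, 0, 0, 0, 0, 2],
      [1, 0, 0, 0, 0, 0, 0, 0, 0, 0, 0, 0, 0, 0, 0, 0, 0, 0, 0, 1],
      [0, 1, 0, 0, 0, 0, 0, 0, 0, 0, 0, 0, 0, 0, 0, 0, 0, 0, 1, 0],
      [0, 0, 1, 0, 0, 0, 0, 0, 0, 11, 0, 0, 0, 0, 0, 0, 0, 0, 0, 0],
      [0, 0, 0, 1, 0, 0, 11, 0, 0, 0, 0, 0, 0, 0, 0, 0, 0, 0, 0, 0],
      [0, 0, 0, 0, 1, 0, 0, 0, 0, 0, 0, 0, 0, 0, 7, 0, 0, 0, 0, 0],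
      [0, 0, 0, 0, 0, 1, 0, 0, 0, 0, 0, 0, 0, 0, 0, 11, 0, 0, 0, 0],
      [0, 0, 0, 0, 0, 0, 0, 1, 1, 0, 0, 0, 0, 0, 0, 0, 0, 0, 0, 0],
      [0, 0, 0, 0, 0, 0, 0, 0, 0, 0, 1, 0, 0, 0, 0, 0, 0, 7, 0, 0],
      [0, 0, 0, 0, 0, 0, 0, 0, 0, 0, 0, 1, 1, 0, 0, 0, 0, 0, 0, 0],
      [0, 0, 0, 0, 0, 0, 0, 0, 0, 0, 0, 0, 0, 1, 0, 0, 7, 0, 0, 0],
      [0, 0, 1, 0, 0, 0, 0, 0, 0, 0, 0, 0, 0, 0, 0, 0, 0, 1, 0, 0],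
      [0, 0, 0, 1, 0, 0, 0, 0, 0, 0, 0, 0, 0, 0, 0, 0, 1, 0, 0, 0],
      [0, 0, 0, 0, 1, 0, 0, 0, 0, 0, 0, 0, 0, 0, 0, 1, 0, 0, 0, 0],
      [0, 0, 0, 0, 0, 0, 0, 1, 0, 0, 0, 0, 1, 0, 0, 0, 0, 0, 0, 0],
      [1, 0, 0, 0, 0, 0, 0, 0, 0, 0, 0, 0, 0, 0, 0, 0, 0, 0, 1, 1],
      [0, 1, 0, 0, 0, 0, 0, 0, 0, 11, 0, 0, 0, 0, 0, 0, 0, 1, 0, 0],
      [0, 0, 1, 0, 0, 0, 11, 0, 11, 0, 0, 0, 0, 0, 0, 0, 0, 0, 0, 0],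
      [0, 0, 0, 1, 0, 11, 0, 0, 0, 0, 0, 0, 0, 0, 7, 0, 0, 0, 0, 0],
      [0, 0, 0, 0, 0, 0, 0, 3, 0, 0, 0, 0, 0, 0, 0, 0, 0, 0, 0, 0]]
    [[9, 1, 0, 0, 0, 0, 0, 0, 0, 0, 0, 0, 0, 0, 0, 0, 0, 0, 0, 0],
      [0, 1, 1, 0, 0, 0, 0, 0, 0, 0, 0, 0, 0, 0, 0, 18, 0, 0, 0, 0],
      [0, 10, 10, 10, 0, 0, 0, 0, 0, 0, 0, 10, 0, 0, 0, 9, 9, 0, 0, 0],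
      [0, 10, 10, 10, 1, 0, 0, 11, 0, 0, 0, 10, 0, 0, 0, 9, 9, 18, 0, 9],
      [0, 11, 11, 11, 3, 3, 14, 14, 0, 0, 0, 11, 0, 17, 0, 8, 8, 16, 16, 8],
      [0, 7, 7, 7, 14, 14, 3, 2, 0, 0, 0, 7, 0, 5, 0, 12, 12, 5, 5, 12],
      [0, 6, 6, 6, 0, 0, 0, 18, 0, 0, 0, 6, 0, 0, 0, 13, 13, 7, 0, 13],
      [0, 0, 0, 0, 0, 0, 0, 0, 0, 0, 0, 0, 0, 0, 0, 0, 0, 0, 0, 13],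
      [0, 0, 0, 0, 0, 0, 0, 1, 0, 0, 0, 0, 0, 0, 0, 0, 0, 0, 0, 6],
      [0, 6, 6, 13, 0, 0, 0, 0, 0, 0, 0, 6, 0, 0, 0, 13, 13, 0, 0, 0],
      [0, 13, 13, 13, 0, 0, 0, 0, 1, 0, 0, 6, 0, 0, 0, 6, 6, 0, 0, 0],
      [0, 0, 0, 0, 0, 0, 0, 0, 0, 1, 0, 0, 0, 0, 18, 0, 0, 0, 0, 13],
      [0, 0, 0, 0, 0, 0, 0, 0, 0, 0, 0, 0, 0, 0, 1, 0, 0, 0, 0, 6],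
      [0, 13, 13, 13, 7, 0, 0, 1, 0, 0, 1, 13, 12, 0, 0, 6, 6, 12, 0, 6],
      [0, 12, 12, 12, 5, 16, 17, 17, 0, 0, 0, 12, 0, 3, 0, 7, 7, 14, 14, 7],
      [0, 8, 8, 8, 16, 16, 5, 5, 0, 0, 0, 8, 0, 3, 0, 11, 11, 3, 3, 11],
      [0, 9, 9, 9, 18, 0, 0, 8, 0, 0, 0, 9, 1, 0, 0, 10, 10, 1, 0, 10],
      [0, 9, 9, 9, 0, 0, 0, 0, 0, 0, 0, 10, 0, 0, 0, 10, 10, 0, 0, 0],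
      [0, 18, 0, 0, 0, 0, 0, 0, 0, 0, 0, 0, 0, 0, 0, 1, 0, 0, 0, 0],
      [10, 0, 0, 0, 0, 0, 0, 0, 0, 0, 0, 0, 0, 0, 0, 0, 0, 0, 0, 0]]
    [0, 0, 0, 0, 0, 0, 0, 0, 0, 0, 0, 0, 0, 0, 0, 0, 0, 0, 0, 0] (by decide) ?_ ?_ ?_ <;> decide +kernel

theorem c_19_14_p : Cert 19 14 1 2 := by
  refine cert_of (σ := 1) (by decide) (by decide) 16
    [(4, 0), (5, 0), (0, 0), (0, 1), (0, 2), (0, 3), (0, 4), (0, 5), (0, 7), (0, 10), (0, 11), (0, 13), (2, 1), (2, 2), (2, 3), (2, 4), (2, 7), (1, 2), (1, 3)]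
    [[0, 0, 0, 0, 0, 0, 0, 0, 0, 0, 0, 0, 0, 0, 0, 0, 0, 0, 0, 1],
      [0, 0, 1, 0, 0, 0, 0, 0, 0, 0, 0, 0, 0, 0, 0, 0, 0, 0, 0, 0],
      [1, 0, 0, 0, 0, 0, 0, 0, 0, 0, 0, 0, 0, 0, 0, 0, 0, 0, 0, 1],
      [0, 1, 0, 0, 0, 0, 0, 0, 0, 0, 0, 0, 0, 0, 0, 0, 0, 0, 1, 0],
      [0, 0, 1, 0, 0, 0, 0, 0, 0, 6, 0, 0, 0, 0, 0, 0, 0, 0, 0, 0],
      [0, 0, 0, 1, 0, 0, 4, 0, 0, 0, 0, 0, 0, 0, 0, 0, 0, 0, 0, 0],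
      [0, 0, 0, 0, 1, 0, 0, 0, 0, 0, 0, 0, 0, 0, 17, 0, 0, 0, 0, 0],
      [0, 0, 0, 0, 0, 1, 0, 0, 0, 0, 0, 0, 0, 0, 0, 9, 0, 0, 0, 0],
      [0, 0, 0, 0, 0, 0, 0, 1, 11, 0, 0, 0, 0, 0, 0, 0, 0, 0, 0, 0],
      [0, 0, 0, 0, 0, 0, 0, 0, 0, 0, 1, 0, 0, 0, 0, 0, 0, 16, 0, 0],
      [0, 0, 0, 0, 0, 0, 0, 0, 0, 0, 0, 1, 7, 0, 0, 0, 0, 0, 0, 0],
      [0, 0, 0, 0, 0, 0, 0, 0, 0, 0, 0, 0, 0, 1, 0, 0, 5, 0, 0, 0],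
      [0, 18, 0, 0, 0, 0, 0, 0, 0, 0, 0, 0, 0, 0, 0, 0, 0, 0, 1, 0],
      [0, 0, 18, 0, 0, 0, 0, 0, 0, 0, 0, 0, 0, 0, 0, 0, 0, 1, 0, 0],
      [0, 0, 0, 18, 0, 0, 0, 0, 0, 0, 0, 0, 0, 0, 0, 0, 1, 0, 0, 0],
      [0, 0, 0, 0, 18, 0, 0, 0, 0, 0, 0, 0, 0, 0, 0, 1, 0, 0, 0, 0],
      [0, 0, 0, 0, 0, 0, 0, 18, 0, 0, 0, 0, 1, 0, 0, 0, 0, 0, 0, 0],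
      [0, 0, 1, 0, 0, 0, 4, 0, 6, 0, 0, 0, 0, 0, 0, 0, 0, 0, 0, 0],
      [0, 0, 0, 1, 0, 4, 0, 0, 0, 0, 0, 0, 0, 0, 17, 0, 0, 0, 0, 0]]
    [[18, 0, 1, 0, 0, 0, 0, 0, 0, 0, 0, 0, 0, 0, 0, 0, 0, 0, 0],
      [0, 0, 0, 10, 0, 0, 0, 0, 0, 0, 0, 0, 9, 0, 0, 0, 0, 0, 0],
      [0, 1, 0, 0, 0, 0, 0, 0, 0, 0, 0, 0, 0, 0, 0, 0, 0, 0, 0],
      [0, 0, 0, 0, 0, 0, 0, 0, 0, 0, 0, 0, 0, 0, 18, 0, 0, 0, 0],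
      [0, 0, 0, 0, 0, 0, 18, 15, 0, 0, 0, 0, 0, 0, 1, 17, 0, 0, 1],
      [0, 0, 0, 0, 0, 0, 9, 18, 0, 0, 0, 0, 0, 0, 10, 9, 0, 0, 10],
      [0, 0, 0, 0, 0, 5, 0, 0, 0, 0, 0, 0, 0, 0, 5, 0, 0, 0, 0],
      [0, 5, 0, 0, 0, 5, 0, 0, 1, 0, 0, 0, 0, 0, 5, 0, 0, 14, 0],
      [0, 3, 0, 0, 0, 3, 0, 0, 0, 0, 0, 0, 0, 0, 3, 0, 0, 16, 0],
      [0, 3, 0, 0, 16, 0, 0, 0, 0, 0, 0, 0, 0, 0, 0, 0, 0, 0, 0],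
      [0, 3, 0, 0, 0, 0, 0, 0, 0, 1, 0, 0, 0, 3, 0, 0, 0, 0, 0],
      [0, 3, 0, 0, 0, 3, 0, 0, 12, 0, 1, 0, 0, 0, 3, 0, 12, 16, 0],
      [0, 5, 0, 0, 0, 5, 0, 0, 1, 0, 0, 0, 0, 0, 5, 0, 1, 14, 0],
      [0, 0, 0, 0, 0, 0, 0, 0, 0, 0, 0, 1, 0, 0, 0, 0, 0, 0, 0],
      [0, 0, 0, 0, 0, 0, 18, 17, 0, 0, 0, 0, 0, 0, 10, 18, 0, 0, 10],
      [0, 0, 0, 0, 0, 0, 18, 15, 0, 0, 0, 0, 0, 0, 1, 18, 0, 0, 1],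
      [],
      [0, 1, 0, 0, 0, 0, 0, 0, 0, 0, 0, 0, 0, 1, 0, 0, 0, 0, 0],
      [0, 0, 0, 10, 0, 0, 0, 0, 0, 0, 0, 0, 10, 0, 0, 0, 0, 0, 0],
      [1, 0, 0, 0, 0, 0, 0, 0, 0, 0, 0, 0, 0, 0, 0, 0, 0, 0, 0]]
    [0, 0, 0, 18, 1, 10, 5, 5, 3, 0, 0, 3, 5, 5, 10, 1, 18, 0, 0, 0] (by decide) ?_ ?_ ?_ <;> decide +kernel

theorem c_19_14_m : Cert 19 14 (-1) 2 := by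
  refine cert_of (σ := 18) (by decide) (by decide) 16
    [(3, 0), (0, 0), (0, 1), (0, 2), (0, 3), (0, 4), (0, 5), (0, 7), (0, 10), (0, 11), (0, 13), (2, 2), (2, 3), (2, 4), (2, 7), (1, 0), (1, 1), (1, 2), (1, 3)]
    [[0, 0, 0, 0, 0, 0, 0, 0, 0, 0, 0, 0, 0, 0, 0, 0, 0, 0, 0, 2],
      [1, 0, 0, 0, 0, 0, 0, 0, 0, 0, 0, 0, 0, 0, 0, 0, 0, 0, 0, 1],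
      [0, 1, 0, 0, 0, 0, 0, 0, 0, 0, 0, 0, 0, 0, 0, 0, 0, 0, 1, 0],
      [0, 0, 1, 0, 0, 0, 0, 0, 0, 6, 0, 0, 0, 0, 0, 0, 0, 0, 0, 0],
      [0, 0, 0, 1, 0, 0, 4, 0, 0, 0, 0, 0, 0, 0, 0, 0, 0, 0, 0, 0],
      [0, 0, 0, 0, 1, 0, 0, 0, 0, 0, 0, 0, 0, 0, 17, 0, 0, 0, 0, 0],
      [0, 0, 0, 0, 0, 1, 0, 0, 0, 0, 0, 0, 0, 0, 0, 9, 0, 0, 0, 0],
      [0, 0, 0, 0, 0, 0, 0, 1, 11, 0, 0, 0, 0, 0, 0, 0, 0, 0, 0, 0],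
      [0, 0, 0, 0, 0, 0, 0, 0, 0, 0, 1, 0, 0, 0, 0, 0, 0, 16, 0, 0],
      [0, 0, 0, 0, 0, 0, 0, 0, 0, 0, 0, 1, 7, 0, 0, 0, 0, 0, 0, 0],
      [0, 0, 0, 0, 0, 0, 0, 0, 0, 0, 0, 0, 0, 1, 0, 0, 5, 0, 0, 0],
      [0, 0, 1, 0, 0, 0, 0, 0, 0, 0, 0, 0, 0, 0, 0, 0, 0, 1, 0, 0],
      [0, 0, 0, 1, 0, 0, 0, 0, 0, 0, 0, 0, 0, 0, 0, 0, 1, 0, 0, 0],
      [0, 0, 0, 0, 1, 0, 0, 0, 0, 0, 0, 0, 0, 0, 0, 1, 0, 0, 0, 0],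
      [0, 0, 0, 0, 0, 0, 0, 1, 0, 0, 0, 0, 1, 0, 0, 0, 0, 0, 0, 0],
      [1, 0, 0, 0, 0, 0, 0, 0, 0, 0, 0, 0, 0, 0, 0, 0, 0, 0, 1, 1],
      [0, 1, 0, 0, 0, 0, 0, 0, 0, 6, 0, 0, 0, 0, 0, 0, 0, 1, 0, 0],
      [0, 0, 1, 0, 0, 0, 4, 0, 6, 0, 0, 0, 0, 0, 0, 0, 0, 0, 0, 0],
      [0, 0, 0, 1, 0, 4, 0, 0, 0, 0, 0, 0, 0, 0, 17, 0, 0, 0, 0, 0]]
    [[9, 1, 0, 0, 0, 0, 0, 0, 0, 0, 0, 0, 0, 0, 0, 0, 0, 0, 0],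
      [0, 1, 1, 0, 0, 0, 0, 0, 0, 0, 0, 0, 0, 0, 0, 18, 0, 0, 0],
      [0, 10, 10, 10, 0, 0, 0, 0, 0, 0, 0, 10, 0, 0, 0, 9, 9, 0, 0],
      [0, 0, 0, 0, 0, 0, 0, 0, 0, 0, 0, 0, 1, 0, 0, 0, 0, 0, 0],
      [0, 0, 0, 0, 0, 13, 14, 0, 0, 0, 0, 0, 13, 7, 0, 0, 0, 0, 6],
      [0, 0, 0, 0, 0, 3, 13, 0, 0, 0, 0, 0, 3, 16, 0, 0, 0, 0, 16],
      [0, 0, 0, 0, 5, 0, 0, 0, 0, 0, 0, 0, 14, 0, 0, 0, 0, 0, 0],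
      [0, 12, 12, 12, 5, 0, 0, 1, 0, 0, 0, 12, 14, 0, 0, 7, 7, 14, 0],
      [0, 11, 11, 11, 3, 0, 0, 0, 0, 0, 0, 11, 16, 0, 0, 8, 8, 16, 0],
      [0, 11, 11, 8, 0, 0, 0, 0, 0, 0, 0, 11, 0, 0, 0, 8, 8, 0, 0],
      [0, 8, 8, 8, 0, 0, 0, 0, 1, 0, 0, 11, 0, 0, 0, 11, 11, 0, 0],
      [0, 8, 8, 8, 16, 0, 0, 7, 0, 1, 0, 8, 3, 0, 12, 11, 11, 3, 0],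
      [0, 7, 7, 7, 14, 0, 0, 18, 0, 0, 0, 7, 5, 0, 1, 12, 12, 5, 0],
      [0, 0, 0, 0, 0, 0, 0, 0, 0, 0, 1, 0, 0, 0, 0, 0, 0, 0, 0],
      [0, 0, 0, 0, 0, 6, 7, 0, 0, 0, 0, 0, 16, 13, 0, 0, 0, 0, 3],
      [0, 0, 0, 0, 0, 6, 5, 0, 0, 0, 0, 0, 6, 13, 0, 0, 0, 0, 13],
      [],
      [0, 9, 9, 9, 0, 0, 0, 0, 0, 0, 0, 10, 0, 0, 0, 10, 10, 0, 0],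
      [0, 18, 0, 0, 0, 0, 0, 0, 0, 0, 0, 0, 0, 0, 0, 1, 0, 0, 0],
      [10, 0, 0, 0, 0, 0, 0, 0, 0, 0, 0, 0, 0, 0, 0, 0, 0, 0, 0]]
    [0, 0, 0, 1, 13, 3, 14, 14, 16, 0, 0, 3, 5, 5, 16, 6, 18, 0, 0, 0] (by decide) ?_ ?_ ?_ <;> decide +kernel

theorem c_19_16_p : Cert 19 16 1 2 := by
  refine cert_of (σ := 1) (by decide) (by decide) 16
    [(4, 0), (5, 0), (0, 0), (0, 1), (0, 2), (0, 3), (0, 4), (0, 5), (0, 7), (0, 10), (0, 11), (0, 13), (2, 1), (2, 2), (2, 3), (2, 4), (2, 7), (1, 2), (1, 3)]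
    [[0, 0, 0, 0, 0, 0, 0, 0, 0, 0, 0, 0, 0, 0, 0, 0, 0, 0, 0, 1],
      [0, 0, 1, 0, 0, 0, 0, 0, 0, 0, 0, 0, 0, 0, 0, 0, 0, 0, 0, 0],
      [1, 0, 0, 0, 0, 0, 0, 0, 0, 0, 0, 0, 0, 0, 0, 0, 0, 0, 0, 1],
      [0, 1, 0, 0, 0, 0, 0, 0, 0, 0, 0, 0, 0, 0, 0, 0, 0, 0, 1, 0],
      [0, 0, 1, 0, 0, 0, 0, 0, 0, 5, 0, 0, 0, 0, 0, 0, 0, 0, 0, 0],
      [0, 0, 0, 1, 0, 0, 17, 0, 0, 0, 0, 0, 0, 0, 0, 0, 0, 0, 0, 0],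
      [0, 0, 0, 0, 1, 0, 0, 0, 0, 0, 0, 0, 0, 0, 6, 0, 0, 0, 0, 0],
      [0, 0, 0, 0, 0, 1, 0, 0, 0, 0, 0, 0, 0, 0, 0, 16, 0, 0, 0, 0],
      [0, 0, 0, 0, 0, 0, 0, 1, 7, 0, 0, 0, 0, 0, 0, 0, 0, 0, 0, 0],
      [0, 0, 0, 0, 0, 0, 0, 0, 0, 0, 1, 0, 0, 0, 0, 0, 0, 4, 0, 0],
      [0, 0, 0, 0, 0, 0, 0, 0, 0, 0, 0, 1, 11, 0, 0, 0, 0, 0, 0, 0],
      [0, 0, 0, 0, 0, 0, 0, 0, 0, 0, 0, 0, 0, 1, 0, 0, 9, 0, 0, 0],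
      [0, 18, 0, 0, 0, 0, 0, 0, 0, 0, 0, 0, 0, 0, 0, 0, 0, 0, 1, 0],
      [0, 0, 18, 0, 0, 0, 0, 0, 0, 0, 0, 0, 0, 0, 0, 0, 0, 1, 0, 0],
      [0, 0, 0, 18, 0, 0, 0, 0, 0, 0, 0, 0, 0, 0, 0, 0, 1, 0, 0, 0],
      [0, 0, 0, 0, 18, 0, 0, 0, 0, 0, 0, 0, 0, 0, 0, 1, 0, 0, 0, 0],
      [0, 0, 0, 0, 0, 0, 0, 18, 0, 0, 0, 0, 1, 0, 0, 0, 0, 0, 0, 0],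
      [0, 0, 1, 0, 0, 0, 17, 0, 5, 0, 0, 0, 0, 0, 0, 0, 0, 0, 0, 0],
      [0, 0, 0, 1, 0, 17, 0, 0, 0, 0, 0, 0, 0, 0, 6, 0, 0, 0, 0, 0]]
    [[18, 0, 1, 0, 0, 0, 0, 0, 0, 0, 0, 0, 0, 0, 0, 0, 0, 0, 0],
      [0, 0, 0, 10, 0, 0, 0, 0, 0, 0, 0, 0, 9, 0, 0, 0, 0, 0, 0],
      [0, 1, 0, 0, 0, 0, 0, 0, 0, 0, 0, 0, 0, 0, 0, 0, 0, 0, 0],
      [0, 0, 0, 0, 0, 0, 0, 0, 0, 0, 0, 0, 0, 0, 18, 0, 0, 0, 0],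
      [0, 0, 0, 0, 0, 0, 11, 16, 0, 0, 0, 0, 0, 0, 8, 10, 0, 0, 8],
      [0, 0, 0, 0, 0, 0, 14, 11, 0, 0, 0, 0, 0, 0, 5, 14, 0, 0, 5],
      [0, 0, 0, 0, 0, 9, 0, 0, 0, 0, 0, 0, 0, 0, 9, 0, 0, 0, 0],
      [0, 9, 0, 0, 0, 9, 0, 0, 1, 0, 0, 0, 0, 0, 9, 0, 0, 10, 0],
      [0, 15, 0, 0, 0, 15, 0, 0, 0, 0, 0, 0, 0, 0, 15, 0, 0, 4, 0],
      [0, 15, 0, 0, 4, 0, 0, 0, 0, 0, 0, 0, 0, 0, 0, 0, 0, 0, 0],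
      [0, 15, 0, 0, 0, 0, 0, 0, 0, 1, 0, 0, 0, 15, 0, 0, 0, 0, 0],
      [0, 15, 0, 0, 0, 15, 0, 0, 8, 0, 1, 0, 0, 0, 15, 0, 8, 4, 0],
      [0, 9, 0, 0, 0, 9, 0, 0, 1, 0, 0, 0, 0, 0, 9, 0, 1, 10, 0],
      [0, 0, 0, 0, 0, 0, 0, 0, 0, 0, 0, 1, 0, 0, 0, 0, 0, 0, 0],
      [0, 0, 0, 0, 0, 0, 11, 10, 0, 0, 0, 0, 0, 0, 5, 11, 0, 0, 5],
      [0, 0, 0, 0, 0, 0, 11, 16, 0, 0, 0, 0, 0, 0, 8, 11, 0, 0, 8],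
      [],
      [0, 1, 0, 0, 0, 0, 0, 0, 0, 0, 0, 0, 0, 1, 0, 0, 0, 0, 0],
      [0, 0, 0, 10, 0, 0, 0, 0, 0, 0, 0, 0, 10, 0, 0, 0, 0, 0, 0],
      [1, 0, 0, 0, 0, 0, 0, 0, 0, 0, 0, 0, 0, 0, 0, 0, 0, 0, 0]]
    [0, 0, 0, 18, 8, 5, 9, 9, 15, 0, 0, 15, 9, 9, 5, 8, 18, 0, 0, 0] (by decide) ?_ ?_ ?_ <;> decide +kernel

theorem c_19_16_m : Cert 19 16 (-1) 2 := by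
  refine cert_of (σ := 18) (by decide) (by decide) 16
    [(3, 0), (0, 0), (0, 1), (0, 2), (0, 3), (0, 4), (0, 5), (0, 7), (0, 10), (0, 11), (0, 13), (2, 2), (2, 3), (2, 4), (2, 7), (1, 0), (1, 1), (1, 2), (1, 3)]
    [[0, 0, 0, 0, 0, 0, 0, 0, 0, 0, 0, 0, 0, 0, 0, 0, 0, 0, 0, 2],
      [1, 0, 0, 0, 0, 0, 0, 0, 0, 0, 0, 0, 0, 0, 0, 0, 0, 0, 0, 1],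
      [0, 1, 0, 0, 0, 0, 0, 0, 0, 0, 0, 0, 0, 0, 0, 0, 0, 0, 1, 0],
      [0, 0, 1, 0, 0, 0, 0, 0, 0, 5, 0, 0, 0, 0, 0, 0, 0, 0, 0, 0],
      [0, 0, 0, 1, 0, 0, 17, 0, 0, 0, 0, 0, 0, 0, 0, 0, 0, 0, 0, 0],
      [0, 0, 0, 0, 1, 0, 0, 0, 0, 0, 0, 0, 0, 0, 6, 0, 0, 0, 0, 0],
      [0, 0, 0, 0, 0, 1, 0, 0, 0, 0, 0, 0, 0, 0, 0, 16, 0, 0, 0, 0],
      [0, 0, 0, 0, 0, 0, 0, 1, 7, 0, 0, 0, 0, 0, 0, 0, 0, 0, 0, 0],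
      [0, 0, 0, 0, 0, 0, 0, 0, 0, 0, 1, 0, 0, 0, 0, 0, 0, 4, 0, 0],
      [0, 0, 0, 0, 0, 0, 0, 0, 0, 0, 0, 1, 11, 0, 0, 0, 0, 0, 0, 0],
      [0, 0, 0, 0, 0, 0, 0, 0, 0, 0, 0, 0, 0, 1, 0, 0, 9, 0, 0, 0],
      [0, 0, 1, 0, 0, 0, 0, 0, 0, 0, 0, 0, 0, 0, 0, 0, 0, 1, 0, 0],
      [0, 0, 0, 1, 0, 0, 0, 0, 0, 0, 0, 0, 0, 0, 0, 0, 1, 0, 0, 0],
      [0, 0, 0, 0, 1, 0, 0, 0, 0, 0, 0, 0, 0, 0, 0, 1, 0, 0, 0, 0],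
      [0, 0, 0, 0, 0, 0, 0, 1, 0, 0, 0, 0, 1, 0, 0, 0, 0, 0, 0, 0],
      [1, 0, 0, 0, 0, 0, 0, 0, 0, 0, 0, 0, 0, 0, 0, 0, 0, 0, 1, 1],
      [0, 1, 0, 0, 0, 0, 0, 0, 0, 5, 0, 0, 0, 0, 0, 0, 0, 1, 0, 0],
      [0, 0, 1, 0, 0, 0, 17, 0, 5, 0, 0, 0, 0, 0, 0, 0, 0, 0, 0, 0],
      [0, 0, 0, 1, 0, 17, 0, 0, 0, 0, 0, 0, 0, 0, 6, 0, 0, 0, 0, 0]]
    [[9, 1, 0, 0, 0, 0, 0, 0, 0, 0, 0, 0, 0, 0, 0, 0, 0, 0, 0],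
      [0, 1, 1, 0, 0, 0, 0, 0, 0, 0, 0, 0, 0, 0, 0, 18, 0, 0, 0],
      [0, 10, 10, 10, 0, 0, 0, 0, 0, 0, 0, 10, 0, 0, 0, 9, 9, 0, 0],
      [0, 0, 0, 0, 0, 0, 0, 0, 0, 0, 0, 0, 1, 0, 0, 0, 0, 0, 0],
      [0, 0, 0, 0, 0, 15, 8, 0, 0, 0, 0, 0, 15, 5, 0, 0, 0, 0, 4],
      [0, 0, 0, 0, 0, 12, 15, 0, 0, 0, 0, 0, 12, 7, 0, 0, 0, 0, 7],
      [0, 0, 0, 0, 9, 0, 0, 0, 0, 0, 0, 0, 10, 0, 0, 0, 0, 0, 0],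
      [0, 14, 14, 14, 9, 0, 0, 1, 0, 0, 0, 14, 10, 0, 0, 5, 5, 10, 0],
      [0, 17, 17, 17, 15, 0, 0, 0, 0, 0, 0, 17, 4, 0, 0, 2, 2, 4, 0],
      [0, 17, 17, 2, 0, 0, 0, 0, 0, 0, 0, 17, 0, 0, 0, 2, 2, 0, 0],
      [0, 2, 2, 2, 0, 0, 0, 0, 1, 0, 0, 17, 0, 0, 0, 17, 17, 0, 0],
      [0, 2, 2, 2, 4, 0, 0, 11, 0, 1, 0, 2, 15, 0, 8, 17, 17, 15, 0],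
      [0, 5, 5, 5, 10, 0, 0, 18, 0, 0, 0, 5, 9, 0, 1, 14, 14, 9, 0],
      [0, 0, 0, 0, 0, 0, 0, 0, 0, 0, 1, 0, 0, 0, 0, 0, 0, 0, 0],
      [0, 0, 0, 0, 0, 4, 5, 0, 0, 0, 0, 0, 7, 15, 0, 0, 0, 0, 12],
      [0, 0, 0, 0, 0, 4, 11, 0, 0, 0, 0, 0, 4, 15, 0, 0, 0, 0, 15],
      [],
      [0, 9, 9, 9, 0, 0, 0, 0, 0, 0, 0, 10, 0, 0, 0, 10, 10, 0, 0],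
      [0, 18, 0, 0, 0, 0, 0, 0, 0, 0, 0, 0, 0, 0, 0, 1, 0, 0, 0],
      [10, 0, 0, 0, 0, 0, 0, 0, 0, 0, 0, 0, 0, 0, 0, 0, 0, 0, 0]]
    [0, 0, 0, 1, 15, 12, 10, 10, 4, 0, 0, 15, 9, 9, 7, 4, 18, 0, 0, 0] (by decide) ?_ ?_ ?_ <;> decide +kernel

end LV7
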