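import Pool.Agent.LibLV7.D1b11
import Pool.Agent.LibLV7.D1b13
import Pool.Agent.LibLV7.D1b17
import Pool.Agent.LibLV7.D1b19

/-!
# LibLV7.D1 : multiplicity one for `ℓ = 11, 13, 17, 19`
-/

set_option autoImplicit false

open Matrix
open scoped MatrixGroups

namespace LV7

open KS44

theorem kap_hom {ℓ a : ℕ} [Fact ℓ.Prime] (k0 k1 t c d : ZMod ℓ) (ht : t ≠ 0) :
    kap ℓ a k0 k1 (t * c) (t * d) = t ^ a * kap ℓ a k0 k1 c d := by
  unfold kap
  by_cases hc : c = 0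
  · rw [if_pos (by rw [hc, mul_zero]), if_pos hc]
    ring
  · rw [if_neg (mul_ne_zero ht hc), if_neg hc]
    ring

theorem kap_neg {ℓ a : ℕ} [Fact ℓ.Prime] (he : Even a) (k0 k1 c d : ZMod ℓ) :
    kap ℓ a k0 k1 (-c) (-d) = kap ℓ a k0 k1 c d := by
  have h := kap_hom (a := a) k0 k1 (-1) c d (neg_ne_zero.2 one_ne_zero)
  rwa [neg_one_mul, neg_one_mul, he.neg_one_pow, one_mul] at h

theorem kap_neg_right {ℓ a : ℕ} (he : Even a) (k0 k1 c d : ZMod ℓ) :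
    kap ℓ a k0 k1 c (-d) = kap ℓ a k0 k1 c d := by
  unfold kap
  rw [he.neg_pow]

theorem kap_add {ℓ a : ℕ} (k0 k1 c d : ZMod ℓ) : kap ℓ a k0 k1 c (d + c) = kap ℓ a k0 k1 c d := by
  unfold kap
  split_ifs with hc
  · rw [hc, add_zero]
  · rfl

theorem triv_MS {ℓ a : ℕ} [Fact ℓ.Prime] (he : Even a) (k0 k1 : ZMod ℓ) :
    MS ℓ a 1 (fun c d => kap ℓ a k0 k1 c d - kap ℓ a k0 k1 d (-c)) := by
  constructor
  · intro t c d ht
    have h1 := kap_hom (a := a) k0 k1 t c d ht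
    have h2 := kap_hom (a := a) k0 k1 t d (-c) ht
    rw [mul_neg] at h2
    beta_reduce
    rw [h1, h2]
    ring
  · intro c d _
    beta_reduce
    rw [kap_neg he]
    ring
  · intro c d _
    beta_reduce
    have h1 : kap ℓ a k0 k1 d (-c - d) = kap ℓ a k0 k1 d (-c) := by
      have := kap_add (a := a) k0 k1 d (-c - d)
      rw [sub_add_cancel] at this
      exact this.symm
    have h2 : kap ℓ a k0 k1 (-c) (-(c + d)) = kap ℓ a k0 k1 c d := by
      rw [kap_neg he, add_comm c d, kap_add]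
    have h3 : kap ℓ a k0 k1 (-c - d) (-d) = kap ℓ a k0 k1 (c + d) (-c) := by
      rw [show (-c - d : ZMod ℓ) = -(c + d) by ring, kap_neg he]
      have := kap_add (a := a) k0 k1 (c + d) (-c)
      rw [show (-c + (c + d) : ZMod ℓ) = d by ring] at this
      exact this
    rw [h1, h2, h3]
    ring
  · intro c d _
    beta_reduce
    rw [kap_neg_right he, kap_neg he, one_mul]
    rw [show kap ℓ a k0 k1 d (-c) = kap ℓ a k0 k1 d c from kap_neg_right he ..]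

theorem MS.comb {ℓ a : ℕ} {s : ZMod ℓ} {ξ ξ' : ZMod ℓ → ZMod ℓ → ZMod ℓ} (h : MS ℓ a s ξ) (h' : MS ℓ a s ξ')
    (u v : ZMod ℓ) : MS ℓ a s (fun c d => u * ξ c d + v * ξ' c d) := by
  constructor
  · intro t c d ht
    beta_reduce
    rw [h.hom t c d ht, h'.hom t c d ht]
    ring
  · intro c d hcd
    have h1 := h.S c d hcd
    have h2 := h'.S c d hcd
    beta_reduce
    linear_combination u * h1 + v * h2
  · intro c d hcd
    have h1 := h.R c d hcd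
    have h2 := h'.R c d hcd
    beta_reduce
    linear_combination u * h1 + v * h2
  · intro c d hcd
    have h1 := h.sgn c d hcd
    have h2 := h'.sgn c d hcd
    beta_reduce
    linear_combination u * h1 + v * h2

theorem zero_of_X {ℓ a : ℕ} [hp : Fact ℓ.Prime] {s : ZMod ℓ} {ξ : ZMod ℓ → ZMod ℓ → ZMod ℓ} (h : MS ℓ a s ξ)
    (h0 : ∀ i < ℓ + 1, X ξ i = 0) (c d : ZMod ℓ) (hcd : c ≠ 0 ∨ d ≠ 0) : ξ c d = 0 := by
  have h1 := pt h c.val d.val (by rw [ZMod.natCast_zmod_val, ZMod.natCast_zmod_val]; exact hcd)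
  rw [ZMod.natCast_zmod_val, ZMod.natCast_zmod_val, h0 _ (ix_le hp.out.pos _ _), mul_zero] at h1
  exact h1

/-- normalisation -/
theorem exists_norm {ℓ a : ℕ} [hp : Fact ℓ.Prime] (h2 : (1 : ZMod ℓ) ≠ -1) (he : Even a) {s : ZMod ℓ} (hs : s = 1 ∨ s = -1) {g : ℕ}
    (hg : a ≠ 0 → (g : ZMod ℓ) ≠ 0 ∧ (g : ZMod ℓ) ^ a ≠ 1) {ξ : ZMod ℓ → ZMod ℓ → ZMod ℓ} (h : MS ℓ a s ξ) :
    ∃ (k0 k1 : ZMod ℓ) (ζ : ZMod ℓ → ZMod ℓ → ZMod ℓ), MS ℓ a s ζ ∧ Nrm a s g ζ ∧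
      ∀ c d, ξ c d = ζ c d + (kap ℓ a k0 k1 c d - kap ℓ a k0 k1 d (-c)) := by
  rcases hs with rfl | rfl
  · have key : ∀ k0 k1 : ZMod ℓ, ξ 0 1 = k1 - k0 → (a ≠ 0 → ξ 1 (g : ZMod ℓ) = k0 - (g : ZMod ℓ) ^ a * k0) →
        ∃ (k0 k1 : ZMod ℓ) (ζ : ZMod ℓ → ZMod ℓ → ZMod ℓ), MS ℓ a 1 ζ ∧ Nrm a 1 g ζ ∧
          ∀ c d, ξ c d = ζ c d + (kap ℓ a k0 k1 c d - kap ℓ a k0 k1 d (-c)) := by
      intro k0 k1 e0 e1
      refine ⟨k0, k1, fun c d => 1 * ξ c d + (-1) * (kap ℓ a k0 k1 c d - kap ℓ a k0 k1 d (-c)),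
        h.comb (triv_MS he k0 k1) 1 (-1), ?_, fun c d => by ring⟩
      intro _
      constructor
      · have e2 : kap ℓ a k0 k1 0 1 = k1 := by unfold kap; rw [if_pos rfl, one_pow, one_mul]
        have e3 : kap ℓ a k0 k1 1 (-0) = k0 := by unfold kap; rw [if_neg one_ne_zero, one_pow, one_mul]
        beta_reduce
        rw [e2, e3, e0]
        ring
      · intro ha
        have e2 : kap ℓ a k0 k1 1 (g : ZMod ℓ) = k0 := by unfold kap; rw [if_neg one_ne_zero, one_pow, one_mul]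
        have e3 : kap ℓ a k0 k1 (g : ZMod ℓ) (-1) = (g : ZMod ℓ) ^ a * k0 := by
          unfold kap; rw [if_neg (hg ha).1]
        beta_reduce
        rw [e2, e3, e1 ha]
        ring
    by_cases ha : a = 0
    · exact key 0 (ξ 0 1) (by ring) fun h0 => absurd ha h0
    · have h3 : 1 - (g : ZMod ℓ) ^ a ≠ 0 := sub_ne_zero.2 (Ne.symm (hg ha).2)
      refine key (ξ 1 (g : ZMod ℓ) / (1 - (g : ZMod ℓ) ^ a)) (ξ 0 1 + ξ 1 (g : ZMod ℓ) / (1 - (g : ZMod ℓ) ^ a)) (by ring)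
        fun _ => ?_
      field_simp
  · refine ⟨0, 0, ξ, h, fun h0 => absurd h0.symm h2, fun c d => ?_⟩
    have e : ∀ c d : ZMod ℓ, kap ℓ a 0 0 c d = 0 := by
      intro c d
      unfold kap
      split_ifs <;> rw [mul_zero]
    rw [e, e]
    ring

theorem kap_lin {ℓ a : ℕ} (u v k0 k1 m0 m1 c d : ZMod ℓ) :
    kap ℓ a (u * k0 + v * m0) (u * k1 + v * m1) c d = u * kap ℓ a k0 k1 c d + v * kap ℓ a m0 m1 c d := by
  unfold kap
  split_ifs <;> ring

theorem of_cert {ℓ a : ℕ} [hp : Fact ℓ.Prime] (h2 : (1 : ZMod ℓ) ≠ -1) (he : Even a) {s : ZMod ℓ} (hs : s = 1 ∨ s = -1)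
    {g : ℕ} (hg : a ≠ 0 → (g : ZMod ℓ) ≠ 0 ∧ (g : ZMod ℓ) ^ a ≠ 1) (hC : Cert ℓ a s g)
    (ξ ξ' : ZMod ℓ → ZMod ℓ → ZMod ℓ) (h : MS ℓ a s ξ) (h' : MS ℓ a s ξ') :
    ∃ c c' : ZMod ℓ, (c ≠ 0 ∨ c' ≠ 0) ∧ Triv ℓ a (fun x y => c * ξ x y + c' * ξ' x y) := by
  obtain ⟨k0, k1, ζ, hζ, hN, e1⟩ := exists_norm h2 he hs hg h
  obtain ⟨m0, m1, ζ', hζ', hN', e2⟩ := exists_norm h2 he hs hg h'
  obtain ⟨e, nv, hc⟩ := hC
  have hcc : ∃ c c' : ZMod ℓ, (c ≠ 0 ∨ c' ≠ 0) ∧ c * X ζ e + c' * X ζ' e = 0 := by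
    by_cases h0 : X ζ e = 0
    · exact ⟨1, 0, Or.inl one_ne_zero, by rw [h0]; ring⟩
    · exact ⟨X ζ' e, -X ζ e, Or.inr (neg_ne_zero.2 h0), by ring⟩
  obtain ⟨c, c', hne, h0⟩ := hcc
  refine ⟨c, c', hne, c * k0 + c' * m0, c * k1 + c' * m1, fun x y hxy => ?_⟩
  have h3 : c * ζ x y + c' * ζ' x y = 0 := by
    refine zero_of_X (hζ.comb hζ' c c') (fun i hi => ?_) x y hxy
    have h4 : X (fun x y => c * ζ x y + c' * ζ' x y) i = c * X ζ i + c' * X ζ' i := by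
      unfold X
      split_ifs <;> rfl
    have h5 := hc ζ hζ hN i hi
    have h6 := hc ζ' hζ' hN' i hi
    rw [h4]
    linear_combination c * h5 + c' * h6 - (nv i : ZMod ℓ) * h0
  beta_reduce
  rw [e1, e2, kap_lin, kap_lin]
  linear_combination h3

theorem mult_one {ℓ : ℕ} (hl : ℓ = 11 ∨ ℓ = 13 ∨ ℓ = 17 ∨ ℓ = 19) (a : ℕ) (ha : a < ℓ - 1) (he : Even a)
    (s : ZMod ℓ) (hs : s = 1 ∨ s = -1) (ξ ξ' : ZMod ℓ → ZMod ℓ → ZMod ℓ) (h : MS ℓ a s ξ) (h' : MS ℓ a s ξ') :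
    ∃ c c' : ZMod ℓ, (c ≠ 0 ∨ c' ≠ 0) ∧ Triv ℓ a (fun x y => c * ξ x y + c' * ξ' x y) := by
  rcases hl with rfl | rfl | rfl | rfl
  · have hg : ∀ b < 10, b ≠ 0 → ((2 : ℕ) : ZMod 11) ≠ 0 ∧ ((2 : ℕ) : ZMod 11) ^ b ≠ 1 := by decide
    have hC : Cert 11 a s 2 := by
      have ha' : a < 10 := ha
      obtain ⟨b, rfl⟩ := he
      have hb : b < 5 := by omega
      interval_cases b <;> rcases hs with rfl | rfl
      · exact c_11_0_p
      · exact c_11_0_m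
      · exact c_11_2_p
      · exact c_11_2_m
      · exact c_11_4_p
      · exact c_11_4_m
      · exact c_11_6_p
      · exact c_11_6_m
      · exact c_11_8_p
      · exact c_11_8_m
    exact of_cert (by decide) he hs (hg a ha) hC ξ ξ' h h'
  · have hg : ∀ b < 12, b ≠ 0 → ((2 : ℕ) : ZMod 13) ≠ 0 ∧ ((2 : ℕ) : ZMod 13) ^ b ≠ 1 := by decide
    have hC : Cert 13 a s 2 := by
      have ha' : a < 12 := ha
      obtain ⟨b, rfl⟩ := he
      have hb : b < 6 := by omega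
      interval_cases b <;> rcases hs with rfl | rfl
      · exact c_13_0_p
      · exact c_13_0_m
      · exact c_13_2_p
      · exact c_13_2_m
      · exact c_13_4_p
      · exact c_13_4_m
      · exact c_13_6_p
      · exact c_13_6_m
      · exact c_13_8_p
      · exact c_13_8_m
      · exact c_13_10_p
      · exact c_13_10_m
    exact of_cert (by decide) he hs (hg a ha) hC ξ ξ' h h'
  · have hg : ∀ b < 16, b ≠ 0 → ((3 : ℕ) : ZMod 17) ≠ 0 ∧ ((3 : ℕ) : ZMod 17) ^ b ≠ 1 := by decide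
    have hC : Cert 17 a s 3 := by
      have ha' : a < 16 := ha
      obtain ⟨b, rfl⟩ := he
      have hb : b < 8 := by omega
      interval_cases b <;> rcases hs with rfl | rfl
      · exact c_17_0_p
      · exact c_17_0_m
      · exact c_17_2_p
      · exact c_17_2_m
      · exact c_17_4_p
      · exact c_17_4_m
      · exact c_17_6_p
      · exact c_17_6_m
      · exact c_17_8_p
      · exact c_17_8_m
      · exact c_17_10_p
      · exact c_17_10_m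
      · exact c_17_12_p
      · exact c_17_12_m
      · exact c_17_14_p
      · exact c_17_14_m
    exact of_cert (by decide) he hs (hg a ha) hC ξ ξ' h h'
  · have hg : ∀ b < 18, b ≠ 0 → ((2 : ℕ) : ZMod 19) ≠ 0 ∧ ((2 : ℕ) : ZMod 19) ^ b ≠ 1 := by decide
    have hC : Cert 19 a s 2 := by
      have ha' : a < 18 := ha
      obtain ⟨b, rfl⟩ := he
      have hb : b < 9 := by omega
      interval_cases b <;> rcases hs with rfl | rfl
      · exact c_19_0_p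
      · exact c_19_0_m
      · exact c_19_2_p
      · exact c_19_2_m
      · exact c_19_4_p
      · exact c_19_4_m
      · exact c_19_6_p
      · exact c_19_6_m
      · exact c_19_8_p
      · exact c_19_8_m
      · exact c_19_10_p
      · exact c_19_10_m
      · exact c_19_12_p
      · exact c_19_12_m
      · exact c_19_14_p
      · exact c_19_14_m
      · exact c_19_16_p
      · exact c_19_16_m
    exact of_cert (by decide) he hs (hg a ha) hC ξ ξ' h h'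

end LV7
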