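import Pool.Agent.LibLV7.DDefs

/-!
# LibLV7.D1a : certificates for the multiplicity one statement, soundness
-/

set_option autoImplicit false

open Matrix
open scoped MatrixGroups

namespace LV7

open KS44

/-- index of the point `(c : d)` of the projective line over `𝔽_ℓ` -/
def ix (ℓ c d : ℕ) : ℕ := if c % ℓ = 0 then ℓ else (d * c ^ (ℓ - 2)) % ℓ

/-- the factor of homogeneity -/
def cf (ℓ a c d : ℕ) : ℕ := if c % ℓ = 0 then d ^ a % ℓ else c ^ a % ℓ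

/-- the relations -/
def rl (ℓ σ g : ℕ) (q : ℕ × ℕ) : List (ℕ × ℕ × ℕ) :=
  if q.1 = 0 then [(1, 1, q.2), (1, q.2, ℓ - 1)]
  else if q.1 = 1 then [(1, 1, q.2), (1, 1 + q.2, ℓ - 1), (1, q.2, (ℓ - 1) * (1 + q.2))]
  else if q.1 = 2 then [(1, 1, (ℓ - 1) * q.2), ((ℓ - 1) * σ, 1, q.2)]
  else if q.1 = 3 then [(1, 0, ℓ - 1), ((ℓ - 1) * σ, 0, 1)]
  else if q.1 = 4 then [(1, 0, 1)]
  else [(1, 1, g)]

/-- the coefficient of a relation at `k` -/
def rv (ℓ a : ℕ) : List (ℕ × ℕ × ℕ) → ℕ → ℕ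
  | [], _ => 0
  | t :: r, k => (if ix ℓ t.2.1 t.2.2 = k then t.1 * cf ℓ a t.2.1 t.2.2 else 0) + rv ℓ a r k

/-- dot product -/
def dt : List ℕ → List ℕ → ℕ
  | [], _ => 0
  | _ :: _, [] => 0
  | x :: l, y :: l' => x * y + dt l l'

/-- the coordinates -/
def X {ℓ : ℕ} (ξ : ZMod ℓ → ZMod ℓ → ZMod ℓ) (i : ℕ) : ZMod ℓ := if i = ℓ then ξ 0 1 else ξ 1 (i : ZMod ℓ)

/-- normalised symbols -/
def Nrm {ℓ : ℕ} (a : ℕ) (s : ZMod ℓ) (g : ℕ) (ξ : ZMod ℓ → ZMod ℓ → ZMod ℓ) : Prop :=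
  s = 1 → ξ 0 1 = 0 ∧ (a ≠ 0 → ξ 1 (g : ZMod ℓ) = 0)

theorem cast_pred {ℓ : ℕ} (hl : 1 ≤ ℓ) : ((ℓ - 1 : ℕ) : ZMod ℓ) = -1 := by
  rw [Nat.cast_sub hl, ZMod.natCast_self, Nat.cast_one, zero_sub]

theorem pt {ℓ : ℕ} [hp : Fact ℓ.Prime] {a : ℕ} {s : ZMod ℓ} {ξ : ZMod ℓ → ZMod ℓ → ZMod ℓ} (h : MS ℓ a s ξ) (c d : ℕ)
    (hcd : (c : ZMod ℓ) ≠ 0 ∨ (d : ZMod ℓ) ≠ 0) :
    ξ c d = (cf ℓ a c d : ZMod ℓ) * X ξ (ix ℓ c d) := by
  have h2 : 2 ≤ ℓ := hp.out.two_le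
  by_cases hc : c % ℓ = 0
  · have hc' : (c : ZMod ℓ) = 0 := (ZMod.natCast_eq_zero_iff c ℓ).2 (Nat.dvd_of_mod_eq_zero hc)
    have hd : (d : ZMod ℓ) ≠ 0 := by
      rcases hcd with h1 | h1
      · exact absurd hc' h1
      · exact h1
    have e1 : ix ℓ c d = ℓ := by unfold ix; rw [if_pos hc]
    have e2 : cf ℓ a c d = d ^ a % ℓ := by unfold cf; rw [if_pos hc]
    have e3 : X ξ ℓ = ξ 0 1 := by unfold X; rw [if_pos rfl]
    rw [e1, e2, e3, hc', ZMod.natCast_mod, Nat.cast_pow]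
    have h3 := h.hom (d : ZMod ℓ) 0 1 hd
    rw [mul_zero, mul_one] at h3
    exact h3
  · have hc' : (c : ZMod ℓ) ≠ 0 := fun h0 => hc (Nat.mod_eq_zero_of_dvd ((ZMod.natCast_eq_zero_iff c ℓ).1 h0))
    have e1 : ix ℓ c d = (d * c ^ (ℓ - 2)) % ℓ := by unfold ix; rw [if_neg hc]
    have e2 : cf ℓ a c d = c ^ a % ℓ := by unfold cf; rw [if_neg hc]
    have hlt : (d * c ^ (ℓ - 2)) % ℓ < ℓ := Nat.mod_lt _ (by omega)
    have e3 : X ξ ((d * c ^ (ℓ - 2)) % ℓ) = ξ 1 ((d : ZMod ℓ) * (c : ZMod ℓ) ^ (ℓ - 2)) := by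
      unfold X
      rw [if_neg (by omega), ZMod.natCast_mod, Nat.cast_mul, Nat.cast_pow]
    rw [e1, e2, e3, ZMod.natCast_mod, Nat.cast_pow]
    have h3 := h.hom (c : ZMod ℓ) 1 ((d : ZMod ℓ) * (c : ZMod ℓ) ^ (ℓ - 2)) hc'
    have h4 : (c : ZMod ℓ) * ((d : ZMod ℓ) * (c : ZMod ℓ) ^ (ℓ - 2)) = d := by
      have h5 : (c : ZMod ℓ) ^ (ℓ - 1) = 1 := ZMod.pow_card_sub_one_eq_one hc'
      have h6 : (c : ZMod ℓ) ^ (ℓ - 1) = (c : ZMod ℓ) * (c : ZMod ℓ) ^ (ℓ - 2) := by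
        rw [← pow_succ']
        congr 1
        omega
      rw [h6] at h5
      calc (c : ZMod ℓ) * ((d : ZMod ℓ) * (c : ZMod ℓ) ^ (ℓ - 2)) = d * ((c : ZMod ℓ) * (c : ZMod ℓ) ^ (ℓ - 2)) := by ring
        _ = d := by rw [h5, mul_one]
    rw [mul_one, h4] at h3
    exact h3

/-- value of a relation -/
def vl {ℓ : ℕ} (ξ : ZMod ℓ → ZMod ℓ → ZMod ℓ) : List (ℕ × ℕ × ℕ) → ZMod ℓ
  | [] => 0
  | t :: r => (t.1 : ZMod ℓ) * ξ t.2.1 t.2.2 + vl ξ r

theorem rv_cons (ℓ a : ℕ) (t : ℕ × ℕ × ℕ) (r : List (ℕ × ℕ × ℕ)) (k : ℕ) :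
    rv ℓ a (t :: r) k = (if ix ℓ t.2.1 t.2.2 = k then t.1 * cf ℓ a t.2.1 t.2.2 else 0) + rv ℓ a r k := rfl

theorem vl_cons {ℓ : ℕ} (ξ : ZMod ℓ → ZMod ℓ → ZMod ℓ) (t : ℕ × ℕ × ℕ) (r : List (ℕ × ℕ × ℕ)) :
    vl ξ (t :: r) = (t.1 : ZMod ℓ) * ξ t.2.1 t.2.2 + vl ξ r := rfl

theorem ix_le {ℓ : ℕ} (hl : 0 < ℓ) (c d : ℕ) : ix ℓ c d < ℓ + 1 := by
  unfold ix
  split_ifs
  · omega
  · exact (Nat.mod_lt _ hl).trans (Nat.lt_succ_self ℓ)

theorem sum_rv {ℓ : ℕ} [hp : Fact ℓ.Prime] {a : ℕ} {s : ZMod ℓ} {ξ : ZMod ℓ → ZMod ℓ → ZMod ℓ} (h : MS ℓ a s ξ)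
    (r : List (ℕ × ℕ × ℕ)) (hr : ∀ t ∈ r, (t.2.1 : ZMod ℓ) ≠ 0 ∨ (t.2.2 : ZMod ℓ) ≠ 0) :
    ∑ k ∈ Finset.range (ℓ + 1), (rv ℓ a r k : ZMod ℓ) * X ξ k = vl ξ r := by
  induction r with
  | nil => simp [rv, vl]
  | cons t r ih =>
    have h1 := ih fun u hu => hr u (List.mem_cons_of_mem _ hu)
    have h2 := pt h t.2.1 t.2.2 (hr t (List.mem_cons_self ..))
    have h3 : ∀ k, ((rv ℓ a (t :: r) k : ℕ) : ZMod ℓ) * X ξ k =
        (if ix ℓ t.2.1 t.2.2 = k then (t.1 : ZMod ℓ) * (cf ℓ a t.2.1 t.2.2 : ZMod ℓ) * X ξ k else 0) +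
          (rv ℓ a r k : ZMod ℓ) * X ξ k := by
      intro k
      rw [rv_cons]
      split_ifs with hk
      · push_cast
        ring
      · push_cast
        ring
    rw [Finset.sum_congr rfl fun k _ => h3 k, Finset.sum_add_distrib, h1, Finset.sum_ite_eq,
      if_pos (Finset.mem_range.2 (ix_le hp.out.pos _ _))]
    rw [vl_cons, h2]
    ring

theorem rl_zero {ℓ : ℕ} [hp : Fact ℓ.Prime] {a σ g : ℕ} {s : ZMod ℓ} (hσ : (σ : ZMod ℓ) = s) {ξ : ZMod ℓ → ZMod ℓ → ZMod ℓ}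
    (h : MS ℓ a s ξ) (hN : Nrm a s g ξ) (q : ℕ × ℕ) (hq4 : q.1 = 4 → s = 1) (hq5 : 4 < q.1 → s = 1 ∧ a ≠ 0) :
    vl ξ (rl ℓ σ g q) = 0 ∧ ∀ t ∈ rl ℓ σ g q, (t.2.1 : ZMod ℓ) ≠ 0 ∨ (t.2.2 : ZMod ℓ) ≠ 0 := by
  have h1 : ((ℓ - 1 : ℕ) : ZMod ℓ) = -1 := cast_pred hp.out.one_le
  have h10 : (1 : ZMod ℓ) ≠ 0 := one_ne_zero
  have h11 : (-1 : ZMod ℓ) ≠ 0 := neg_ne_zero.2 h10
  unfold rl
  split_ifs with c0 c1 c2 c3 c4
  · constructor
    · have := h.S 1 (q.2 : ZMod ℓ) (Or.inl h10)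
      simp only [vl, Nat.cast_one, one_mul, add_zero, h1]
      exact this
    · intro t ht
      simp only [List.mem_cons, List.not_mem_nil, or_false] at ht
      rcases ht with rfl | rfl
      · exact Or.inl (by simp)
      · exact Or.inr (by rw [h1]; exact h11)
  · constructor
    · have := h.R 1 (q.2 : ZMod ℓ) (Or.inl h10)
      simp only [vl, Nat.cast_one, one_mul, add_zero, h1, Nat.cast_add, Nat.cast_mul]
      rw [show (-1 : ZMod ℓ) * (1 + (q.2 : ZMod ℓ)) = -1 - q.2 by ring, ← add_assoc]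
      exact this
    · intro t ht
      simp only [List.mem_cons, List.not_mem_nil, or_false] at ht
      rcases ht with rfl | rfl | rfl
      · exact Or.inl (by simp)
      · exact Or.inr (by rw [h1]; exact h11)
      · by_cases hq : (q.2 : ZMod ℓ) = 0
        · refine Or.inr ?_
          simp only [Nat.cast_add, Nat.cast_mul, h1, Nat.cast_one, hq, add_zero, mul_one]
          exact h11
        · exact Or.inl hq
  · constructor
    · have := h.sgn 1 (q.2 : ZMod ℓ) (Or.inl h10)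
      simp only [vl, Nat.cast_one, one_mul, add_zero, h1, Nat.cast_mul, hσ]
      rw [show (-1 : ZMod ℓ) * (q.2 : ZMod ℓ) = -q.2 by ring, this]
      ring
    · intro t ht
      simp only [List.mem_cons, List.not_mem_nil, or_false] at ht
      rcases ht with rfl | rfl
      · exact Or.inl (by simp)
      · exact Or.inl (by simp)
  · constructor
    · have := h.sgn 0 1 (Or.inr h10)
      simp only [vl, Nat.cast_one, one_mul, add_zero, h1, Nat.cast_mul, hσ, Nat.cast_zero]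
      rw [this]
      ring
    · intro t ht
      simp only [List.mem_cons, List.not_mem_nil, or_false] at ht
      rcases ht with rfl | rfl
      · exact Or.inr (by rw [h1]; exact h11)
      · exact Or.inr (by simp)
  · constructor
    · have := (hN (hq4 c4)).1
      simp only [vl, Nat.cast_one, one_mul, add_zero, Nat.cast_zero]
      exact this
    · intro t ht
      simp only [List.mem_cons, List.not_mem_nil, or_false] at ht
      subst ht
      exact Or.inr (by simp)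
  · constructor
    · obtain ⟨h5, h6⟩ := hq5 (by omega)
      have := (hN h5).2 h6
      simp only [vl, Nat.cast_one, one_mul, add_zero]
      exact this
    · intro t ht
      simp only [List.mem_cons, List.not_mem_nil, or_false] at ht
      subst ht
      exact Or.inl (by simp)

theorem sum_dt {ℓ : ℕ} (x : ℕ → ZMod ℓ) (n : ℕ) (M : List (List ℕ))
    (hM : ∀ row ∈ M, ∑ k ∈ Finset.range n, ((row.getD k 0 : ℕ) : ZMod ℓ) * x k = 0) (c : List ℕ) :
    ∑ k ∈ Finset.range n, ((dt c (M.map fun row => row.getD k 0) : ℕ) : ZMod ℓ) * x k = 0 := by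
  induction M generalizing c with
  | nil =>
    cases c with
    | nil => simp [dt]
    | cons y c => simp [dt]
  | cons row M ih =>
    cases c with
    | nil => simp [dt]
    | cons y c =>
      have h1 := ih (fun r hr => hM r (List.mem_cons_of_mem _ hr)) c
      have h2 := hM row (List.mem_cons_self ..)
      have h3 : ∀ k, ((dt (y :: c) ((row :: M).map fun row => row.getD k 0) : ℕ) : ZMod ℓ) * x k =
          (y : ZMod ℓ) * (((row.getD k 0 : ℕ) : ZMod ℓ) * x k) +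
            ((dt c (M.map fun row => row.getD k 0) : ℕ) : ZMod ℓ) * x k := by
        intro k
        rw [List.map_cons, dt]
        push_cast
        ring
      rw [Finset.sum_congr rfl fun k _ => h3 k, Finset.sum_add_distrib, ← Finset.mul_sum, h2, h1]
      ring

/-- the relations have the rows of `M` -/
def chk1 (ℓ a σ g : ℕ) : List (ℕ × ℕ) → List (List ℕ) → Bool
  | [], [] => true
  | q :: sel, row :: M => (List.range (ℓ + 1)).all (fun k => row.getD k 0 % ℓ == rv ℓ a (rl ℓ σ g q) k % ℓ) &&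
      chk1 ℓ a σ g sel M
  | _, _ => false

/-- `C M` is of the expected form -/
def chk2 (ℓ e : ℕ) (M C : List (List ℕ)) (nv : List ℕ) : Bool :=
  (List.range (ℓ + 1)).all fun k =>
    (List.range (ℓ + 1)).all fun i =>
      dt (C.getD i []) (M.map fun row => row.getD k 0) % ℓ ==
        ((if k = i then 1 else 0) + if k = e then nv.getD i 0 else 0) % ℓ

/-- the side conditions -/
def chk3 (σ a : ℕ) (sel : List (ℕ × ℕ)) : Bool :=
  sel.all fun q => (Nat.blt q.1 4 || (σ == 1 && (Nat.blt q.1 5 || !(a == 0))))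

/-- multiplicity at most one for normalised symbols -/
def Cert (ℓ a : ℕ) (s : ZMod ℓ) (g : ℕ) : Prop :=
  ∃ (e : ℕ) (nv : ℕ → ℕ), ∀ ξ : ZMod ℓ → ZMod ℓ → ZMod ℓ, MS ℓ a s ξ → Nrm a s g ξ →
    ∀ i < ℓ + 1, X ξ i + (nv i : ZMod ℓ) * X ξ e = 0

theorem rows {ℓ : ℕ} [hp : Fact ℓ.Prime] {a σ g : ℕ} {s : ZMod ℓ} (hσ : (σ : ZMod ℓ) = s) (hs1 : σ = 1 → s = 1)
    {ξ : ZMod ℓ → ZMod ℓ → ZMod ℓ} (h : MS ℓ a s ξ) (hN : Nrm a s g ξ) (sel : List (ℕ × ℕ)) (M : List (List ℕ))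
    (h1 : chk1 ℓ a σ g sel M = true) (h3 : chk3 σ a sel = true) :
    ∀ row ∈ M, ∑ k ∈ Finset.range (ℓ + 1), ((row.getD k 0 : ℕ) : ZMod ℓ) * X ξ k = 0 := by
  induction sel generalizing M with
  | nil =>
    cases M with
    | nil => simp
    | cons row M => simp [chk1] at h1
  | cons q sel ih =>
    cases M with
    | nil => simp [chk1] at h1
    | cons row M =>
      rw [chk1, Bool.and_eq_true] at h1
      unfold chk3 at h3
      rw [List.all_cons, Bool.and_eq_true] at h3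
      intro r hr
      rcases List.mem_cons.1 hr with rfl | hr
      · have h4 : ∀ k ∈ Finset.range (ℓ + 1), ((r.getD k 0 : ℕ) : ZMod ℓ) * X ξ k =
            (rv ℓ a (rl ℓ σ g q) k : ZMod ℓ) * X ξ k := by
          intro k hk
          have h5 := List.all_eq_true.1 h1.1 k (List.mem_range.2 (Finset.mem_range.1 hk))
          rw [beq_iff_eq] at h5
          have h6 : ((r.getD k 0 : ℕ) : ZMod ℓ) = ((rv ℓ a (rl ℓ σ g q) k : ℕ) : ZMod ℓ) := by
            rw [← ZMod.natCast_mod (r.getD k 0), h5, ZMod.natCast_mod]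
          rw [h6]
        rw [Finset.sum_congr rfl h4]
        have h7 : (q.1 = 4 → s = 1) ∧ (4 < q.1 → s = 1 ∧ a ≠ 0) := by
          have h8 := h3.1
          simp only [Bool.or_eq_true, Bool.and_eq_true, Nat.blt_eq, beq_iff_eq, Bool.not_eq_true',
            beq_eq_false_iff_ne, ne_eq] at h8
          constructor
          · intro h9
            rcases h8 with h8 | ⟨h8, -⟩
            · omega
            · exact hs1 h8
          · intro h9
            rcases h8 with h8 | ⟨h8, h10⟩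
            · omega
            · refine ⟨hs1 h8, ?_⟩
              rcases h10 with h10 | h10
              · omega
              · exact h10
        obtain ⟨h8, h9⟩ := rl_zero (g := g) hσ h hN q h7.1 h7.2
        rw [sum_rv h _ h9, h8]
      · exact ih M h1.2 h3.2 r hr

theorem cert_of {ℓ : ℕ} [hp : Fact ℓ.Prime] {a σ g : ℕ} {s : ZMod ℓ} (hσ : (σ : ZMod ℓ) = s) (hs1 : σ = 1 → s = 1)
    (e : ℕ) (sel : List (ℕ × ℕ)) (M C : List (List ℕ)) (nv : List ℕ) (he : e < ℓ + 1)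
    (h1 : chk1 ℓ a σ g sel M = true) (h2 : chk2 ℓ e M C nv = true) (h3 : chk3 σ a sel = true) : Cert ℓ a s g := by
  refine ⟨e, fun i => nv.getD i 0, fun ξ h hN i hi => ?_⟩
  have hM := rows hσ hs1 h hN sel M h1 h3
  have h4 := sum_dt (X ξ) (ℓ + 1) M hM (C.getD i [])
  have h5 : ∀ k ∈ Finset.range (ℓ + 1), ((dt (C.getD i []) (M.map fun row => row.getD k 0) : ℕ) : ZMod ℓ) * X ξ k =
      (if k = i then X ξ k else 0) + if k = e then ((nv.getD i 0 : ℕ) : ZMod ℓ) * X ξ k else 0 := by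
    intro k hk
    have h6 := List.all_eq_true.1 (List.all_eq_true.1 h2 k (List.mem_range.2 (Finset.mem_range.1 hk))) i
      (List.mem_range.2 hi)
    rw [beq_iff_eq] at h6
    rw [← ZMod.natCast_mod, h6, ZMod.natCast_mod]
    split_ifs <;> push_cast <;> ring
  rw [Finset.sum_congr rfl h5, Finset.sum_add_distrib, Finset.sum_ite_eq' , Finset.sum_ite_eq',
    if_pos (Finset.mem_range.2 hi), if_pos (Finset.mem_range.2 he)] at h4
  exact h4

end LV7
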