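import Pool.Agent.LibLV7.D1a

/-!
# certificates for `ℓ = 11` (generated)
-/

set_option autoImplicit false
set_option linter.style.longLine false

namespace LV7

instance fact_11 : Fact (Nat.Prime 11) := ⟨by norm_num⟩

theorem c_11_0_p : Cert 11 0 1 2 := by
  refine cert_of (σ := 1) (by decide) (by decide) 9
    [(4, 0), (0, 0), (0, 1), (0, 2), (0, 3), (0, 4), (0, 6), (2, 1), (2, 2), (2, 3), (1, 2)]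
    [[0, 0, 0, 0, 0, 0, 0, 0, 0, 0, 0, 1],
      [1, 0, 0, 0, 0, 0, 0, 0, 0, 0, 0, 1],
      [0, 1, 0, 0, 0, 0, 0, 0, 0, 0, 1, 0],
      [0, 0, 1, 0, 0, 1, 0, 0, 0, 0, 0, 0],
      [0, 0, 0, 1, 0, 0, 0, 1, 0, 0, 0, 0],
      [0, 0, 0, 0, 1, 0, 0, 0, 1, 0, 0, 0],
      [0, 0, 0, 0, 0, 0, 1, 0, 0, 1, 0, 0],
      [0, 10, 0, 0, 0, 0, 0, 0, 0, 0, 1, 0],
      [0, 0, 10, 0, 0, 0, 0, 0, 0, 1, 0, 0],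
      [0, 0, 0, 10, 0, 0, 0, 0, 1, 0, 0, 0],
      [0, 0, 1, 0, 1, 0, 0, 1, 0, 0, 0, 0]]
    [[10, 1, 0, 0, 0, 0, 0, 0, 0, 0, 0],
      [0, 0, 6, 0, 0, 0, 0, 5, 0, 0, 0],
      [0, 0, 0, 0, 0, 0, 0, 0, 10, 0, 0],
      [0, 0, 0, 0, 6, 6, 0, 0, 5, 5, 5],
      [0, 0, 0, 0, 5, 6, 0, 0, 6, 5, 6],
      [0, 0, 0, 1, 0, 0, 0, 0, 1, 0, 0],
      [0, 0, 0, 0, 0, 0, 1, 0, 0, 0, 0],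
      [0, 0, 0, 0, 6, 5, 0, 0, 6, 6, 6],
      [0, 0, 0, 0, 6, 6, 0, 0, 5, 6, 5],
      [],
      [0, 0, 6, 0, 0, 0, 0, 6, 0, 0, 0],
      [1, 0, 0, 0, 0, 0, 0, 0, 0, 0, 0]]
    [0, 0, 10, 5, 6, 1, 1, 6, 5, 10, 0, 0] (by decide) ?_ ?_ ?_ <;> decide +kernel

theorem c_11_0_m : Cert 11 0 (-1) 2 := by
  refine cert_of (σ := 10) (by decide) (by decide) 8
    [(3, 0), (0, 0), (0, 1), (0, 2), (0, 3), (0, 4), (0, 6), (2, 2), (2, 3), (1, 0), (1, 1)]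
    [[0, 0, 0, 0, 0, 0, 0, 0, 0, 0, 0, 2],
      [1, 0, 0, 0, 0, 0, 0, 0, 0, 0, 0, 1],
      [0, 1, 0, 0, 0, 0, 0, 0, 0, 0, 1, 0],
      [0, 0, 1, 0, 0, 1, 0, 0, 0, 0, 0, 0],
      [0, 0, 0, 1, 0, 0, 0, 1, 0, 0, 0, 0],
      [0, 0, 0, 0, 1, 0, 0, 0, 1, 0, 0, 0],
      [0, 0, 0, 0, 0, 0, 1, 0, 0, 1, 0, 0],
      [0, 0, 1, 0, 0, 0, 0, 0, 0, 1, 0, 0],
      [0, 0, 0, 1, 0, 0, 0, 0, 1, 0, 0, 0],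
      [1, 0, 0, 0, 0, 0, 0, 0, 0, 0, 1, 1],
      [0, 1, 0, 0, 0, 1, 0, 0, 0, 1, 0, 0]]
    [[5, 1, 0, 0, 0, 0, 0, 0, 0, 0, 0],
      [0, 1, 1, 0, 0, 0, 0, 0, 0, 10, 0],
      [0, 6, 6, 6, 0, 0, 0, 6, 0, 5, 5],
      [0, 0, 0, 0, 0, 0, 0, 0, 1, 0, 0],
      [0, 0, 0, 0, 0, 1, 0, 0, 0, 0, 0],
      [0, 5, 5, 6, 0, 0, 0, 5, 0, 6, 6],
      [0, 6, 6, 6, 0, 0, 1, 5, 0, 5, 5],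
      [0, 0, 0, 0, 1, 0, 0, 0, 10, 0, 0],
      [],
      [0, 5, 5, 5, 0, 0, 0, 6, 0, 6, 6],
      [0, 10, 0, 0, 0, 0, 0, 0, 0, 1, 0],
      [6, 0, 0, 0, 0, 0, 0, 0, 0, 0, 0]]
    [0, 0, 0, 1, 1, 0, 0, 10, 10, 0, 0, 0] (by decide) ?_ ?_ ?_ <;> decide +kernel

theorem c_11_2_p : Cert 11 2 1 2 := by
  refine cert_of (σ := 1) (by decide) (by decide) 0
    [(4, 0), (5, 0), (0, 0), (0, 1), (0, 2), (0, 3), (0, 4), (0, 6), (2, 1), (2, 2), (2, 3), (1, 2)]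
    [[0, 0, 0, 0, 0, 0, 0, 0, 0, 0, 0, 1],
      [0, 0, 1, 0, 0, 0, 0, 0, 0, 0, 0, 0],
      [1, 0, 0, 0, 0, 0, 0, 0, 0, 0, 0, 1],
      [0, 1, 0, 0, 0, 0, 0, 0, 0, 0, 1, 0],
      [0, 0, 1, 0, 0, 4, 0, 0, 0, 0, 0, 0],
      [0, 0, 0, 1, 0, 0, 0, 9, 0, 0, 0, 0],
      [0, 0, 0, 0, 1, 0, 0, 0, 5, 0, 0, 0],
      [0, 0, 0, 0, 0, 0, 1, 0, 0, 3, 0, 0],
      [0, 10, 0, 0, 0, 0, 0, 0, 0, 0, 1, 0],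
      [0, 0, 10, 0, 0, 0, 0, 0, 0, 1, 0, 0],
      [0, 0, 0, 10, 0, 0, 0, 0, 1, 0, 0, 0],
      [0, 0, 1, 0, 4, 0, 0, 9, 0, 0, 0, 0]]
    [[10, 0, 1, 0, 0, 0, 0, 0, 0, 0, 0, 0],
      [0, 0, 0, 6, 0, 0, 0, 0, 5, 0, 0, 0],
      [0, 1, 0, 0, 0, 0, 0, 0, 0, 0, 0, 0],
      [0, 10, 0, 0, 0, 10, 7, 0, 0, 0, 9, 1],
      [0, 5, 0, 0, 0, 5, 10, 0, 0, 0, 5, 6],
      [0, 8, 0, 0, 3, 0, 0, 0, 0, 0, 0, 0],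
      [0, 8, 0, 0, 0, 0, 0, 1, 0, 8, 0, 0],
      [0, 5, 0, 0, 0, 10, 9, 0, 0, 0, 10, 6],
      [0, 10, 0, 0, 0, 10, 7, 0, 0, 0, 10, 1],
      [0, 1, 0, 0, 0, 0, 0, 0, 0, 1, 0, 0],
      [0, 0, 0, 6, 0, 0, 0, 0, 6, 0, 0, 0],
      [1, 0, 0, 0, 0, 0, 0, 0, 0, 0, 0, 0]]
    [0, 0, 0, 0, 0, 0, 0, 0, 0, 0, 0, 0] (by decide) ?_ ?_ ?_ <;> decide +kernel

theorem c_11_2_m : Cert 11 2 (-1) 2 := by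
  refine cert_of (σ := 10) (by decide) (by decide) 0
    [(3, 0), (0, 0), (0, 1), (0, 2), (0, 3), (0, 4), (0, 6), (2, 2), (2, 3), (1, 0), (1, 1), (1, 2)]
    [[0, 0, 0, 0, 0, 0, 0, 0, 0, 0, 0, 2],
      [1, 0, 0, 0, 0, 0, 0, 0, 0, 0, 0, 1],
      [0, 1, 0, 0, 0, 0, 0, 0, 0, 0, 1, 0],
      [0, 0, 1, 0, 0, 4, 0, 0, 0, 0, 0, 0],
      [0, 0, 0, 1, 0, 0, 0, 9, 0, 0, 0, 0],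
      [0, 0, 0, 0, 1, 0, 0, 0, 5, 0, 0, 0],
      [0, 0, 0, 0, 0, 0, 1, 0, 0, 3, 0, 0],
      [0, 0, 1, 0, 0, 0, 0, 0, 0, 1, 0, 0],
      [0, 0, 0, 1, 0, 0, 0, 0, 1, 0, 0, 0],
      [1, 0, 0, 0, 0, 0, 0, 0, 0, 0, 1, 1],
      [0, 1, 0, 0, 0, 4, 0, 0, 0, 1, 0, 0],
      [0, 0, 1, 0, 4, 0, 0, 9, 0, 0, 0, 0]]
    [[5, 1, 0, 0, 0, 0, 0, 0, 0, 0, 0, 0],
      [0, 1, 1, 0, 0, 0, 0, 0, 0, 10, 0, 0],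
      [0, 6, 6, 6, 0, 0, 0, 6, 0, 5, 5, 0],
      [0, 2, 2, 2, 4, 5, 0, 2, 8, 9, 9, 7],
      [0, 10, 10, 10, 9, 4, 0, 10, 2, 1, 1, 2],
      [0, 4, 4, 7, 0, 0, 0, 4, 0, 7, 7, 0],
      [0, 7, 7, 7, 0, 0, 1, 4, 0, 4, 4, 0],
      [0, 1, 1, 1, 7, 8, 0, 1, 4, 10, 10, 9],
      [0, 9, 9, 9, 7, 6, 0, 9, 4, 2, 2, 4],
      [0, 5, 5, 5, 0, 0, 0, 6, 0, 6, 6, 0],
      [0, 10, 0, 0, 0, 0, 0, 0, 0, 1, 0, 0],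
      [6, 0, 0, 0, 0, 0, 0, 0, 0, 0, 0, 0]]
    [0, 0, 0, 0, 0, 0, 0, 0, 0, 0, 0, 0] (by decide) ?_ ?_ ?_ <;> decide +kernel

theorem c_11_4_p : Cert 11 4 1 2 := by
  refine cert_of (σ := 1) (by decide) (by decide) 0
    [(4, 0), (5, 0), (0, 0), (0, 1), (0, 2), (0, 3), (0, 4), (0, 6), (2, 1), (2, 2), (2, 3), (1, 2)]
    [[0, 0, 0, 0, 0, 0, 0, 0, 0, 0, 0, 1],
      [0, 0, 1, 0, 0, 0, 0, 0, 0, 0, 0, 0],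
      [1, 0, 0, 0, 0, 0, 0, 0, 0, 0, 0, 1],
      [0, 1, 0, 0, 0, 0, 0, 0, 0, 0, 1, 0],
      [0, 0, 1, 0, 0, 5, 0, 0, 0, 0, 0, 0],
      [0, 0, 0, 1, 0, 0, 0, 4, 0, 0, 0, 0],
      [0, 0, 0, 0, 1, 0, 0, 0, 3, 0, 0, 0],
      [0, 0, 0, 0, 0, 0, 1, 0, 0, 9, 0, 0],
      [0, 10, 0, 0, 0, 0, 0, 0, 0, 0, 1, 0],
      [0, 0, 10, 0, 0, 0, 0, 0, 0, 1, 0, 0],
      [0, 0, 0, 10, 0, 0, 0, 0, 1, 0, 0, 0],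
      [0, 0, 1, 0, 5, 0, 0, 4, 0, 0, 0, 0]]
    [[10, 0, 1, 0, 0, 0, 0, 0, 0, 0, 0, 0],
      [0, 0, 0, 6, 0, 0, 0, 0, 5, 0, 0, 0],
      [0, 1, 0, 0, 0, 0, 0, 0, 0, 0, 0, 0],
      [0, 9, 0, 0, 0, 9, 1, 0, 0, 0, 8, 2],
      [0, 6, 0, 0, 0, 6, 9, 0, 0, 0, 6, 5],
      [0, 2, 0, 0, 9, 0, 0, 0, 0, 0, 0, 0],
      [0, 2, 0, 0, 0, 0, 0, 1, 0, 2, 0, 0],
      [0, 6, 0, 0, 0, 9, 8, 0, 0, 0, 9, 5],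
      [0, 9, 0, 0, 0, 9, 1, 0, 0, 0, 9, 2],
      [0, 1, 0, 0, 0, 0, 0, 0, 0, 1, 0, 0],
      [0, 0, 0, 6, 0, 0, 0, 0, 6, 0, 0, 0],
      [1, 0, 0, 0, 0, 0, 0, 0, 0, 0, 0, 0]]
    [0, 0, 0, 0, 0, 0, 0, 0, 0, 0, 0, 0] (by decide) ?_ ?_ ?_ <;> decide +kernel

theorem c_11_4_m : Cert 11 4 (-1) 2 := by
  refine cert_of (σ := 10) (by decide) (by decide) 0
    [(3, 0), (0, 0), (0, 1), (0, 2), (0, 3), (0, 4), (0, 6), (2, 2), (2, 3), (1, 0), (1, 1), (1, 2)]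
    [[0, 0, 0, 0, 0, 0, 0, 0, 0, 0, 0, 2],
      [1, 0, 0, 0, 0, 0, 0, 0, 0, 0, 0, 1],
      [0, 1, 0, 0, 0, 0, 0, 0, 0, 0, 1, 0],
      [0, 0, 1, 0, 0, 5, 0, 0, 0, 0, 0, 0],
      [0, 0, 0, 1, 0, 0, 0, 4, 0, 0, 0, 0],
      [0, 0, 0, 0, 1, 0, 0, 0, 3, 0, 0, 0],
      [0, 0, 0, 0, 0, 0, 1, 0, 0, 9, 0, 0],
      [0, 0, 1, 0, 0, 0, 0, 0, 0, 1, 0, 0],
      [0, 0, 0, 1, 0, 0, 0, 0, 1, 0, 0, 0],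
      [1, 0, 0, 0, 0, 0, 0, 0, 0, 0, 1, 1],
      [0, 1, 0, 0, 0, 5, 0, 0, 0, 1, 0, 0],
      [0, 0, 1, 0, 5, 0, 0, 4, 0, 0, 0, 0]]
    [[5, 1, 0, 0, 0, 0, 0, 0, 0, 0, 0, 0],
      [0, 1, 1, 0, 0, 0, 0, 0, 0, 10, 0, 0],
      [0, 6, 6, 6, 0, 0, 0, 6, 0, 5, 5, 0],
      [0, 9, 9, 9, 7, 2, 0, 9, 5, 2, 2, 4],
      [0, 5, 5, 5, 10, 7, 0, 5, 1, 6, 6, 1],
      [0, 1, 1, 10, 0, 0, 0, 1, 0, 10, 10, 0],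
      [0, 10, 10, 10, 0, 0, 1, 1, 0, 1, 1, 0],
      [0, 6, 6, 6, 4, 5, 0, 6, 7, 5, 5, 10],
      [0, 2, 2, 2, 4, 9, 0, 2, 7, 9, 9, 7],
      [0, 5, 5, 5, 0, 0, 0, 6, 0, 6, 6, 0],
      [0, 10, 0, 0, 0, 0, 0, 0, 0, 1, 0, 0],
      [6, 0, 0, 0, 0, 0, 0, 0, 0, 0, 0, 0]]
    [0, 0, 0, 0, 0, 0, 0, 0, 0, 0, 0, 0] (by decide) ?_ ?_ ?_ <;> decide +kernel

theorem c_11_6_p : Cert 11 6 1 2 := by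
  refine cert_of (σ := 1) (by decide) (by decide) 0
    [(4, 0), (5, 0), (0, 0), (0, 1), (0, 2), (0, 3), (0, 4), (0, 6), (2, 1), (2, 2), (2, 3), (1, 2)]
    [[0, 0, 0, 0, 0, 0, 0, 0, 0, 0, 0, 1],
      [0, 0, 1, 0, 0, 0, 0, 0, 0, 0, 0, 0],
      [1, 0, 0, 0, 0, 0, 0, 0, 0, 0, 0, 1],
      [0, 1, 0, 0, 0, 0, 0, 0, 0, 0, 1, 0],
      [0, 0, 1, 0, 0, 9, 0, 0, 0, 0, 0, 0],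
      [0, 0, 0, 1, 0, 0, 0, 3, 0, 0, 0, 0],
      [0, 0, 0, 0, 1, 0, 0, 0, 4, 0, 0, 0],
      [0, 0, 0, 0, 0, 0, 1, 0, 0, 5, 0, 0],
      [0, 10, 0, 0, 0, 0, 0, 0, 0, 0, 1, 0],
      [0, 0, 10, 0, 0, 0, 0, 0, 0, 1, 0, 0],
      [0, 0, 0, 10, 0, 0, 0, 0, 1, 0, 0, 0],
      [0, 0, 1, 0, 9, 0, 0, 3, 0, 0, 0, 0]]
    [[10, 0, 1, 0, 0, 0, 0, 0, 0, 0, 0, 0],
      [0, 0, 0, 6, 0, 0, 0, 0, 5, 0, 0, 0],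
      [0, 1, 0, 0, 0, 0, 0, 0, 0, 0, 0, 0],
      [0, 3, 0, 0, 0, 3, 5, 0, 0, 0, 2, 8],
      [0, 10, 0, 0, 0, 10, 3, 0, 0, 0, 10, 1],
      [0, 6, 0, 0, 5, 0, 0, 0, 0, 0, 0, 0],
      [0, 6, 0, 0, 0, 0, 0, 1, 0, 6, 0, 0],
      [0, 10, 0, 0, 0, 3, 2, 0, 0, 0, 3, 1],
      [0, 3, 0, 0, 0, 3, 5, 0, 0, 0, 3, 8],
      [0, 1, 0, 0, 0, 0, 0, 0, 0, 1, 0, 0],
      [0, 0, 0, 6, 0, 0, 0, 0, 6, 0, 0, 0],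
      [1, 0, 0, 0, 0, 0, 0, 0, 0, 0, 0, 0]]
    [0, 0, 0, 0, 0, 0, 0, 0, 0, 0, 0, 0] (by decide) ?_ ?_ ?_ <;> decide +kernel

theorem c_11_6_m : Cert 11 6 (-1) 2 := by
  refine cert_of (σ := 10) (by decide) (by decide) 0
    [(3, 0), (0, 0), (0, 1), (0, 2), (0, 3), (0, 4), (0, 6), (2, 2), (2, 3), (1, 0), (1, 1), (1, 2)]
    [[0, 0, 0, 0, 0, 0, 0, 0, 0, 0, 0, 2],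
      [1, 0, 0, 0, 0, 0, 0, 0, 0, 0, 0, 1],
      [0, 1, 0, 0, 0, 0, 0, 0, 0, 0, 1, 0],
      [0, 0, 1, 0, 0, 9, 0, 0, 0, 0, 0, 0],
      [0, 0, 0, 1, 0, 0, 0, 3, 0, 0, 0, 0],
      [0, 0, 0, 0, 1, 0, 0, 0, 4, 0, 0, 0],
      [0, 0, 0, 0, 0, 0, 1, 0, 0, 5, 0, 0],
      [0, 0, 1, 0, 0, 0, 0, 0, 0, 1, 0, 0],
      [0, 0, 0, 1, 0, 0, 0, 0, 1, 0, 0, 0],
      [1, 0, 0, 0, 0, 0, 0, 0, 0, 0, 1, 1],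
      [0, 1, 0, 0, 0, 9, 0, 0, 0, 1, 0, 0],
      [0, 0, 1, 0, 9, 0, 0, 3, 0, 0, 0, 0]]
    [[5, 1, 0, 0, 0, 0, 0, 0, 0, 0, 0, 0],
      [0, 1, 1, 0, 0, 0, 0, 0, 0, 10, 0, 0],
      [0, 6, 6, 6, 0, 0, 0, 6, 0, 5, 5, 0],
      [0, 8, 8, 8, 5, 1, 0, 8, 7, 3, 3, 6],
      [0, 10, 10, 10, 9, 5, 0, 10, 2, 1, 1, 2],
      [0, 3, 3, 8, 0, 0, 0, 3, 0, 8, 8, 0],
      [0, 8, 8, 8, 0, 0, 1, 3, 0, 3, 3, 0],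
      [0, 1, 1, 1, 6, 7, 0, 1, 5, 10, 10, 9],
      [0, 3, 3, 3, 6, 10, 0, 3, 5, 8, 8, 5],
      [0, 5, 5, 5, 0, 0, 0, 6, 0, 6, 6, 0],
      [0, 10, 0, 0, 0, 0, 0, 0, 0, 1, 0, 0],
      [6, 0, 0, 0, 0, 0, 0, 0, 0, 0, 0, 0]]
    [0, 0, 0, 0, 0, 0, 0, 0, 0, 0, 0, 0] (by decide) ?_ ?_ ?_ <;> decide +kernel

theorem c_11_8_p : Cert 11 8 1 2 := by
  refine cert_of (σ := 1) (by decide) (by decide) 0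
    [(4, 0), (5, 0), (0, 0), (0, 1), (0, 2), (0, 3), (0, 4), (0, 6), (2, 1), (2, 2), (2, 3), (1, 2)]
    [[0, 0, 0, 0, 0, 0, 0, 0, 0, 0, 0, 1],
      [0, 0, 1, 0, 0, 0, 0, 0, 0, 0, 0, 0],
      [1, 0, 0, 0, 0, 0, 0, 0, 0, 0, 0, 1],
      [0, 1, 0, 0, 0, 0, 0, 0, 0, 0, 1, 0],
      [0, 0, 1, 0, 0, 3, 0, 0, 0, 0, 0, 0],
      [0, 0, 0, 1, 0, 0, 0, 5, 0, 0, 0, 0],
      [0, 0, 0, 0, 1, 0, 0, 0, 9, 0, 0, 0],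
      [0, 0, 0, 0, 0, 0, 1, 0, 0, 4, 0, 0],
      [0, 10, 0, 0, 0, 0, 0, 0, 0, 0, 1, 0],
      [0, 0, 10, 0, 0, 0, 0, 0, 0, 1, 0, 0],
      [0, 0, 0, 10, 0, 0, 0, 0, 1, 0, 0, 0],
      [0, 0, 1, 0, 3, 0, 0, 5, 0, 0, 0, 0]]
    [[10, 0, 1, 0, 0, 0, 0, 0, 0, 0, 0, 0],
      [0, 0, 0, 6, 0, 0, 0, 0, 5, 0, 0, 0],
      [0, 1, 0, 0, 0, 0, 0, 0, 0, 0, 0, 0],
      [0, 2, 0, 0, 0, 2, 6, 0, 0, 0, 1, 9],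
      [0, 4, 0, 0, 0, 4, 2, 0, 0, 0, 4, 7],
      [0, 7, 0, 0, 4, 0, 0, 0, 0, 0, 0, 0],
      [0, 7, 0, 0, 0, 0, 0, 1, 0, 7, 0, 0],
      [0, 4, 0, 0, 0, 2, 1, 0, 0, 0, 2, 7],
      [0, 2, 0, 0, 0, 2, 6, 0, 0, 0, 2, 9],
      [0, 1, 0, 0, 0, 0, 0, 0, 0, 1, 0, 0],
      [0, 0, 0, 6, 0, 0, 0, 0, 6, 0, 0, 0],
      [1, 0, 0, 0, 0, 0, 0, 0, 0, 0, 0, 0]]
    [0, 0, 0, 0, 0, 0, 0, 0, 0, 0, 0, 0] (by decide) ?_ ?_ ?_ <;> decide +kernel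

theorem c_11_8_m : Cert 11 8 (-1) 2 := by
  refine cert_of (σ := 10) (by decide) (by decide) 0
    [(3, 0), (0, 0), (0, 1), (0, 2), (0, 3), (0, 4), (0, 6), (2, 2), (2, 3), (1, 0), (1, 1), (1, 2)]
    [[0, 0, 0, 0, 0, 0, 0, 0, 0, 0, 0, 2],
      [1, 0, 0, 0, 0, 0, 0, 0, 0, 0, 0, 1],
      [0, 1, 0, 0, 0, 0, 0, 0, 0, 0, 1, 0],
      [0, 0, 1, 0, 0, 3, 0, 0, 0, 0, 0, 0],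
      [0, 0, 0, 1, 0, 0, 0, 5, 0, 0, 0, 0],
      [0, 0, 0, 0, 1, 0, 0, 0, 9, 0, 0, 0],
      [0, 0, 0, 0, 0, 0, 1, 0, 0, 4, 0, 0],
      [0, 0, 1, 0, 0, 0, 0, 0, 0, 1, 0, 0],
      [0, 0, 0, 1, 0, 0, 0, 0, 1, 0, 0, 0],
      [1, 0, 0, 0, 0, 0, 0, 0, 0, 0, 1, 1],
      [0, 1, 0, 0, 0, 3, 0, 0, 0, 1, 0, 0],
      [0, 0, 1, 0, 3, 0, 0, 5, 0, 0, 0, 0]]
    [[5, 1, 0, 0, 0, 0, 0, 0, 0, 0, 0, 0],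
      [0, 1, 1, 0, 0, 0, 0, 0, 0, 10, 0, 0],
      [0, 6, 6, 6, 0, 0, 0, 6, 0, 5, 5, 0],
      [0, 4, 4, 4, 8, 2, 0, 4, 4, 7, 7, 3],
      [0, 3, 3, 3, 6, 8, 0, 3, 5, 8, 8, 5],
      [0, 9, 9, 2, 0, 0, 0, 9, 0, 2, 2, 0],
      [0, 2, 2, 2, 0, 0, 1, 9, 0, 9, 9, 0],
      [0, 8, 8, 8, 3, 4, 0, 8, 8, 3, 3, 6],
      [0, 7, 7, 7, 3, 9, 0, 7, 8, 4, 4, 8],
      [0, 5, 5, 5, 0, 0, 0, 6, 0, 6, 6, 0],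
      [0, 10, 0, 0, 0, 0, 0, 0, 0, 1, 0, 0],
      [6, 0, 0, 0, 0, 0, 0, 0, 0, 0, 0, 0]]
    [0, 0, 0, 0, 0, 0, 0, 0, 0, 0, 0, 0] (by decide) ?_ ?_ ?_ <;> decide +kernel

end LV7
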