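import Pool.Agent.LibLV7.DDefs

/-!
# [LV7 D2a] a primitive on the cusps of a parabolic homomorphism

PLAN. `f` = a homomorphism on `G1 ℓ`, zero on `σ T σ⁻¹`, `σ lowV ℓ σ⁻¹`, `σ ∈ G0 ℓ` (hence on `σ T^m σ⁻¹`, `σ lowV (ℓ m) σ⁻¹`, `m ∈ ℤ`: `HomOn.pow`,
`HomOn.inv`, or `Nrm_zero`, `T_zpow_mem`, `lowV_mul_mem` of LibKS44.E0).
(1) Representatives: for every `t ≠ 0` in `ZMod ℓ` there is `s_t ∈ G0 ℓ` with `(s_t)_11 = t` modulo `ℓ`, and one can choose them with `s_(-t) = - s_t`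
(choose for `t.val < ℓ/2` freely, `lift_col` of LibKS44.B1 applied to the first column `(t⁻¹, 0)`; `t ≠ -t` as `ℓ` is odd, and set `s_(-t) = - s_t`).
For `σ ∈ G0 ℓ` put `φ σ = f (σ * (s_t)⁻¹)`, `t = σ_11` (`σ * s_t⁻¹ ∈ G1 ℓ`: both are upper triangular modulo `ℓ`, same diagonal, `c5_comm_mem` is similar).
Then `φ (γ σ) = f γ + φ σ` for `γ ∈ G1 ℓ`, `φ (- σ) = φ σ`, `φ (σ T^m) = φ σ` and `φ (σ lowV (ℓ m)) = φ σ` (write
`σ T^m s⁻¹ = (σ s⁻¹) (s T^m s⁻¹)`, same `t`).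
(2) `SL(2, ℤ) = G0 ∪ G0 S ⟨T⟩`: if `ℓ ∤ g_10` there is `k` with `ℓ ∣ g_10 * k' ...`: `g * T^k * S⁻¹` has lower left entry `± (g_10 k + g_11)`: choose `k`
with `g_10 k + g_11 ≡ 0` modulo `ℓ`; so `g = σ * S * T^(-k)` with `σ ∈ G0 ℓ`.
Define `F g = φ g` if `ℓ ∣ g_10`, and `F g = φ σ` for the chosen `σ` if `ℓ ∤ g_10`. Independence: if `σ S T^k = σ' S T^k'` then
`σ' = σ * (S T^(k-k') S⁻¹) = σ * lowV (-(k-k'))` and (both in `G0 ℓ`) `ℓ ∣ k - k'`: `φ σ' = φ σ`. The three properties follow.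
-/

set_option autoImplicit false

open Matrix
open scoped MatrixGroups

namespace LV7

open KS44

theorem D2a_abs {G A : Type} [Group G] [AddCommGroup A] (H K : Subgroup G) {f : G → A}
    (hf : ∀ x ∈ H, ∀ y ∈ H, f (x * y) = f x + f y)
    (h0 : ∀ g : G, ∀ k ∈ K, g * k * g⁻¹ ∈ H → f (g * k * g⁻¹) = 0) :
    ∃ F : G → A, (∀ x ∈ H, ∀ g, F (x * g) = f x + F g) ∧ ∀ g, ∀ k ∈ K, F (g * k) = F g := by
  classical
  let R : Setoid G :=
    { r := fun g g' => ∃ x ∈ H, ∃ k ∈ K, g' = x * g * k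
      iseqv :=
        { refl := fun g => ⟨1, H.one_mem, 1, K.one_mem, by rw [one_mul, mul_one]⟩
          symm := by
            rintro g g' ⟨x, hx, k, hk, rfl⟩
            exact ⟨x⁻¹, H.inv_mem hx, k⁻¹, K.inv_mem hk, by group⟩
          trans := by
            rintro g g' g'' ⟨x, hx, k, hk, rfl⟩ ⟨y, hy, l, hl, rfl⟩
            exact ⟨y * x, H.mul_mem hy hx, k * l, K.mul_mem hk hl, by group⟩ } }
  let r : G → G := fun g => (Quotient.out (Quotient.mk R g) : G)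
  have hr : ∀ g, ∃ x ∈ H, ∃ k ∈ K, g = x * r g * k := fun g => Quotient.mk_out (s := R) g
  have hr' : ∀ g x, x ∈ H → ∀ k, k ∈ K → r (x * g * k) = r g := by
    intro g x hx k hk
    have h1 : Quotient.mk R (x * g * k) = Quotient.mk R g :=
      (Quotient.sound (s := R) (⟨x, hx, k, hk, rfl⟩ : R.r g (x * g * k))).symm
    show (Quotient.out (Quotient.mk R (x * g * k)) : G) = Quotient.out (Quotient.mk R g)
    rw [h1]
  choose X hX k hk hXk using hr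
  have huniq : ∀ {x y l l' ρ : G}, x ∈ H → y ∈ H → l ∈ K → l' ∈ K → x * ρ * l = y * ρ * l' →
      f x = f y := by
    intro x y l l' ρ hx hy hl hl' h
    have h1 : y⁻¹ * x = ρ * (l' * l⁻¹) * ρ⁻¹ := by
      have h2 : x = y * ρ * l' * l⁻¹ * ρ⁻¹ := by
        rw [← h]
        group
      rw [h2]
      group
    have h2 : f (y⁻¹ * x) = 0 := by
      rw [h1]
      apply h0 _ _ (K.mul_mem hl' (K.inv_mem hl))
      rw [← h1]
      exact H.mul_mem (H.inv_mem hy) hx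
    have h3 := hf y hy (y⁻¹ * x) (H.mul_mem (H.inv_mem hy) hx)
    rw [mul_inv_cancel_left, h2, add_zero] at h3
    exact h3
  refine ⟨fun g => f (X g), fun x hx g => ?_, fun g l hl => ?_⟩
  · show f (X (x * g)) = f x + f (X g)
    rw [← hf x hx _ (hX g)]
    have e1 : r (x * g) = r g := by
      have := hr' g x hx 1 K.one_mem
      rwa [mul_one] at this
    have h1 := hXk (x * g)
    rw [e1] at h1
    have h2 : x * g = x * X g * r g * k g := by
      conv_lhs => rw [hXk g]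
      group
    exact huniq (ρ := r g) (hX (x * g)) (H.mul_mem hx (hX g)) (hk (x * g)) (hk g) (h1.symm.trans h2)
  · show f (X (g * l)) = f (X g)
    have e1 : r (g * l) = r g := by
      have := hr' g 1 H.one_mem l hl
      rwa [one_mul] at this
    have h1 := hXk (g * l)
    rw [e1] at h1
    have h2 : g * l = X g * r g * (k g * l) := by
      conv_lhs => rw [hXk g]
      group
    exact huniq (ρ := r g) (hX (g * l)) (hX g) (hk (g * l)) (K.mul_mem (hk g) hl) (h1.symm.trans h2)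

/-- the stabilizer of the cusp `∞` -/
def D2a_K : Subgroup SL(2, ℤ) where
  carrier := {g | ∃ m : ℤ, g = ModularGroup.T ^ m ∨ g = -ModularGroup.T ^ m}
  one_mem' := ⟨0, Or.inl (zpow_zero _).symm⟩
  mul_mem' := by
    rintro a b ⟨m, rfl | rfl⟩ ⟨n, rfl | rfl⟩
    · exact ⟨m + n, Or.inl (_root_.zpow_add _ _ _).symm⟩
    · exact ⟨m + n, Or.inr (by rw [mul_neg, _root_.zpow_add])⟩
    · exact ⟨m + n, Or.inr (by rw [neg_mul, _root_.zpow_add])⟩
    · exact ⟨m + n, Or.inl (by rw [neg_mul_neg, _root_.zpow_add])⟩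
  inv_mem' := by
    rintro a ⟨m, rfl | rfl⟩
    · exact ⟨-m, Or.inl (_root_.zpow_neg _ _).symm⟩
    · refine ⟨-m, Or.inr ?_⟩
      rw [inv_eq_iff_mul_eq_one, neg_mul_neg, _root_.zpow_neg, mul_inv_cancel]

theorem D2a_entries (g : SL(2, ℤ)) (m : ℤ) :
    ((g * ModularGroup.T ^ m * g⁻¹ : SL(2, ℤ)) : Mat) 0 0 =
      1 - m * (g : Mat) 0 0 * (g : Mat) 1 0 ∧
    ((g * ModularGroup.T ^ m * g⁻¹ : SL(2, ℤ)) : Mat) 1 0 = -(m * (g : Mat) 1 0 ^ 2) := by
  have hd : (g : Mat) 0 0 * (g : Mat) 1 1 - (g : Mat) 0 1 * (g : Mat) 1 0 = 1 := by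
    have := Matrix.SpecialLinearGroup.det_coe g
    rwa [Matrix.det_fin_two] at this
  have e : ((g * ModularGroup.T ^ m * g⁻¹ : SL(2, ℤ)) : Mat) =
      (g : Mat) * !![1, m; 0, 1] * (g : Mat).adjugate := by
    rw [Matrix.SpecialLinearGroup.coe_mul, Matrix.SpecialLinearGroup.coe_mul,
      Matrix.SpecialLinearGroup.coe_inv, ModularGroup.coe_T_zpow]
  have e' : ∀ i, ((g : Mat) * !![1, m; 0, 1] * (g : Mat).adjugate) i 0 =
      (g : Mat) i 0 * (g : Mat) 1 1 + ((g : Mat) i 0 * m + (g : Mat) i 1) * (-(g : Mat) 1 0) := by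
    intro i
    rw [Matrix.adjugate_fin_two, Matrix.mul_apply, Fin.sum_univ_two, Matrix.mul_apply,
      Matrix.mul_apply, Fin.sum_univ_two, Fin.sum_univ_two]
    simp
  rw [e, e', e']
  constructor
  · linear_combination hd
  · ring

theorem D2a_zero {ℓ : ℕ} (hl : ℓ.Prime) (hl2 : ℓ ≠ 2) {f : SL(2, ℤ) → ZMod ℓ} (hf : Par ℓ f)
    (g : SL(2, ℤ)) {k : SL(2, ℤ)} (hk : k ∈ D2a_K) (hm : g * k * g⁻¹ ∈ G1 ℓ) :
    f (g * k * g⁻¹) = 0 := by
  have hlp : Prime (ℓ : ℤ) := Nat.prime_iff_prime_int.1 hl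
  obtain ⟨m, rfl | rfl⟩ := hk
  · obtain ⟨e1, e2⟩ := D2a_entries g m
    have h2 : (ℓ : ℤ) ∣ m * (g : Mat) 1 0 ^ 2 := by
      have := hm.2
      rw [e2] at this
      exact (dvd_neg).1 this
    by_cases hc : (ℓ : ℤ) ∣ (g : Mat) 1 0
    · refine Nrm_zero hf.hom hf.par ?_
      have h3 : g * ModularGroup.T ^ m * g⁻¹ = (g * ModularGroup.T * g⁻¹) ^ m :=
        (conj_zpow).symm
      rw [h3]
      exact zpow_mem (show g * ModularGroup.T * g⁻¹ ∈ Nrm ℓ from Subgroup.subset_closure ⟨g, hc, Or.inl rfl⟩) m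
    · have hml : (ℓ : ℤ) ∣ m := (hlp.dvd_or_dvd h2).resolve_right
        fun h => hc (hlp.dvd_of_dvd_pow h)
      obtain ⟨m', hm'⟩ := hml
      obtain ⟨c', hc'⟩ := b1_inv ℓ hl _ hc
      set σ : SL(2, ℤ) := g * ModularGroup.T ^ (-((g : Mat) 1 1 * c')) * ModularGroup.S⁻¹ with hσ
      have hσ0 : σ ∈ G0 ℓ := by
        show (ℓ : ℤ) ∣ (σ : Mat) 1 0
        have e3 : (σ : Mat) 1 0 =
            -((g : Mat) 1 0 * (-((g : Mat) 1 1 * c')) + (g : Mat) 1 1) := by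
          rw [hσ, Matrix.SpecialLinearGroup.coe_mul, Matrix.SpecialLinearGroup.coe_mul,
            Matrix.SpecialLinearGroup.coe_inv, ModularGroup.coe_T_zpow, ModularGroup.coe_S,
            Matrix.adjugate_fin_two, Matrix.mul_apply, Fin.sum_univ_two, Matrix.mul_apply,
            Matrix.mul_apply, Fin.sum_univ_two, Fin.sum_univ_two]
          simp
        rw [e3]
        obtain ⟨q, hq⟩ := hc'
        exact ⟨(g : Mat) 1 1 * q, by linear_combination (g : Mat) 1 1 * hq⟩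
      have hST : ModularGroup.S * ModularGroup.T ^ m * ModularGroup.S⁻¹ = lowV (ℓ * (-m')) := by
        apply Subtype.ext
        rw [Matrix.SpecialLinearGroup.coe_mul, Matrix.SpecialLinearGroup.coe_mul,
          Matrix.SpecialLinearGroup.coe_inv, ModularGroup.coe_T_zpow, ModularGroup.coe_S, hm']
        ext i j
        fin_cases i <;> fin_cases j <;>
          simp [lowV, Matrix.adjugate_fin_two, Matrix.mul_apply, Fin.sum_univ_two]
      have h4 : g * ModularGroup.T ^ m * g⁻¹ = σ * lowV (ℓ * (-m')) * σ⁻¹ := by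
        rw [← hST, hσ]
        group
      rw [h4]
      exact Nrm_zero hf.hom hf.par (Nrm_conj hσ0 (lowV_mul_mem ℓ (-m')))
  · exfalso
    obtain ⟨e1, e2⟩ := D2a_entries g m
    have e3 : g * -ModularGroup.T ^ m * g⁻¹ = -(g * ModularGroup.T ^ m * g⁻¹) := by
      rw [mul_neg, neg_mul]
    have e4 : ∀ i j, ((-(g * ModularGroup.T ^ m * g⁻¹) : SL(2, ℤ)) : Mat) i j =
        -((g * ModularGroup.T ^ m * g⁻¹ : SL(2, ℤ)) : Mat) i j := by
      intro i j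
      rw [Matrix.SpecialLinearGroup.coe_neg, Matrix.neg_apply]
    rw [e3] at hm
    obtain ⟨h1, h2⟩ := hm
    rw [e4, e1] at h1
    rw [e4, e2, neg_neg] at h2
    obtain ⟨q, hq⟩ := h1
    have h5 : ¬ (ℓ : ℤ) ∣ m * (g : Mat) 0 0 * (g : Mat) 1 0 := by
      intro ⟨t, ht⟩
      have h6 : (ℓ : ℤ) ∣ 2 := ⟨t - q, by linear_combination ht - hq⟩
      have h7 : ℓ ∣ 2 := by exact_mod_cast h6
      exact hl2 ((Nat.prime_dvd_prime_iff_eq hl Nat.prime_two).1 h7)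
    rcases hlp.dvd_or_dvd h2 with h | h
    · exact h5 ((h.mul_right _).mul_right _)
    · exact h5 ((hlp.dvd_of_dvd_pow h).mul_left _)

theorem prim_exists {ℓ : ℕ} (hl : ℓ.Prime) (hl2 : ℓ ≠ 2) {f : SL(2, ℤ) → ZMod ℓ} (hf : Par ℓ f) :
    ∃ F : SL(2, ℤ) → ZMod ℓ, (∀ γ ∈ G1 ℓ, ∀ g, F (γ * g) = f γ + F g) ∧ (∀ g, F (g * ModularGroup.T) = F g) ∧
      ∀ g, F (-g) = F g := by
  obtain ⟨F, h1, h2⟩ := D2a_abs (G1 ℓ) D2a_K (f := f) hf.hom
    fun g k hk hm => D2a_zero hl hl2 hf g hk hm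
  refine ⟨F, h1, fun g => h2 g _ ⟨1, Or.inl (zpow_one _).symm⟩, fun g => ?_⟩
  have h3 := h2 g (-1) ⟨0, Or.inr (by rw [zpow_zero])⟩
  rwa [mul_neg, mul_one] at h3

end LV7
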