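import Pool.Agent.LibLV7.D2a

/-!
# [LV7 D2b] the Manin symbol of an eigenfunction

PLAN. Start from `F` of `prim_exists`. Averages, keeping the three properties (P): `F (γ g) = f γ + F g` for `γ ∈ G1 ℓ`, `F (g T) = F g`, `F (- g) = F g`.
(1) `(ZMod ℓ)ˣ` is cyclic; `u` a generator, `σ ∈ G0 ℓ` with `σ_11 = u` modulo `ℓ` (`lift_col` of LibKS44.B1 with first column `(u⁻¹, 0)`). `n = ℓ - 1`.
`F1 g = - ∑ k ∈ range n, u⁻ᵃᵏ F (σ^k g)` (`-1 = 1/n` in `ZMod ℓ`). (P) for `F1`: `F (σ^k γ g) = F ((σ^k γ σ^-k) σ^k g) = f (σ^k γ σ^-k) + F (σ^k g)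
= u^(a k) f γ + F (σ^k g)` (`Eig.dia` for `σ^k`, `(σ^k)_11 = u^k` modulo `ℓ`). And `F1 (σ g) = u^a (F1 g + e)` with a constant `e` (`σ^n ∈ G1 ℓ`:
`F (σ^n g) = f (σ^n) + F g`).
(2) `F2 g = (F1 g + s F1 (cj g)) / 2`. (P): `cj γ ∈ G1 ℓ`, `f (cj γ) = s f γ`, `s² = 1`; `cj (g T) = cj g * T⁻¹`; `cj (- g) = - cj g`. Still
`F2 (σ g) = u^a (F2 g + e')`: `cj (σ g) = cj σ * cj g` and `cj σ = γ' σ` with `γ' ∈ G1 ℓ` (both upper triangular modulo `ℓ`, same diagonal), so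
`F1 (cj (σ g)) = f γ' + F1 (σ cj g) = f γ' + u^a (F1 (cj g) + e)`.
(3) `Ξ g = F2 g - F2 (g S)` satisfies `Ξ (γ g) = Ξ g` for `γ ∈ G1 ℓ`, so it depends only on the bottom row modulo `ℓ` (if `g`, `g'` have the same bottom row
modulo `ℓ` then `g' g⁻¹ ∈ G1 ℓ`): define `ξ c d = Ξ g` for some `g` with bottom row `(c, d)` modulo `ℓ` (it exists if `(c, d) ≠ 0`: `lift_col` and
transpose, or `lift_col` and the inverse), `ξ 0 0 = 0`. `hom` for `t = u`: `Ξ (σ g) = u^a Ξ g` (the constant cancels), bottom row of `σ g` is `u (c, d)`;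
then for all `t = u^k`.
`S`: `Ξ g + Ξ (g S) = F2 g - F2 (g S S) = F2 g - F2 (- g) = 0` (`S * S = - 1`); bottom row of `g S` is `(d, - c)`.
`R`: bottom rows of `g (T S)` and `g (T S)²` are `(c + d, - c)`, `(d, - c - d)`; `Ξ (g T S) = F2 (g T S) - F2 (- g T) = F2 (g T S) - F2 g`;
`Ξ (g T S T S) = F2 (g T S T S) - F2 (- g T S T) = F2 (g S T⁻¹) - F2 (g T S) = F2 (g S) - F2 (g T S)` because `T S T S = S T⁻¹` (check with matrices). Sum `0`.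
`sgn`: `F2 (cj g) = s F2 g` (`s² = 1`, `cj (cj g) = g`), `Ξ (cj g) = F2 (cj g) - F2 (cj g * S) = s Ξ g` since `cj g * S = - cj (g S)`. Bottom row of `cj g`:
`(- c, d)`; and `ξ c (-d) = ξ (-c) d` by `hom` for `t = -1` (`a` even). QED.
-/

set_option autoImplicit false

open Matrix
open scoped MatrixGroups

namespace LV7

open KS44

/-- the bottom right entry modulo `ℓ` -/
def D2b_d (ℓ : ℕ) (g : SL(2, ℤ)) : ZMod ℓ := (((g : Mat) 1 1 : ℤ) : ZMod ℓ)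

/-- the bottom left entry modulo `ℓ` -/
def D2b_c (ℓ : ℕ) (g : SL(2, ℤ)) : ZMod ℓ := (((g : Mat) 1 0 : ℤ) : ZMod ℓ)

theorem D2b_det (g : SL(2, ℤ)) : (g : Mat) 0 0 * (g : Mat) 1 1 - (g : Mat) 0 1 * (g : Mat) 1 0 = 1 := by
  have := Matrix.SpecialLinearGroup.det_coe g
  rwa [Matrix.det_fin_two] at this

theorem D2b_mem0 {ℓ : ℕ} {g : SL(2, ℤ)} : g ∈ G0 ℓ ↔ D2b_c ℓ g = 0 :=
  (ZMod.intCast_zmod_eq_zero_iff_dvd _ ℓ).symm

theorem D2b_det' {ℓ : ℕ} {g : SL(2, ℤ)} (hg : g ∈ G0 ℓ) : (((g : Mat) 0 0 : ℤ) : ZMod ℓ) * D2b_d ℓ g = 1 := by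
  have h1 := congrArg (fun z : ℤ => (z : ZMod ℓ)) (D2b_det g)
  have h2 : (((g : Mat) 1 0 : ℤ) : ZMod ℓ) = 0 := D2b_mem0.1 hg
  simp only [Int.cast_sub, Int.cast_mul, Int.cast_one, h2, mul_zero, sub_zero] at h1
  exact h1

theorem D2b_mem1 {ℓ : ℕ} {g : SL(2, ℤ)} : g ∈ G1 ℓ ↔ g ∈ G0 ℓ ∧ D2b_d ℓ g = 1 := by
  constructor
  · intro hg
    have h0 : g ∈ G0 ℓ := hg.2
    refine ⟨h0, ?_⟩
    have h1 : (((g : Mat) 0 0 - 1 : ℤ) : ZMod ℓ) = 0 := (ZMod.intCast_zmod_eq_zero_iff_dvd _ ℓ).2 hg.1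
    have h2 := D2b_det' h0
    rw [Int.cast_sub, Int.cast_one, sub_eq_zero] at h1
    rwa [h1, one_mul] at h2
  · rintro ⟨h0, h1⟩
    have h2 := D2b_det' h0
    rw [h1, mul_one] at h2
    refine ⟨(ZMod.intCast_zmod_eq_zero_iff_dvd _ ℓ).1 ?_, h0⟩
    rw [Int.cast_sub, Int.cast_one, h2, sub_self]

theorem D2b_mul_c {ℓ : ℕ} (g h : SL(2, ℤ)) : D2b_c ℓ (g * h) =
    D2b_c ℓ g * (((h : Mat) 0 0 : ℤ) : ZMod ℓ) + D2b_d ℓ g * D2b_c ℓ h := by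
  unfold D2b_c D2b_d
  rw [Matrix.SpecialLinearGroup.coe_mul, Matrix.mul_apply, Fin.sum_univ_two]
  push_cast
  rfl

theorem D2b_mul_d {ℓ : ℕ} (g h : SL(2, ℤ)) : D2b_d ℓ (g * h) =
    D2b_c ℓ g * (((h : Mat) 0 1 : ℤ) : ZMod ℓ) + D2b_d ℓ g * D2b_d ℓ h := by
  unfold D2b_c D2b_d
  rw [Matrix.SpecialLinearGroup.coe_mul, Matrix.mul_apply, Fin.sum_univ_two]
  push_cast
  rfl

theorem D2b_d_mul {ℓ : ℕ} {g : SL(2, ℤ)} (hg : g ∈ G0 ℓ) (h : SL(2, ℤ)) : D2b_d ℓ (g * h) = D2b_d ℓ g * D2b_d ℓ h := by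
  rw [D2b_mul_d, D2b_mem0.1 hg, zero_mul, zero_add]

theorem D2b_quot {ℓ : ℕ} {g g' : SL(2, ℤ)} {t : ZMod ℓ} (h1 : D2b_c ℓ g' = t * D2b_c ℓ g)
    (h2 : D2b_d ℓ g' = t * D2b_d ℓ g) : g' * g⁻¹ ∈ G0 ℓ ∧ D2b_d ℓ (g' * g⁻¹) = t := by
  have e00 : ((g⁻¹ : SL(2, ℤ)) : Mat) 0 0 = (g : Mat) 1 1 := by
    rw [Matrix.SpecialLinearGroup.coe_inv, Matrix.adjugate_fin_two]
    rfl
  have e01 : ((g⁻¹ : SL(2, ℤ)) : Mat) 0 1 = -(g : Mat) 0 1 := by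
    rw [Matrix.SpecialLinearGroup.coe_inv, Matrix.adjugate_fin_two]
    rfl
  have e10 : D2b_c ℓ g⁻¹ = -D2b_c ℓ g := by
    unfold D2b_c
    rw [Matrix.SpecialLinearGroup.coe_inv, Matrix.adjugate_fin_two]
    exact Int.cast_neg _
  have e11 : D2b_d ℓ g⁻¹ = (((g : Mat) 0 0 : ℤ) : ZMod ℓ) := by
    unfold D2b_d
    rw [Matrix.SpecialLinearGroup.coe_inv, Matrix.adjugate_fin_two]
    rfl
  constructor
  · rw [D2b_mem0, D2b_mul_c, h1, h2, e00, e10]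
    show t * D2b_c ℓ g * D2b_d ℓ g + t * D2b_d ℓ g * -D2b_c ℓ g = 0
    ring
  · have h3 := congrArg (fun z : ℤ => (z : ZMod ℓ)) (D2b_det g)
    simp only [Int.cast_sub, Int.cast_mul, Int.cast_one] at h3
    rw [D2b_mul_d, h1, h2, e01, e11, Int.cast_neg]
    unfold D2b_c D2b_d
    linear_combination t * h3

theorem D2b_lift {ℓ : ℕ} (hl : ℓ.Prime) (c d : ZMod ℓ) (h : c ≠ 0 ∨ d ≠ 0) :
    ∃ g : SL(2, ℤ), D2b_c ℓ g = c ∧ D2b_d ℓ g = d := by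
  obtain ⟨c, rfl⟩ := ZMod.intCast_surjective c
  obtain ⟨d, rfl⟩ := ZMod.intCast_surjective d
  have h' : ¬ ((ℓ : ℤ) ∣ d ∧ (ℓ : ℤ) ∣ -c) := by
    rintro ⟨h1, h2⟩
    rcases h with h | h
    · exact h ((ZMod.intCast_zmod_eq_zero_iff_dvd _ ℓ).2 ((dvd_neg).1 h2))
    · exact h ((ZMod.intCast_zmod_eq_zero_iff_dvd _ ℓ).2 h1)
  obtain ⟨g, h1, h2⟩ := lift_col ℓ hl d (-c) h'
  refine ⟨g⁻¹, ?_, ?_⟩
  · unfold D2b_c
    rw [Matrix.SpecialLinearGroup.coe_inv, Matrix.adjugate_fin_two]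
    show ((-(g : Mat) 1 0 : ℤ) : ZMod ℓ) = c
    have h3 := (ZMod.intCast_zmod_eq_zero_iff_dvd _ ℓ).2 h2
    push_cast at h3 ⊢
    linear_combination -h3
  · unfold D2b_d
    rw [Matrix.SpecialLinearGroup.coe_inv, Matrix.adjugate_fin_two]
    show (((g : Mat) 0 0 : ℤ) : ZMod ℓ) = d
    have h3 := (ZMod.intCast_zmod_eq_zero_iff_dvd _ ℓ).2 h1
    push_cast at h3 ⊢
    linear_combination h3

/-- a primitive on the cusps with diamond equivariance up to constants -/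
structure D2b_P (ℓ a : ℕ) (f F : SL(2, ℤ) → ZMod ℓ) : Prop where
  hom : ∀ γ ∈ G1 ℓ, ∀ g, F (γ * g) = f γ + F g
  T : ∀ g, F (g * ModularGroup.T) = F g
  neg : ∀ g, F (-g) = F g
  dia : ∀ ρ ∈ G0 ℓ, ∃ C, ∀ g, F (ρ * g) = D2b_d ℓ ρ ^ a * F g + C

theorem D2b_step1 {ℓ : ℕ} (hl : ℓ.Prime) {a : ℕ} {f F : SL(2, ℤ) → ZMod ℓ}
    (hd : ∀ σ ∈ G0 ℓ, ∀ γ ∈ G1 ℓ, f (σ * γ * σ⁻¹) = D2b_d ℓ σ ^ a * f γ)
    (h1 : ∀ γ ∈ G1 ℓ, ∀ g, F (γ * g) = f γ + F g) (h2 : ∀ g, F (g * ModularGroup.T) = F g)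
    (h3 : ∀ g, F (-g) = F g) : ∃ F1, D2b_P ℓ a f F1 := by
  haveI : Fact ℓ.Prime := ⟨hl⟩
  have hσ : ∀ t : (ZMod ℓ)ˣ, ∃ g : SL(2, ℤ), g ∈ G0 ℓ ∧ D2b_d ℓ g = t := by
    intro t
    obtain ⟨g, hc, hd⟩ := D2b_lift hl 0 (t : ZMod ℓ) (Or.inr t.ne_zero)
    exact ⟨g, D2b_mem0.2 hc, hd⟩
  choose σ hσ0 hσd using hσ
  refine ⟨fun g => -∑ t : (ZMod ℓ)ˣ, ((t⁻¹ : (ZMod ℓ)ˣ) : ZMod ℓ) ^ a * F (σ t * g), ?_, ?_, ?_, ?_⟩
  · intro γ hγ g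
    have e1 : ∀ t : (ZMod ℓ)ˣ, ((t⁻¹ : (ZMod ℓ)ˣ) : ZMod ℓ) ^ a * F (σ t * (γ * g)) =
        f γ + ((t⁻¹ : (ZMod ℓ)ˣ) : ZMod ℓ) ^ a * F (σ t * g) := by
      intro t
      have e2 : σ t * (γ * g) = (σ t * γ * (σ t)⁻¹) * (σ t * g) := by group
      rw [e2, h1 _ (e0_conj (hσ0 t) hγ), hd _ (hσ0 t) _ hγ, hσd, mul_add, ← mul_assoc, ← mul_pow,
        ← Units.val_mul, inv_mul_cancel, Units.val_one, one_pow, one_mul]
    show -∑ t : (ZMod ℓ)ˣ, _ = _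
    rw [Finset.sum_congr rfl fun t _ => e1 t, Finset.sum_add_distrib, Finset.sum_const, Finset.card_univ,
      ZMod.card_units, nsmul_eq_mul, neg_add, Nat.cast_sub hl.one_lt.le, ZMod.natCast_self]
    push_cast
    ring
  · intro g
    show -∑ t : (ZMod ℓ)ˣ, _ = -∑ t : (ZMod ℓ)ˣ, _
    congr 1
    refine Finset.sum_congr rfl fun t _ => ?_
    rw [← mul_assoc (σ t), h2]
  · intro g
    show -∑ t : (ZMod ℓ)ˣ, _ = -∑ t : (ZMod ℓ)ˣ, _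
    congr 1
    refine Finset.sum_congr rfl fun t _ => ?_
    rw [mul_neg, h3]
  · intro ρ hρ
    have hu : IsUnit (D2b_d ℓ ρ) := IsUnit.of_mul_eq_one _ ((mul_comm _ _).trans (D2b_det' hρ))
    obtain ⟨u, hu⟩ := hu
    have hmem : ∀ t : (ZMod ℓ)ˣ, σ t * ρ * (σ (t * u))⁻¹ ∈ G1 ℓ := by
      intro t
      have h5 : σ t * ρ ∈ G0 ℓ := mul_mem (hσ0 t) hρ
      have h6 := D2b_quot (ℓ := ℓ) (g := σ (t * u)) (g' := σ t * ρ) (t := 1)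
        (by rw [D2b_mem0.1 h5, D2b_mem0.1 (hσ0 _), mul_zero])
        (by rw [D2b_d_mul (hσ0 t), hσd, hσd, one_mul, Units.val_mul, hu])
      exact D2b_mem1.2 h6
    refine ⟨-∑ t : (ZMod ℓ)ˣ, ((t⁻¹ : (ZMod ℓ)ˣ) : ZMod ℓ) ^ a * f (σ t * ρ * (σ (t * u))⁻¹), fun g => ?_⟩
    have e1 : ∀ t : (ZMod ℓ)ˣ, ((t⁻¹ : (ZMod ℓ)ˣ) : ZMod ℓ) ^ a * F (σ t * (ρ * g)) =
        ((t⁻¹ : (ZMod ℓ)ˣ) : ZMod ℓ) ^ a * f (σ t * ρ * (σ (t * u))⁻¹) +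
        (u : ZMod ℓ) ^ a * ((((t * u)⁻¹ : (ZMod ℓ)ˣ) : ZMod ℓ) ^ a * F (σ (t * u) * g)) := by
      intro t
      have e2 : σ t * (ρ * g) = (σ t * ρ * (σ (t * u))⁻¹) * (σ (t * u) * g) := by group
      have e3 : (t⁻¹ : (ZMod ℓ)ˣ) = u * (t * u)⁻¹ := by group
      rw [e2, h1 _ (hmem t), mul_add]
      congr 1
      rw [← mul_assoc, ← mul_pow, ← Units.val_mul, ← e3]
    show -∑ t : (ZMod ℓ)ˣ, _ = D2b_d ℓ ρ ^ a * (-∑ t : (ZMod ℓ)ˣ, _) + _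
    have hsum : ∑ t : (ZMod ℓ)ˣ, (((t * u)⁻¹ : (ZMod ℓ)ˣ) : ZMod ℓ) ^ a * F (σ (t * u) * g) =
        ∑ t : (ZMod ℓ)ˣ, ((t⁻¹ : (ZMod ℓ)ˣ) : ZMod ℓ) ^ a * F (σ t * g) :=
      Equiv.sum_comp (Equiv.mulRight u)
        (fun t : (ZMod ℓ)ˣ => ((t⁻¹ : (ZMod ℓ)ˣ) : ZMod ℓ) ^ a * F (σ t * g))
    rw [Finset.sum_congr rfl fun t _ => e1 t, Finset.sum_add_distrib, ← Finset.mul_sum, hsum, hu]
    ring

theorem D2b_cj_neg (g : SL(2, ℤ)) : cj (-g) = -cj g := by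
  apply Subtype.ext
  ext i j
  fin_cases i <;> fin_cases j <;> simp [cj]

theorem D2b_cj_cj (g : SL(2, ℤ)) : cj (cj g) = g := by
  apply Subtype.ext
  ext i j
  fin_cases i <;> fin_cases j <;> simp [cj]

theorem D2b_cj_T : cj ModularGroup.T = ModularGroup.T⁻¹ := by
  apply Subtype.ext
  ext i j
  fin_cases i <;> fin_cases j <;> simp [cj, ModularGroup.T, Matrix.adjugate_fin_two]

theorem D2b_cj_S : cj ModularGroup.S = -ModularGroup.S := by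
  apply Subtype.ext
  ext i j
  fin_cases i <;> fin_cases j <;> simp [cj, ModularGroup.S]

theorem D2b_cj_c (ℓ : ℕ) (g : SL(2, ℤ)) : D2b_c ℓ (cj g) = -D2b_c ℓ g := by
  show ((-(g : Mat) 1 0 : ℤ) : ZMod ℓ) = _
  rw [Int.cast_neg]
  rfl

theorem D2b_cj_d (ℓ : ℕ) (g : SL(2, ℤ)) : D2b_d ℓ (cj g) = D2b_d ℓ g := rfl

theorem D2b_step2 {ℓ : ℕ} (hl : ℓ.Prime) (hl2 : ℓ ≠ 2) {a : ℕ} {s : ZMod ℓ} (hs : s = 1 ∨ s = -1)
    {f F : SL(2, ℤ) → ZMod ℓ} (hc : ∀ γ ∈ G1 ℓ, f (cj γ) = s * f γ) (hF : D2b_P ℓ a f F) :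
    ∃ F2, D2b_P ℓ a f F2 ∧ ∀ g, F2 (cj g) = s * F2 g := by
  haveI : Fact ℓ.Prime := ⟨hl⟩
  have h2 : (2 : ZMod ℓ) ≠ 0 := by
    intro h
    have h' : ((2 : ℕ) : ZMod ℓ) = 0 := by exact_mod_cast h
    rw [ZMod.natCast_eq_zero_iff] at h'
    exact hl2 ((Nat.prime_dvd_prime_iff_eq hl Nat.prime_two).1 h')
  have hss : s * s = 1 := by
    rcases hs with rfl | rfl
    · ring
    · ring
  have hcj0 : ∀ {g : SL(2, ℤ)}, g ∈ G0 ℓ → cj g ∈ G0 ℓ := by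
    intro g hg
    rw [D2b_mem0, D2b_cj_c, D2b_mem0.1 hg, neg_zero]
  have hcj1 : ∀ {g : SL(2, ℤ)}, g ∈ G1 ℓ → cj g ∈ G1 ℓ := by
    intro g hg
    rw [D2b_mem1] at hg ⊢
    exact ⟨hcj0 hg.1, hg.2⟩
  have hT' : ∀ g, F (g * ModularGroup.T⁻¹) = F g := by
    intro g
    have h5 := hF.T (g * ModularGroup.T⁻¹)
    rw [inv_mul_cancel_right] at h5
    exact h5.symm
  refine ⟨fun g => 2⁻¹ * (F g + s * F (cj g)), ⟨?_, ?_, ?_, ?_⟩, ?_⟩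
  · intro γ hγ g
    show 2⁻¹ * (F (γ * g) + s * F (cj (γ * g))) = f γ + 2⁻¹ * (F g + s * F (cj g))
    rw [map_mul, hF.hom _ hγ, hF.hom _ (hcj1 hγ), hc _ hγ]
    have h5 : (2 : ZMod ℓ)⁻¹ * 2 = 1 := inv_mul_cancel₀ h2
    linear_combination f γ * h5 + 2⁻¹ * f γ * hss
  · intro g
    show 2⁻¹ * (F (g * ModularGroup.T) + s * F (cj (g * ModularGroup.T))) = 2⁻¹ * (F g + s * F (cj g))
    rw [map_mul, D2b_cj_T, hT', hF.T]
  · intro g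
    show 2⁻¹ * (F (-g) + s * F (cj (-g))) = 2⁻¹ * (F g + s * F (cj g))
    rw [D2b_cj_neg, hF.neg, hF.neg]
  · intro ρ hρ
    obtain ⟨C, hC⟩ := hF.dia ρ hρ
    obtain ⟨C', hC'⟩ := hF.dia (cj ρ) (hcj0 hρ)
    refine ⟨2⁻¹ * (C + s * C'), fun g => ?_⟩
    show 2⁻¹ * (F (ρ * g) + s * F (cj (ρ * g))) = _ * (2⁻¹ * (F g + s * F (cj g))) + _
    rw [map_mul, hC, hC', D2b_cj_d]
    ring
  · intro g
    show 2⁻¹ * (F (cj g) + s * F (cj (cj g))) = s * (2⁻¹ * (F g + s * F (cj g)))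
    rw [D2b_cj_cj]
    linear_combination -(2⁻¹ * F (cj g)) * hss

theorem D2b_step3 {ℓ : ℕ} (hl : ℓ.Prime) {a : ℕ} (ha : Even a) {s : ZMod ℓ}
    {f F : SL(2, ℤ) → ZMod ℓ} (hF : D2b_P ℓ a f F) (hs : ∀ g, F (cj g) = s * F g) :
    ∃ ξ, MS ℓ a s ξ ∧ SymOf ℓ f ξ := by
  classical
  haveI : Fact ℓ.Prime := ⟨hl⟩
  let Ξ : SL(2, ℤ) → ZMod ℓ := fun g => F g - F (g * ModularGroup.S)
  have hΞ : ∀ g g' : SL(2, ℤ), ∀ t : ZMod ℓ, D2b_c ℓ g' = t * D2b_c ℓ g → D2b_d ℓ g' = t * D2b_d ℓ g →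
      Ξ g' = t ^ a * Ξ g := by
    intro g g' t h1 h2
    obtain ⟨h3, h4⟩ := D2b_quot h1 h2
    obtain ⟨C, hC⟩ := hF.dia _ h3
    have h5 := hC g
    have h6 := hC (g * ModularGroup.S)
    rw [inv_mul_cancel_right] at h5
    rw [← mul_assoc, inv_mul_cancel_right] at h6
    show F g' - F (g' * ModularGroup.S) = t ^ a * (F g - F (g * ModularGroup.S))
    rw [h5, h6, h4]
    ring
  let ξ : ZMod ℓ → ZMod ℓ → ZMod ℓ := fun c d =>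
    if h : ∃ g : SL(2, ℤ), D2b_c ℓ g = c ∧ D2b_d ℓ g = d then Ξ h.choose else 0
  have hξ : ∀ g, ξ (D2b_c ℓ g) (D2b_d ℓ g) = Ξ g := by
    intro g
    have h : ∃ g' : SL(2, ℤ), D2b_c ℓ g' = D2b_c ℓ g ∧ D2b_d ℓ g' = D2b_d ℓ g := ⟨g, rfl, rfl⟩
    have e : ξ (D2b_c ℓ g) (D2b_d ℓ g) = Ξ h.choose := dif_pos h
    rw [e, hΞ g h.choose 1 (by rw [one_mul]; exact h.choose_spec.1) (by rw [one_mul]; exact h.choose_spec.2),
      one_pow, one_mul]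
  have hξ0 : ξ 0 0 = 0 := by
    refine dif_neg ?_
    rintro ⟨g, h1, h2⟩
    have h3 := congrArg (fun z : ℤ => (z : ZMod ℓ)) (D2b_det g)
    simp only [Int.cast_sub, Int.cast_mul, Int.cast_one] at h3
    have h1' : (((g : Mat) 1 0 : ℤ) : ZMod ℓ) = 0 := h1
    have h2' : (((g : Mat) 1 1 : ℤ) : ZMod ℓ) = 0 := h2
    rw [h1', h2', mul_zero, mul_zero, sub_zero] at h3
    exact zero_ne_one h3
  have hhom : ∀ t c d, t ≠ 0 → ξ (t * c) (t * d) = t ^ a * ξ c d := by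
    intro t c d ht
    by_cases h : c ≠ 0 ∨ d ≠ 0
    · obtain ⟨g, rfl, rfl⟩ := D2b_lift hl c d h
      obtain ⟨g', h1, h2⟩ := D2b_lift hl (t * D2b_c ℓ g) (t * D2b_d ℓ g)
        (h.imp (mul_ne_zero ht) (mul_ne_zero ht))
      rw [← h1, ← h2, hξ, hξ]
      exact hΞ g g' t h1 h2
    · push Not at h
      rw [h.1, h.2, mul_zero, hξ0, mul_zero]
  have hS : ∀ g : SL(2, ℤ), D2b_c ℓ (g * ModularGroup.S) = D2b_d ℓ g ∧
      D2b_d ℓ (g * ModularGroup.S) = -D2b_c ℓ g := by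
    intro g
    have e : ((ModularGroup.S : SL(2, ℤ)) : Mat) = !![0, -1; 1, 0] := ModularGroup.coe_S
    constructor
    · rw [D2b_mul_c]
      unfold D2b_c D2b_d
      rw [e]
      simp
    · rw [D2b_mul_d]
      unfold D2b_c D2b_d
      rw [e]
      simp
  have hT : ∀ g : SL(2, ℤ), D2b_c ℓ (g * ModularGroup.T) = D2b_c ℓ g ∧
      D2b_d ℓ (g * ModularGroup.T) = D2b_c ℓ g + D2b_d ℓ g := by
    intro g
    have e : ((ModularGroup.T : SL(2, ℤ)) : Mat) = !![1, 1; 0, 1] := ModularGroup.coe_T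
    constructor
    · rw [D2b_mul_c]
      unfold D2b_c D2b_d
      rw [e]
      simp
    · rw [D2b_mul_d]
      unfold D2b_c D2b_d
      rw [e]
      simp
  have hSS : ModularGroup.S * ModularGroup.S = -1 := by
    apply Subtype.ext
    ext i j
    fin_cases i <;> fin_cases j <;> simp [ModularGroup.S, Matrix.mul_apply, Fin.sum_univ_two]
  have hTSTS : ModularGroup.T * ModularGroup.S * ModularGroup.T * ModularGroup.S =
      ModularGroup.S * ModularGroup.T⁻¹ := by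
    apply Subtype.ext
    ext i j
    fin_cases i <;> fin_cases j <;>
      simp [ModularGroup.S, ModularGroup.T, Matrix.mul_apply, Fin.sum_univ_two, Matrix.adjugate_fin_two]
  have hT' : ∀ g, F (g * ModularGroup.T⁻¹) = F g := by
    intro g
    have h5 := hF.T (g * ModularGroup.T⁻¹)
    rw [inv_mul_cancel_right] at h5
    exact h5.symm
  have hFSS : ∀ g, F (g * ModularGroup.S * ModularGroup.S) = F g := by
    intro g
    rw [mul_assoc, hSS, mul_neg, mul_one, hF.neg]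
  refine ⟨ξ, ⟨hhom, ?_, ?_, ?_⟩, F, hF.hom, hF.T, hF.neg, hξ⟩
  · intro c d h
    obtain ⟨g, rfl, rfl⟩ := D2b_lift hl c d h
    have e1 := hξ (g * ModularGroup.S)
    rw [(hS g).1, (hS g).2] at e1
    rw [hξ, e1]
    show F g - F (g * ModularGroup.S) + (F (g * ModularGroup.S) - F (g * ModularGroup.S * ModularGroup.S)) = 0
    rw [hFSS]
    ring
  · intro c d h
    obtain ⟨g, rfl, rfl⟩ := D2b_lift hl c d h
    have c1 : D2b_c ℓ (g * ModularGroup.T * ModularGroup.S) = D2b_c ℓ g + D2b_d ℓ g := by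
      rw [(hS _).1, (hT _).2]
    have d1 : D2b_d ℓ (g * ModularGroup.T * ModularGroup.S) = -D2b_c ℓ g := by
      rw [(hS _).2, (hT _).1]
    have c2 : D2b_c ℓ (g * ModularGroup.T * ModularGroup.S * ModularGroup.T * ModularGroup.S) =
        D2b_d ℓ g := by
      rw [(hS _).1, (hT _).2, c1, d1]
      ring
    have d2 : D2b_d ℓ (g * ModularGroup.T * ModularGroup.S * ModularGroup.T * ModularGroup.S) =
        -D2b_c ℓ g - D2b_d ℓ g := by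
      rw [(hS _).2, (hT _).1, c1]
      ring
    have e1 := hξ (g * ModularGroup.T * ModularGroup.S)
    have e2 := hξ (g * ModularGroup.T * ModularGroup.S * ModularGroup.T * ModularGroup.S)
    rw [c1, d1] at e1
    rw [c2, d2] at e2
    rw [hξ, e1, e2]
    show F g - F (g * ModularGroup.S) +
      (F (g * ModularGroup.T * ModularGroup.S) -
        F (g * ModularGroup.T * ModularGroup.S * ModularGroup.S)) +
      (F (g * ModularGroup.T * ModularGroup.S * ModularGroup.T * ModularGroup.S) -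
        F (g * ModularGroup.T * ModularGroup.S * ModularGroup.T * ModularGroup.S *
          ModularGroup.S)) = 0
    have e3 : g * ModularGroup.T * ModularGroup.S * ModularGroup.T * ModularGroup.S =
        g * ModularGroup.S * ModularGroup.T⁻¹ := by
      rw [mul_assoc g, mul_assoc g, mul_assoc g, hTSTS, ← mul_assoc]
    rw [hFSS, hFSS, e3, hT', hF.T, hF.T]
    ring
  · intro c d h
    obtain ⟨g, rfl, rfl⟩ := D2b_lift hl c d h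
    have e1 := hξ (cj g)
    rw [D2b_cj_c, D2b_cj_d] at e1
    have e2 := hhom (-1) (-D2b_c ℓ g) (D2b_d ℓ g) (neg_ne_zero.2 one_ne_zero)
    rw [neg_one_mul, neg_one_mul, neg_neg, ha.neg_one_pow, one_mul, e1] at e2
    rw [e2, hξ]
    show F (cj g) - F (cj g * ModularGroup.S) = s * (F g - F (g * ModularGroup.S))
    have e3 : cj g * ModularGroup.S = -cj (g * ModularGroup.S) := by
      rw [map_mul, D2b_cj_S, mul_neg, neg_neg]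
    rw [e3, hF.neg, hs, hs]
    ring

theorem sym_exists {ℓ : ℕ} (hl : ℓ.Prime) (hl2 : ℓ ≠ 2) {a : ℕ} (ha : Even a) {s : ZMod ℓ} (hs : s = 1 ∨ s = -1)
    {f : SL(2, ℤ) → ZMod ℓ} (hf : Par ℓ f) (he : Eig ℓ a s f) : ∃ ξ, MS ℓ a s ξ ∧ SymOf ℓ f ξ := by
  obtain ⟨F, h1, h2, h3⟩ := prim_exists hl hl2 hf
  obtain ⟨F1, hF1⟩ := D2b_step1 hl (a := a) he.dia h1 h2 h3
  obtain ⟨F2, hF2, h4⟩ := D2b_step2 hl hl2 hs he.inv hF1
  exact D2b_step3 hl ha hF2 h4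

end LV7
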