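import Pool.Agent.LibLV7.DDefs

/-!
# [LV7 D2c] the Manin symbol determines the homomorphism

PLAN. `F`, `F'` from `h`, `h'`, `k0`, `k1` from `ht`. `W g = c F g + c' F' g - kap ℓ a k0 k1 (g_10) (g_11)`. `W (g T) = W g`: bottom row of `g T` is
`(g_10, g_10 + g_11)`, `kap` depends on the second entry only when the first is `0`. `W (g S) = W g`: bottom row of `g S` is `(g_11, - g_10)`,
`ht` at `(g_10, g_11)` (not both `0` modulo `ℓ`: determinant `1`). So `W g = W 1` for all `g` (`S`, `T` generate: `g0_gen` of LibKS44.G0, applied to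
`P h := ∀ g, W (g h) = W g`). For `γ ∈ G1 ℓ`: `γ = γ * 1`: `W γ = c f γ + c' f' γ + W 1` because the bottom row of `γ` is `(0, 1)` modulo `ℓ`. QED.
-/

set_option autoImplicit false

open Matrix
open scoped MatrixGroups

namespace LV7

open KS44

private theorem D2c_gen (P : SL(2, ℤ) → Prop) (hS : P ModularGroup.S) (hT : P ModularGroup.T) (h1 : P 1)
    (hmul : ∀ g h, P g → P h → P (g * h)) (hinv : ∀ g, P g → P g⁻¹) : ∀ g, P g := by
  intro g
  have hg : g ∈ Subgroup.closure ({ModularGroup.S, ModularGroup.T} : Set SL(2, ℤ)) := by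
    rw [SpecialLinearGroup.SL2Z_generators]
    exact Subgroup.mem_top g
  induction hg using Subgroup.closure_induction with
  | mem x hx =>
    rcases hx with rfl | hx
    · exact hS
    · rw [Set.mem_singleton_iff.1 hx]
      exact hT
  | one => exact h1
  | mul x y _ _ hx hy => exact hmul x y hx hy
  | inv x _ hx => exact hinv x hx

private theorem D2c_S (g : SL(2, ℤ)) : ((g * ModularGroup.S : SL(2, ℤ)) : Mat) 1 0 = (g : Mat) 1 1 ∧
    ((g * ModularGroup.S : SL(2, ℤ)) : Mat) 1 1 = - (g : Mat) 1 0 := by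
  constructor <;>
  simp [ModularGroup.S, Matrix.SpecialLinearGroup.coe_mul, Matrix.mul_apply, Fin.sum_univ_two]

private theorem D2c_T (g : SL(2, ℤ)) : ((g * ModularGroup.T : SL(2, ℤ)) : Mat) 1 0 = (g : Mat) 1 0 ∧
    ((g * ModularGroup.T : SL(2, ℤ)) : Mat) 1 1 = (g : Mat) 1 0 + (g : Mat) 1 1 := by
  constructor <;>
  simp [ModularGroup.T, Matrix.SpecialLinearGroup.coe_mul, Matrix.mul_apply, Fin.sum_univ_two]

private theorem D2c_det (g : SL(2, ℤ)) : (g : Mat) 0 0 * (g : Mat) 1 1 - (g : Mat) 0 1 * (g : Mat) 1 0 = 1 := by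
  have h := Matrix.SpecialLinearGroup.det_coe g
  rwa [Matrix.det_fin_two] at h

theorem sym_zero {ℓ : ℕ} (hl : ℓ.Prime) {a : ℕ} {f f' : SL(2, ℤ) → ZMod ℓ} {ξ ξ' : ZMod ℓ → ZMod ℓ → ZMod ℓ}
    (h : SymOf ℓ f ξ) (h' : SymOf ℓ f' ξ') (c c' : ZMod ℓ) (ht : Triv ℓ a (fun x y => c * ξ x y + c' * ξ' x y)) :
    ∀ γ ∈ G1 ℓ, c * f γ + c' * f' γ = 0 := by
  haveI := Fact.mk hl
  obtain ⟨F, hF, hFT, -, hFS⟩ := h
  obtain ⟨F', hF', hFT', -, hFS'⟩ := h'
  obtain ⟨k0, k1, hk⟩ := ht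
  obtain ⟨W, hW⟩ : ∃ W : SL(2, ℤ) → ZMod ℓ, ∀ g, W g = c * F g + c' * F' g -
      kap ℓ a k0 k1 ((((g : Mat) 1 0 : ℤ)) : ZMod ℓ) ((((g : Mat) 1 1 : ℤ)) : ZMod ℓ) := ⟨_, fun _ => rfl⟩
  have hne : ∀ g : SL(2, ℤ), ((((g : Mat) 1 0 : ℤ)) : ZMod ℓ) ≠ 0 ∨ ((((g : Mat) 1 1 : ℤ)) : ZMod ℓ) ≠ 0 := by
    intro g
    by_contra hcon
    push Not at hcon
    have h1 := congrArg (fun z : ℤ => (z : ZMod ℓ)) (D2c_det g)
    simp only [Int.cast_sub, Int.cast_mul, hcon.1, hcon.2, mul_zero, sub_zero, Int.cast_one] at h1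
    exact zero_ne_one h1
  have hS : ∀ g, W (g * ModularGroup.S) = W g := by
    intro g
    obtain ⟨e1, e2⟩ := D2c_S g
    have h1 := hk _ _ (hne g)
    simp only at h1
    rw [hFS g, hFS' g] at h1
    rw [hW, hW, e1, e2, Int.cast_neg]
    linear_combination -h1
  have hT : ∀ g, W (g * ModularGroup.T) = W g := by
    intro g
    obtain ⟨e1, e2⟩ := D2c_T g
    rw [hW, hW, e1, e2, hFT, hFT', Int.cast_add]
    congr 1
    unfold kap
    by_cases h0 : ((((g : Mat) 1 0 : ℤ)) : ZMod ℓ) = 0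
    · rw [if_pos h0, if_pos h0, h0, zero_add]
    · rw [if_neg h0, if_neg h0]
  have hall : ∀ x g, W (g * x) = W g := by
    refine D2c_gen (fun x => ∀ g, W (g * x) = W g) hS hT ?_ ?_ ?_
    · intro g
      rw [mul_one]
    · intro x y hx hy g
      rw [← mul_assoc, hy, hx]
    · intro x hx g
      have h1 := hx (g * x⁻¹)
      rw [mul_assoc, inv_mul_cancel, mul_one] at h1
      exact h1.symm
  intro γ hγ
  have h1 : W γ = W 1 := by
    have := hall γ 1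
    rwa [one_mul] at this
  have h2 := hF γ hγ 1
  have h3 := hF' γ hγ 1
  rw [mul_one] at h2 h3
  obtain ⟨ha, hb⟩ : (ℓ : ℤ) ∣ (γ : Mat) 0 0 - 1 ∧ (ℓ : ℤ) ∣ (γ : Mat) 1 0 := hγ
  have hb' : ((((γ : Mat) 1 0 : ℤ)) : ZMod ℓ) = 0 := (ZMod.intCast_zmod_eq_zero_iff_dvd _ _).2 hb
  have ha' : ((((γ : Mat) 0 0 : ℤ)) : ZMod ℓ) = 1 := by
    have h4 := (ZMod.intCast_zmod_eq_zero_iff_dvd _ _).2 ha
    rw [Int.cast_sub, Int.cast_one, sub_eq_zero] at h4
    exact h4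
  have hd' : ((((γ : Mat) 1 1 : ℤ)) : ZMod ℓ) = 1 := by
    have h4 := congrArg (fun z : ℤ => (z : ZMod ℓ)) (D2c_det γ)
    simp only [Int.cast_sub, Int.cast_mul, ha', hb', mul_zero, sub_zero, one_mul, Int.cast_one] at h4
    exact h4
  rw [hW, hW, h2, h3, hb', hd'] at h1
  have h5 : ((((1 : SL(2, ℤ)) : Mat) 1 0 : ℤ) : ZMod ℓ) = 0 := by simp
  have h6 : ((((1 : SL(2, ℤ)) : Mat) 1 1 : ℤ) : ZMod ℓ) = 1 := by simp
  rw [h5, h6] at h1
  linear_combination h1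

end LV7
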