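import Pool.Agent.LibLV7.DDefs

/-!
# [LV7 D3] the Hecke operator commutes with the involution

PLAN. For an integral matrix `g` let `g' = (g00, -g01; -g10, g11)` (multiplicative, `cj` on `SL(2, ℤ)`). `(α none)' = α none`,
`(α (some b))' = (τ (1, b; 0, p))' = cj τ (1, -b; 0, p)`; for `b = 0` this is `δ_0 α (some 0)`, `δ_0 = cj τ τ⁻¹`; for `b > 0`
`(1, -b; 0, p) = T⁻¹ (1, p - b; 0, p)` and `(α (some b))' = δ_1 α (some (p - b))`, `δ_1 = cj τ T⁻¹ τ⁻¹`. `δ_0, δ_1 ∈ G1 ℓ` (`τ ≡ (p, *; 0, p⁻¹)`).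
So there are a bijection `e` of `Option (Fin p)` and `δ_i ∈ G1 ℓ` with `(α i)' = δ_i α (e i)`. From `α i γ = c_i(γ) α k` (`comp_spec`, `k = perm α i γ`):
`δ_i α (e i) cj γ = cj (c_i(γ)) δ_k α (e k)`, so by `comp_unique` `comp α (e i) (cj γ) = δ_i⁻¹ cj (c_i(γ)) δ_k`. All in `G1 ℓ` (`comp_mem_G1`, `cj` maps
`G1 ℓ` to itself). Hence `f (cj (c_i γ)) = f δ_i + f (comp α (e i) (cj γ)) - f δ_k`, sum over `i` (`k` runs through all indices, `perm_bij`; reindex by `e`). QED.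
-/

set_option autoImplicit false

open Matrix
open scoped MatrixGroups

namespace LV7

open KS44

/-- conjugation of an integral matrix by `diag (1, -1)` -/
private def D3_cm (g : Mat) : Mat := !![g 0 0, -g 0 1; -g 1 0, g 1 1]

private theorem D3_cm_mul (g h : Mat) : D3_cm (g * h) = D3_cm g * D3_cm h := by
  unfold D3_cm
  ext i j
  fin_cases i <;> fin_cases j <;> simp [Matrix.mul_apply, Fin.sum_univ_two] <;> ring

private theorem D3_cm_cm (g : Mat) : D3_cm (D3_cm g) = g := by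
  unfold D3_cm
  ext i j
  fin_cases i <;> fin_cases j <;> simp

private theorem D3_cm_det (g : Mat) : (D3_cm g).det = g.det := by
  unfold D3_cm
  rw [Matrix.det_fin_two_of, Matrix.det_fin_two]
  ring

private theorem D3_cm_coe (γ : SL(2, ℤ)) : D3_cm (γ : Mat) = (cj γ : Mat) := rfl

private theorem D3_00 (g : Mat) : D3_cm g 0 0 = g 0 0 := rfl

private theorem D3_10 (g : Mat) : D3_cm g 1 0 = -g 1 0 := rfl

theorem cj_mem {ℓ : ℕ} {γ : SL(2, ℤ)} (hγ : γ ∈ G1 ℓ) : cj γ ∈ G1 ℓ := by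
  obtain ⟨h1, h2⟩ : (ℓ : ℤ) ∣ (γ : Mat) 0 0 - 1 ∧ (ℓ : ℤ) ∣ (γ : Mat) 1 0 := hγ
  change (ℓ : ℤ) ∣ (γ : Mat) 0 0 - 1 ∧ (ℓ : ℤ) ∣ -(γ : Mat) 1 0
  exact ⟨h1, (dvd_neg).2 h2⟩

theorem cj_mem0 {ℓ : ℕ} {γ : SL(2, ℤ)} (hγ : γ ∈ G0 ℓ) : cj γ ∈ G0 ℓ := by
  have h2 : (ℓ : ℤ) ∣ (γ : Mat) 1 0 := hγ
  change (ℓ : ℤ) ∣ -(γ : Mat) 1 0
  exact (dvd_neg).2 h2

private theorem D3_ex {ℓ p : ℕ} {τ : SL(2, ℤ)} (h : Setup ℓ p τ) (i : Option (Fin p)) :
    ∃ x : SL(2, ℤ) × Option (Fin p), D3_cm (alpha τ p i) = (x.1 : Mat) * alpha τ p x.2 ∧ x.1 ∈ G1 ℓ := by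
  have hα := alpha_reps τ p h.hp
  obtain ⟨x, hx, -⟩ := hα.2 (D3_cm (alpha τ p i)) (by rw [D3_cm_det]; exact hα.1 i)
  have hx' : D3_cm (alpha τ p i) = (x.1 : Mat) * alpha τ p x.2 := hx
  refine ⟨x, hx', ?_⟩
  obtain ⟨⟨a, ha⟩, ⟨b, hb⟩, -⟩ := alpha_cong h i
  obtain ⟨⟨c, hc⟩, ⟨d, hd⟩, -⟩ := alpha_cong h x.2
  have e0 : alpha τ p i 0 0 = (x.1 : Mat) 0 0 * alpha τ p x.2 0 0 + (x.1 : Mat) 0 1 * alpha τ p x.2 1 0 := by
    have := congrFun (congrFun hx' 0) 0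
    rw [D3_00, Matrix.mul_apply, Fin.sum_univ_two] at this
    exact this
  have e1 : -alpha τ p i 1 0 = (x.1 : Mat) 1 0 * alpha τ p x.2 0 0 + (x.1 : Mat) 1 1 * alpha τ p x.2 1 0 := by
    have := congrFun (congrFun hx' 1) 0
    rw [D3_10, Matrix.mul_apply, Fin.sum_univ_two] at this
    exact this
  have hcop : IsCoprime (ℓ : ℤ) (p : ℤ) := h.cop.symm
  change (ℓ : ℤ) ∣ (x.1 : Mat) 0 0 - 1 ∧ (ℓ : ℤ) ∣ (x.1 : Mat) 1 0
  constructor
  · refine hcop.dvd_of_dvd_mul_right ?_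
    refine ⟨a - (x.1 : Mat) 0 0 * c - (x.1 : Mat) 0 1 * d, ?_⟩
    linear_combination ha - (x.1 : Mat) 0 0 * hc - (x.1 : Mat) 0 1 * hd - e0
  · refine hcop.dvd_of_dvd_mul_right ?_
    refine ⟨-b - (x.1 : Mat) 1 0 * c - (x.1 : Mat) 1 1 * d, ?_⟩
    linear_combination -hb - (x.1 : Mat) 1 0 * hc - (x.1 : Mat) 1 1 * hd - e1

theorem hk_cj {ℓ p : ℕ} {τ : SL(2, ℤ)} (h : Setup ℓ p τ) {V : Type} [AddCommGroup V] {f : SL(2, ℤ) → V}
    (hf : HomOn ℓ f) {γ : SL(2, ℤ)} (hγ : γ ∈ G1 ℓ) :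
    hk τ p (fun g => f (cj g)) γ = hk τ p f (cj γ) := by
  have hα := alpha_reps τ p h.hp
  choose x hx hxm using D3_ex h
  -- the relation
  have hrel : ∀ i, comp (alpha τ p) (x i).2 (cj γ) =
      (x i).1⁻¹ * (cj (comp (alpha τ p) i γ)) * (x (perm (alpha τ p) i γ)).1 := by
    intro i
    refine (comp_unique hα (k := (x (perm (alpha τ p) i γ)).2) ?_).1
    have h1 := congrArg D3_cm (comp_spec hα i γ)
    rw [D3_cm_mul, D3_cm_mul, D3_cm_coe, D3_cm_coe, hx, hx] at h1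
    have h2 : (((x i).1⁻¹ : SL(2, ℤ)) : Mat) * ((x i).1 : Mat) = 1 := by
      rw [← Matrix.SpecialLinearGroup.coe_mul, inv_mul_cancel, Matrix.SpecialLinearGroup.coe_one]
    calc alpha τ p (x i).2 * (cj γ : Mat)
        = ((((x i).1⁻¹ : SL(2, ℤ)) : Mat) * ((x i).1 : Mat)) * (alpha τ p (x i).2 * (cj γ : Mat)) := by
          rw [h2, Matrix.one_mul]
      _ = (((x i).1⁻¹ : SL(2, ℤ)) : Mat) * (((x i).1 : Mat) * alpha τ p (x i).2 * (cj γ : Mat)) := by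
          simp only [Matrix.mul_assoc]
      _ = (((x i).1⁻¹ : SL(2, ℤ)) : Mat) * ((cj (comp (alpha τ p) i γ) : Mat) *
            (((x (perm (alpha τ p) i γ)).1 : Mat) * alpha τ p (x (perm (alpha τ p) i γ)).2)) := by
          rw [h1]
      _ = (((x i).1⁻¹ * (cj (comp (alpha τ p) i γ)) * (x (perm (alpha τ p) i γ)).1 : SL(2, ℤ)) : Mat) *
            alpha τ p (x (perm (alpha τ p) i γ)).2 := by
          rw [Matrix.SpecialLinearGroup.coe_mul, Matrix.SpecialLinearGroup.coe_mul]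
          simp only [Matrix.mul_assoc]
  -- injectivity of the reindexing
  have hinj : Function.Injective (fun i => (x i).2) := by
    intro i k hik
    have hik' : (x i).2 = (x k).2 := hik
    have h1 : D3_cm (alpha τ p i) = (((x i).1 * (x k).1⁻¹ : SL(2, ℤ)) : Mat) * D3_cm (alpha τ p k) := by
      have h2 : (((x k).1⁻¹ : SL(2, ℤ)) : Mat) * ((x k).1 : Mat) = 1 := by
        rw [← Matrix.SpecialLinearGroup.coe_mul, inv_mul_cancel, Matrix.SpecialLinearGroup.coe_one]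
      rw [hx i, hx k, hik', Matrix.SpecialLinearGroup.coe_mul]
      calc ((x i).1 : Mat) * alpha τ p (x k).2
          = ((x i).1 : Mat) * (((((x k).1⁻¹ : SL(2, ℤ)) : Mat) * ((x k).1 : Mat)) * alpha τ p (x k).2) := by
            rw [h2, Matrix.one_mul]
        _ = ((x i).1 : Mat) * (((x k).1⁻¹ : SL(2, ℤ)) : Mat) * (((x k).1 : Mat) * alpha τ p (x k).2) := by
            simp only [Matrix.mul_assoc]
    have h3 := congrArg D3_cm h1
    rw [D3_cm_cm, D3_cm_mul, D3_cm_cm, D3_cm_coe] at h3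
    have h4 := (comp_unique hα (i := i) (k := k) (γ := 1) (δ := cj ((x i).1 * (x k).1⁻¹)) (by
      rw [Matrix.SpecialLinearGroup.coe_one, Matrix.mul_one]
      exact h3)).2
    rw [perm_one hα] at h4
    exact h4
  have hbij : Function.Bijective (fun i => (x i).2) := Finite.injective_iff_bijective.1 hinj
  have hterm : ∀ i, f (comp (alpha τ p) (x i).2 (cj γ)) =
      -f (x i).1 + f (cj (comp (alpha τ p) i γ)) + f (x (perm (alpha τ p) i γ)).1 := by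
    intro i
    have hm : cj (comp (alpha τ p) i γ) ∈ G1 ℓ := cj_mem (comp_mem_G1 h i hγ)
    rw [hrel i, hf _ (mul_mem (inv_mem (hxm i)) hm) _ (hxm _), hf _ (inv_mem (hxm i)) _ hm, hf.inv (hxm i)]
  unfold hk
  have hs1 : ∑ i, f (comp (alpha τ p) i (cj γ)) = ∑ i, f (comp (alpha τ p) (x i).2 (cj γ)) :=
    (hbij.sum_comp (fun i => f (comp (alpha τ p) i (cj γ)))).symm
  have hs2 : ∑ i, f (x (perm (alpha τ p) i γ)).1 = ∑ i, f (x i).1 :=
    (perm_bij hα γ).sum_comp (fun i => f (x i).1)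
  rw [hs1]
  simp only [hterm]
  rw [Finset.sum_add_distrib, Finset.sum_add_distrib, hs2, Finset.sum_neg_distrib]
  abel

end LV7
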