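import Pool.Agent.LibLV7.D3

/-!
# [LV7 D4a] from a solution to an eigenfunction

PLAN. `f` with `Par ℓ f`, `hk (hk f) = 4 p f (τ · τ⁻¹)` on `G1 ℓ` and `f γ₀ ≠ 0`, `γ₀ ∈ G1 ℓ`.
(1) `u` a generator of `(ZMod ℓ)ˣ`, `σ ∈ G0 ℓ` with `σ_11 = u` modulo `ℓ` (`lift_col`), `n = ℓ - 1`, `σ^n ∈ G1 ℓ`. For `0 ≤ a < n`:
`f_a γ = ∑ k ∈ range n, (u⁻ᵃ)^k f (σ^k γ σ^-k)`. `∑ a < n, f_a γ₀ = n f γ₀ ≠ 0` (`∑ a, (u^-k)^a = 0` for `0 < k < n`: geometric sum), so some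
`f_a γ₀ ≠ 0`. `f_a (σ γ σ⁻¹) = u^a f_a γ` on `G1 ℓ` (shift; `f (σ^n γ σ^-n) = f γ`, `HomOn.conj`). Every `σ' ∈ G0 ℓ` is `γ' σ^k`, `γ' ∈ G1 ℓ`, with
`σ'_11 = u^k`: so `f_a (σ' γ σ'⁻¹) = (σ'_11)^a f_a γ`. `σ' = -1` gives `(-1)^a f_a γ₀ = f_a γ₀`: `a` is even.
(2) For `s = 1, -1`: `f_(a,s) γ = f_a γ + s f_a (cj γ)`; the sum of the two is `2 f_a`, so one is `≠ 0` at `γ₀`. `inv`: `cj (cj γ) = γ`. `dia`: `cj (σ γ σ⁻¹) =
cj σ cj γ (cj σ)⁻¹` and `(cj σ)_11 = σ_11`.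
(3) the properties `Par` and `hk (hk f) γ = 4 p f (τ γ τ⁻¹)` are linear and pass from `f` to `f (σ · σ⁻¹)` (`σ ∈ G0 ℓ`: `hk_conj`, twice, `hk_hom`; and
`σ τ γ τ⁻¹ σ⁻¹` versus `τ σ γ σ⁻¹ τ⁻¹`: `c5_comm_mem`, `HomOn.conj`) and to `f ∘ cj` (`hk_cj`, twice; `cj (τ γ τ⁻¹) = cj τ cj γ (cj τ)⁻¹`, `cj τ τ⁻¹ ∈ G1 ℓ`;
`cj T = T⁻¹`, `cj (lowV ℓ) = (lowV ℓ)⁻¹`). Note that `hk τ p` on `G1 ℓ` depends only on the values on `G1 ℓ` (`comp_mem_G1`). QED.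
-/

set_option autoImplicit false

open Matrix
open scoped MatrixGroups

namespace LV7

open KS44

private structure D4a_Good (ℓ p : ℕ) (τ : SL(2, ℤ)) (f : SL(2, ℤ) → ZMod ℓ) : Prop where
  par : Par ℓ f
  hec : ∀ γ ∈ G1 ℓ, hk τ p (hk τ p f) γ = (4 * p) • f (τ * γ * τ⁻¹)

private theorem D4a_add {ℓ p : ℕ} {τ : SL(2, ℤ)} {f g : SL(2, ℤ) → ZMod ℓ} (hf : D4a_Good ℓ p τ f)
    (hg : D4a_Good ℓ p τ g) : D4a_Good ℓ p τ (fun x => f x + g x) := by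
  have h1 : ∀ F G : SL(2, ℤ) → ZMod ℓ, hk τ p (fun x => F x + G x) =
      fun x => hk τ p F x + hk τ p G x := by
    intro F G
    funext γ
    exact Finset.sum_add_distrib
  refine ⟨⟨fun γ hγ δ hδ => ?_, fun σ hσ => ⟨?_, ?_⟩⟩, fun γ hγ => ?_⟩
  · change f (γ * δ) + g (γ * δ) = (f γ + g γ) + (f δ + g δ)
    rw [hf.par.hom γ hγ δ hδ, hg.par.hom γ hγ δ hδ]
    abel
  · change f _ + g _ = 0
    rw [(hf.par.par σ hσ).1, (hg.par.par σ hσ).1, add_zero]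
  · change f _ + g _ = 0
    rw [(hf.par.par σ hσ).2, (hg.par.par σ hσ).2, add_zero]
  · rw [h1, h1]
    change hk τ p (hk τ p f) γ + hk τ p (hk τ p g) γ = (4 * p) • (f (τ * γ * τ⁻¹) + g (τ * γ * τ⁻¹))
    rw [hf.hec γ hγ, hg.hec γ hγ, smul_add]

private theorem D4a_mul {ℓ p : ℕ} {τ : SL(2, ℤ)} {f : SL(2, ℤ) → ZMod ℓ} (hf : D4a_Good ℓ p τ f)
    (c : ZMod ℓ) : D4a_Good ℓ p τ (fun x => c * f x) := by
  have h1 : ∀ F : SL(2, ℤ) → ZMod ℓ, hk τ p (fun x => c * F x) = fun x => c * hk τ p F x := by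
    intro F
    funext γ
    exact (Finset.mul_sum _ _ _).symm
  refine ⟨⟨fun γ hγ δ hδ => ?_, fun σ hσ => ⟨?_, ?_⟩⟩, fun γ hγ => ?_⟩
  · change c * f (γ * δ) = c * f γ + c * f δ
    rw [hf.par.hom γ hγ δ hδ, mul_add]
  · change c * f _ = 0
    rw [(hf.par.par σ hσ).1, mul_zero]
  · change c * f _ = 0
    rw [(hf.par.par σ hσ).2, mul_zero]
  · rw [h1, h1]
    change c * hk τ p (hk τ p f) γ = (4 * p) • (c * f (τ * γ * τ⁻¹))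
    rw [hf.hec γ hγ, mul_smul_comm]

private theorem D4a_zero {ℓ p : ℕ} {τ : SL(2, ℤ)} : D4a_Good ℓ p τ (fun _ => (0 : ZMod ℓ)) := by
  refine ⟨⟨fun γ _ δ _ => (add_zero 0).symm, fun σ _ => ⟨rfl, rfl⟩⟩, fun γ _ => ?_⟩
  rw [smul_zero]
  have h1 : hk τ p (fun _ : SL(2, ℤ) => (0 : ZMod ℓ)) = fun _ => 0 := by
    funext γ
    exact Finset.sum_const_zero
  rw [h1, h1]

private theorem D4a_sum {ℓ p : ℕ} {τ : SL(2, ℤ)} (n : ℕ) (F : ℕ → SL(2, ℤ) → ZMod ℓ)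
    (hF : ∀ k, D4a_Good ℓ p τ (F k)) : D4a_Good ℓ p τ (fun x => ∑ k ∈ Finset.range n, F k x) := by
  induction n with
  | zero => simpa using (D4a_zero (ℓ := ℓ) (p := p) (τ := τ))
  | succ n ih =>
    simp only [Finset.sum_range_succ]
    exact D4a_add ih (hF n)

private theorem D4a_conj {ℓ p : ℕ} {τ : SL(2, ℤ)} (h : Setup ℓ p τ) {f : SL(2, ℤ) → ZMod ℓ}
    (hf : D4a_Good ℓ p τ f) {σ : SL(2, ℤ)} (hσ : σ ∈ G0 ℓ) :
    D4a_Good ℓ p τ (fun g => f (σ * g * σ⁻¹)) := by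
  refine ⟨⟨c5_conj_hom hf.par.hom hσ, fun ρ hρ => ⟨?_, ?_⟩⟩, fun γ hγ => ?_⟩
  · have h1 : σ * (ρ * ModularGroup.T * ρ⁻¹) * σ⁻¹ = (σ * ρ) * ModularGroup.T * (σ * ρ)⁻¹ := by group
    change f (σ * (ρ * ModularGroup.T * ρ⁻¹) * σ⁻¹) = 0
    rw [h1]
    exact (hf.par.par _ (mul_mem hσ hρ)).1
  · have h1 : σ * (ρ * lowV ℓ * ρ⁻¹) * σ⁻¹ = (σ * ρ) * lowV ℓ * (σ * ρ)⁻¹ := by group
    change f (σ * (ρ * lowV ℓ * ρ⁻¹) * σ⁻¹) = 0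
    rw [h1]
    exact (hf.par.par _ (mul_mem hσ hρ)).2
  · have h1 : hk τ p (hk τ p (fun g => f (σ * g * σ⁻¹))) γ =
        hk τ p (fun g => hk τ p f (σ * g * σ⁻¹)) γ := by
      change ∑ i, hk τ p (fun g => f (σ * g * σ⁻¹)) (comp (alpha τ p) i γ) =
        ∑ i, hk τ p f (σ * comp (alpha τ p) i γ * σ⁻¹)
      exact Finset.sum_congr rfl fun i _ => (hk_conj h hf.par.hom hσ (comp_mem_G1 h i hγ)).symm
    rw [h1, ← hk_conj h (hk_hom h hf.par.hom) hσ hγ, hf.hec _ (conj_mem hσ hγ)]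
    congr 1
    have hτ := tau_mem h
    have hκ := c5_comm_mem hσ hτ
    have h2 : τ * (σ * γ * σ⁻¹) * τ⁻¹ =
        ((τ * σ) * (σ * τ)⁻¹) * (σ * (τ * γ * τ⁻¹) * σ⁻¹) * ((τ * σ) * (σ * τ)⁻¹)⁻¹ := by group
    rw [h2]
    exact hf.par.hom.conj (conj_mem hσ (conj_mem hτ hγ)) hκ

private theorem D4a_cjT : cj ModularGroup.T = ModularGroup.T⁻¹ := by
  apply Subtype.ext
  rw [ModularGroup.coe_T_inv]
  ext i j
  fin_cases i <;> fin_cases j <;> simp [cj, ModularGroup.coe_T]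

private theorem D4a_cjV (n : ℤ) : cj (lowV n) = (lowV n)⁻¹ := by
  apply Subtype.ext
  rw [Matrix.SpecialLinearGroup.coe_inv, Matrix.adjugate_fin_two]
  ext i j
  fin_cases i <;> fin_cases j <;> simp [cj, lowV]

private theorem D4a_cjcj (g : SL(2, ℤ)) : cj (cj g) = g := by
  apply Subtype.ext
  ext i j
  fin_cases i <;> fin_cases j <;> simp [cj]

private theorem D4a_det (σ : SL(2, ℤ)) :
    (σ : Mat) 0 0 * (σ : Mat) 1 1 - (σ : Mat) 0 1 * (σ : Mat) 1 0 = 1 := by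
  have := Matrix.SpecialLinearGroup.det_coe σ
  rwa [Matrix.det_fin_two] at this

private theorem D4a_kap {ℓ p : ℕ} {τ : SL(2, ℤ)} (h : Setup ℓ p τ) : cj τ * τ⁻¹ ∈ G1 ℓ := by
  obtain ⟨y, hy⟩ := h.h10
  have hd := D4a_det τ
  have hmul : ∀ (x y : SL(2, ℤ)) (i j : Fin 2), ((x * y : SL(2, ℤ)) : Mat) i j
      = (x : Mat) i 0 * (y : Mat) 0 j + (x : Mat) i 1 * (y : Mat) 1 j := by
    intro x y i j
    rw [Matrix.SpecialLinearGroup.coe_mul, Matrix.mul_apply, Fin.sum_univ_two]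
  have hinv00 : ((τ⁻¹ : SL(2, ℤ)) : Mat) 0 0 = (τ : Mat) 1 1 := by
    rw [Matrix.SpecialLinearGroup.coe_inv, Matrix.adjugate_fin_two]
    simp
  have hinv10 : ((τ⁻¹ : SL(2, ℤ)) : Mat) 1 0 = - (τ : Mat) 1 0 := by
    rw [Matrix.SpecialLinearGroup.coe_inv, Matrix.adjugate_fin_two]
    simp
  have c00 : ((cj τ : SL(2, ℤ)) : Mat) 0 0 = (τ : Mat) 0 0 := by simp [cj]
  have c01 : ((cj τ : SL(2, ℤ)) : Mat) 0 1 = -(τ : Mat) 0 1 := by simp [cj]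
  have c10 : ((cj τ : SL(2, ℤ)) : Mat) 1 0 = -(τ : Mat) 1 0 := by simp [cj]
  have c11 : ((cj τ : SL(2, ℤ)) : Mat) 1 1 = (τ : Mat) 1 1 := by simp [cj]
  refine ⟨⟨2 * (τ : Mat) 0 1 * y, ?_⟩, ⟨-(2 * y * (τ : Mat) 1 1), ?_⟩⟩
  · rw [hmul, hinv00, hinv10, c00, c01]
    linear_combination hd + 2 * (τ : Mat) 0 1 * hy
  · rw [hmul, hinv00, hinv10, c10, c11]
    linear_combination (-2 * (τ : Mat) 1 1) * hy

private theorem D4a_cj {ℓ p : ℕ} {τ : SL(2, ℤ)} (h : Setup ℓ p τ) {f : SL(2, ℤ) → ZMod ℓ}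
    (hf : D4a_Good ℓ p τ f) : D4a_Good ℓ p τ (fun g => f (cj g)) := by
  refine ⟨⟨fun γ hγ δ hδ => ?_, fun ρ hρ => ⟨?_, ?_⟩⟩, fun γ hγ => ?_⟩
  · change f (cj (γ * δ)) = f (cj γ) + f (cj δ)
    rw [map_mul]
    exact hf.par.hom _ (cj_mem hγ) _ (cj_mem hδ)
  · change f (cj (ρ * ModularGroup.T * ρ⁻¹)) = 0
    have h1 : cj (ρ * ModularGroup.T * ρ⁻¹) = (cj ρ * ModularGroup.T * (cj ρ)⁻¹)⁻¹ := by
      rw [map_mul, map_mul, map_inv, D4a_cjT]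
      group
    rw [h1, hf.par.hom.inv (conj_mem (cj_mem0 hρ) T_mem), (hf.par.par _ (cj_mem0 hρ)).1, neg_zero]
  · change f (cj (ρ * lowV ℓ * ρ⁻¹)) = 0
    have h1 : cj (ρ * lowV ℓ * ρ⁻¹) = (cj ρ * lowV ℓ * (cj ρ)⁻¹)⁻¹ := by
      rw [map_mul, map_mul, map_inv, D4a_cjV]
      group
    rw [h1, hf.par.hom.inv (conj_mem (cj_mem0 hρ) lowV_mem), (hf.par.par _ (cj_mem0 hρ)).2, neg_zero]
  · have h1 : hk τ p (hk τ p (fun g => f (cj g))) γ = hk τ p (fun g => hk τ p f (cj g)) γ := by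
      change ∑ i, hk τ p (fun g => f (cj g)) (comp (alpha τ p) i γ) =
        ∑ i, hk τ p f (cj (comp (alpha τ p) i γ))
      exact Finset.sum_congr rfl fun i _ => hk_cj h hf.par.hom (comp_mem_G1 h i hγ)
    rw [h1, hk_cj h (hk_hom h hf.par.hom) hγ, hf.hec _ (cj_mem hγ)]
    congr 1
    have h2 : cj (τ * γ * τ⁻¹) = (cj τ * τ⁻¹) * (τ * cj γ * τ⁻¹) * (cj τ * τ⁻¹)⁻¹ := by
      rw [map_mul, map_mul, map_inv]
      group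
    change f _ = f (cj (τ * γ * τ⁻¹))
    rw [h2]
    exact (hf.par.hom.conj (conj_mem (tau_mem h) (cj_mem hγ)) (D4a_kap h)).symm

private def D4a_chi (ℓ : ℕ) (σ : SL(2, ℤ)) : ZMod ℓ := (((σ : Mat) 1 1 : ℤ) : ZMod ℓ)

private theorem D4a_z {ℓ : ℕ} {a : ℤ} (h : (ℓ : ℤ) ∣ a) : ((a : ℤ) : ZMod ℓ) = 0 :=
  (ZMod.intCast_zmod_eq_zero_iff_dvd a ℓ).2 h

private theorem D4a_chi_mul {ℓ : ℕ} {σ ρ : SL(2, ℤ)} (hσ : σ ∈ G0 ℓ) :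
    D4a_chi ℓ (σ * ρ) = D4a_chi ℓ σ * D4a_chi ℓ ρ := by
  have h1 : ((((σ : Mat) 1 0 : ℤ)) : ZMod ℓ) = 0 := D4a_z hσ
  rw [D4a_chi, Matrix.SpecialLinearGroup.coe_mul, Matrix.mul_apply, Fin.sum_univ_two, Int.cast_add,
    Int.cast_mul, Int.cast_mul, h1, zero_mul, zero_add]
  rfl

private theorem D4a_chi_pow {ℓ : ℕ} {σ : SL(2, ℤ)} (hσ : σ ∈ G0 ℓ) (k : ℕ) :
    D4a_chi ℓ (σ ^ k) = D4a_chi ℓ σ ^ k := by
  induction k with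
  | zero => simp [D4a_chi]
  | succ k ih => rw [pow_succ, D4a_chi_mul (pow_mem hσ k), ih, pow_succ]

private theorem D4a_chi00 {ℓ : ℕ} {σ : SL(2, ℤ)} (hσ : σ ∈ G0 ℓ) :
    ((((σ : Mat) 0 0 : ℤ)) : ZMod ℓ) * D4a_chi ℓ σ = 1 := by
  have h1 : ((((σ : Mat) 1 0 : ℤ)) : ZMod ℓ) = 0 := D4a_z hσ
  have h2 := congrArg (fun z : ℤ => (z : ZMod ℓ)) (D4a_det σ)
  simp only [Int.cast_sub, Int.cast_mul, Int.cast_one] at h2
  rw [h1, mul_zero, sub_zero] at h2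
  exact h2

private theorem D4a_mem_G1 {ℓ : ℕ} {σ : SL(2, ℤ)} (hσ : σ ∈ G0 ℓ) (h1 : D4a_chi ℓ σ = 1) :
    σ ∈ G1 ℓ := by
  refine ⟨?_, hσ⟩
  have h2 := D4a_chi00 hσ
  rw [h1, mul_one] at h2
  rw [← ZMod.intCast_zmod_eq_zero_iff_dvd, Int.cast_sub, h2, Int.cast_one, sub_self]

theorem eig_exists {ℓ p : ℕ} {τ : SL(2, ℤ)} (h : Setup ℓ p τ) (hl2 : ℓ ≠ 2) {f : SL(2, ℤ) → ZMod ℓ} (hf : Par ℓ f)
    (hE : ∀ γ ∈ G1 ℓ, hk τ p (hk τ p f) γ = (4 * p) • f (τ * γ * τ⁻¹)) {γ₀ : SL(2, ℤ)} (hγ₀ : γ₀ ∈ G1 ℓ)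
    (h0 : f γ₀ ≠ 0) :
    ∃ (a : ℕ) (s : ZMod ℓ) (f' : SL(2, ℤ) → ZMod ℓ), a < ℓ - 1 ∧ Even a ∧ (s = 1 ∨ s = -1) ∧ Par ℓ f' ∧ Eig ℓ a s f' ∧
      (∀ γ ∈ G1 ℓ, hk τ p (hk τ p f') γ = (4 * p) • f' (τ * γ * τ⁻¹)) ∧ f' γ₀ ≠ 0 := by
  haveI : Fact ℓ.Prime := ⟨h.hl⟩
  have hG : D4a_Good ℓ p τ f := ⟨hf, hE⟩
  -- a generator
  obtain ⟨u, hu⟩ := IsCyclic.exists_generator (α := (ZMod ℓ)ˣ)
  have hord : orderOf u = ℓ - 1 := by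
    rw [orderOf_eq_card_of_forall_mem_zpowers hu, Nat.card_eq_fintype_card, ZMod.card_units]
  set n := ℓ - 1 with hn
  have hn0 : 0 < n := by
    have := h.hl.two_le
    omega
  have hun : u ^ n = 1 := by rw [← hord]; exact pow_orderOf_eq_one u
  obtain ⟨σ, hσ0, hσχ⟩ : ∃ σ : SL(2, ℤ), σ ∈ G0 ℓ ∧ D4a_chi ℓ σ = (u : ZMod ℓ) := by
    set a : ℤ := (((u⁻¹ : (ZMod ℓ)ˣ) : ZMod ℓ).val : ℤ) with ha
    have hac : ((a : ℤ) : ZMod ℓ) = ((u⁻¹ : (ZMod ℓ)ˣ) : ZMod ℓ) := by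
      rw [ha, Int.cast_natCast, ZMod.natCast_zmod_val]
    have hna : ¬ (ℓ : ℤ) ∣ a := by
      intro h1
      have h2 := D4a_z h1
      rw [hac] at h2
      exact (Units.ne_zero _) h2
    obtain ⟨g, hg0, hg1⟩ := lift_col ℓ h.hl a 0 (fun h1 => hna h1.1)
    rw [sub_zero] at hg1
    refine ⟨g, hg1, ?_⟩
    have h1 : ((((g : Mat) 0 0 : ℤ)) : ZMod ℓ) = ((u⁻¹ : (ZMod ℓ)ˣ) : ZMod ℓ) := by
      have h2 := D4a_z hg0
      rw [Int.cast_sub, sub_eq_zero] at h2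
      rw [h2, hac]
    have h2 := D4a_chi00 (ℓ := ℓ) (σ := g) hg1
    rw [h1] at h2
    calc D4a_chi ℓ g = (u : ZMod ℓ) * (((u⁻¹ : (ZMod ℓ)ˣ) : ZMod ℓ) * D4a_chi ℓ g) := by
          rw [← mul_assoc, Units.mul_inv, one_mul]
      _ = u := by rw [h2, mul_one]
  have hσn : σ ^ n ∈ G1 ℓ := by
    apply D4a_mem_G1 (pow_mem hσ0 n)
    rw [D4a_chi_pow hσ0, hσχ, ← Units.val_pow_eq_pow_val, hun, Units.val_one]
  -- the components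
  set w : ℕ → ZMod ℓ := fun a => (((u⁻¹ : (ZMod ℓ)ˣ) ^ a : (ZMod ℓ)ˣ) : ZMod ℓ) with hw
  set F : ℕ → SL(2, ℤ) → ZMod ℓ := fun a γ =>
    ∑ k ∈ Finset.range n, w a ^ k * f (σ ^ k * γ * (σ ^ k)⁻¹) with hF
  have hFG : ∀ a, D4a_Good ℓ p τ (F a) := fun a =>
    D4a_sum n (fun k x => w a ^ k * f (σ ^ k * x * (σ ^ k)⁻¹)) fun k =>
      D4a_mul (D4a_conj h hG (pow_mem hσ0 k)) _
  have hwn : ∀ a, w a ^ n = 1 := by
    intro a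
    rw [hw]
    simp only
    rw [← Units.val_pow_eq_pow_val, ← pow_mul, mul_comm, pow_mul, inv_pow, hun, inv_one, one_pow,
      Units.val_one]
  have hwu : ∀ a, (u : ZMod ℓ) ^ a * w a = 1 := by
    intro a
    rw [hw]
    simp only
    rw [← Units.val_pow_eq_pow_val, ← Units.val_mul, inv_pow, mul_inv_cancel, Units.val_one]
  have hFσ : ∀ a, ∀ γ ∈ G1 ℓ, F a (σ * γ * σ⁻¹) = (u : ZMod ℓ) ^ a * F a γ := by
    intro a γ hγ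
    have h1 : w a * F a (σ * γ * σ⁻¹) = F a γ := by
      have e1 : w a * F a (σ * γ * σ⁻¹) =
          ∑ k ∈ Finset.range n, w a ^ (k + 1) * f (σ ^ (k + 1) * γ * (σ ^ (k + 1))⁻¹) := by
        rw [hF]
        simp only
        rw [Finset.mul_sum]
        refine Finset.sum_congr rfl fun k _ => ?_
        have e2 : σ ^ k * (σ * γ * σ⁻¹) * (σ ^ k)⁻¹ = σ ^ (k + 1) * γ * (σ ^ (k + 1))⁻¹ := by
          rw [pow_succ]
          group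
        rw [e2, pow_succ']
        ring
      have e3 := Finset.sum_range_succ' (fun k => w a ^ k * f (σ ^ k * γ * (σ ^ k)⁻¹)) n
      have e4 := Finset.sum_range_succ (fun k => w a ^ k * f (σ ^ k * γ * (σ ^ k)⁻¹)) n
      have e5 : w a ^ n * f (σ ^ n * γ * (σ ^ n)⁻¹) =
          w a ^ 0 * f (σ ^ 0 * γ * (σ ^ 0)⁻¹) := by
        rw [hwn, hf.hom.conj hγ hσn]
        simp
      rw [e1]
      rw [e4, e5] at e3
      exact (add_right_cancel e3).symm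
    calc F a (σ * γ * σ⁻¹) = ((u : ZMod ℓ) ^ a * w a) * F a (σ * γ * σ⁻¹) := by
          rw [hwu, one_mul]
      _ = _ := by rw [mul_assoc, h1]
  have hFσk : ∀ a, ∀ k : ℕ, ∀ γ ∈ G1 ℓ, F a (σ ^ k * γ * (σ ^ k)⁻¹) = ((u : ZMod ℓ) ^ a) ^ k * F a γ := by
    intro a k
    induction k with
    | zero => intro γ _; simp
    | succ k ih =>
      intro γ hγ
      have e2 : σ ^ (k + 1) * γ * (σ ^ (k + 1))⁻¹ = σ ^ k * (σ * γ * σ⁻¹) * (σ ^ k)⁻¹ := by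
        rw [pow_succ]
        group
      rw [e2, ih _ (conj_mem hσ0 hγ), hFσ a γ hγ, pow_succ]
      ring
  have hFdia : ∀ a, ∀ ρ ∈ G0 ℓ, ∀ γ ∈ G1 ℓ, F a (ρ * γ * ρ⁻¹) = D4a_chi ℓ ρ ^ a * F a γ := by
    intro a ρ hρ γ hγ
    have h1 : IsUnit (D4a_chi ℓ ρ) := by
      refine IsUnit.of_mul_eq_one (((((ρ : Mat) 0 0 : ℤ)) : ZMod ℓ)) ?_
      rw [mul_comm]
      exact D4a_chi00 hρ
    obtain ⟨v, hv⟩ := h1
    obtain ⟨k, hk'⟩ := (Submonoid.mem_powers_iff v u).1 (mem_powers_iff_mem_zpowers.2 (hu v))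
    have h2 : ρ * (σ ^ k)⁻¹ ∈ G1 ℓ := by
      have m1 : ρ * (σ ^ k)⁻¹ ∈ G0 ℓ := mul_mem hρ (inv_mem (pow_mem hσ0 k))
      apply D4a_mem_G1 m1
      have h3 : D4a_chi ℓ (ρ * (σ ^ k)⁻¹) * D4a_chi ℓ (σ ^ k) = D4a_chi ℓ ρ := by
        rw [← D4a_chi_mul m1, inv_mul_cancel_right]
      rw [D4a_chi_pow hσ0, hσχ, ← hv, ← Units.val_pow_eq_pow_val, hk'] at h3
      have h4 : D4a_chi ℓ (ρ * (σ ^ k)⁻¹) * (v : ZMod ℓ) * ((v⁻¹ : (ZMod ℓ)ˣ) : ZMod ℓ) =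
          (v : ZMod ℓ) * ((v⁻¹ : (ZMod ℓ)ˣ) : ZMod ℓ) := by rw [h3]
      rw [mul_assoc, Units.mul_inv, mul_one] at h4
      exact h4
    have h3 : ρ * γ * ρ⁻¹ = (ρ * (σ ^ k)⁻¹) * (σ ^ k * γ * (σ ^ k)⁻¹) * (ρ * (σ ^ k)⁻¹)⁻¹ := by group
    rw [h3, (hFG a).par.hom.conj (conj_mem (pow_mem hσ0 k) hγ) h2, hFσk a k γ hγ]
    congr 1
    rw [← hv, ← hk', Units.val_pow_eq_pow_val, ← pow_mul, ← pow_mul, mul_comm]
  -- one component does not vanish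
  have hnz : ((n : ℕ) : ZMod ℓ) ≠ 0 := by
    have e1 : ((n : ℕ) : ZMod ℓ) = -1 := by
      rw [hn, Nat.cast_sub h.hl.one_le, ZMod.natCast_self, Nat.cast_one, zero_sub]
    rw [e1]
    exact neg_ne_zero.2 one_ne_zero
  have hsum : ∑ a ∈ Finset.range n, F a γ₀ = (n : ZMod ℓ) * f γ₀ := by
    rw [hF]
    simp only
    rw [Finset.sum_comm, Finset.sum_eq_single 0]
    · simp
    · intro k hk hk0
      rw [← Finset.sum_mul]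
      have e1 : ∀ a, w a ^ k = (((u⁻¹ : (ZMod ℓ)ˣ) ^ k : (ZMod ℓ)ˣ) : ZMod ℓ) ^ a := by
        intro a
        rw [hw]
        simp only
        rw [← Units.val_pow_eq_pow_val, ← Units.val_pow_eq_pow_val, ← pow_mul, ← pow_mul, mul_comm]
      rw [Finset.sum_congr rfl fun a _ => e1 a]
      set x : ZMod ℓ := (((u⁻¹ : (ZMod ℓ)ˣ) ^ k : (ZMod ℓ)ˣ) : ZMod ℓ) with hx
      have hx1 : x ≠ 1 := by
        intro h1
        rw [hx, Units.val_eq_one, inv_pow, inv_eq_one] at h1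
        have h2 := orderOf_dvd_of_pow_eq_one h1
        rw [hord] at h2
        rw [Finset.mem_range] at hk
        exact absurd (Nat.le_of_dvd (Nat.pos_of_ne_zero hk0) h2) (not_le.2 hk)
      have hxn : x ^ n = 1 := by
        rw [hx, ← Units.val_pow_eq_pow_val, ← pow_mul, mul_comm, pow_mul, inv_pow, hun, inv_one,
          one_pow, Units.val_one]
      have h2 : (∑ a ∈ Finset.range n, x ^ a) * (x - 1) = 0 := by
        rw [geom_sum_mul, hxn, sub_self]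
      rcases mul_eq_zero.1 h2 with h3 | h3
      · rw [h3, zero_mul]
      · exact absurd (sub_eq_zero.1 h3) hx1
    · intro h1
      exact absurd (Finset.mem_range.2 hn0) h1
  obtain ⟨a, ha, hFa⟩ : ∃ a, a < n ∧ F a γ₀ ≠ 0 := by
    by_contra hcon
    push Not at hcon
    have h1 : ∑ a ∈ Finset.range n, F a γ₀ = 0 :=
      Finset.sum_eq_zero fun a ha => hcon a (Finset.mem_range.1 ha)
    rw [hsum] at h1
    exact (mul_ne_zero hnz h0) h1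
  have h2ne : (2 : ZMod ℓ) ≠ 0 := by
    intro h1
    have h2 : (((2 : ℕ)) : ZMod ℓ) = 0 := by exact_mod_cast h1
    rw [ZMod.natCast_eq_zero_iff] at h2
    have := (Nat.prime_dvd_prime_iff_eq h.hl Nat.prime_two).1 h2
    exact hl2 this
  have heven : Even a := by
    by_contra hodd
    rw [Nat.not_even_iff_odd] at hodd
    have m1 : (-1 : SL(2, ℤ)) ∈ G0 ℓ := by
      change (ℓ : ℤ) ∣ ((-1 : SL(2, ℤ)) : Mat) 1 0
      simp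
    have h1 := hFdia a (-1) m1 γ₀ hγ₀
    have e1 : (-1 : SL(2, ℤ)) * γ₀ * (-1 : SL(2, ℤ))⁻¹ = γ₀ := by
      have := c5_neg_conj 1 γ₀
      simpa using this
    have e2 : D4a_chi ℓ (-1 : SL(2, ℤ)) = -1 := by simp [D4a_chi]
    rw [e1, e2, hodd.neg_one_pow] at h1
    have h3 : (2 : ZMod ℓ) * F a γ₀ = 0 := by linear_combination h1
    exact (mul_ne_zero h2ne hFa) h3
  -- the sign
  have hcc : ∀ γ, cj (cj γ) = γ := D4a_cjcj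
  obtain ⟨s, hs, hsne⟩ : ∃ s : ZMod ℓ, (s = 1 ∨ s = -1) ∧ F a γ₀ + s * F a (cj γ₀) ≠ 0 := by
    by_contra hcon
    push Not at hcon
    have h1 := hcon 1 (Or.inl rfl)
    have h2 := hcon (-1) (Or.inr rfl)
    have h3 : (2 : ZMod ℓ) * F a γ₀ = 0 := by linear_combination h1 + h2
    exact (mul_ne_zero h2ne hFa) h3
  have hss : s * s = 1 := by
    rcases hs with rfl | rfl <;> norm_num
  have hgood : D4a_Good ℓ p τ (fun γ => F a γ + s * F a (cj γ)) :=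
    D4a_add (hFG a) (D4a_mul (D4a_cj h (hFG a)) s)
  refine ⟨a, s, fun γ => F a γ + s * F a (cj γ), ha, heven, hs, hgood.par, ⟨?_, ?_⟩, hgood.hec, hsne⟩
  · intro ρ hρ γ hγ
    change F a (ρ * γ * ρ⁻¹) + s * F a (cj (ρ * γ * ρ⁻¹)) =
      D4a_chi ℓ ρ ^ a * (F a γ + s * F a (cj γ))
    have e1 : cj (ρ * γ * ρ⁻¹) = cj ρ * cj γ * (cj ρ)⁻¹ := by
      rw [map_mul, map_mul, map_inv]
    have e2 : D4a_chi ℓ (cj ρ) = D4a_chi ℓ ρ := by simp [D4a_chi, cj]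
    rw [e1, hFdia a ρ hρ γ hγ, hFdia a _ (cj_mem0 hρ) _ (cj_mem hγ), e2]
    ring
  · intro γ _
    change F a (cj γ) + s * F a (cj (cj γ)) = s * (F a γ + s * F a (cj γ))
    rw [hcc]
    linear_combination (-F a (cj γ)) * hss

end LV7
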