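import Pool.Agent.LibLV7.D3
import Pool.Agent.LibKS44.C5

/-!
# [LV7 D4b] the Hecke operator preserves the eigenspaces

PLAN. `Par ℓ (hk τ p f)`: `hk_hom`; `hk τ p f (σ T σ⁻¹) = p f (σ T σ⁻¹) + f (σ τ T (σ τ)⁻¹) = 0` by `c5_step1` with `hk_T`, and
`hk τ p f (σ V σ⁻¹) = f (σ V σ⁻¹) + p f (σ τ V (σ τ)⁻¹) = 0` by `c5_step1` with `hk_V` (see the beginning of the two halves of `vanish` in LibKS44/C5.lean).
`Eig`: `hk_conj` (`hk f (σ γ σ⁻¹) = hk (f (σ · σ⁻¹)) γ`, on `G1 ℓ` the function `f (σ · σ⁻¹)` is `(σ_11)^a f`, and `hk` is linear: `comp_mem_G1`), and `hk_cj`.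
-/

set_option autoImplicit false

open Matrix
open scoped MatrixGroups

namespace LV7

open KS44

theorem hk_par {ℓ p : ℕ} {τ : SL(2, ℤ)} (h : Setup ℓ p τ) {f : SL(2, ℤ) → ZMod ℓ} (hf : Par ℓ f) : Par ℓ (hk τ p f) := by
  have hV : ∀ v : ZMod ℓ, ℓ • v = 0 := fun v => by
    rw [nsmul_eq_mul, ZMod.natCast_self, zero_mul]
  refine ⟨hk_hom h hf.hom, fun σ hσ => ⟨?_, ?_⟩⟩
  · rw [c5_step1 h T_mem p 1 (fun f hf => by rw [hk_T h hf, one_smul]) hf.hom hσ, (hf.par σ hσ).1,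
      (hf.par _ (mul_mem hσ (tau_mem h))).1, smul_zero, smul_zero, add_zero]
  · rw [c5_step1 h lowV_mem 1 p (fun f hf => by rw [hk_V h hV hf, one_smul]) hf.hom hσ,
      (hf.par σ hσ).2, (hf.par _ (mul_mem hσ (tau_mem h))).2, smul_zero, smul_zero, add_zero]

theorem hk_eig {ℓ p : ℕ} {τ : SL(2, ℤ)} (h : Setup ℓ p τ) {f : SL(2, ℤ) → ZMod ℓ} (hf : Par ℓ f) {a : ℕ} {s : ZMod ℓ}
    (he : Eig ℓ a s f) : Eig ℓ a s (hk τ p f) := by
  refine ⟨fun σ hσ γ hγ => ?_, fun γ hγ => ?_⟩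
  · rw [hk_conj h hf.hom hσ hγ]
    unfold hk
    rw [Finset.mul_sum]
    exact Finset.sum_congr rfl fun i _ => he.dia σ hσ _ (comp_mem_G1 h i hγ)
  · rw [← hk_cj h hf.hom hγ]
    unfold hk
    rw [Finset.mul_sum]
    exact Finset.sum_congr rfl fun i _ => he.inv _ (comp_mem_G1 h i hγ)

end LV7
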