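import Pool.Agent.LibLV7.D1
import Pool.Agent.LibLV7.D2b
import Pool.Agent.LibLV7.D2c
import Pool.Agent.LibLV7.D4a
import Pool.Agent.LibLV7.D4b

/-!
# LibLV7.D4 : no solution with values in `𝔽_ℓ` if `p` is a non-residue
-/

set_option autoImplicit false

open Matrix
open scoped MatrixGroups

namespace LV7

open KS44

theorem base_zmod {ℓ p : ℕ} {τ : SL(2, ℤ)} (h : Setup ℓ p τ) (hl : ℓ = 11 ∨ ℓ = 13 ∨ ℓ = 17 ∨ ℓ = 19)
    (hp : ¬ IsSquare (p : ZMod ℓ)) {f : SL(2, ℤ) → ZMod ℓ} (hf : Par ℓ f)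
    (hE : ∀ γ ∈ G1 ℓ, hk τ p (hk τ p f) γ = (4 * p) • f (τ * γ * τ⁻¹)) : ∀ γ ∈ G1 ℓ, f γ = 0 := by
  by_contra hcon
  push Not at hcon
  obtain ⟨γ₀, hγ₀, h0⟩ := hcon
  have hl2 : ℓ ≠ 2 := by rcases hl with h | h | h | h <;> omega
  have := Fact.mk h.hl
  obtain ⟨a, s, g, ha, hev, hs, hg, heg, hEg, hg0⟩ := eig_exists h hl2 hf hE hγ₀ h0
  have hg' := hk_par h hg
  have heg' := hk_eig h hg heg
  obtain ⟨ξ, hξ, hsξ⟩ := sym_exists h.hl hl2 hev hs hg heg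
  obtain ⟨ξ', hξ', hsξ'⟩ := sym_exists h.hl hl2 hev hs hg' heg'
  obtain ⟨c, c', hc, ht⟩ := mult_one hl a ha hev s hs ξ ξ' hξ hξ'
  have hz := sym_zero h.hl hsξ hsξ' c c' ht
  have hc' : c' ≠ 0 := by
    rintro rfl
    have h1 := hz γ₀ hγ₀
    rw [zero_mul, add_zero] at h1
    rcases hc with hc | hc
    · exact (mul_ne_zero hc hg0) h1
    · exact hc rfl
  obtain ⟨t, ht1⟩ : ∃ t : ZMod ℓ, ∀ γ ∈ G1 ℓ, hk τ p g γ = t * g γ := by
    refine ⟨-(c'⁻¹ * c), fun γ hγ => ?_⟩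
    have h1 := hz γ hγ
    have h2 : c'⁻¹ * (c * g γ + c' * hk τ p g γ) = 0 := by rw [h1, mul_zero]
    rw [mul_add, ← mul_assoc, ← mul_assoc, inv_mul_cancel₀ hc', one_mul] at h2
    linear_combination h2
  have h2 : hk τ p (hk τ p g) γ₀ = t * (t * g γ₀) := by
    have h3 : hk τ p (hk τ p g) γ₀ = ∑ i, t * g (comp (alpha τ p) i γ₀) :=
      Finset.sum_congr rfl fun i _ => ht1 _ (comp_mem_G1 h i hγ₀)
    rw [h3, ← Finset.mul_sum]
    congr 1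
    exact ht1 γ₀ hγ₀
  have h4 := hEg γ₀ hγ₀
  rw [h2, heg.dia τ (tau_mem h) γ₀ hγ₀] at h4
  obtain ⟨b, hb⟩ := hev
  set w : ZMod ℓ := (((τ : Mat) 1 1 : ℤ) : ZMod ℓ) with hw
  have hw0 : w ≠ 0 := by
    intro hw1
    have h5 : (((τ : Mat) 0 0 * (τ : Mat) 1 1 - (τ : Mat) 0 1 * (τ : Mat) 1 0 : ℤ) : ZMod ℓ) = 1 := by
      have h6 := Matrix.SpecialLinearGroup.det_coe τ
      rw [Matrix.det_fin_two] at h6
      rw [h6]
      simp
    have h7 : (((τ : Mat) 1 0 : ℤ) : ZMod ℓ) = 0 := (ZMod.intCast_zmod_eq_zero_iff_dvd _ ℓ).mpr h.h10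
    rw [Int.cast_sub, Int.cast_mul, Int.cast_mul, ← hw, hw1, h7] at h5
    simp at h5
  apply hp
  have h2' : (2 : ZMod ℓ) ≠ 0 := by
    intro h5
    have h6 : ((2 : ℕ) : ZMod ℓ) = 0 := by exact_mod_cast h5
    rw [ZMod.natCast_eq_zero_iff] at h6
    exact hl2 ((Nat.prime_dvd_prime_iff_eq h.hl Nat.prime_two).1 h6)
  refine ⟨t * (2 * w ^ b)⁻¹, ?_⟩
  have h8 : t * t = 4 * p * (w ^ b * w ^ b) := by
    have h9 : t * (t * g γ₀) = (4 * p : ZMod ℓ) * ((w ^ b * w ^ b) * g γ₀) := by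
      rw [h4, hb, pow_add, nsmul_eq_mul]
      push_cast
      ring
    have h10 : (t * t - 4 * p * (w ^ b * w ^ b)) * g γ₀ = 0 := by linear_combination h9
    rcases mul_eq_zero.mp h10 with h11 | h11
    · exact sub_eq_zero.mp h11
    · exact absurd h11 hg0
  have hwb : w ^ b ≠ 0 := pow_ne_zero _ hw0
  field_simp
  linear_combination -h8

end LV7
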