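import Pool.Agent.LibLV7.D4
import Pool.Agent.LibKS44.D4

/-!
# LibLV7.D5 : injectivity modulo `ℓ = 11, 13, 17, 19` for the non-residues `p`
-/

set_option autoImplicit false

open Matrix
open scoped MatrixGroups

namespace LV7

open KS44

theorem nonres_pow {ℓ p : ℕ} (hl : ℓ.Prime) (hp : ¬ IsSquare (p : ZMod ℓ)) : (ℓ : ℤ) ∣ (p : ℤ) ^ (ℓ / 2) + 1 := by
  have := Fact.mk hl
  have h0 : (p : ZMod ℓ) ≠ 0 := by
    intro h
    apply hp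
    rw [h]
    exact ⟨0, by ring⟩
  have h1 : (p : ZMod ℓ) ^ (ℓ / 2) = -1 := by
    rcases ZMod.pow_div_two_eq_neg_one_or_one ℓ h0 with h | h
    · exact absurd ((ZMod.euler_criterion ℓ h0).mpr h) hp
    · exact h
  rw [← ZMod.intCast_zmod_eq_zero_iff_dvd]
  push_cast
  rw [h1]
  ring

theorem sep2 {ℓ : ℕ} [Fact ℓ.Prime] {V : Type} [AddCommGroup V] [Module (ZMod ℓ) V] {x : V} (hx : x ≠ 0) :
    ∃ φ : V →+ ZMod ℓ, φ x ≠ 0 := by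
  by_contra hcon
  push Not at hcon
  exact hx ((Module.forall_dual_apply_eq_zero_iff (ZMod ℓ) x).mp fun φ => hcon φ.toAddMonoidHom)

theorem sep {ℓ : ℕ} (hl : ℓ.Prime) {V : Type} [AddCommGroup V] (hV : ∀ v : V, ℓ • v = 0) {x : V} (hx : x ≠ 0) :
    ∃ φ : V →+ ZMod ℓ, φ x ≠ 0 :=
  @sep2 ℓ ⟨hl⟩ V _ (AddCommGroup.zmodModule hV) x hx

theorem hk_add {p : ℕ} {τ : SL(2, ℤ)} {V W : Type} [AddCommGroup V] [AddCommGroup W] (φ : V →+ W)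
    (f : SL(2, ℤ) → V) (γ : SL(2, ℤ)) : hk τ p (fun g => φ (f g)) γ = φ (hk τ p f γ) := by
  unfold hk
  rw [map_sum]

theorem base_V {ℓ p : ℕ} {τ : SL(2, ℤ)} (h : Setup ℓ p τ) (hl : ℓ = 11 ∨ ℓ = 13 ∨ ℓ = 17 ∨ ℓ = 19)
    (hp : ¬ IsSquare (p : ZMod ℓ)) {V : Type} [AddCommGroup V] (hV : ∀ v : V, ℓ • v = 0) {f : SL(2, ℤ) → V}
    (hf : Par ℓ f) (hE : ∀ γ ∈ G1 ℓ, hk τ p (hk τ p f) γ = (4 * p) • f (τ * γ * τ⁻¹)) :
    ∀ γ ∈ G1 ℓ, f γ = 0 := by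
  intro γ hγ
  by_contra hne
  obtain ⟨φ, hφ⟩ := sep h.hl hV hne
  have h1 : ∀ g, hk τ p (fun g => φ (f g)) g = φ (hk τ p f g) := fun g => hk_add φ f g
  have hz := base_zmod h hl hp (f := fun g => φ (f g)) ⟨fun g hg k hk => by
      change φ (f (g * k)) = φ (f g) + φ (f k)
      rw [hf.hom g hg k hk, map_add], fun σ hσ => by
      obtain ⟨h2, h3⟩ := hf.par σ hσ
      exact ⟨by rw [h2, map_zero], by rw [h3, map_zero]⟩⟩ (by
    intro g hg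
    have h4 : hk τ p (fun g => φ (f g)) = fun g => φ (hk τ p f g) := funext h1
    rw [h4]
    have h5 : hk τ p (fun g => φ (hk τ p f g)) g = φ (hk τ p (hk τ p f) g) :=
      hk_add φ (hk τ p f) g
    rw [h5, hE g hg, map_nsmul]) γ hγ
  exact hφ hz

theorem base_D {ℓ p : ℕ} {τ : SL(2, ℤ)} (h : Setup ℓ p τ) (hl : ℓ = 11 ∨ ℓ = 13 ∨ ℓ = 17 ∨ ℓ = 19)
    (hp : ¬ IsSquare (p : ZMod ℓ)) (V : Type) [AddCommGroup V] [Module (R1 ℓ) V] (hV : DetMod ℓ V) :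
    Inj V (T1 h) (S1 h) (4 * p) := by
  classical
  intro u hu hcob
  have hℓV : ∀ v : V, ℓ • v = 0 := by
    intro v
    have h1 : ((ℓ : ℕ) : R1 ℓ) = 0 := by
      rw [← map_natCast (algebraMap (ZMod ℓ) (R1 ℓ)) ℓ, CharP.cast_eq_zero, map_zero]
    rw [← Nat.cast_smul_eq_nsmul (R1 ℓ), h1, zero_smul]
  have hadd : ∀ γ δ : G1 ℓ, u (γ * δ) = u γ + u δ := by
    intro γ δ
    rw [hu, d3_jj hV]
  have hdsc : ∀ γ : G1 ℓ, dsc (T1 h) (S1 h) (4 * p) u γ = 0 := by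
    intro γ
    obtain ⟨m, hm⟩ := hcob
    rw [hm γ, d3_jj hV, sub_self]
  obtain ⟨f, hf⟩ : ∃ f : SL(2, ℤ) → V, f = fun γ => if hγ : γ ∈ G1 ℓ then u ⟨γ, hγ⟩ else 0 :=
    ⟨_, rfl⟩
  have hfu : ∀ γ (hγ : γ ∈ G1 ℓ), f γ = u ⟨γ, hγ⟩ := by
    intro γ hγ
    rw [hf]
    simp only
    rw [dif_pos hγ]
  have hfh : HomOn ℓ f := by
    intro γ hγ δ hδ
    rw [hfu γ hγ, hfu δ hδ, hfu (γ * δ) (mul_mem hγ hδ), ← hadd]
    rfl
  have hE : ∀ γ ∈ G1 ℓ, hk τ p (hk τ p f) γ = (4 * p) • f (τ * γ * τ⁻¹) := by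
    intro γ hγ
    have h1 := hdsc ⟨γ, hγ⟩
    have h2 : (T1 h).op ((T1 h).op u) ⟨γ, hγ⟩ = el ℓ ⟨_, z_mem h⟩ • hk τ p (hk τ p f) γ := by
      change ∑ k : Option (Fin p), el ℓ ⟨(alpha τ p k).adjugate, adj_mem h k⟩ •
        (∑ i : Option (Fin p), el ℓ ⟨(alpha τ p i).adjugate, adj_mem h i⟩ •
          u ⟨comp (alpha τ p) i (comp (alpha τ p) k γ),
            comp_mem_G1 h i (comp_mem_G1 h k hγ)⟩) = _
      unfold hk
      rw [Finset.smul_sum]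
      apply Finset.sum_congr rfl
      intro k _
      rw [Finset.smul_sum, Finset.smul_sum]
      apply Finset.sum_congr rfl
      intro i _
      rw [d3_z h hV, hfu _ (comp_mem_G1 h i (comp_mem_G1 h k hγ))]
    have h3 : (S1 h).op u ⟨γ, hγ⟩ = el ℓ ⟨_, z_mem h⟩ • f (τ * γ * τ⁻¹) := by
      change ∑ _i : Unit, el ℓ ⟨_, z_mem h⟩ • u ⟨τ * γ * τ⁻¹, conj_mem (tau_mem h) hγ⟩ = _
      rw [Finset.sum_const, Finset.card_univ, Fintype.card_unit, one_smul,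
        hfu _ (conj_mem (tau_mem h) hγ)]
    have h4 : el ℓ ⟨_, z_mem h⟩ • (hk τ p (hk τ p f) γ - ((4 : ℤ) * p) • f (τ * γ * τ⁻¹)) = 0 := by
      rw [smul_sub, ← h2, smul_comm, ← h3]
      exact h1
    have h5 := d3_inj h hV _ h4
    rw [sub_eq_zero] at h5
    rw [h5, ← natCast_zsmul]
    push_cast
    rfl
  have hl2 : ℓ ≠ 2 := by rcases hl with h | h | h | h <;> omega
  have hpar : ∀ σ ∈ G0 ℓ, f (σ * ModularGroup.T * σ⁻¹) = 0 ∧ f (σ * lowV ℓ * σ⁻¹) = 0 := fun σ hσ =>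
    vanish h hl2 (ℓ / 2) (nonres_pow h.hl hp) hℓV hfh hE hσ
  have hz := base_V h hl hp hℓV ⟨hfh, hpar⟩ hE
  refine ⟨0, fun γ => ?_⟩
  rw [smul_zero, sub_zero]
  have := hz γ γ.2
  rw [hfu _ γ.2] at this
  exact this


theorem inj_all_D {ℓ p : ℕ} {τ : SL(2, ℤ)} (h : Setup ℓ p τ) (hl : ℓ = 11 ∨ ℓ = 13 ∨ ℓ = 17 ∨ ℓ = 19)
    (hp : ¬ IsSquare (p : ZMod ℓ)) (r : ℕ) (M : Type) [AddCommGroup M] [Module (R1 ℓ) M] [Finite M]
    (hC : CongMod ℓ r M) : Inj M (T1 h) (S1 h) (4 * p) := by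
  have key : ∀ n : ℕ, ∀ (M : Type) [AddCommGroup M] [Module (R1 ℓ) M] [Finite M], Nat.card M = n →
      CongMod ℓ r M → Inj M (T1 h) (S1 h) (4 * p) := by
    intro n
    induction n using Nat.strong_induction_on with
    | _ n ih =>
      intro M _ _ _ hn hC
      rcases subsingleton_or_nontrivial M with hM | hM
      · intro u _ _
        exact ⟨0, fun g => Subsingleton.elim _ _⟩
      · obtain ⟨V, hV0, hVD⟩ := fix h.hl r M hC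
        refine devissage (T1 h) (S1 h) (4 * p) V (base_D h hl hp V hVD) ?_
        have : Finite (M ⧸ V) := Finite.of_surjective _ (Submodule.mkQ_surjective V)
        refine ih _ (by rw [← hn]; exact d4_card M V hV0) (M ⧸ V) rfl ?_
        intro g k hgk x
        obtain ⟨y, rfl⟩ := Submodule.mkQ_surjective V x
        rw [← map_smul, ← map_smul, hC g k hgk y]
  exact key _ M rfl hC

theorem inj_mod_D {ι : Type} [Fintype ι] [DecidableEq ι] {ℓ p : ℕ} {τ : SL(2, ℤ)} (h : Setup ℓ p τ)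
    (hl : ℓ = 11 ∨ ℓ = 13 ∨ ℓ = 17 ∨ ℓ = 19) (hp : ¬ IsSquare (p : ZMod ℓ)) {ρ : Mat → Matrix ι ι ℤ}
    (hρ : IsRep ℓ ρ) :
    Inj (ι → ZMod ℓ) (KS44.TG hρ h.cop (alpha_reps τ p h.hp) (ZMod ℓ)) (KS44.SG hρ h.cop (ZMod ℓ)) (4 * p) := by
  intro u hu hd
  obtain ⟨r, hr⟩ := rep_cong hρ
  have hfin : Finite (rep hρ).asModule := by
    have : NeZero ℓ := ⟨h.hl.ne_zero⟩
    exact Finite.of_equiv (ι → ZMod ℓ) (rep hρ).asModuleEquiv.symm.toEquiv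
  exact res_inj h.hl hρ u hu
    (inj_all_D h hl hp r (rep hρ).asModule hr (rs hρ u) (rs_coc hρ u hu) (rs_dsc h hρ _ u hu hd))

end LV7
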