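import Pool.Agent.LibKS44.F3
import Pool.Agent.LibKS44.E0

/-!
# LibLV7.DDefs : parabolic homomorphisms of `Γ₁(ℓ)`, Manin symbols: definitions
-/

set_option autoImplicit false

open Matrix
open scoped MatrixGroups

namespace LV7

open KS44

/-- `f` is a homomorphism on `Γ₁(ℓ)` which vanishes on the parabolic elements -/
structure Par {V : Type} [AddCommGroup V] (ℓ : ℕ) (f : SL(2, ℤ) → V) : Prop where
  hom : HomOn ℓ f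
  par : ∀ σ ∈ G0 ℓ, f (σ * ModularGroup.T * σ⁻¹) = 0 ∧ f (σ * lowV ℓ * σ⁻¹) = 0

/-- conjugation by `diag (1, -1)` -/
def cj : SL(2, ℤ) →* SL(2, ℤ) where
  toFun g := ⟨!![(g : Mat) 0 0, -(g : Mat) 0 1; -(g : Mat) 1 0, (g : Mat) 1 1], by
    have h := Matrix.SpecialLinearGroup.det_coe g
    rw [Matrix.det_fin_two] at h
    rw [Matrix.det_fin_two_of]
    linear_combination h⟩
  map_one' := by
    apply Subtype.ext
    ext i j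
    fin_cases i <;> fin_cases j <;> simp
  map_mul' a b := by
    apply Subtype.ext
    ext i j
    fin_cases i <;> fin_cases j <;>
      simp [Matrix.SpecialLinearGroup.coe_mul, Matrix.mul_apply, Fin.sum_univ_two] <;> ring

/-- an eigenfunction of the diamond operators and of the involution -/
structure Eig (ℓ a : ℕ) (s : ZMod ℓ) (f : SL(2, ℤ) → ZMod ℓ) : Prop where
  dia : ∀ σ ∈ G0 ℓ, ∀ γ ∈ G1 ℓ, f (σ * γ * σ⁻¹) = (((σ : Mat) 1 1 : ℤ) : ZMod ℓ) ^ a * f γ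
  inv : ∀ γ ∈ G1 ℓ, f (cj γ) = s * f γ

/-- Manin symbols with values in `𝔽_ℓ`, homogeneous of degree `a`, of sign `s` -/
structure MS (ℓ a : ℕ) (s : ZMod ℓ) (ξ : ZMod ℓ → ZMod ℓ → ZMod ℓ) : Prop where
  hom : ∀ t c d, t ≠ 0 → ξ (t * c) (t * d) = t ^ a * ξ c d
  S : ∀ c d, (c ≠ 0 ∨ d ≠ 0) → ξ c d + ξ d (-c) = 0
  R : ∀ c d, (c ≠ 0 ∨ d ≠ 0) → ξ c d + ξ (c + d) (-c) + ξ d (-c - d) = 0
  sgn : ∀ c d, (c ≠ 0 ∨ d ≠ 0) → ξ c (-d) = s * ξ c d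

/-- homogeneous functions on the cusps -/
def kap (ℓ a : ℕ) (k0 k1 c d : ZMod ℓ) : ZMod ℓ := if c = 0 then d ^ a * k1 else c ^ a * k0

/-- trivial Manin symbols -/
def Triv (ℓ a : ℕ) (ξ : ZMod ℓ → ZMod ℓ → ZMod ℓ) : Prop :=
  ∃ k0 k1 : ZMod ℓ, ∀ c d, (c ≠ 0 ∨ d ≠ 0) → ξ c d = kap ℓ a k0 k1 c d - kap ℓ a k0 k1 d (-c)

/-- `ξ` is the Manin symbol of `f`: `F` is a primitive of `f` on the cusps -/
def SymOf (ℓ : ℕ) (f : SL(2, ℤ) → ZMod ℓ) (ξ : ZMod ℓ → ZMod ℓ → ZMod ℓ) : Prop :=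
  ∃ F : SL(2, ℤ) → ZMod ℓ, (∀ γ ∈ G1 ℓ, ∀ g, F (γ * g) = f γ + F g) ∧ (∀ g, F (g * ModularGroup.T) = F g) ∧
    (∀ g, F (-g) = F g) ∧
    ∀ g : SL(2, ℤ), ξ ((((g : Mat) 1 0 : ℤ)) : ZMod ℓ) ((((g : Mat) 1 1 : ℤ)) : ZMod ℓ) = F g - F (g * ModularGroup.S)

end LV7
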