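import Pool.Agent.LibLV7.F0

/-!
# LibLV7.Defs : the monoid ring of the integral matrices of determinant prime to `q`, Hecke data

`Dq q` is the monoid of the integral `2 × 2` matrices of determinant prime to `q`, `Rq q ℓ` its monoid ring over `𝔽_ℓ`,
`elq` the elements of the monoid in it, `jq : SL(2, ℤ) →* Rq q ℓ`. `Tq`, `Sq` are the Hecke data `T_p`, `S_p`.
`Lev q ℓ m M`: the elements of the monoid act on the module `M` depending only on the matrix modulo `m`.
-/

set_option autoImplicit false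

open Matrix
open scoped MatrixGroups

namespace LV7

open KS44

/-- the monoid of the integral matrices of determinant prime to `q` -/
def Dq (q : ℕ) : Submonoid Mat where
  carrier := {g | IsCoprime g.det (q : ℤ)}
  one_mem' := by
    change IsCoprime (1 : Mat).det (q : ℤ)
    rw [Matrix.det_one]
    exact isCoprime_one_left
  mul_mem' := by
    intro a b ha hb
    change IsCoprime (a * b).det (q : ℤ)
    rw [Matrix.det_mul]
    exact IsCoprime.mul_left ha hb

/-- its monoid ring over `𝔽_ℓ` -/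
abbrev Rq (q ℓ : ℕ) := MonoidAlgebra (ZMod ℓ) (Dq q)

/-- the element of the monoid ring -/
noncomputable def elq (q ℓ : ℕ) : Dq q →* Rq q ℓ := MonoidAlgebra.of (ZMod ℓ) (Dq q)

/-- `SL(2, ℤ)` is contained in the monoid -/
def inclq (q : ℕ) : SL(2, ℤ) →* Dq q where
  toFun g := ⟨(g : Mat), cop_SL q g⟩
  map_one' := rfl
  map_mul' := fun a b => by
    apply Subtype.ext
    simp

/-- the map to the monoid ring -/
noncomputable def jq (q ℓ : ℕ) : SL(2, ℤ) →* Rq q ℓ := (elq q ℓ).comp (inclq q)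

theorem adj_memq {q p : ℕ} (cop : IsCoprime (p : ℤ) (q : ℤ)) {I : Type} {α : I → Mat} (hα : IsReps p α) (i : I) :
    (α i).adjugate ∈ Dq q := by
  change IsCoprime (α i).adjugate.det (q : ℤ)
  rw [Matrix.det_adjugate, Fintype.card_fin, hα.1 i]
  simpa using cop

theorem p_memq {q p : ℕ} (cop : IsCoprime (p : ℤ) (q : ℤ)) : ((p : ℤ) • (1 : Mat)) ∈ Dq q := by
  change IsCoprime ((p : ℤ) • (1 : Mat)).det (q : ℤ)
  rw [Matrix.det_smul, Matrix.det_one, mul_one]
  exact cop.pow_left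

/-- `T_p` -/
noncomputable def Tq (ℓ : ℕ) {q p : ℕ} (cop : IsCoprime (p : ℤ) (q : ℤ)) {I : Type} [Fintype I] {α : I → Mat}
    (hα : IsReps p α) : HD (jq q ℓ) where
  I := I
  fin := inferInstance
  a i := elq q ℓ ⟨(α i).adjugate, adj_memq cop hα i⟩
  c i γ := comp α i γ
  s γ i := perm α i γ
  rel i γ := by
    change elq q ℓ _ * elq q ℓ (inclq q _) = elq q ℓ (inclq q _) * elq q ℓ _
    rw [← map_mul, ← map_mul]
    congr 1
    exact Subtype.ext (adj_rel hα i γ)
  c_mul i γ δ := comp_mul hα i γ δ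
  s_bij γ := perm_bij hα γ

/-- `S_p` -/
noncomputable def Sq (ℓ : ℕ) {q p : ℕ} (cop : IsCoprime (p : ℤ) (q : ℤ)) : HD (jq q ℓ) where
  I := Unit
  fin := inferInstance
  a _ := elq q ℓ ⟨(p : ℤ) • 1, p_memq cop⟩
  c _ γ := γ
  s _ i := i
  rel i γ := by
    change elq q ℓ _ * elq q ℓ (inclq q _) = elq q ℓ (inclq q _) * elq q ℓ _
    rw [← map_mul, ← map_mul]
    congr 1
    apply Subtype.ext
    change ((p : ℤ) • (1 : Mat)) * (γ : Mat) = (γ : Mat) * ((p : ℤ) • (1 : Mat))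
    rw [Matrix.smul_mul, Matrix.mul_smul, one_mul, mul_one]
  c_mul _ _ _ := rfl
  s_bij _ := Function.bijective_id

/-- the elements of the monoid act on `M` depending only on the matrix modulo `m` -/
def Lev (q ℓ m : ℕ) (M : Type) [AddCommGroup M] [Module (Rq q ℓ) M] : Prop :=
  ∀ g h : Dq q, (∀ i j, (m : ℤ) ∣ g.1 i j - h.1 i j) → ∀ x : M, elq q ℓ g • x = elq q ℓ h • x

/-- an integral representation of level `N ℓ ^ ∞` -/
structure RepN {ι : Type} [Fintype ι] [DecidableEq ι] (N ℓ : ℕ) (ρ : Mat → Matrix ι ι ℤ) : Prop where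
  one : ρ 1 = 1
  mul : ∀ g h : Mat, IsCoprime g.det ((N * ℓ : ℕ) : ℤ) → IsCoprime h.det ((N * ℓ : ℕ) : ℤ) → ρ (g * h) = ρ g * ρ h
  cong : ∃ r : ℕ, ∀ g h : Mat, IsCoprime g.det ((N * ℓ : ℕ) : ℤ) → IsCoprime h.det ((N * ℓ : ℕ) : ℤ) →
    (∀ i j, ((N * ℓ ^ r : ℕ) : ℤ) ∣ g i j - h i j) → ∀ a b, (ℓ : ℤ) ∣ ρ g a b - ρ h a b

theorem RepN.mrep {ι : Type} [Fintype ι] [DecidableEq ι] {N ℓ : ℕ} {ρ : Mat → Matrix ι ι ℤ} (h : RepN N ℓ ρ) :
    MRep (N * ℓ) ρ := ⟨h.one, h.mul⟩

/-- the representation of the monoid modulo `ℓ` -/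
noncomputable def repq {ι : Type} [Fintype ι] [DecidableEq ι] (ℓ : ℕ) {q : ℕ} {ρ : Mat → Matrix ι ι ℤ}
    (hρ : MRep q ρ) : Representation (ZMod ℓ) (Dq q) (ι → ZMod ℓ) where
  toFun g := Matrix.mulVecLin ((ρ g.1).map (Int.castRingHom (ZMod ℓ)))
  map_one' := by
    change Matrix.mulVecLin ((ρ 1).map (Int.castRingHom (ZMod ℓ))) = 1
    rw [hρ.one, Matrix.map_one _ (map_zero _) (map_one _)]
    exact Matrix.mulVecLin_one
  map_mul' g h := by
    change Matrix.mulVecLin ((ρ (g.1 * h.1)).map (Int.castRingHom (ZMod ℓ))) = _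
    rw [hρ.mul g.1 h.1 g.2 h.2, Matrix.map_mul]
    exact Matrix.mulVecLin_mul _ _

open Classical in
/-- the permutation representation on `GL₂(ℤ/q)`: `g` acts by multiplication by `g` -/
noncomputable def pm (q : ℕ) (g : Mat) : Matrix (GL (Fin 2) (ZMod q)) (GL (Fin 2) (ZMod q)) ℤ :=
  fun x y => if (x : Matrix (Fin 2) (Fin 2) (ZMod q)) = g.map (Int.castRingHom (ZMod q)) * y then 1 else 0

/-- the image in `GL₂(ℤ/q)` -/
noncomputable def glq (q : ℕ) : Dq q →* GL (Fin 2) (ZMod q) where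
  toFun g := Matrix.GeneralLinearGroup.mk'' (g.1.map (Int.castRingHom (ZMod q))) (by
    have h : (g.1.map (Int.castRingHom (ZMod q))).det = ((g.1.det : ℤ) : ZMod q) := by
      rw [← RingHom.mapMatrix_apply, ← RingHom.map_det]
      rfl
    rw [h]
    obtain ⟨a, b, hab⟩ := g.2
    refine IsUnit.of_mul_eq_one ((a : ℤ) : ZMod q) ?_
    have h2 : ((a * g.1.det + b * q : ℤ) : ZMod q) = 1 := by rw [hab]; simp
    rw [Int.cast_add, Int.cast_mul, Int.cast_mul, Int.cast_natCast, ZMod.natCast_self, mul_zero, add_zero,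
      mul_comm] at h2
    exact h2)
  map_one' := by
    apply Units.ext
    change (1 : Mat).map (Int.castRingHom (ZMod q)) = 1
    exact Matrix.map_one _ (map_zero _) (map_one _)
  map_mul' a b := by
    apply Units.ext
    change (a.1 * b.1).map (Int.castRingHom (ZMod q)) = a.1.map _ * b.1.map _
    exact Matrix.map_mul

end LV7
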