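import Pool.Agent.LibKS44.F0

/-!
# LibLV7.F0 : integral representations of the monoid of the matrices of determinant prime to `q`
(copy of LibKS44.F0 with a general `q`)
-/

set_option autoImplicit false

open Matrix
open scoped MatrixGroups

namespace LV7

open KS44

variable {ι : Type} [Fintype ι] [DecidableEq ι]

/-- `ρ` is a representation, by integral matrices, of the monoid of the integral `2 × 2` matrices of determinant
prime to `q` -/
structure MRep (q : ℕ) (ρ : Mat → Matrix ι ι ℤ) : Prop where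
  one : ρ 1 = 1
  mul : ∀ g h : Mat, IsCoprime g.det (q : ℤ) → IsCoprime h.det (q : ℤ) → ρ (g * h) = ρ g * ρ h

theorem act_one {q : ℕ} {ρ : Mat → Matrix ι ι ℤ} (hρ : MRep q ρ) (A : Type) [AddCommGroup A] :
    act ρ A 1 = 1 := by
  ext v i
  simp [act, hρ.one, Matrix.one_apply]

theorem act_mul {q : ℕ} {ρ : Mat → Matrix ι ι ℤ} (hρ : MRep q ρ) (A : Type) [AddCommGroup A] {g h : Mat}
    (hg : IsCoprime g.det (q : ℤ)) (hh : IsCoprime h.det (q : ℤ)) : act ρ A (g * h) = act ρ A g * act ρ A h := by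
  refine LinearMap.ext fun v => funext fun i => ?_
  change ∑ j, ρ (g * h) i j • v j = ∑ k, ρ g i k • ∑ j, ρ h k j • v j
  simp only [hρ.mul g h hg hh, Matrix.mul_apply, Finset.sum_smul, Finset.smul_sum, smul_smul]
  rw [Finset.sum_comm]

theorem cop_SL (q : ℕ) (g : SL(2, ℤ)) : IsCoprime (g : Mat).det (q : ℤ) := by
  rw [Matrix.SpecialLinearGroup.det_coe]
  exact isCoprime_one_left

/-- `SL₂(ℤ)` acts -/
def jG {q : ℕ} {ρ : Mat → Matrix ι ι ℤ} (hρ : MRep q ρ) (A : Type) [AddCommGroup A] :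
    SL(2, ℤ) →* Module.End ℤ (ι → A) where
  toFun g := act ρ A (g : Mat)
  map_one' := by
    rw [Matrix.SpecialLinearGroup.coe_one]
    exact act_one hρ A
  map_mul' g h := by
    rw [Matrix.SpecialLinearGroup.coe_mul]
    exact act_mul hρ A (cop_SL q g) (cop_SL q h)

/-- `(T_p u)(γ) = ∑ i, ρ(adj α_i) u(c_i(γ))` -/
noncomputable def TG {q p : ℕ} {ρ : Mat → Matrix ι ι ℤ} (hρ : MRep q ρ) (cop : IsCoprime (p : ℤ) (q : ℤ))
    {I : Type} [Fintype I] {α : I → Mat} (hα : IsReps p α) (A : Type) [AddCommGroup A] : HD (jG hρ A) where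
  I := I
  fin := inferInstance
  a i := act ρ A (α i).adjugate
  c i γ := comp α i γ
  s γ i := perm α i γ
  rel i γ := by
    have h1 : ∀ i, IsCoprime (α i).adjugate.det (q : ℤ) := by
      intro i
      rw [Matrix.det_adjugate, Fintype.card_fin, hα.1 i]
      simpa using cop
    change act ρ A _ * act ρ A _ = act ρ A _ * act ρ A _
    rw [← act_mul hρ A (h1 i) (cop_SL q _), ← act_mul hρ A (cop_SL q _) (h1 _), adj_rel hα i γ]
  c_mul i γ δ := comp_mul hα i γ δ
  s_bij γ := perm_bij hα γ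

/-- `(S_p u)(γ) = ρ(p) u(γ)` -/
noncomputable def SG {q p : ℕ} {ρ : Mat → Matrix ι ι ℤ} (hρ : MRep q ρ) (cop : IsCoprime (p : ℤ) (q : ℤ))
    (A : Type) [AddCommGroup A] : HD (jG hρ A) where
  I := Unit
  fin := inferInstance
  a _ := act ρ A ((p : ℤ) • 1)
  c _ γ := γ
  s _ i := i
  rel i γ := by
    have h1 : IsCoprime ((p : ℤ) • (1 : Mat)).det (q : ℤ) := by
      rw [Matrix.det_smul, Matrix.det_one, mul_one]
      exact cop.pow_left
    change act ρ A _ * act ρ A _ = act ρ A _ * act ρ A _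
    rw [← act_mul hρ A h1 (cop_SL q _), ← act_mul hρ A (cop_SL q _) h1, Matrix.smul_mul, Matrix.mul_smul,
      one_mul, mul_one]
  c_mul _ _ _ := rfl
  s_bij _ := Function.bijective_id

end LV7
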