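import Pool.Agent.LibLV7.F0
import Pool.Agent.LibKS44.G0

/-!
# LibLV7.G0 (copy of LibKS44.G0) cocycles of `SL₂(ℤ)`; change of coefficients

(a) `coc_ext`: a cocycle which vanishes at `S` and `T` is zero: `{g : u g = 0}` is a subgroup (`u (g h) = u g + g u h`,
`u g⁻¹ = - g⁻¹ u g`), and `S`, `T` generate (`SpecialLinearGroup.SL2Z_generators : closure {S, T} = ⊤`, namespace
`_root_`, file `Mathlib.LinearAlgebra.Matrix.FixedDetMatrices`).
(b) For an additive map `φ : A →+ B` the action commutes with `φ` applied coefficientwise (the matrices `ρ g` are integral: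
`map_sum`, `map_zsmul`). Hence cocycles, coboundaries and `dsc` are compatible with `φ`.
(c) `coc_range`: if `u` is a cocycle with values in `A ^ ι`, `B` an additive subgroup of `A` and all coordinates of `u S`, `u T` are in
`B`, then all coordinates of all `u g` are in `B` (again the set of the `g` with this property is a subgroup).
-/

set_option autoImplicit false

open Matrix
open scoped MatrixGroups

namespace LV7

open KS44

variable {ι : Type} [Fintype ι] [DecidableEq ι] {q p : ℕ} {ρ : Mat → Matrix ι ι ℤ} {A B : Type} [AddCommGroup A]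
  [AddCommGroup B]

theorem coc_map (hρ : MRep q ρ) (φ : A →+ B) {u : SL(2, ℤ) → ι → A} (hu : Coc (jG hρ A) (ι → A) u) :
    Coc (jG hρ B) (ι → B) (fun g i => φ (u g i)) := by
  intro g h
  funext i
  change φ (u (g * h) i) = φ (u g i) + act ρ B (g : Mat) (fun i => φ (u h i)) i
  rw [act_map, hu g h]
  change φ (u g i + act ρ A (g : Mat) (u h) i) = _
  rw [map_add]

theorem coc_of_map (hρ : MRep q ρ) (φ : A →+ B) (hφ : Function.Injective φ) {u : SL(2, ℤ) → ι → A}
    (hu : Coc (jG hρ B) (ι → B) (fun g i => φ (u g i))) : Coc (jG hρ A) (ι → A) u := by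
  intro g h
  funext i
  apply hφ
  have h1 : φ (u (g * h) i) = φ (u g i) + act ρ B (g : Mat) (fun i => φ (u h i)) i :=
    congrFun (hu g h) i
  rw [act_map] at h1
  change _ = φ (u g i + act ρ A (g : Mat) (u h) i)
  rw [map_add]
  exact h1

theorem g0_opT (hρ : MRep q ρ) (cop : IsCoprime (p : ℤ) (q : ℤ)) {I : Type} [Fintype I] {α : I → Mat}
    (hα : IsReps p α) (φ : A →+ B) (u : SL(2, ℤ) → ι → A) :
    (TG hρ cop hα B).op (fun g i => φ (u g i)) =
      fun g i => φ ((TG hρ cop hα A).op u g i) := by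
  funext g i
  change (∑ k : I, act ρ B (α k).adjugate (fun i => φ (u (comp α k g) i))) i =
    φ ((∑ k : I, act ρ A (α k).adjugate (u (comp α k g))) i)
  rw [Finset.sum_apply, Finset.sum_apply, map_sum]
  exact Finset.sum_congr rfl fun k _ => by rw [act_map]

theorem g0_opS (hρ : MRep q ρ) (cop : IsCoprime (p : ℤ) (q : ℤ)) (φ : A →+ B)
    (u : SL(2, ℤ) → ι → A) :
    (SG hρ cop B).op (fun g i => φ (u g i)) =
      fun g i => φ ((SG hρ cop A).op u g i) := by
  funext g i
  change (∑ _k : Unit, act ρ B ((p : ℤ) • 1) (fun i => φ (u g i))) i =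
    φ ((∑ _k : Unit, act ρ A ((p : ℤ) • 1) (u g)) i)
  rw [Finset.sum_apply, Finset.sum_apply, map_sum]
  exact Finset.sum_congr rfl fun k _ => by rw [act_map]

theorem dsc_coeff (hρ : MRep q ρ) (cop : IsCoprime (p : ℤ) (q : ℤ)) {I : Type} [Fintype I] {α : I → Mat}
    (hα : IsReps p α) (n : ℤ) (φ : A →+ B) (u : SL(2, ℤ) → ι → A) :
    dsc (TG hρ cop hα B) (SG hρ cop B) n (fun g i => φ (u g i)) =
      fun g i => φ (dsc (TG hρ cop hα A) (SG hρ cop A) n u g i) := by
  funext g i
  unfold dsc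
  rw [g0_opT, g0_opT, g0_opS]
  change φ _ - n • φ _ = φ (_ - n • _)
  rw [map_sub, map_zsmul]

theorem coc_range (hρ : MRep q ρ) (C : AddSubgroup A) {u : SL(2, ℤ) → ι → A} (hu : Coc (jG hρ A) (ι → A) u)
    (hS : ∀ i, u ModularGroup.S i ∈ C) (hT : ∀ i, u ModularGroup.T i ∈ C) : ∀ g i, u g i ∈ C := by
  have hact : ∀ (g : Mat) (v : ι → A), (∀ i, v i ∈ C) → ∀ i, act ρ A g v i ∈ C := by
    intro g v hv i
    change ∑ j, ρ g i j • v j ∈ C
    exact sum_mem fun j _ => zsmul_mem (hv j) _
  refine g0_gen (fun g => ∀ i, u g i ∈ C) hS hT ?_ ?_ ?_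
  · intro i
    rw [g0_one hu]
    exact C.zero_mem
  · intro g h hg hh i
    rw [hu g h]
    change u g i + act ρ A (g : Mat) (u h) i ∈ C
    exact C.add_mem (hg i) (hact _ _ hh i)
  · intro g hg i
    rw [g0_inv hu g]
    change - (act ρ A ((g⁻¹ : SL(2, ℤ)) : Mat) (u g) i) ∈ C
    exact C.neg_mem (hact _ _ hg i)

end LV7
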