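import Pool.Agent.LibLV7.G0
import Pool.Agent.LibKS44.G1
import Pool.Agent.LibKS44.G2

/-!
# [KS G2] from `ℤ/ℓ` to `ℤ`

Let `D = dsc (TG) (SG) n` for the coefficients `ℤ` (and `ZMod ℓ`). Suppose `D` is injective on `H¹(SL₂(ℤ), (ℤ/ℓ)^ι)` (`hmod`). Let `u` be a
cocycle with values in `ℤ ^ ι` such that `N • D u` is a coboundary for some `N ≠ 0`. Then `N' • u` is a coboundary for some `N' ≠ 0`.

PROOF. Apply `alg_level` (row G1) with `Z` = the group of the cocycles `SL(2, ℤ) → ι → ℤ` (an `AddSubgroup` or `Submodule ℤ` of the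
functions), `B` = the coboundaries, `D = dsc` (additive: `dsc_sub` or directly; maps `Z` to `Z`, `dsc_coc`, and `B` to `B`, `dsc_cob`).
`Z` is finitely generated: the evaluation at `S` and `T` is an injective linear map `Z → (ι → ℤ) × (ι → ℤ)` (`coc_ext`), a noetherian module
(`Module.Finite.of_injective`). Hypothesis `h1` of `alg_level`: if `u ∈ Z`, `D u = ∂ m + ℓ z`, reduce modulo `ℓ` (`dsc_coeff`, `coc_map`, `act_map` for
`Int.castAddHom (ZMod ℓ)`): `D ū` is a coboundary, so `ū = ∂ m̄` by `hmod`; lift `m̄` to `m' ∈ ℤ ^ ι` (`ZMod.intCast_surjective`): `u - ∂ m'` has values in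
`ℓ ℤ ^ ι` (`ZMod.intCast_zmod_eq_zero_iff_dvd` / `ZMod.intCast_eq_intCast_iff_dvd_sub`), `u - ∂ m' = ℓ v`, and `v` is a cocycle (`ℓ •` is injective on `ℤ ^ ι`; `cob_coc`). QED.
-/

set_option autoImplicit false

open Matrix
open scoped MatrixGroups

namespace LV7

open KS44

variable {ι : Type} [Fintype ι] [DecidableEq ι] {ℓ q p : ℕ} {ρ : Mat → Matrix ι ι ℤ}

theorem int_level (hl : ℓ.Prime) (hρ : MRep q ρ) (cop : IsCoprime (p : ℤ) (q : ℤ)) {I : Type} [Fintype I]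
    {α : I → Mat} (hα : IsReps p α) (n : ℤ)
    (hmod : Inj (ι → ZMod ℓ) (TG hρ cop hα (ZMod ℓ)) (SG hρ cop (ZMod ℓ)) n)
    (u : SL(2, ℤ) → ι → ℤ) (hu : Coc (jG hρ ℤ) (ι → ℤ) u)
    (hd : ∃ N : ℤ, N ≠ 0 ∧ Cob (jG hρ ℤ) (ι → ℤ) (fun g => N • dsc (TG hρ cop hα ℤ) (SG hρ cop ℤ) n u g)) :
    ∃ N : ℤ, N ≠ 0 ∧ Cob (jG hρ ℤ) (ι → ℤ) (fun g => N • u g) := by
  let Z : Submodule ℤ (SL(2, ℤ) → ι → ℤ) :=
    { carrier := {v | Coc (jG hρ ℤ) (ι → ℤ) v}
      add_mem' := by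
        intro a b ha hb g h
        change a (g * h) + b (g * h) = (a g + b g) + jG hρ ℤ g • (a h + b h)
        rw [ha g h, hb g h, smul_add]
        abel
      zero_mem' := by
        intro g h
        change (0 : ι → ℤ) = 0 + jG hρ ℤ g • (0 : ι → ℤ)
        rw [smul_zero, add_zero]
      smul_mem' := by
        intro c a ha g h
        change c • a (g * h) = c • a g + jG hρ ℤ g • (c • a h)
        rw [ha g h, smul_add, smul_comm (jG hρ ℤ g) c (a h)] }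
  have hfin : Module.Finite ℤ Z := by
    let f : Z →ₗ[ℤ] (ι → ℤ) × (ι → ℤ) :=
      { toFun := fun z => (z.1 ModularGroup.S, z.1 ModularGroup.T)
        map_add' := fun _ _ => rfl
        map_smul' := fun _ _ => rfl }
    refine Module.Finite.of_injective f ?_
    intro a b hab
    have h1 : a.1 ModularGroup.S = b.1 ModularGroup.S := congrArg Prod.fst hab
    have h2 : a.1 ModularGroup.T = b.1 ModularGroup.T := congrArg Prod.snd hab
    have h3 : Coc (jG hρ ℤ) (ι → ℤ) (a - b : Z).1 := (a - b : Z).2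
    have h4 : (a - b : Z).1 = 0 := by
      apply coc_ext h3
      · change a.1 ModularGroup.S - b.1 ModularGroup.S = 0
        rw [h1, sub_self]
      · change a.1 ModularGroup.T - b.1 ModularGroup.T = 0
        rw [h2, sub_self]
    apply Subtype.ext
    have h5 : a.1 - b.1 = 0 := h4
    exact sub_eq_zero.mp h5
  let B : AddSubgroup Z :=
    { carrier := {v | Cob (jG hρ ℤ) (ι → ℤ) v.1}
      add_mem' := by
        rintro a b ⟨m, hm⟩ ⟨m', hm'⟩
        refine ⟨m + m', fun g => ?_⟩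
        change a.1 g + b.1 g = jG hρ ℤ g • (m + m') - (m + m')
        rw [hm g, hm' g, smul_add]
        abel
      zero_mem' := ⟨0, fun g => by
        change (0 : ι → ℤ) = jG hρ ℤ g • (0 : ι → ℤ) - 0
        rw [smul_zero, sub_zero]⟩
      neg_mem' := by
        rintro a ⟨m, hm⟩
        refine ⟨-m, fun g => ?_⟩
        change -(a.1 g) = jG hρ ℤ g • (-m) - -m
        rw [hm g, smul_neg]
        abel }
  let D : Z →+ Z := AddMonoidHom.ofMapSub
    (fun z => (⟨dsc (TG hρ cop hα ℤ) (SG hρ cop ℤ) n z.1, dsc_coc _ _ n z.1 z.2⟩ : Z)) (by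
      intro x y
      apply Subtype.ext
      exact dsc_sub (TG hρ cop hα ℤ) (SG hρ cop ℤ) n x.1 y.1)
  have hDval : ∀ z : Z, (D z).1 = dsc (TG hρ cop hα ℤ) (SG hρ cop ℤ) n z.1 := fun _ => rfl
  have hD : ∀ b ∈ B, D b ∈ B := by
    rintro b ⟨m, hm⟩
    refine ⟨dsc0 (TG hρ cop hα ℤ) (SG hρ cop ℤ) n m, fun g => ?_⟩
    have hb : b.1 = fun g => jG hρ ℤ g • m - m := funext hm
    rw [hDval, hb, dsc_cob]
  have h1 : ∀ u : Z, (∃ b ∈ B, ∃ z, D u = b + ℓ • z) → ∃ b ∈ B, ∃ z, u = b + ℓ • z := by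
    rintro w ⟨b, ⟨m, hm⟩, z, hz⟩
    let φ : ℤ →+ ZMod ℓ := Int.castAddHom (ZMod ℓ)
    have hw : Coc (jG hρ (ZMod ℓ)) (ι → ZMod ℓ) (fun g i => φ (w.1 g i)) := coc_map hρ φ w.2
    have h2 := dsc_coeff hρ cop hα n φ w.1
    have hc : Cob (jG hρ (ZMod ℓ)) (ι → ZMod ℓ)
        (dsc (TG hρ cop hα (ZMod ℓ)) (SG hρ cop (ZMod ℓ)) n (fun g i => φ (w.1 g i))) := by
      refine ⟨fun i => φ (m i), fun g => ?_⟩
      rw [h2]
      funext i
      have h3 : dsc (TG hρ cop hα ℤ) (SG hρ cop ℤ) n w.1 g i = b.1 g i + ℓ • z.1 g i := by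
        have h4 : (D w).1 g i = (b + ℓ • z : Z).1 g i := by rw [hz]
        exact h4
      have h5 : b.1 g i = act ρ ℤ (g : Mat) m i - m i := congrFun (hm g) i
      have h6 : act ρ (ZMod ℓ) (g : Mat) (fun i => φ (m i)) i = φ (act ρ ℤ (g : Mat) m i) :=
        congrFun (act_map (ρ := ρ) φ (g : Mat) m) i
      change φ (dsc (TG hρ cop hα ℤ) (SG hρ cop ℤ) n w.1 g i)
        = act ρ (ZMod ℓ) (g : Mat) (fun i => φ (m i)) i - φ (m i)
      rw [h3, map_add, g2_cast_nsmul, add_zero, h5, h6, map_sub]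
    obtain ⟨mb, hmb⟩ := hmod _ hw hc
    have hsurj : ∀ i, ∃ a : ℤ, φ a = mb i := fun i => ZMod.intCast_surjective (mb i)
    choose m2 hm2 using hsurj
    have hdvd : ∀ g i, ∃ a : ℤ, w.1 g i - (act ρ ℤ (g : Mat) m2 i - m2 i) = ℓ * a := by
      intro g i
      have h7 : φ (w.1 g i) = act ρ (ZMod ℓ) (g : Mat) mb i - mb i := congrFun (hmb g) i
      have h8 : mb = fun i => φ (m2 i) := funext fun i => (hm2 i).symm
      have h9 : act ρ (ZMod ℓ) (g : Mat) (fun i => φ (m2 i)) i = φ (act ρ ℤ (g : Mat) m2 i) :=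
        congrFun (act_map (ρ := ρ) φ (g : Mat) m2) i
      have h10 : φ (w.1 g i - (act ρ ℤ (g : Mat) m2 i - m2 i)) = 0 := by
        rw [map_sub, h7, h8, h9, map_sub, sub_self]
      have h11 : ((w.1 g i - (act ρ ℤ (g : Mat) m2 i - m2 i) : ℤ) : ZMod ℓ) = 0 := h10
      exact (ZMod.intCast_zmod_eq_zero_iff_dvd _ ℓ).mp h11
    choose v hv using hdvd
    have hl0 : (ℓ : ℤ) ≠ 0 := by exact_mod_cast hl.ne_zero
    have hcob : Coc (jG hρ ℤ) (ι → ℤ) (fun g => jG hρ ℤ g • m2 - m2) := cob_coc m2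
    have hvl : ∀ g, (ℓ : ℤ) • v g = w.1 g - (jG hρ ℤ g • m2 - m2) := by
      intro g
      funext i
      exact (hv g i).symm
    have hvc : Coc (jG hρ ℤ) (ι → ℤ) v := by
      intro g h
      have h12 : (ℓ : ℤ) • v (g * h) = (ℓ : ℤ) • (v g + jG hρ ℤ g • v h) := by
        have h14 : jG hρ ℤ (g * h) • m2 - m2
            = (jG hρ ℤ g • m2 - m2) + jG hρ ℤ g • (jG hρ ℤ h • m2 - m2) := hcob g h
        rw [smul_add, smul_comm (ℓ : ℤ) (jG hρ ℤ g) (v h), hvl, hvl, hvl, w.2 g h, h14,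
          smul_sub (jG hρ ℤ g) (w.1 h)]
        abel
      exact smul_right_injective _ hl0 h12
    refine ⟨⟨fun g => jG hρ ℤ g • m2 - m2, hcob⟩, ⟨m2, fun g => rfl⟩, ⟨v, hvc⟩, ?_⟩
    apply Subtype.ext
    funext g
    change w.1 g = (jG hρ ℤ g • m2 - m2) + ℓ • v g
    have h13 : ℓ • v g = (ℓ : ℤ) • v g := (natCast_zsmul (v g) ℓ).symm
    rw [h13, hvl g]
    abel
  obtain ⟨N, hN, m, hm⟩ := hd
  obtain ⟨N', hN', m', hm'⟩ := alg_level hl Z B D hD h1 ⟨u, hu⟩ ⟨N, hN, m, hm⟩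
  exact ⟨N', hN', m', hm'⟩

end LV7
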