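import Pool.Agent.LibLV7.G0
import Pool.Agent.LibKS44.H2

/-!
# [KS H2] injectivity passes to subquotients

`A` a `K`-subspace of the functions `SL(2, ℤ) → ι → K` consisting of cocycles, stable under `T_p` and `S_p`, `π : A → H` a surjective
`K`-linear map which kills the coboundaries in `A` and intertwines `T_p`, `S_p` with `T`, `S`. If `D = T_p² - 4 p S_p` is injective on
`H¹` (`hD`), then `T² - 4 p S` is injective on `H`.

PROOF. `A` is finite-dimensional: evaluation at `S`, `T` is an injective `K`-linear map `A → (ι → K)²` (`coc_ext`). `D` is a `K`-linear endomorphism of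
`A` (`act ρ K g` is `K`-linear: `act_map` for multiplication by a scalar). Let `B ≤ A` be the coboundaries in `A` (a `K`-subspace, mapped to itself by `D`, `dsc_cob`). `D` induces an injective endomorphism of
the finite-dimensional space `A / B` (`hD`), hence a surjective one (`LinearMap.injective_iff_surjective`). So every `h ∈ H` is
`π u`, `u = D v + b`, `b ∈ B`, `h = π (D v) = (T² - 4 p S)(π v)`: `T² - 4 p S` is surjective on `H`, hence injective. QED.
-/

set_option autoImplicit false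

open Matrix
open scoped MatrixGroups

namespace LV7

open KS44

variable {ι : Type} [Fintype ι] [DecidableEq ι] {q p : ℕ} {ρ : Mat → Matrix ι ι ℤ}

/-- the Hecke operator as a `K`-linear map -/
noncomputable def h2_lin {hρ : MRep q ρ} {K : Type} [Field K] (T : HD (jG hρ K))
    (hT : ∀ (i : T.I) (c : K) (v : ι → K), T.a i • (c • v) = c • (T.a i • v)) :
    (SL(2, ℤ) → ι → K) →ₗ[K] (SL(2, ℤ) → ι → K) where
  toFun u := T.op u
  map_add' u v := by
    funext γ
    simp only [HD.op, Pi.add_apply, smul_add, Finset.sum_add_distrib]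
  map_smul' c u := by
    funext γ
    simp only [HD.op, Pi.smul_apply, hT, Finset.smul_sum, RingHom.id_apply]

theorem subquotient (hρ : MRep q ρ) (cop : IsCoprime (p : ℤ) (q : ℤ)) {I : Type} [Fintype I] {α : I → Mat}
    (hα : IsReps p α) (K : Type) [Field K] [CharZero K]
    (hD : Inj (ι → K) (TG hρ cop hα K) (SG hρ cop K) (4 * p))
    (H : Type) [AddCommGroup H] [Module K H] [FiniteDimensional K H] (T S : Module.End K H)
    (A : Submodule K (SL(2, ℤ) → ι → K)) (π : A →ₗ[K] H) (hA : ∀ u ∈ A, Coc (jG hρ K) (ι → K) u)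
    (hπ : Function.Surjective π) (hB : ∀ u (hu : u ∈ A), Cob (jG hρ K) (ι → K) u → π ⟨u, hu⟩ = 0)
    (hTA : ∀ u ∈ A, (TG hρ cop hα K).op u ∈ A) (hSA : ∀ u ∈ A, (SG hρ cop K).op u ∈ A)
    (hT : ∀ u (hu : u ∈ A), π ⟨_, hTA u hu⟩ = T (π ⟨u, hu⟩))
    (hS : ∀ u (hu : u ∈ A), π ⟨_, hSA u hu⟩ = S (π ⟨u, hu⟩)) :
    Function.Injective (T * T - (4 * (p : K)) • S : Module.End K H) := by
  classical
  set TT := TG hρ cop hα K with hTT
  set SS := SG hρ cop K with hSS
  have hj : ∀ (g : SL(2, ℤ)) (c : K) (v : ι → K), jG hρ K g • (c • v) = c • (jG hρ K g • v) :=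
    fun g c v => h2_act_smul (ρ := ρ) (g : Mat) c v
  let TL : (SL(2, ℤ) → ι → K) →ₗ[K] (SL(2, ℤ) → ι → K) :=
    h2_lin TT fun i c v => h2_act_smul (ρ := ρ) (α i).adjugate c v
  let SL' : (SL(2, ℤ) → ι → K) →ₗ[K] (SL(2, ℤ) → ι → K) :=
    h2_lin SS fun i c v => h2_act_smul (ρ := ρ) ((p : ℤ) • (1 : Mat)) c v
  let DL : (SL(2, ℤ) → ι → K) →ₗ[K] (SL(2, ℤ) → ι → K) := TL ∘ₗ TL - (4 * (p : K)) • SL'
  have hDL : ∀ u, DL u = dsc TT SS (4 * p) u := by
    intro u
    funext γ
    change TT.op (TT.op u) γ - (4 * (p : K)) • SS.op u γ = TT.op (TT.op u) γ - (4 * (p : ℤ)) • SS.op u γ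
    rw [← Int.cast_smul_eq_zsmul K]
    push_cast
    rfl
  have hDA : ∀ u ∈ A, DL u ∈ A := by
    intro u hu
    exact A.sub_mem (hTA _ (hTA u hu)) (A.smul_mem _ (hSA u hu))
  have hfin : FiniteDimensional K A := by
    let ev : A →ₗ[K] (ι → K) × (ι → K) :=
      { toFun := fun u => (u.1 ModularGroup.S, u.1 ModularGroup.T)
        map_add' := fun u v => rfl
        map_smul' := fun c u => rfl }
    refine FiniteDimensional.of_injective ev ?_
    rw [← LinearMap.ker_eq_bot, LinearMap.ker_eq_bot']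
    rintro ⟨u, hu⟩ h0
    have h1 : u ModularGroup.S = 0 := congrArg Prod.fst h0
    have h2 : u ModularGroup.T = 0 := congrArg Prod.snd h0
    exact Subtype.ext (coc_ext (hA u hu) h1 h2)
  let B : Submodule K A :=
    { carrier := {u | Cob (jG hρ K) (ι → K) u.1}
      zero_mem' := ⟨0, fun g => by simp⟩
      add_mem' := by
        rintro u v ⟨m, hm⟩ ⟨n, hn⟩
        refine ⟨m + n, fun g => ?_⟩
        change u.1 g + v.1 g = _
        rw [hm, hn, smul_add]
        abel
      smul_mem' := by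
        rintro c u ⟨m, hm⟩
        refine ⟨c • m, fun g => ?_⟩
        change c • u.1 g = _
        rw [hm, hj, smul_sub] }
  let DA : A →ₗ[K] A := DL.restrict hDA
  have hDAB : B ≤ B.comap DA := by
    rintro u ⟨m, hm⟩
    change Cob (jG hρ K) (ι → K) (DL u.1)
    rw [hDL]
    have h1 : u.1 = fun g => jG hρ K g • m - m := funext hm
    rw [h1, dsc_cob]
    exact ⟨_, fun g => rfl⟩
  let DQ : (A ⧸ B) →ₗ[K] (A ⧸ B) := B.mapQ B DA hDAB
  have hinj : Function.Injective DQ := by
    rw [← LinearMap.ker_eq_bot, LinearMap.ker_eq_bot']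
    intro x hx
    obtain ⟨u, rfl⟩ := Submodule.mkQ_surjective B x
    have h1 : B.mkQ (DA u) = 0 := hx
    rw [Submodule.mkQ_apply, Submodule.Quotient.mk_eq_zero] at h1
    rw [Submodule.mkQ_apply, Submodule.Quotient.mk_eq_zero]
    have h2 : Cob (jG hρ K) (ι → K) (DL u.1) := h1
    rw [hDL] at h2
    exact hD u.1 (hA u.1 u.2) h2
  have hsurj : Function.Surjective DQ := LinearMap.injective_iff_surjective.mp hinj
  refine LinearMap.injective_iff_surjective.mpr fun h => ?_
  obtain ⟨u, hu⟩ := hπ h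
  obtain ⟨y, hy⟩ := hsurj (B.mkQ u)
  obtain ⟨v, rfl⟩ := Submodule.mkQ_surjective B y
  have h1 : B.mkQ (DA v) = B.mkQ u := hy
  rw [Submodule.mkQ_apply, Submodule.mkQ_apply, Submodule.Quotient.eq] at h1
  have h2 : π (DA v - u) = 0 := hB _ (DA v - u).2 h1
  have h3 : π (DA v) = (T * T - (4 * (p : K)) • S : Module.End K H) (π v) := by
    have h4 : DA v = (⟨_, hTA _ (hTA v.1 v.2)⟩ : A) - (4 * (p : K)) • (⟨_, hSA v.1 v.2⟩ : A) := rfl
    have e1 : π (⟨_, hTA _ (hTA v.1 v.2)⟩ : A) = T (π (⟨_, hTA v.1 v.2⟩ : A)) :=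
      hT _ (hTA v.1 v.2)
    have e2 : π (⟨_, hTA v.1 v.2⟩ : A) = T (π v) := hT v.1 v.2
    have e3 : π (⟨_, hSA v.1 v.2⟩ : A) = S (π v) := hS v.1 v.2
    rw [h4, map_sub, map_smul, e1, e2, e3]
    rfl
  refine ⟨π v, ?_⟩
  rw [← h3, ← hu]
  rw [map_sub] at h2
  exact sub_eq_zero.mp h2

end LV7
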